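import Pool.Agent.DBC.Targets

/-!
DBC, SAD: the saddle point dominates.
-/

set_option autoImplicit false

namespace Pool.Agent.DBC

open Complex MeasureTheory Set Filter Topology
open Pool.Agent.DBN

namespace SAD_

/-- Splitting the integral: the part near the saddle and the rest. -/
lemma split {F : ℝ → ℂ} {G : ℝ → ℝ} {I : Set ℝ} {P : ℂ} {a b : ℝ} (hI : MeasurableSet I)
    (hI0 : I ⊆ Ioi 0) (hF : Integrable F) (hG : IntegrableOn G (Ioi (0 : ℝ) \ I))
    (hFG : ∀ u : ℝ, 0 < u → ‖F u‖ ≤ G u) (h1 : ‖(∫ u in I, F u) - P‖ ≤ a)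
    (h2 : ∫ u in Ioi (0 : ℝ) \ I, G u ≤ b) : ‖(∫ u in Ioi (0 : ℝ), F u) - P‖ ≤ a + b := by
  have e : ∫ u in Ioi (0 : ℝ), F u = (∫ u in I, F u) + ∫ u in Ioi (0 : ℝ) \ I, F u := by
    rw [← integral_inter_add_sdiff hI hF.integrableOn, inter_eq_right.2 hI0]
  rw [e, add_sub_right_comm]
  refine (norm_add_le _ _).trans (add_le_add h1 (le_trans ?_ h2))
  refine norm_integral_le_of_norm_le hG ?_
  refine (ae_restrict_iff' (measurableSet_Ioi.diff hI)).2 (Eventually.of_forall fun u hu => ?_)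
  exact hFG u hu.1

/-- A constant is absorbed by a negative power. -/
lemma absorb (C g ε : ℝ) (hg : 0 < g) (hε : 0 < ε) :
    ∃ T₀ : ℝ, 2 ≤ T₀ ∧ ∀ T : ℝ, T₀ ≤ T → C * T ^ (-g) ≤ ε := by
  have h := (tendsto_rpow_neg_atTop hg).const_mul C
  rw [mul_zero] at h
  obtain ⟨T₁, h1⟩ := ((h.eventually (eventually_le_nhds hε))).exists_forall_of_atTop
  exact ⟨max T₁ 2, le_max_right _ _, fun T hT => h1 T ((le_max_left _ _).trans hT)⟩

end SAD_

open SAD_

theorem p_SAD (h1 : T_IGR) (h2 : T_OFA) (h3 : T_NEA) : T_SAD := by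
  intro l c₁ c₂ K hy
  obtain ⟨r, δ₁, hr, hr4, hδ₁, hN⟩ := h3 c₁ c₂ K hy.c2 hy.cc hy.K0
  obtain ⟨δ₂, g, C, hδ₂, hg, hC, T₂, hT₂, hO⟩ := h2 l c₁ c₂ K r hy hr hr4
  refine ⟨min δ₁ δ₂, lt_min hδ₁ hδ₂, fun ε hε => ?_⟩
  obtain ⟨T₁, hT₁, hN1⟩ := hN (min (ε / 2) (g / 2)) (lt_min (by linarith) (by linarith))
  obtain ⟨T₃, hT₃, hA⟩ := absorb C (g / 2) (ε / 2) (by linarith) (by linarith)
  refine ⟨max T₁ (max T₂ T₃), hT₁.trans (le_max_left _ _), ?_⟩
  intro t T x τ hT hc1 hc2 hx1 hx2 hτ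
  have hTa : T₁ ≤ T := (le_max_left _ _).trans hT
  have hTb : T₂ ≤ T := ((le_max_left _ _).trans (le_max_right _ _)).trans hT
  have hTc : T₃ ≤ T := ((le_max_right _ _).trans (le_max_right _ _)).trans hT
  have hT2 : 2 ≤ T := hT₁.trans hTa
  have hTpos : 0 < T := by linarith
  obtain ⟨n1, n2, n3⟩ := hN1 t T x τ hTa hc1 hc2
    (le_trans (neg_le_neg (min_le_left _ _)) hx1) hx2 hτ
  obtain ⟨o1, o2⟩ := hO t T x τ hTb hc1 hc2
    (le_trans (neg_le_neg (min_le_right _ _)) hx1) hx2 hτ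
  have hlog : 0 < Real.log T := Real.log_pos (by linarith)
  have ht : 0 < t := by
    by_contra hn
    have h0 : t * Real.log T ≤ 0 := mul_nonpos_of_nonpos_of_nonneg (not_lt.1 hn) hlog.le
    linarith [hy.c2]
  have hsd : 1 / 2 < sd t T := by
    unfold sd
    linarith [hy.c2]
  have hs : 0 < size T := by
    unfold size
    positivity
  -- the tail is small
  have hpow : T ^ (t * Real.log T / 16 + x / 2 - g) =
      T ^ (-(g / 2)) * T ^ (t * Real.log T / 16 + x / 2 - g / 2) := by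
    rw [← Real.rpow_add hTpos]
    congr 1
    ring
  have hmono : ∀ e : ℝ, min (ε / 2) (g / 2) ≤ e →
      size T * T ^ (t * Real.log T / 16 + x / 2 - e) ≤ ‖PP t T (pt x τ)‖ := fun e he =>
    le_trans (mul_le_mul_of_nonneg_left (Real.rpow_le_rpow_of_exponent_le (by linarith)
      (by linarith)) hs.le) n3
  have htail : C * (size T * T ^ (t * Real.log T / 16 + x / 2 - g)) ≤
      ε / 2 * ‖PP t T (pt x τ)‖ := by
    have e : C * (size T * T ^ (t * Real.log T / 16 + x / 2 - g)) =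
        (C * T ^ (-(g / 2))) * (size T * T ^ (t * Real.log T / 16 + x / 2 - g / 2)) := by
      rw [hpow]
      ring
    rw [e]
    exact mul_le_mul (hA T hTc) (hmono (g / 2) (min_le_right _ _)) (by positivity)
      (by linarith)
  have hnear : min (ε / 2) (g / 2) * ‖PP t T (pt x τ)‖ ≤ ε / 2 * ‖PP t T (pt x τ)‖ :=
    mul_le_mul_of_nonneg_right (min_le_left _ _) (norm_nonneg _)
  obtain ⟨i1, i2, i3⟩ := h1 t (pt x τ) ht
  have hsub : Ioo (sd t T - r) (sd t T + r) ⊆ Ioi (0 : ℝ) := fun u hu => by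
    have := hu.1
    show 0 < u
    linarith
  have hG : IntegrableOn (fun u : ℝ => (1 + u) * (Real.exp (-(u ^ 2 / t)) * ‖xi (pt x τ + u)‖))
      (Ioi (0 : ℝ) \ Ioo (sd t T - r) (sd t T + r)) := by
    refine (i3.integrableOn).congr_fun (fun u hu => ?_) (measurableSet_Ioi.diff measurableSet_Ioo)
    have hu0 : (0 : ℝ) < u := hu.1
    simp only [abs_of_pos hu0]
  have s1 := split (P := PP t T (pt x τ)) measurableSet_Ioo hsub i1 hG (fun u hu => by
    rw [norm_mul, norm_real, Real.norm_eq_abs, abs_of_pos (Real.exp_pos _)]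
    exact le_mul_of_one_le_left (by positivity) (by linarith)) n1 o1
  have s2 := split (P := (sd t T : ℂ) * PP t T (pt x τ)) measurableSet_Ioo hsub i2 hG
    (fun u hu => by
      rw [norm_mul, norm_real, Real.norm_eq_abs, abs_mul, abs_of_pos (Real.exp_pos _),
        abs_of_pos hu, mul_assoc]
      exact mul_le_mul_of_nonneg_right (by linarith) (by positivity)) n2 o1
  have hh : ε / 2 * ‖PP t T (pt x τ)‖ + ε / 2 * ‖PP t T (pt x τ)‖ = ε * ‖PP t T (pt x τ)‖ := by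
    ring
  have hp : 0 ≤ ε / 2 * ‖PP t T (pt x τ)‖ := by positivity
  refine ⟨?_, ?_, ?_, hmono ε ((min_le_left _ _).trans (by linarith))⟩
  · refine s1.trans ?_
    rw [← hh]
    exact add_le_add hnear htail
  · refine s2.trans ?_
    rw [← hh]
    exact add_le_add hnear htail
  · rw [← hh]
    linarith

end Pool.Agent.DBC
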