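import Pool.Agent.DBC.Targets

/-!
# Target NEA: the saddle point
-/

set_option autoImplicit false

namespace Pool.Agent.DBC

open Complex MeasureTheory Set Filter Topology
open Pool.Agent.DBN

namespace NEA_

lemma differentiable_xi' : Differentiable ℂ xi := by
  unfold xi
  have := differentiable_completedZeta₀
  fun_prop

lemma shift_Ioo (g : ℝ → ℝ) (m r : ℝ) (hr : 0 ≤ r) :
    ∫ u in Ioo (m - r) (m + r), g (u - m) = ∫ v in Ioo (-r) r, g v := by
  rw [← integral_Ioc_eq_integral_Ioo, ← intervalIntegral.integral_of_le (by linarith),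
    intervalIntegral.integral_comp_sub_right (fun v => g v) m,
    show m - r - m = -r by ring, show m + r - m = r by ring,
    intervalIntegral.integral_of_le (by linarith), integral_Ioc_eq_integral_Ioo]

/-- the two errors are small for small `t` -/
lemma small_err {r C ε : ℝ} (hr : 0 < r) (hC : 0 < C) (hε : 0 < ε) :
    ∃ t₀ : ℝ, 0 < t₀ ∧ ∀ t : ℝ, 0 < t → t ≤ t₀ →
      2 * √(Real.pi * t) * Real.exp (-(r ^ 2 / (2 * t))) + C * t ≤ ε * √(Real.pi * t) ∧
      (1 + C * r) * t ≤ ε * √(Real.pi * t) := by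
  set D : ℝ := 4 / r ^ 2 + C + (1 + C * r) with hD
  have hD0 : 0 < D := by positivity
  refine ⟨min 1 ((ε / D) ^ 2), lt_min one_pos (by positivity), fun t ht h1 => ?_⟩
  have h2 : t ≤ 1 := h1.trans (min_le_left _ _)
  have h3 : t ≤ (ε / D) ^ 2 := h1.trans (min_le_right _ _)
  have h4 : √t ≤ ε / D := by
    rw [Real.sqrt_le_left (by positivity)]
    exact h3
  have h5 : √t * D ≤ ε := by
    rwa [le_div_iff₀ hD0] at h4
  have h6 : t = √t * √t := (Real.mul_self_sqrt ht.le).symm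
  have h7 : √t ≤ 1 := by
    rw [Real.sqrt_le_left (by norm_num)]
    simpa using h2
  have h8 : √t ≤ √(Real.pi * t) := by
    apply Real.sqrt_le_sqrt
    nlinarith [Real.pi_gt_three]
  have h9 : 0 < √t := Real.sqrt_pos.mpr ht
  have h10 : Real.exp (-(r ^ 2 / (2 * t))) ≤ 2 / r ^ 2 * √t := by
    have h11 : r ^ 2 / (2 * t) ≤ Real.exp (r ^ 2 / (2 * t)) := by
      have := Real.add_one_le_exp (r ^ 2 / (2 * t))
      linarith
    have h12 : 0 < r ^ 2 / (2 * t) := by positivity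
    rw [Real.exp_neg]
    have h13 : (Real.exp (r ^ 2 / (2 * t)))⁻¹ ≤ (r ^ 2 / (2 * t))⁻¹ := by
      gcongr
    refine h13.trans ?_
    have h14 : (r ^ 2 / (2 * t))⁻¹ = 2 / r ^ 2 * t := by
      field_simp
    rw [h14]
    gcongr
    calc t = √t * √t := h6
      _ ≤ √t * 1 := by gcongr
      _ = √t := mul_one _
  have h15 : C * t ≤ C * √t * √(Real.pi * t) := by
    calc C * t = C * (√t * √t) := by rw [← h6]
      _ ≤ C * (√t * √(Real.pi * t)) := by gcongr
      _ = _ := by ring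
  have h16 : (1 + C * r) * t ≤ (1 + C * r) * √t * √(Real.pi * t) := by
    calc (1 + C * r) * t = (1 + C * r) * (√t * √t) := by rw [← h6]
      _ ≤ (1 + C * r) * (√t * √(Real.pi * t)) := by gcongr
      _ = _ := by ring
  have h17 : 0 ≤ √(Real.pi * t) := Real.sqrt_nonneg _
  constructor
  · calc 2 * √(Real.pi * t) * Real.exp (-(r ^ 2 / (2 * t))) + C * t
        ≤ 2 * √(Real.pi * t) * (2 / r ^ 2 * √t) + C * √t * √(Real.pi * t) := by
          gcongr
      _ = (4 / r ^ 2 + C) * √t * √(Real.pi * t) := by ring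
      _ ≤ √t * D * √(Real.pi * t) := by
          apply mul_le_mul_of_nonneg_right _ h17
          rw [mul_comm]
          apply mul_le_mul_of_nonneg_left _ h9.le
          rw [hD]
          have : 0 ≤ 1 + C * r := by positivity
          linarith
      _ ≤ ε * √(Real.pi * t) := by gcongr
  · refine h16.trans ?_
    apply mul_le_mul_of_nonneg_right _ h17
    refine le_trans ?_ h5
    rw [mul_comm]
    apply mul_le_mul_of_nonneg_left _ h9.le
    rw [hD]
    have : 0 ≤ 4 / r ^ 2 + C := by positivity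
    linarith

lemma low_q {t L : ℝ} (ht : 0 < t) (hL : 1 ≤ L) (h : 1 ≤ t * L) : 1 ≤ √(Real.pi * t) * L := by
  have h1 : 1 ≤ Real.pi * t * L := by
    have h14 := Real.pi_gt_three
    nlinarith
  have h2 : 1 ≤ Real.pi * t * L ^ 2 := by nlinarith
  have h3 : 0 ≤ √(Real.pi * t) * L := by positivity
  rw [← one_le_sq_iff₀ h3, mul_pow, Real.sq_sqrt (by positivity)]
  exact h2

/-- the weight at the saddle point -/
lemma weight_eq {t T v : ℝ} (ht : 0 < t) (hT : 0 < T) :
    Real.exp (-((sd t T + v) ^ 2 / t)) =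
      Real.exp (-(sd t T ^ 2 / t)) * Real.exp (-(v ^ 2 / t)) * T ^ (-(v / 2)) := by
  rw [Real.rpow_def_of_pos hT, ← Real.exp_add, ← Real.exp_add]
  congr 1
  unfold sd
  field_simp
  ring

/-- the local estimate -/
lemma local_est {t T r C : ℝ} {s X : ℂ} (ht : 0 < t) (hT : 0 < T) (hr : 0 < r) (hC : 0 < C)
    (hloc : ∀ v : ℝ, |v| ≤ r →
      ‖((T ^ (-(v / 2)) : ℝ) : ℂ) * xi (s + sd t T + v) - X‖ ≤ C * |v| * ‖X‖) :
    ‖(∫ u in Ioo (sd t T - r) (sd t T + r),
      ((Real.exp (-(u ^ 2 / t)) : ℝ) : ℂ) * xi (s + u)) -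
      ((Real.exp (-(sd t T ^ 2 / t)) * ∫ v in Ioo (-r) r, Real.exp (-(v ^ 2 / t)) : ℝ) : ℂ) * X‖ ≤
      Real.exp (-(sd t T ^ 2 / t)) * ‖X‖ * C * ∫ v in Ioo (-r) r, |v| * Real.exp (-(v ^ 2 / t)) ∧
    ‖(∫ u in Ioo (sd t T - r) (sd t T + r),
      ((u * Real.exp (-(u ^ 2 / t)) : ℝ) : ℂ) * xi (s + u)) -
      (sd t T : ℂ) * ∫ u in Ioo (sd t T - r) (sd t T + r),
        ((Real.exp (-(u ^ 2 / t)) : ℝ) : ℂ) * xi (s + u)‖ ≤
      Real.exp (-(sd t T ^ 2 / t)) * ‖X‖ * (1 + C * r) *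
        ∫ v in Ioo (-r) r, |v| * Real.exp (-(v ^ 2 / t)) := by
  have hxc : Continuous xi := differentiable_xi'.continuous
  set m := sd t T with hm
  set A := Real.exp (-(m ^ 2 / t)) with hA
  have hA0 : 0 < A := Real.exp_pos _
  have hint : ∀ {E : Type} [NormedAddCommGroup E] (g : ℝ → E), Continuous g →
      IntegrableOn g (Ioo (m - r) (m + r)) volume := fun g hg =>
    (hg.continuousOn.integrableOn_Icc).mono_set Ioo_subset_Icc_self
  have e1 : ∀ u : ℝ, ((Real.exp (-(u ^ 2 / t)) : ℝ) : ℂ) * xi (s + u) =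
      ((A * Real.exp (-((u - m) ^ 2 / t)) : ℝ) : ℂ) *
        (((T ^ (-((u - m) / 2)) : ℝ) : ℂ) * xi (s + m + ((u - m : ℝ) : ℂ))) := by
    intro u
    have h1 := weight_eq (v := u - m) ht hT
    rw [← hm, show m + (u - m) = u by ring] at h1
    rw [h1]
    have h2 : s + m + ((u - m : ℝ) : ℂ) = s + u := by
      push_cast
      ring
    rw [h2, ← hA]
    push_cast
    ring
  have hb : ∀ u ∈ Ioo (m - r) (m + r), |u - m| ≤ r := by
    intro u hu
    rw [abs_le]
    constructor <;> linarith [hu.1, hu.2]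
  constructor
  · have e2 : ((A * ∫ v in Ioo (-r) r, Real.exp (-(v ^ 2 / t)) : ℝ) : ℂ) * X =
        ∫ u in Ioo (m - r) (m + r), ((A * Real.exp (-((u - m) ^ 2 / t)) : ℝ) : ℂ) * X := by
      rw [← shift_Ioo (fun v => Real.exp (-(v ^ 2 / t))) m r hr.le, ← integral_const_mul]
      rw [integral_mul_const, integral_complex_ofReal]
    rw [e2, ← integral_sub (hint _ (by fun_prop)) (hint _ (by fun_prop))]
    have e3 : A * ‖X‖ * C * ∫ v in Ioo (-r) r, |v| * Real.exp (-(v ^ 2 / t)) =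
        ∫ u in Ioo (m - r) (m + r), A * ‖X‖ * C * (|u - m| * Real.exp (-((u - m) ^ 2 / t))) := by
      rw [← shift_Ioo (fun v => |v| * Real.exp (-(v ^ 2 / t))) m r hr.le, ← integral_const_mul]
    rw [e3]
    refine norm_integral_le_of_norm_le (hint _ (by fun_prop)) ?_
    refine (ae_restrict_iff' measurableSet_Ioo).mpr (Eventually.of_forall fun u hu => ?_)
    rw [e1 u, ← mul_sub, norm_mul, Complex.norm_real, Real.norm_eq_abs,
      abs_of_pos (by positivity)]
    have h3 := hloc (u - m) (hb u hu)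
    calc A * Real.exp (-((u - m) ^ 2 / t)) *
          ‖((T ^ (-((u - m) / 2)) : ℝ) : ℂ) * xi (s + m + ((u - m : ℝ) : ℂ)) - X‖
        ≤ A * Real.exp (-((u - m) ^ 2 / t)) * (C * |u - m| * ‖X‖) := by gcongr
      _ = _ := by ring
  · rw [← integral_const_mul, ← integral_sub (hint _ (by fun_prop)) (hint _ (by fun_prop))]
    have e3 : A * ‖X‖ * (1 + C * r) * ∫ v in Ioo (-r) r, |v| * Real.exp (-(v ^ 2 / t)) =
        ∫ u in Ioo (m - r) (m + r),
          A * ‖X‖ * (1 + C * r) * (|u - m| * Real.exp (-((u - m) ^ 2 / t))) := by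
      rw [← shift_Ioo (fun v => |v| * Real.exp (-(v ^ 2 / t))) m r hr.le, ← integral_const_mul]
    rw [e3]
    refine norm_integral_le_of_norm_le (hint _ (by fun_prop)) ?_
    refine (ae_restrict_iff' measurableSet_Ioo).mpr (Eventually.of_forall fun u hu => ?_)
    have e4 : ((u * Real.exp (-(u ^ 2 / t)) : ℝ) : ℂ) * xi (s + u) -
        (m : ℂ) * (((Real.exp (-(u ^ 2 / t)) : ℝ) : ℂ) * xi (s + u)) =
        ((u - m : ℝ) : ℂ) * (((Real.exp (-(u ^ 2 / t)) : ℝ) : ℂ) * xi (s + u)) := by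
      push_cast
      ring
    rw [e4, e1 u, norm_mul, norm_mul, Complex.norm_real, Complex.norm_real, Real.norm_eq_abs,
      Real.norm_eq_abs, abs_of_pos (by positivity : 0 < A * Real.exp (-((u - m) ^ 2 / t)))]
    have h3 := hloc (u - m) (hb u hu)
    have h4 : ‖((T ^ (-((u - m) / 2)) : ℝ) : ℂ) * xi (s + m + ((u - m : ℝ) : ℂ))‖ ≤
        (1 + C * r) * ‖X‖ := by
      have h5 := norm_le_norm_add_norm_sub' (((T ^ (-((u - m) / 2)) : ℝ) : ℂ) *
        xi (s + m + ((u - m : ℝ) : ℂ))) X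
      have h6 : C * |u - m| * ‖X‖ ≤ C * r * ‖X‖ := by
        gcongr
        exact hb u hu
      linarith
    calc |u - m| * (A * Real.exp (-((u - m) ^ 2 / t)) *
          ‖((T ^ (-((u - m) / 2)) : ℝ) : ℂ) * xi (s + m + ((u - m : ℝ) : ℂ))‖)
        ≤ |u - m| * (A * Real.exp (-((u - m) ^ 2 / t)) * ((1 + C * r) * ‖X‖)) := by gcongr
      _ = _ := by ring

end NEA_

open NEA_

theorem p_NEA (h1 : T_LOC) (h2 : T_GAU) : T_NEA := by
  intro c₁ c₂ K hc hcc hK
  set δ : ℝ := (c₁ - 2) / 8 with hδ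
  have hδ0 : 0 < δ := by rw [hδ]; linarith
  obtain ⟨r₀, C, T₁, hr₀, hC, hT₁, hloc⟩ := h1 δ (K + c₂ + 1) hδ0 (by linarith)
  set r : ℝ := min r₀ (1 / 4) with hr
  have hr0 : 0 < r := lt_min hr₀ (by norm_num)
  refine ⟨r, δ, hr0, min_le_right _ _, hδ0, fun ε hε => ?_⟩
  set ε' : ℝ := ε / (1 + c₂) with hε'
  have hε'0 : 0 < ε' := div_pos hε (by linarith)
  obtain ⟨t₀, ht₀, hsm⟩ := small_err hr0 hC hε'0
  obtain ⟨T₂, hT₂⟩ : ∃ T₂ : ℝ, ∀ T : ℝ, T₂ ≤ T → C * Real.log T ≤ T ^ ε := by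
    have h3 := (isLittleO_log_rpow_atTop hε).bound (inv_pos.mpr hC)
    obtain ⟨T₂, h4⟩ := eventually_atTop.mp h3
    refine ⟨max T₂ 1, fun T hT => ?_⟩
    have h5 := h4 T ((le_max_left _ _).trans hT)
    have hT1 : 1 ≤ T := (le_max_right _ _).trans hT
    rw [Real.norm_of_nonneg (Real.log_nonneg hT1),
      Real.norm_of_nonneg (by positivity)] at h5
    calc C * Real.log T ≤ C * (C⁻¹ * T ^ ε) := by gcongr
      _ = T ^ ε := by field_simp
  refine ⟨max (max T₁ T₂) (Real.exp (max 1 (c₂ / t₀))), ?_, ?_⟩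
  · exact hT₁.trans ((le_max_left _ _).trans (le_max_left _ _))
  intro t T x τ hT h3 h4 h5 h6 h7
  have hTa : T₁ ≤ T := ((le_max_left _ _).trans (le_max_left _ _)).trans hT
  have hTb : T₂ ≤ T := ((le_max_right _ _).trans (le_max_left _ _)).trans hT
  have hTc : Real.exp (max 1 (c₂ / t₀)) ≤ T := (le_max_right _ _).trans hT
  have hT0 : 0 < T := by linarith
  have hL : max 1 (c₂ / t₀) ≤ Real.log T := by
    rwa [Real.le_log_iff_exp_le hT0]
  have hL1 : 1 ≤ Real.log T := (le_max_left _ _).trans hL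
  have hL2 : c₂ / t₀ ≤ Real.log T := (le_max_right _ _).trans hL
  have hL0 : 0 < Real.log T := by linarith
  have ht0 : 0 < t := by
    by_contra hcon
    push Not at hcon
    have := mul_nonpos_of_nonpos_of_nonneg hcon hL0.le
    linarith
  have htt : t ≤ t₀ := by
    rw [div_le_iff₀ ht₀] at hL2
    refine le_of_mul_le_mul_right (?_ : t * Real.log T ≤ t₀ * Real.log T) hL0
    rw [mul_comm t₀]
    exact h4.trans hL2
  obtain ⟨hs1, hs2⟩ := hsm t ht0 htt
  obtain ⟨hg1, hg2, hg3⟩ := h2 r t hr0 ht0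
  set s : ℂ := pt x τ with hs
  set X : ℂ := xi (s + sd t T) with hX
  have hsre : s.re = 1 / 2 + x := by rw [hs, pt]; simp
  have hsim : s.im = τ := by rw [hs, pt]; simp
  have hre : (s + sd t T).re = 1 / 2 + x + t * Real.log T / 4 := by
    rw [add_re, hsre, ofReal_re, sd]
  have him : (s + sd t T).im = τ := by
    rw [add_im, hsim, ofReal_im, add_zero]
  obtain ⟨h8, h9⟩ := hloc T (s + sd t T) hTa (by rw [hre]; linarith) (by rw [hre]; linarith)
    (by rw [him]; linarith)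
  rw [← hX] at h8 h9
  obtain ⟨l1, l2⟩ := local_est (s := s) (X := X) ht0 hT0 hr0 hC
    (fun v hv => h9 v (hv.trans (min_le_left _ _)))
  set A := Real.exp (-(sd t T ^ 2 / t)) with hA
  have hA0 : 0 < A := Real.exp_pos _
  set q := √(Real.pi * t) with hq
  have hq0 : 0 < q := Real.sqrt_pos.mpr (by positivity)
  have hPP : PP t T s = ((A * q : ℝ) : ℂ) * X := by rw [PP]
  have hPn : ‖PP t T s‖ = A * q * ‖X‖ := by
    rw [hPP, norm_mul, Complex.norm_real, Real.norm_of_nonneg (by positivity)]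
  set G := ∫ v in Ioo (-r) r, Real.exp (-(v ^ 2 / t)) with hG
  set M := ∫ v in Ioo (-r) r, |v| * Real.exp (-(v ^ 2 / t)) with hM
  set I1 := ∫ u in Ioo (sd t T - r) (sd t T + r),
      ((Real.exp (-(u ^ 2 / t)) : ℝ) : ℂ) * xi (s + u) with hI1
  set I2 := ∫ u in Ioo (sd t T - r) (sd t T + r),
      ((u * Real.exp (-(u ^ 2 / t)) : ℝ) : ℂ) * xi (s + u) with hI2
  have hc20 : 0 ≤ c₂ := by linarith
  clear_value I1 I2 G M A q X
  have k1 : ‖I1 - PP t T s‖ ≤ ε' * ‖PP t T s‖ := by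
    have e1 : I1 - PP t T s = (I1 - ((A * G : ℝ) : ℂ) * X) + ((A * (G - q) : ℝ) : ℂ) * X := by
      rw [hPP]
      push_cast
      ring
    have h10 : |G - q| ≤ 2 * q * Real.exp (-(r ^ 2 / (2 * t))) := by
      rw [abs_le]
      constructor
      · linarith
      · have : 0 ≤ 2 * q * Real.exp (-(r ^ 2 / (2 * t))) := by positivity
        linarith
    have h11 : ‖((A * (G - q) : ℝ) : ℂ) * X‖ ≤
        A * (2 * q * Real.exp (-(r ^ 2 / (2 * t)))) * ‖X‖ := by
      rw [norm_mul, Complex.norm_real, Real.norm_eq_abs, abs_mul, abs_of_pos hA0]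
      gcongr
    rw [e1, hPn]
    calc ‖(I1 - ((A * G : ℝ) : ℂ) * X) + ((A * (G - q) : ℝ) : ℂ) * X‖
        ≤ ‖I1 - ((A * G : ℝ) : ℂ) * X‖ + ‖((A * (G - q) : ℝ) : ℂ) * X‖ := norm_add_le _ _
      _ ≤ A * ‖X‖ * C * M + A * (2 * q * Real.exp (-(r ^ 2 / (2 * t)))) * ‖X‖ :=
          add_le_add l1 h11
      _ ≤ A * ‖X‖ * C * t + A * (2 * q * Real.exp (-(r ^ 2 / (2 * t)))) * ‖X‖ := by gcongr
      _ = A * ‖X‖ * (2 * q * Real.exp (-(r ^ 2 / (2 * t))) + C * t) := by ring
      _ ≤ A * ‖X‖ * (ε' * q) := by gcongr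
      _ = _ := by ring
  have hsd0 : 0 ≤ sd t T := by rw [sd]; positivity
  have hsd1 : sd t T ≤ c₂ := by rw [sd]; linarith
  have hε1 : (1 + c₂) * ε' = ε := by
    rw [hε']
    exact mul_div_cancel₀ ε (by linarith)
  have hPn0 : 0 ≤ ‖PP t T s‖ := norm_nonneg _
  refine ⟨k1.trans ?_, ?_, ?_⟩
  · gcongr
    have := mul_nonneg hc20 hε'0.le
    linarith
  · have e1 : I2 - (sd t T : ℂ) * PP t T s =
        (I2 - (sd t T : ℂ) * I1) + (sd t T : ℂ) * (I1 - PP t T s) := by ring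
    rw [e1]
    calc ‖(I2 - (sd t T : ℂ) * I1) + (sd t T : ℂ) * (I1 - PP t T s)‖
        ≤ ‖I2 - (sd t T : ℂ) * I1‖ + ‖(sd t T : ℂ) * (I1 - PP t T s)‖ := norm_add_le _ _
      _ ≤ A * ‖X‖ * (1 + C * r) * M + sd t T * ‖I1 - PP t T s‖ := by
          refine add_le_add l2 (le_of_eq ?_)
          rw [norm_mul, Complex.norm_real, Real.norm_of_nonneg hsd0]
      _ ≤ A * ‖X‖ * (1 + C * r) * t + c₂ * (ε' * ‖PP t T s‖) := by gcongr
      _ = A * ‖X‖ * ((1 + C * r) * t) + c₂ * (ε' * ‖PP t T s‖) := by ring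
      _ ≤ A * ‖X‖ * (ε' * q) + c₂ * (ε' * ‖PP t T s‖) := by gcongr
      _ = (1 + c₂) * ε' * ‖PP t T s‖ := by
          rw [hPn]
          ring
      _ = _ := by rw [hε1]
  · rw [hPn]
    have e2 : A = T ^ (-(t * Real.log T / 16)) := by
      rw [hA, Real.rpow_def_of_pos hT0]
      congr 1
      unfold sd
      field_simp
      ring
    have e3 : ((s + sd t T).re - 1 / 2) / 2 = x / 2 + t * Real.log T / 8 := by
      rw [hre]
      ring
    rw [e3] at h8
    have hlow : 1 ≤ q * Real.log T := by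
      rw [hq]
      exact low_q ht0 hL1 (by linarith)
    have h17 : C ≤ q * T ^ ε := by
      have h18 := hT₂ T hTb
      calc C = C * 1 := (mul_one C).symm
        _ ≤ C * (q * Real.log T) := by gcongr
        _ = q * (C * Real.log T) := by ring
        _ ≤ q * T ^ ε := by gcongr
    have hsz : 0 ≤ size T := by unfold size; positivity
    have e4 : T ^ (t * Real.log T / 16 + x / 2 - ε) * T ^ ε =
        A * T ^ (x / 2 + t * Real.log T / 8) := by
      rw [e2, ← Real.rpow_add hT0, ← Real.rpow_add hT0]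
      congr 1
      ring
    have hTε : 0 < T ^ ε := by positivity
    have h19 : size T * T ^ (t * Real.log T / 16 + x / 2 - ε) * T ^ ε ≤ A * q * ‖X‖ * T ^ ε := by
      calc size T * T ^ (t * Real.log T / 16 + x / 2 - ε) * T ^ ε
          = A * (size T * T ^ (x / 2 + t * Real.log T / 8)) := by
            rw [mul_assoc, e4]
            ring
        _ ≤ A * (C * ‖X‖) := by gcongr
        _ ≤ A * (q * T ^ ε * ‖X‖) := by gcongr
        _ = _ := by ring
    exact le_of_mul_le_mul_right h19 hTε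

end Pool.Agent.DBC
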