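import Pool.Agent.DBC.Targets

/-!
# DBC, target `T_OFA`: away from the saddle point
-/

set_option autoImplicit false

namespace Pool.Agent.DBC

open Complex MeasureTheory Set Filter Topology
open Pool.Agent.DBN

namespace OFA_

theorem log_ge {T : ℝ} (hT : 2 ≤ T) : 1 / 2 ≤ Real.log T := by
  have h1 : Real.log 2 ≤ Real.log T := Real.log_le_log (by norm_num) hT
  have h2 := Real.log_two_gt_d9
  linarith

theorem size_nonneg' {T : ℝ} (hT : 2 ≤ T) : 0 ≤ size T := by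
  unfold size
  have : 0 ≤ T := by linarith
  positivity

/-- pointwise bound -/
theorem bound {l κ₀ g₀ K : ℝ} (hxl : XiLe (mm l)) (hκ : 0 < κ₀) (hg : 0 < g₀) (hK : 0 < K) :
    ∃ C : ℝ, 0 ≤ C ∧ ∀ t T y τ u B : ℝ, 2 ≤ T → 0 < t → |y| ≤ K → |τ - T| ≤ K →
      mm l (y + u) - u ^ 2 / (t * Real.log T) ≤ B - g₀ - κ₀ * u ^ 2 →
      Real.exp (-(u ^ 2 / t)) * ‖xi (pt y τ + u)‖ ≤
        C * (size T * T ^ (B - g₀ / 2)) * Real.exp (-(κ₀ / 4) * u ^ 2) := by
  obtain ⟨κ', hκ'⟩ : ∃ κ', κ' = min (κ₀ / 4) (g₀ / (12 * K ^ 2 + 12)) := ⟨_, rfl⟩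
  have hκ0 : 0 < κ' := by
    rw [hκ']
    exact lt_min (by positivity) (by positivity)
  have hκ1 : κ' ≤ κ₀ / 4 := by
    rw [hκ']
    exact min_le_left _ _
  have hκ2 : κ' * (3 * K ^ 2) ≤ g₀ / 4 := by
    have h1 : κ' ≤ g₀ / (12 * K ^ 2 + 12) := by
      rw [hκ']
      exact min_le_right _ _
    calc κ' * (3 * K ^ 2) ≤ g₀ / (12 * K ^ 2 + 12) * (3 * K ^ 2) := by gcongr
      _ ≤ g₀ / (12 * K ^ 2 + 12) * (3 * K ^ 2 + 3) := by
          gcongr
          linarith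
      _ = g₀ / 4 := by
          field_simp
          ring
  obtain ⟨C, hC, h⟩ := hxl (g₀ / 4) κ' (by positivity) hκ0
  refine ⟨C, hC, ?_⟩
  intro t T y τ u B hT ht hy hτ hm
  have hL := log_ge hT
  have hT0 : 0 < T := by linarith
  obtain ⟨w, hw⟩ : ∃ w : ℂ, w = ((y + u : ℝ) : ℂ) + ((τ - T : ℝ) : ℂ) * I := ⟨_, rfl⟩
  have e1 : pt y τ + u = 1 / 2 + T * I + w := by
    rw [hw, pt]
    push_cast
    ring
  have e2 : w.re = y + u := by
    rw [hw]
    simp
  have e3 : ‖w‖ ^ 2 ≤ 2 * u ^ 2 + 3 * K ^ 2 := by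
    have e4 : ‖w‖ ^ 2 = (y + u) ^ 2 + (τ - T) ^ 2 := by
      rw [Complex.sq_norm, Complex.normSq_apply, hw]
      simp
      ring
    have e5 : y ^ 2 ≤ K ^ 2 := by
      rw [← sq_abs y]
      gcongr
    have e6 : (τ - T) ^ 2 ≤ K ^ 2 := by
      rw [← sq_abs (τ - T)]
      gcongr
    rw [e4]
    nlinarith [sq_nonneg (y - u)]
  have h1 := h T w hT
  rw [← e1, e2] at h1
  have h2 : u ^ 2 / t = Real.log T * (u ^ 2 / (t * Real.log T)) := by
    have : Real.log T ≠ 0 := by linarith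
    field_simp
  have h3 : Real.log T * (mm l (y + u) + g₀ / 4) - u ^ 2 / t + κ' * ‖w‖ ^ 2 * Real.log T ≤
      Real.log T * (B - g₀ / 2) - κ₀ / 4 * u ^ 2 := by
    have h4 : κ' * ‖w‖ ^ 2 ≤ κ₀ / 2 * u ^ 2 + g₀ / 4 := by
      calc κ' * ‖w‖ ^ 2 ≤ κ' * (2 * u ^ 2 + 3 * K ^ 2) := by gcongr
        _ = κ' * (2 * u ^ 2) + κ' * (3 * K ^ 2) := by ring
        _ ≤ κ₀ / 4 * (2 * u ^ 2) + g₀ / 4 := by gcongr
        _ = κ₀ / 2 * u ^ 2 + g₀ / 4 := by ring
    have h5 : mm l (y + u) + g₀ / 4 - u ^ 2 / (t * Real.log T) + κ' * ‖w‖ ^ 2 ≤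
        B - g₀ / 2 - κ₀ / 2 * u ^ 2 := by linarith
    have h6 : Real.log T * (mm l (y + u) + g₀ / 4 - u ^ 2 / (t * Real.log T) + κ' * ‖w‖ ^ 2) ≤
        Real.log T * (B - g₀ / 2 - κ₀ / 2 * u ^ 2) :=
      mul_le_mul_of_nonneg_left h5 (by linarith)
    have h7 : κ₀ / 4 * u ^ 2 ≤ Real.log T * (κ₀ / 2 * u ^ 2) := by
      have : 0 ≤ κ₀ / 2 * u ^ 2 := by positivity
      nlinarith
    rw [h2]
    linarith
  calc Real.exp (-(u ^ 2 / t)) * ‖xi (pt y τ + u)‖
      ≤ Real.exp (-(u ^ 2 / t)) * (C * size T * T ^ (mm l (y + u) + g₀ / 4) *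
        Real.exp (κ' * ‖w‖ ^ 2 * Real.log T)) := by gcongr
    _ = C * size T * Real.exp (Real.log T * (mm l (y + u) + g₀ / 4) - u ^ 2 / t +
        κ' * ‖w‖ ^ 2 * Real.log T) := by
        rw [Real.rpow_def_of_pos hT0, Real.exp_add, Real.exp_sub, Real.exp_neg]
        ring
    _ ≤ C * size T * Real.exp (Real.log T * (B - g₀ / 2) - κ₀ / 4 * u ^ 2) := by
        have := size_nonneg' hT
        gcongr
    _ = C * (size T * T ^ (B - g₀ / 2)) * Real.exp (-(κ₀ / 4) * u ^ 2) := by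
        rw [Real.rpow_def_of_pos hT0, sub_eq_add_neg, Real.exp_add]
        ring_nf

theorem gauss_int {κ : ℝ} (hκ : 0 < κ) :
    Integrable fun u : ℝ => (1 + |u|) * Real.exp (-κ * u ^ 2) := by
  have h1 := integrable_exp_neg_mul_sq hκ
  have h2 := (integrable_mul_exp_neg_mul_sq hκ).abs
  have h3 : (fun u : ℝ => (1 + |u|) * Real.exp (-κ * u ^ 2)) =
      fun u => Real.exp (-κ * u ^ 2) + |u * Real.exp (-κ * u ^ 2)| := by
    funext u
    rw [abs_mul, abs_of_pos (Real.exp_pos _)]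
    ring
  rw [h3]
  exact h1.add h2

/-- the integral bound -/
theorem int_bound {κ A : ℝ} (hκ : 0 < κ) (hA : 0 ≤ A) {S : Set ℝ} (hS : MeasurableSet S)
    (hS0 : ∀ u ∈ S, 0 < u) {f : ℝ → ℝ} (hf0 : ∀ u, 0 ≤ f u)
    (hf : ∀ u ∈ S, f u ≤ A * Real.exp (-κ * u ^ 2)) :
    ∫ u in S, (1 + u) * f u ≤ A * ∫ u : ℝ, (1 + |u|) * Real.exp (-κ * u ^ 2) := by
  have h1 := gauss_int hκ
  calc ∫ u in S, (1 + u) * f u ≤ ∫ u in S, A * ((1 + |u|) * Real.exp (-κ * u ^ 2)) := by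
        refine integral_mono_of_nonneg ?_ (h1.const_mul A).integrableOn ?_
        · filter_upwards [ae_restrict_mem hS] with u hu
          have := hS0 u hu
          have := hf0 u
          show (0 : ℝ) ≤ (1 + u) * f u
          positivity
        · filter_upwards [ae_restrict_mem hS] with u hu
          have h2 := hS0 u hu
          have h3 := hf u hu
          show (1 + u) * f u ≤ A * ((1 + |u|) * Real.exp (-κ * u ^ 2))
          rw [abs_of_pos h2]
          calc (1 + u) * f u ≤ (1 + u) * (A * Real.exp (-κ * u ^ 2)) := by gcongr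
            _ = A * ((1 + u) * Real.exp (-κ * u ^ 2)) := by ring
    _ ≤ ∫ u : ℝ, A * ((1 + |u|) * Real.exp (-κ * u ^ 2)) := by
        refine setIntegral_le_integral (h1.const_mul A) ?_
        filter_upwards with u
        show (0 : ℝ) ≤ A * ((1 + |u|) * Real.exp (-κ * u ^ 2))
        positivity
    _ = A * ∫ u : ℝ, (1 + |u|) * Real.exp (-κ * u ^ 2) := by
        rw [integral_const_mul]

end OFA_

open OFA_ in
theorem p_OFA (hINA : T_INA) : T_OFA := by
  intro l c₁ c₂ K r hH hr hr4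
  obtain ⟨hl, hlc, hc2, hcc, hK, hxl⟩ := hH
  obtain ⟨δ, g, κ, hδ, hg, hκ, h⟩ := hINA l c₁ c₂ K r hl hlc hcc hK hr
  obtain ⟨C, hC, hb⟩ := bound hxl hκ hg hK
  obtain ⟨J, hJ⟩ : ∃ J, J = ∫ u : ℝ, (1 + |u|) * Real.exp (-(κ / 4) * u ^ 2) := ⟨_, rfl⟩
  have hJ0 : 0 ≤ J := by
    rw [hJ]
    exact integral_nonneg fun u => by positivity
  refine ⟨min δ K, g / 2, C * (J + 1), lt_min hδ hK, by positivity, by positivity, 2, le_rfl, ?_⟩
  intro t T x τ hT h1 h2 h3 h4 h5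
  have hL := log_ge hT
  have hc : 0 < t * Real.log T := by linarith
  have ht : 0 < t := by
    by_contra h6
    have : t * Real.log T ≤ 0 := mul_nonpos_of_nonpos_of_nonneg (by linarith) (by linarith)
    linarith
  have hx1 : -δ ≤ x := by
    have := min_le_left δ K
    linarith
  have hx2 : |x| ≤ K := by
    have := min_le_right δ K
    exact abs_le.2 ⟨by linarith, h4⟩
  have hA : 0 ≤ size T * T ^ (t * Real.log T / 16 + x / 2 - g / 2) := by
    have := size_nonneg' hT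
    have : 0 ≤ T := by linarith
    positivity
  have hp : ∀ u : ℝ, 0 ≤ u → r ≤ |u - t * Real.log T / 4| →
      Real.exp (-(u ^ 2 / t)) * ‖xi (pt x τ + u)‖ ≤
        C * (size T * T ^ (t * Real.log T / 16 + x / 2 - g / 2)) *
          Real.exp (-(κ / 4) * u ^ 2) := by
    intro u hu hru
    exact hb t T x τ u (t * Real.log T / 16 + x / 2) hT ht hx2 h5
      (h (t * Real.log T) x u h1 h2 hx1 h4 hu hru)
  constructor
  · have h6 := int_bound (κ := κ / 4)
      (A := C * (size T * T ^ (t * Real.log T / 16 + x / 2 - g / 2)))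
      (S := Ioi (0 : ℝ) \ Ioo (sd t T - r) (sd t T + r))
      (f := fun u => Real.exp (-(u ^ 2 / t)) * ‖xi (pt x τ + u)‖)
      (by positivity) (by positivity) (measurableSet_Ioi.diff measurableSet_Ioo)
      (fun u hu => hu.1) (fun u => by positivity) (by
        rintro u ⟨hu1, hu2⟩
        refine hp u (le_of_lt hu1) ?_
        by_contra h7
        push Not at h7
        rw [abs_lt] at h7
        exact hu2 ⟨by unfold sd; linarith, by unfold sd; linarith⟩)
    rw [← hJ] at h6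
    refine h6.trans ?_
    nlinarith [mul_nonneg hC hA]
  · have h6 := hp 0 le_rfl (by
      rw [zero_sub, abs_neg, abs_of_pos (by positivity)]
      linarith)
    simp only [ne_eq, OfNat.ofNat_ne_zero, not_false_eq_true, zero_pow, zero_div, neg_zero,
      Real.exp_zero, one_mul, ofReal_zero, add_zero, mul_zero, mul_one] at h6
    refine h6.trans ?_
    nlinarith [mul_nonneg hC hA, mul_nonneg (mul_nonneg hC hA) hJ0]

end Pool.Agent.DBC
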