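import Pool.Agent.DBC.Targets2
import Pool.Agent.DBC.P_OFA

/-!
# DBC, target `U_OA2`: away from the saddle point, without the lower bound for `c₁`
-/

set_option autoImplicit false

namespace Pool.Agent.DBC

open Complex MeasureTheory Set Filter Topology
open Pool.Agent.DBN

namespace OA22_

/-- the integral bound -/
theorem int_bound {κ A : ℝ} (hκ : 0 < κ) (hA : 0 ≤ A) {S : Set ℝ}
    (hS : MeasurableSet S) {f : ℝ → ℝ} (hf0 : ∀ u, 0 ≤ f u)
    (hf : ∀ u ∈ S, f u ≤ A * Real.exp (-κ * u ^ 2)) :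
    ∫ u in S, f u ≤ A * ∫ u : ℝ, Real.exp (-κ * u ^ 2) := by
  have h1 := integrable_exp_neg_mul_sq hκ
  calc ∫ u in S, f u ≤ ∫ u in S, A * Real.exp (-κ * u ^ 2) := by
        refine integral_mono_of_nonneg ?_ (h1.const_mul A).integrableOn ?_
        · filter_upwards with u
          exact hf0 u
        · filter_upwards [ae_restrict_mem hS] with u hu
          exact hf u hu
    _ ≤ ∫ u : ℝ, A * Real.exp (-κ * u ^ 2) := by
        refine setIntegral_le_integral (h1.const_mul A) ?_
        filter_upwards with u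
        show (0 : ℝ) ≤ A * Real.exp (-κ * u ^ 2)
        positivity
    _ = A * ∫ u : ℝ, Real.exp (-κ * u ^ 2) := by
        rw [integral_const_mul]

end OA22_

open OA22_ in
theorem q_OA2 (h : T_INA) : U_OA2 := by
  intro l c₁ c₂ K r hH hr
  obtain ⟨hl, hlc, hcc, hK, hxl, -, -⟩ := hH
  obtain ⟨δ, g, κ, hδ, hg, hκ, h⟩ := h l c₁ c₂ K r hl hlc hcc hK hr
  obtain ⟨C, hC, hb⟩ := OFA_.bound hxl hκ hg hK
  obtain ⟨J, hJ⟩ : ∃ J, J = ∫ u : ℝ, Real.exp (-(κ / 4) * u ^ 2) := ⟨_, rfl⟩
  have hJ0 : 0 ≤ J := by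
    rw [hJ]
    exact integral_nonneg fun u => by positivity
  refine ⟨min δ K, g / 2, C * J, lt_min hδ hK, by positivity, by positivity, 2, le_rfl, ?_⟩
  intro t T x τ hT h1 h2 h3 h4 h5
  have hL := OFA_.log_ge hT
  have hc : 0 < t * Real.log T := by linarith
  have ht : 0 < t := by
    by_contra h6
    have : t * Real.log T ≤ 0 := mul_nonpos_of_nonpos_of_nonneg (by linarith) (by linarith)
    linarith
  have hx1 : -δ ≤ x := by
    have := min_le_left δ K
    linarith
  have hx2 : |x| ≤ K := by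
    have := min_le_right δ K
    exact abs_le.2 ⟨by linarith, h4⟩
  have hA : 0 ≤ size T * T ^ (t * Real.log T / 16 + x / 2 - g / 2) := by
    have := OFA_.size_nonneg' hT
    have : 0 ≤ T := by linarith
    positivity
  have hp : ∀ u : ℝ, 0 ≤ u → r ≤ |u - t * Real.log T / 4| →
      Real.exp (-(u ^ 2 / t)) * ‖xi (pt x τ + u)‖ ≤
        C * (size T * T ^ (t * Real.log T / 16 + x / 2 - g / 2)) *
          Real.exp (-(κ / 4) * u ^ 2) := by
    intro u hu hru
    exact hb t T x τ u (t * Real.log T / 16 + x / 2) hT ht hx2 h5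
      (h (t * Real.log T) x u h1 h2 hx1 h4 hu hru)
  have h6 := int_bound (κ := κ / 4)
    (A := C * (size T * T ^ (t * Real.log T / 16 + x / 2 - g / 2)))
    (S := Ioi (0 : ℝ) \ Ioo (sd t T - r) (sd t T + r))
    (f := fun u => Real.exp (-(u ^ 2 / t)) * ‖xi (pt x τ + u)‖)
    (by positivity) (by positivity) (measurableSet_Ioi.diff measurableSet_Ioo)
    (fun u => by positivity) (by
      rintro u ⟨hu1, hu2⟩
      refine hp u (le_of_lt hu1) ?_
      by_contra h7
      push Not at h7
      rw [abs_lt] at h7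
      exact hu2 ⟨by unfold sd; linarith, by unfold sd; linarith⟩)
  rw [← hJ] at h6
  refine h6.trans (le_of_eq ?_)
  ring

end Pool.Agent.DBC
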