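import Pool.Agent.DBC.Targets

/-!
# DBC, target ZER: zeros are on the line and simple
-/

set_option autoImplicit false

namespace Pool.Agent.DBC

open Complex MeasureTheory Set Filter Topology
open Pool.Agent.DBN
open scoped ComplexConjugate

namespace ZER_

theorem one_sub_pt (x τ : ℝ) : 1 - pt x τ = conj (pt (-x) τ) := by
  apply Complex.ext
  · simp [pt]
    ring
  · simp [pt]

theorem pt_zero_conj (τ : ℝ) : 1 - pt 0 τ = conj (pt 0 τ) := by
  have h := one_sub_pt 0 τ
  rwa [neg_zero] at h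

theorem deriv_conj (t : ℝ) (h2 : T_CNJ) (s w : ℂ) (hw : HasDerivAt (W t) w s) :
    HasDerivAt (W t) (conj w) (conj s) := by
  have h := hw.conj_conj
  have h1 : (conj ∘ W t ∘ conj : ℂ → ℂ) = W t := by
    funext z
    show conj (W t (conj z)) = W t z
    rw [h2 t z, Complex.conj_conj]
  rw [h1] at h
  exact h

theorem flow_deriv (h1 : T_SPL) {t : ℝ} (ht : 0 < t) {s w w' : ℂ} (hw : HasDerivAt (W t) w s)
    (hw' : HasDerivAt (W t) w' (1 - s)) :
    HasDerivAt (flow t) ((((√(Real.pi * t))⁻¹ : ℝ) : ℂ) * (w - w')) s := by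
  have h : flow t = fun s => (((√(Real.pi * t))⁻¹ : ℝ) : ℂ) * (W t s + W t (1 - s)) := by
    funext z
    exact h1 t z ht
  rw [h]
  have h3 : HasDerivAt (fun z : ℂ => 1 - z) (-1) s := by
    simpa using (hasDerivAt_id s).const_sub 1
  have h4 : HasDerivAt (fun z : ℂ => W t (1 - z)) (w' * -1) s := hw'.comp s h3
  have h5 := (hw.add h4).const_mul (((√(Real.pi * t))⁻¹ : ℝ) : ℂ)
  have h6 : w + w' * -1 = w - w' := by ring
  rw [h6] at h5
  exact h5

end ZER_

open ZER_ in
theorem p_ZER (h1 : T_SPL) (h2 : T_CNJ) (h3 : T_DER) (h4 : T_LGD) (h5 : T_CMP) : T_ZER := by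
  intro l c₁ c₂ K hyp
  obtain ⟨δ, hδ, hL⟩ := h4 l c₁ c₂ K hyp
  obtain ⟨T₁, hT₁, hL1⟩ := hL (1 / 4) (by norm_num)
  obtain ⟨T₂, hT₂, hC⟩ := h5 l c₁ c₂ K hyp
  refine ⟨max T₁ T₂, hT₁.trans (le_max_left _ _), ?_⟩
  intro t T x τ hT hc1 hc2 hx hτ hz
  have hTT1 : T₁ ≤ T := (le_max_left _ _).trans hT
  have hTT2 : T₂ ≤ T := (le_max_right _ _).trans hT
  have hT2 : 2 ≤ T := hT₁.trans hTT1
  have hlog : 0 < Real.log T := Real.log_pos (by linarith)
  have hc1p : 0 < c₁ := by
    have := hyp.c2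
    linarith
  have ht : 0 < t := by
    by_contra hcon
    have : t * Real.log T ≤ 0 := mul_nonpos_of_nonpos_of_nonneg (not_lt.1 hcon) hlog.le
    linarith
  have hcst : (((√(Real.pi * t))⁻¹ : ℝ) : ℂ) ≠ 0 := by
    have h6 : 0 < √(Real.pi * t) := Real.sqrt_pos.2 (mul_pos Real.pi_pos ht)
    exact_mod_cast (inv_pos.2 h6).ne'
  have hsum : W t (pt x τ) + W t (1 - pt x τ) = 0 := by
    rw [h1 t _ ht] at hz
    exact (mul_eq_zero.1 hz).resolve_left hcst
  have hnorm : ‖W t (pt x τ)‖ = ‖W t (pt (-x) τ)‖ := by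
    have h7 : W t (pt x τ) = -W t (1 - pt x τ) := eq_neg_of_add_eq_zero_left hsum
    rw [h7, norm_neg, one_sub_pt, h2]
    exact RCLike.norm_conj _
  have hx0 : x = 0 := by
    obtain ⟨hxl, hxu⟩ := abs_le.1 hx
    rcases lt_trichotomy x 0 with h | h | h
    · have h8 := hC t T (-x) τ hTT2 hc1 hc2 (by linarith) (by linarith) hτ
      rw [neg_neg] at h8
      linarith
    · exact h
    · have h8 := hC t T x τ hTT2 hc1 hc2 h hxu hτ
      linarith
  refine ⟨hx0, ?_⟩
  subst hx0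
  obtain ⟨hW0, hLG⟩ := hL1 t T 0 τ hTT1 hc1 hc2 (by linarith) hyp.K0.le hτ
  set s : ℂ := pt 0 τ with hs
  have hder := h3 t s ht
  set w : ℂ := ((2 / t : ℝ) : ℂ) * V t s - xi s with hw
  have hd : deriv (W t) s = w := hder.deriv
  rw [hd] at hLG
  have hder' : HasDerivAt (W t) (conj w) (1 - s) := by
    rw [hs, pt_zero_conj]
    exact deriv_conj t h2 _ w hder
  rw [(flow_deriv h1 ht hder hder').deriv]
  refine mul_ne_zero hcst ?_
  rw [pt_zero_conj, h2] at hsum
  have hre : (W t s).re = 0 := by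
    have h9 := congrArg Complex.re hsum
    simp only [Complex.add_re, Complex.conj_re, Complex.zero_re] at h9
    linarith
  have him : (W t s).im ≠ 0 := by
    intro h10
    exact hW0 (Complex.ext (by rw [hre]; rfl) (by rw [h10]; rfl))
  have hnW : ‖W t s‖ = |(W t s).im| := by
    rw [← Complex.re_add_im (W t s), hre]
    simp
  have hb : |(w - ((Real.log T / 2 : ℝ) : ℂ) * W t s).im| ≤ 1 / 4 * Real.log T * ‖W t s‖ :=
    (Complex.abs_im_le_norm _).trans hLG
  have himw : (w - ((Real.log T / 2 : ℝ) : ℂ) * W t s).im =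
      w.im - Real.log T / 2 * (W t s).im := by
    rw [Complex.sub_im, Complex.im_ofReal_mul]
  rw [himw, hnW] at hb
  intro h11
  have h12 : w.im = 0 := by
    have h13 := congrArg Complex.im h11
    simp only [Complex.sub_im, Complex.conj_im, Complex.zero_im] at h13
    linarith
  rw [h12, zero_sub, abs_neg, abs_mul, abs_of_pos (by positivity)] at hb
  have h14 : 0 < |(W t s).im| := abs_pos.2 him
  have h15 : 0 < Real.log T * |(W t s).im| := mul_pos hlog h14
  linarith

end Pool.Agent.DBC
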