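import Pool.Agent.DBC.Targets2
import Pool.Agent.DBC.P_OFA

/-!
# DBC2, target `U_UP2`: upper bound for `W`
-/

set_option autoImplicit false

namespace Pool.Agent.DBC

open Complex MeasureTheory Set Filter Topology
open Pool.Agent.DBN

namespace UP22_

/-- the integral over the half line -/
theorem int_le {κ A : ℝ} (hκ : 0 < κ) (hA : 0 ≤ A) {F : ℝ → ℂ}
    (hF : ∀ u : ℝ, 0 ≤ u → ‖F u‖ ≤ A * Real.exp (-κ * u ^ 2)) :
    ‖∫ u in Ioi (0 : ℝ), F u‖ ≤ (∫ u : ℝ, (1 + |u|) * Real.exp (-κ * u ^ 2)) * A := by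
  have hg1 := (OFA_.gauss_int hκ).const_mul A
  calc ‖∫ u in Ioi (0 : ℝ), F u‖ ≤ ∫ u in Ioi (0 : ℝ), ‖F u‖ :=
        norm_integral_le_integral_norm _
    _ ≤ ∫ u in Ioi (0 : ℝ), A * ((1 + |u|) * Real.exp (-κ * u ^ 2)) := by
        refine integral_mono_of_nonneg ?_ hg1.integrableOn ?_
        · filter_upwards with u
          exact norm_nonneg _
        · filter_upwards [ae_restrict_mem measurableSet_Ioi] with u hu
          have h3 := hF u (le_of_lt hu)
          show ‖F u‖ ≤ A * ((1 + |u|) * Real.exp (-κ * u ^ 2))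
          refine h3.trans ?_
          have h8 : (1 : ℝ) ≤ 1 + |u| := by linarith [abs_nonneg u]
          have h9 := Real.exp_pos (-κ * u ^ 2)
          calc A * Real.exp (-κ * u ^ 2) = A * (1 * Real.exp (-κ * u ^ 2)) := by ring
            _ ≤ A * ((1 + |u|) * Real.exp (-κ * u ^ 2)) := by gcongr
    _ ≤ ∫ u : ℝ, A * ((1 + |u|) * Real.exp (-κ * u ^ 2)) := by
        refine setIntegral_le_integral hg1 ?_
        filter_upwards with u
        show (0 : ℝ) ≤ A * ((1 + |u|) * Real.exp (-κ * u ^ 2))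
        positivity
    _ = (∫ u : ℝ, (1 + |u|) * Real.exp (-κ * u ^ 2)) * A := by
        rw [integral_const_mul, mul_comm]

end UP22_

open OFA_ UP22_ in
theorem q_UP2 (hINC : U_INC) : U_UP2 := by
  intro l c₁ c₂ K hH
  obtain ⟨hl, hlc, hcc, hK, hxl, _, _⟩ := hH
  obtain ⟨δ, hδ, hI⟩ := hINC l c₁ c₂ K hl hlc hcc hK
  refine ⟨min δ K, lt_min hδ hK, fun ε hε => ?_⟩
  obtain ⟨κ, hκ, h⟩ := hI (ε / 4) (by positivity)
  obtain ⟨C, hC, hb⟩ := bound (g₀ := ε / 4) hxl hκ (by positivity) hK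
  obtain ⟨J, hJ⟩ : ∃ J, J = ∫ u : ℝ, (1 + |u|) * Real.exp (-(κ / 4) * u ^ 2) := ⟨_, rfl⟩
  have hJ0 : 0 ≤ J := by
    rw [hJ]
    exact integral_nonneg fun u => by positivity
  obtain ⟨T₁, hT₁⟩ : ∃ T₁ : ℝ, ∀ T : ℝ, T₁ ≤ T → C * J ≤ T ^ (ε / 2) := by
    have h1 := (tendsto_rpow_atTop (y := ε / 2) (by positivity)).eventually_ge_atTop (C * J)
    obtain ⟨T₁, h2⟩ := eventually_atTop.1 h1
    exact ⟨T₁, h2⟩
  refine ⟨max 2 T₁, le_max_left _ _, ?_⟩
  intro t T x τ hTm h1 h2 h3 h4 h5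
  have hT : 2 ≤ T := (le_max_left _ _).trans hTm
  have hT1 : T₁ ≤ T := (le_max_right _ _).trans hTm
  have hT0 : 0 < T := by linarith
  have hL := log_ge hT
  have hc : 0 < t * Real.log T := by linarith
  have ht : 0 < t := by
    by_contra h6
    have : t * Real.log T ≤ 0 := mul_nonpos_of_nonpos_of_nonneg (by linarith) (by linarith)
    linarith
  have hx1 : -δ ≤ x := by
    have := min_le_left δ K
    linarith
  have hx2 : |x| ≤ K := by
    have := min_le_right δ K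
    exact abs_le.2 ⟨by linarith, h4⟩
  have hs := size_nonneg' hT
  obtain ⟨A, hAe⟩ : ∃ A, A = size T * T ^ (t * Real.log T / 16 + x / 2 + 3 * ε / 8) :=
    ⟨_, rfl⟩
  have hA : 0 ≤ A := by
    rw [hAe]
    positivity
  have hp : ∀ u : ℝ, 0 ≤ u → ‖((Real.exp (-(u ^ 2 / t)) : ℝ) : ℂ) * xi (pt x τ + u)‖ ≤
      C * A * Real.exp (-(κ / 4) * u ^ 2) := by
    intro u hu
    rw [norm_mul, Complex.norm_real, Real.norm_of_nonneg (Real.exp_pos _).le, hAe]
    have h6 := h (t * Real.log T) x u h1 h2 hx1 h4 hu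
    have h7 := hb t T x τ u (t * Real.log T / 16 + x / 2 + ε / 2) hT ht hx2 h5 (by linarith)
    refine h7.trans (le_of_eq ?_)
    congr 4
    ring
  have h6 : ‖W t (pt x τ)‖ ≤ J * (C * A) := by
    rw [hJ]
    exact int_le (κ := κ / 4) (by positivity) (by positivity) hp
  calc ‖W t (pt x τ)‖ ≤ J * (C * A) := h6
    _ = (C * J) * A := by ring
    _ ≤ T ^ (ε / 2) * A := mul_le_mul_of_nonneg_right (hT₁ T hT1) hA
    _ = size T * T ^ (t * Real.log T / 16 + x / 2 + 7 * ε / 8) := by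
        rw [hAe]
        have e1 : T ^ (t * Real.log T / 16 + x / 2 + 7 * ε / 8) =
            T ^ (ε / 2) * T ^ (t * Real.log T / 16 + x / 2 + 3 * ε / 8) := by
          rw [← Real.rpow_add hT0]
          congr 1
          ring
        rw [e1]
        ring
    _ ≤ size T * T ^ (t * Real.log T / 16 + x / 2 + ε) := by
        refine mul_le_mul_of_nonneg_left ?_ hs
        exact Real.rpow_le_rpow_of_exponent_le (by linarith) (by linarith)

end Pool.Agent.DBC
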