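import Pool.Agent.DBC.Targets
import Pool.Agent.DBN.Vert

/-!
# CNJ: conjugation
-/

set_option autoImplicit false

namespace Pool.Agent.DBC

open Complex MeasureTheory Set Filter Topology
open Pool.Agent.DBN

theorem p_CNJ : T_CNJ := by
  intro t s
  unfold W
  rw [← integral_conj]
  congr 1
  funext u
  rw [map_mul, Complex.conj_ofReal, ← xi_conj, map_add, Complex.conj_ofReal]

end Pool.Agent.DBC
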