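import Pool.Agent.DBC.Targets

set_option autoImplicit false

/-!
# DBC, block GAU: truncated Gaussian integrals
-/

namespace Pool.Agent.DBC

open Complex MeasureTheory Set Filter Topology

namespace GAU_

theorem int_f {t : ℝ} (ht : 0 < t) :
    Integrable (fun v : ℝ => Real.exp (-(v ^ 2 / t))) ∧
      ∫ v : ℝ, Real.exp (-(v ^ 2 / t)) = √(Real.pi * t) := by
  have h1 : (fun v : ℝ => Real.exp (-(v ^ 2 / t))) = fun v => Real.exp (-t⁻¹ * v ^ 2) := by
    ext v
    congr 1
    rw [div_eq_inv_mul]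
    ring
  constructor
  · rw [h1]
    exact integrable_exp_neg_mul_sq (inv_pos.2 ht)
  · rw [h1, integral_gaussian, div_inv_eq_mul]

theorem int_abs {t : ℝ} (ht : 0 < t) :
    Integrable (fun v : ℝ => |v| * Real.exp (-(v ^ 2 / t))) ∧
      ∫ v : ℝ, |v| * Real.exp (-(v ^ 2 / t)) = t := by
  have h1 : (fun v : ℝ => |v| * Real.exp (-(v ^ 2 / t))) =
      fun v => ‖v * Real.exp (-t⁻¹ * v ^ 2)‖ := by
    ext v
    rw [norm_mul, Real.norm_eq_abs, Real.norm_eq_abs, Real.abs_exp]
    congr 2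
    rw [div_eq_inv_mul]
    ring
  constructor
  · rw [h1]
    exact (integrable_mul_exp_neg_mul_sq (inv_pos.2 ht)).norm
  · have h2 : (fun v : ℝ => |v| * Real.exp (-(v ^ 2 / t))) =
        fun v => (fun x : ℝ => x * Real.exp (-(x ^ 2 / t))) |v| := by
      ext v
      simp only [sq_abs]
    have h3 := integral_comp_abs (f := fun x : ℝ => x * Real.exp (-(x ^ 2 / t)))
    rw [h2, h3]
    have h4 := _root_.integral_rpow_mul_exp_neg_mul_rpow (p := 2) (q := 1) (b := t⁻¹) (by norm_num)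
      (by norm_num) (inv_pos.2 ht)
    have h5 : ∫ x in Ioi (0 : ℝ), x * Real.exp (-(x ^ 2 / t)) =
        ∫ x in Ioi (0 : ℝ), x ^ (1 : ℝ) * Real.exp (-t⁻¹ * x ^ (2 : ℝ)) := by
      congr 1
      ext x
      rw [Real.rpow_one, Real.rpow_two]
      congr 2
      rw [div_eq_inv_mul]
      ring
    rw [h5, h4]
    have h6 : (-(1 + 1) / 2 : ℝ) = -1 := by norm_num
    have h7 : ((1 + 1) / 2 : ℝ) = 1 := by norm_num
    rw [h6, h7, Real.Gamma_one, Real.rpow_neg_one, inv_inv]
    ring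

end GAU_

theorem p_GAU : T_GAU := by
  intro r t hr ht
  obtain ⟨hf, hf'⟩ := GAU_.int_f ht
  obtain ⟨hg, hg'⟩ := GAU_.int_f (t := 2 * t) (by linarith)
  obtain ⟨ha, ha'⟩ := GAU_.int_abs ht
  refine ⟨?_, ?_, ?_⟩
  · have h1 := integral_add_compl (measurableSet_Ioo (a := -r) (b := r)) hf
    rw [hf'] at h1
    have h2 : ∫ v in (Ioo (-r) r)ᶜ, Real.exp (-(v ^ 2 / t)) ≤
        ∫ v in (Ioo (-r) r)ᶜ, Real.exp (-(r ^ 2 / (2 * t))) * Real.exp (-(v ^ 2 / (2 * t))) := by
      apply setIntegral_mono_on hf.integrableOn (hg.const_mul _).integrableOn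
        measurableSet_Ioo.compl
      intro v hv
      rw [← Real.exp_add]
      apply Real.exp_le_exp.2
      have h3 : r ^ 2 ≤ v ^ 2 := by
        have h4 : ¬ (|v| < r) := fun h => hv (abs_lt.1 h)
        rw [← sq_abs v]
        exact pow_le_pow_left₀ hr.le (not_lt.1 h4) 2
      have h5 : r ^ 2 / (2 * t) ≤ v ^ 2 / (2 * t) := by gcongr
      have h6 : v ^ 2 / t = v ^ 2 / (2 * t) + v ^ 2 / (2 * t) := by
        field_simp
        norm_num
      linarith
    have h7 : ∫ v in (Ioo (-r) r)ᶜ, Real.exp (-(r ^ 2 / (2 * t))) * Real.exp (-(v ^ 2 / (2 * t))) ≤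
        Real.exp (-(r ^ 2 / (2 * t))) * √(Real.pi * (2 * t)) := by
      rw [← hg', ← integral_const_mul]
      exact setIntegral_le_integral (hg.const_mul _)
        (Filter.Eventually.of_forall fun v => by positivity)
    have h8 : √(Real.pi * (2 * t)) ≤ 2 * √(Real.pi * t) := by
      rw [show Real.pi * (2 * t) = 2 * (Real.pi * t) by ring, Real.sqrt_mul (by norm_num)]
      apply mul_le_mul_of_nonneg_right _ (Real.sqrt_nonneg _)
      rw [Real.sqrt_le_left (by norm_num)]
      norm_num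
    have h9 := mul_le_mul_of_nonneg_left h8 (Real.exp_pos (-(r ^ 2 / (2 * t)))).le
    linarith
  · rw [← hf']
    exact setIntegral_le_integral hf (Filter.Eventually.of_forall fun v => by positivity)
  · calc ∫ v in Ioo (-r) r, |v| * Real.exp (-(v ^ 2 / t))
        ≤ ∫ v : ℝ, |v| * Real.exp (-(v ^ 2 / t)) :=
          setIntegral_le_integral ha (Filter.Eventually.of_forall fun v => by positivity)
      _ = t := ha'

end Pool.Agent.DBC
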