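import Pool.Agent.DBC.Targets
import Pool.Agent.DBN.Far

/-!
# Integrability
-/

set_option autoImplicit false

namespace Pool.Agent.DBC

open Complex MeasureTheory Set Filter Topology
open Pool.Agent.DBN

namespace IGR_

theorem xi_cont (s : ℂ) : Continuous fun u : ℝ => xi (s + u) :=
  differentiable_xi.continuous.comp (by fun_prop)

theorem main (t : ℝ) (s : ℂ) (ht : 0 < t) :
    Integrable (fun u : ℝ => (1 + |u|) * (Real.exp (-(u ^ 2 / t)) * ‖xi (s + u)‖)) := by
  obtain ⟨C, hC, h⟩ := subG_xi (1 / (8 * t)) (by positivity)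
  set b : ℝ := 3 / (4 * t) with hb
  have hb0 : 0 < b := by positivity
  set C' : ℝ := C * Real.exp (‖s‖ ^ 2 / (4 * t)) with hC'
  have hC'0 : 0 ≤ C' := by positivity
  have i1 : Integrable fun u : ℝ => Real.exp (-b * u ^ 2) := integrable_exp_neg_mul_sq hb0
  have i2 : Integrable fun u : ℝ => |u| * Real.exp (-b * u ^ 2) := by
    have h1 := (integrable_mul_exp_neg_mul_sq hb0).norm
    refine h1.congr (Eventually.of_forall fun u => ?_)
    simp only
    rw [norm_mul, Real.norm_eq_abs, Real.norm_of_nonneg (Real.exp_pos _).le]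
  have i3 : Integrable fun u : ℝ => C' * ((1 + |u|) * Real.exp (-b * u ^ 2)) := by
    refine ((i1.add i2).const_mul C').congr (Eventually.of_forall fun u => ?_)
    simp only [Pi.add_apply]
    ring
  refine i3.mono' ?_ (Eventually.of_forall fun u => ?_)
  · apply Continuous.aestronglyMeasurable
    have h1 := (xi_cont s).norm
    fun_prop
  · rw [Real.norm_of_nonneg (by positivity)]
    have h2 : ‖s + u‖ ^ 2 ≤ 2 * ‖s‖ ^ 2 + 2 * u ^ 2 := by
      have h3 : ‖s + (u : ℂ)‖ ≤ ‖s‖ + |u| := by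
        refine (norm_add_le _ _).trans ?_
        rw [norm_real, Real.norm_eq_abs]
      calc ‖s + (u : ℂ)‖ ^ 2 ≤ (‖s‖ + |u|) ^ 2 := pow_le_pow_left₀ (norm_nonneg _) h3 2
        _ ≤ 2 * ‖s‖ ^ 2 + 2 * |u| ^ 2 := by nlinarith [sq_nonneg (‖s‖ - |u|)]
        _ = _ := by rw [sq_abs]
    have h4 : Real.exp (-(u ^ 2 / t)) * ‖xi (s + u)‖ ≤ C' * Real.exp (-b * u ^ 2) := by
      calc Real.exp (-(u ^ 2 / t)) * ‖xi (s + u)‖
          ≤ Real.exp (-(u ^ 2 / t)) * (C * Real.exp (1 / (8 * t) * ‖s + (u : ℂ)‖ ^ 2)) :=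
            mul_le_mul_of_nonneg_left (h _) (Real.exp_pos _).le
        _ ≤ Real.exp (-(u ^ 2 / t)) *
            (C * Real.exp (1 / (8 * t) * (2 * ‖s‖ ^ 2 + 2 * u ^ 2))) := by gcongr
        _ = C' * Real.exp (-b * u ^ 2) := by
            rw [hC', mul_left_comm, ← Real.exp_add, mul_assoc, ← Real.exp_add]
            congr 2
            rw [hb]
            field_simp
            ring
    calc (1 + |u|) * (Real.exp (-(u ^ 2 / t)) * ‖xi (s + u)‖)
        ≤ (1 + |u|) * (C' * Real.exp (-b * u ^ 2)) :=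
          mul_le_mul_of_nonneg_left h4 (by positivity)
      _ = _ := by ring

end IGR_

open IGR_ in
theorem p_IGR : T_IGR := by
  intro t s ht
  have h := main t s ht
  refine ⟨?_, ?_, h⟩
  · refine h.mono' ?_ (Eventually.of_forall fun u => ?_)
    · apply Continuous.aestronglyMeasurable
      have h1 := xi_cont s
      fun_prop
    · rw [norm_mul, norm_real, Real.norm_of_nonneg (Real.exp_pos _).le]
      have h2 : 0 ≤ Real.exp (-(u ^ 2 / t)) * ‖xi (s + u)‖ := by positivity
      nlinarith [abs_nonneg u, mul_nonneg (abs_nonneg u) h2]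
  · refine h.mono' ?_ (Eventually.of_forall fun u => ?_)
    · apply Continuous.aestronglyMeasurable
      have h1 := xi_cont s
      fun_prop
    · rw [norm_mul, norm_real, norm_mul, Real.norm_of_nonneg (Real.exp_pos _).le,
        Real.norm_eq_abs, mul_assoc]
      have h2 : 0 ≤ Real.exp (-(u ^ 2 / t)) * ‖xi (s + u)‖ := by positivity
      nlinarith [abs_nonneg u, mul_nonneg (abs_nonneg u) h2]

end Pool.Agent.DBC
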