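import Pool.Agent.DBC.Targets
import Pool.Agent.DBN.Down2
import Pool.Agent.SPZ.S4

/-!
# Target LOC: the function `xi` to the right of the line `Re s = 1`
-/

set_option autoImplicit false

namespace Pool.Agent.DBC

open Complex MeasureTheory Set Filter Topology
open Pool.Agent.DBN

namespace LOC_

/-- two-sided bound for `xi` -/
lemma xi_both {δ K : ℝ} (hδ : 0 < δ) : ∃ A : ℝ, 1 ≤ A ∧
    ∀ (T : ℝ) (s : ℂ), 2 * K + 4 ≤ T → 1 + δ ≤ s.re → s.re ≤ K → |s.im - T| ≤ K →
      size T * T ^ ((s.re - 1 / 2) / 2) ≤ A * ‖xi s‖ ∧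
      ‖xi s‖ ≤ A * (size T * T ^ ((s.re - 1 / 2) / 2)) := by
  obtain ⟨B, hB1, hB⟩ := Pool.Agent.Lib.ZetaConv.norm_zeta_le_of_re hδ
  obtain ⟨b, hb, hb'⟩ := (Pool.Agent.SPZ.s4).2 δ hδ
  obtain ⟨C, hC1, hC⟩ := xi_two K
  set E : ℝ := 2 ^ (7 / 4 : ℝ) * Real.exp (Real.pi * K / 4) with hE
  have hE0 : 0 < E := by positivity
  set P : ℝ := 2 ^ K with hP
  have hP0 : 0 < P := by positivity
  have hA0 : 0 ≤ E * P * C / b := by positivity
  have hA1 : 0 ≤ C * E * P * B := by positivity
  refine ⟨1 + E * P * C / b + C * E * P * B, by linarith, fun T s hT h1 h2 h3 => ?_⟩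
  obtain ⟨h4, h5⟩ := abs_le.mp h3
  set T' := s.im with hT'
  set x := s.re with hx
  have hT0 : 0 < T := by linarith
  have hT'2 : 2 ≤ T' := by linarith
  have hT'0 : 0 < T' := by linarith
  have hs := size_pos hT0
  have hs' := size_pos hT'0
  have es : s = (x : ℂ) + T' * I := by rw [hx, hT']; exact (re_add_im s).symm
  obtain ⟨h6, h7⟩ := hC x T' (by rw [abs_of_pos (by linarith)]; exact h2) hT'2
  rw [← es] at h6 h7
  have h8 := hB s h1
  have h9 := hb' s h1
  set e := (x - 1 / 2) / 2 with he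
  have he0 : 0 < e := by rw [he]; linarith
  have heK : e ≤ K := by rw [he]; linarith
  have h10 : T' ^ e ≤ P * T ^ e := by
    refine (rpow_shift_le hT0 (by linarith) (by linarith) e).trans ?_
    have : (2 : ℝ) ^ |e| ≤ P := by
      rw [abs_of_pos he0]
      exact Real.rpow_le_rpow_of_exponent_le (by norm_num) heK
    gcongr
  have h11 : T ^ e ≤ P * T' ^ e := by
    refine (rpow_shift_le hT'0 (by linarith) (by linarith) e).trans ?_
    have : (2 : ℝ) ^ |e| ≤ P := by
      rw [abs_of_pos he0]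
      exact Real.rpow_le_rpow_of_exponent_le (by norm_num) heK
    gcongr
  have h12 : size T' ≤ E * size T := size_shift_le hT0 (by linarith) (by linarith) h3
  have h13 : size T ≤ E * size T' := by
    refine size_shift_le hT'0 (by linarith) (by linarith) ?_
    rw [abs_sub_comm]
    exact h3
  have hp : 0 < T' ^ e := by positivity
  have hp' : 0 < T ^ e := by positivity
  constructor
  · have h14 : T' ^ e * size T' * b ≤ C * ‖xi s‖ :=
      (mul_le_mul_of_nonneg_left h9 (by positivity)).trans h7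
    calc size T * T ^ e ≤ (E * size T') * (P * T' ^ e) := by gcongr
      _ = E * P / b * (T' ^ e * size T' * b) := by field_simp
      _ ≤ E * P / b * (C * ‖xi s‖) := by gcongr
      _ = E * P * C / b * ‖xi s‖ := by ring
      _ ≤ _ := by
        gcongr
        linarith
  · calc ‖xi s‖ ≤ C * (T' ^ e * size T' * ‖riemannZeta s‖) := h6
      _ ≤ C * ((P * T ^ e) * (E * size T) * B) := by gcongr
      _ = C * E * P * B * (size T * T ^ e) := by ring
      _ ≤ _ := by
        gcongr
        linarith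

end LOC_

open LOC_

theorem p_LOC : T_LOC := by
  intro δ K hδ hK
  obtain ⟨A, hA1, hA⟩ := xi_both (K := K + 1) (half_pos hδ)
  set ρ : ℝ := min 1 (δ / 2) with hρ
  have hρ0 : 0 < ρ := lt_min one_pos (half_pos hδ)
  have hρ1 : ρ ≤ 1 := min_le_left _ _
  have hρ2 : ρ ≤ δ / 2 := min_le_right _ _
  have hA2 : 0 ≤ (A * A + 2) / ρ := by positivity
  refine ⟨ρ / 2, A + (A * A + 2) / ρ, 2 * (K + 1) + 4, by positivity, by linarith, by linarith,
    fun T s hT h1 h2 h3 => ?_⟩
  obtain ⟨h4, h5⟩ := hA T s hT (by linarith) (by linarith) (h3.trans (by linarith))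
  have hT0 : 0 < T := by linarith
  have hs := size_pos hT0
  have hp : 0 < T ^ ((s.re - 1 / 2) / 2) := by positivity
  have hx0 : 0 < ‖xi s‖ := by
    have : 0 < A * ‖xi s‖ := lt_of_lt_of_le (by positivity) h4
    exact pos_of_mul_pos_right this (by linarith)
  have hxs : xi s ≠ 0 := norm_pos_iff.mp hx0
  refine ⟨h4.trans ?_, fun v hv => ?_⟩
  · gcongr
    linarith
  · set f : ℂ → ℂ := fun z => exp (-(z / 2 * Real.log T)) * xi (s + z) / xi s with hf
    have hf0 : f 0 = 1 := by
      rw [hf]
      simp [hxs]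
    have hfd : Differentiable ℂ f := by
      have := differentiable_xi
      rw [hf]
      fun_prop
    have hmap : MapsTo f (Metric.ball 0 ρ) (Metric.closedBall (f 0) (A * A + 2)) := by
      intro z hz
      rw [mem_ball_zero_iff] at hz
      rw [Metric.mem_closedBall, hf0, dist_eq_norm]
      have hz1 : |z.re| ≤ ρ := (abs_re_le_norm z).trans hz.le
      have hz2 : |z.im| ≤ ρ := (abs_im_le_norm z).trans hz.le
      obtain ⟨hz3, hz4⟩ := abs_le.mp hz1
      obtain ⟨hz5, hz6⟩ := abs_le.mp hz2
      obtain ⟨h3a, h3b⟩ := abs_le.mp h3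
      obtain ⟨-, h6⟩ := hA T (s + z) hT (by rw [add_re]; linarith) (by rw [add_re]; linarith)
        (by rw [add_im, abs_le]; constructor <;> linarith)
      have h7 : ‖exp (-(z / 2 * Real.log T))‖ = T ^ (-(z.re / 2)) := by
        rw [norm_exp, Real.rpow_def_of_pos hT0]
        congr 1
        simp
        ring
      have h8 : ‖f z‖ ≤ A * A := by
        rw [hf]
        simp only
        rw [norm_div, norm_mul, h7, div_le_iff₀ hx0]
        have e1 : T ^ (((s + z).re - 1 / 2) / 2) = T ^ (z.re / 2) * T ^ ((s.re - 1 / 2) / 2) := by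
          rw [← Real.rpow_add hT0, add_re]
          congr 1
          ring
        rw [e1] at h6
        have e2 : T ^ (-(z.re / 2)) * T ^ (z.re / 2) = 1 := by
          rw [← Real.rpow_add hT0]
          simp
        calc T ^ (-(z.re / 2)) * ‖xi (s + z)‖
            ≤ T ^ (-(z.re / 2)) *
              (A * (size T * (T ^ (z.re / 2) * T ^ ((s.re - 1 / 2) / 2)))) := by gcongr
          _ = (T ^ (-(z.re / 2)) * T ^ (z.re / 2)) *
              (A * (size T * T ^ ((s.re - 1 / 2) / 2))) := by ring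
          _ = A * (size T * T ^ ((s.re - 1 / 2) / 2)) := by rw [e2, one_mul]
          _ ≤ A * (A * ‖xi s‖) := by gcongr
          _ = A * A * ‖xi s‖ := by ring
      calc ‖f z - 1‖ ≤ ‖f z‖ + ‖(1 : ℂ)‖ := norm_sub_le _ _
        _ ≤ A * A + 1 := by
          rw [norm_one]
          linarith
        _ ≤ A * A + 2 := by linarith
    have hvb : (v : ℂ) ∈ Metric.ball (0 : ℂ) ρ := by
      rw [mem_ball_zero_iff, Complex.norm_real]
      exact lt_of_le_of_lt hv (by linarith)
    have h9 := Complex.dist_le_div_mul_dist_of_mapsTo_ball hfd.differentiableOn hmap hvb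
    rw [hf0, dist_eq_norm, dist_zero_right, Complex.norm_real] at h9
    have e3 : ((T ^ (-(v / 2)) : ℝ) : ℂ) * xi (s + v) - xi s = (f v - 1) * xi s := by
      rw [hf]
      simp only
      rw [Real.rpow_def_of_pos hT0]
      push_cast
      have : (Real.log T : ℂ) * (-((v : ℂ) / 2)) = -((v : ℂ) / 2 * Real.log T) := by ring
      rw [this]
      field_simp
    rw [e3, norm_mul]
    refine mul_le_mul_of_nonneg_right (h9.trans ?_) (norm_nonneg _)
    rw [Real.norm_eq_abs]
    gcongr
    linarith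

end Pool.Agent.DBC
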