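import Pool.Agent.DBC.Targets
import Pool.Agent.DBN.Up
import Pool.Agent.DBN.Far
import Pool.Agent.DBN.Xi

/-!
# DBC, target SPL: exact splitting of the flow
-/

set_option autoImplicit false

namespace Pool.Agent.DBC

open Complex MeasureTheory Set Filter Topology
open Pool.Agent.DBN

namespace SPL_

theorem integrable_exp_xi {t : ℝ} (ht : 0 < t) (s : ℂ) :
    Integrable (fun u : ℝ => ((Real.exp (-(u ^ 2 / t)) : ℝ) : ℂ) * xi (s + u)) := by
  obtain ⟨C, hC, h⟩ := (subG_xi.affine s 1) (1 / (2 * t)) (by positivity)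
  have h1 : Integrable fun u : ℝ => C * Real.exp (-(1 / (2 * t)) * u ^ 2) :=
    (integrable_exp_neg_mul_sq (by positivity)).const_mul C
  refine h1.mono' ?_ (Eventually.of_forall fun u => ?_)
  · have := differentiable_xi.continuous
    exact Continuous.aestronglyMeasurable (by fun_prop)
  · have h2 := h (u : ℂ)
    simp only [one_mul] at h2
    rw [norm_mul, Complex.norm_real, Real.norm_of_nonneg (Real.exp_pos _).le]
    calc Real.exp (-(u ^ 2 / t)) * ‖xi (s + u)‖
        ≤ Real.exp (-(u ^ 2 / t)) * (C * Real.exp (1 / (2 * t) * ‖(u : ℂ)‖ ^ 2)) := by gcongr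
      _ = C * Real.exp (-(1 / (2 * t)) * u ^ 2) := by
          rw [Complex.norm_real, Real.norm_eq_abs, sq_abs, mul_left_comm, ← Real.exp_add]
          congr 2
          field_simp
          ring

/-- the whole line is the sum of the two half lines -/
theorem integral_split {t : ℝ} (ht : 0 < t) (s : ℂ) :
    ∫ u : ℝ, ((Real.exp (-(u ^ 2 / t)) : ℝ) : ℂ) * xi (s + u) = W t s + W t (1 - s) := by
  have hi := integrable_exp_xi ht s
  have h1 := intervalIntegral.integral_Iic_add_Ioi (b := (0 : ℝ)) hi.integrableOn hi.integrableOn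
  have h2 := integral_comp_neg_Ioi (0 : ℝ)
    (fun u : ℝ => ((Real.exp (-(u ^ 2 / t)) : ℝ) : ℂ) * xi (s + u))
  rw [neg_zero] at h2
  rw [← h1, ← h2, add_comm]
  congr 1
  unfold W
  refine setIntegral_congr_fun measurableSet_Ioi fun u _ => ?_
  have h3 : xi (s + ((-u : ℝ) : ℂ)) = xi (1 - s + u) := by
    rw [← xi_one_sub (1 - s + u)]
    congr 1
    push_cast
    ring
  rw [h3, neg_sq]

end SPL_

open SPL_ in
theorem p_SPL : T_SPL := by
  intro t s ht
  have hst : 0 < √t := Real.sqrt_pos.2 ht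
  rw [flow_pos ht, ← integral_split ht s]
  have h1 := Measure.integral_comp_mul_left
    (fun u : ℝ => ((Real.exp (-(u ^ 2 / t)) : ℝ) : ℂ) * xi (s + u)) (√t)
  have h2 : ∀ u : ℝ, (Real.exp (-u ^ 2) : ℂ) * xi (s + √t * u) =
      ((Real.exp (-((√t * u) ^ 2 / t)) : ℝ) : ℂ) * xi (s + ((√t * u : ℝ) : ℂ)) := by
    intro u
    have e1 : (√t * u) ^ 2 / t = u ^ 2 := by
      rw [mul_pow, Real.sq_sqrt ht.le]
      field_simp
    rw [e1]
    push_cast
    ring_nf
  simp_rw [h2]
  rw [h1, abs_of_pos (inv_pos.2 hst), Complex.real_smul, ← mul_assoc]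
  congr 1
  rw [Real.sqrt_mul Real.pi_pos.le, mul_inv]
  push_cast
  ring

end Pool.Agent.DBC
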