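import Pool.Agent.DBC.Defs3

/-!
# Real zeros of the flow at almost all heights: definitions
-/

set_option autoImplicit false

namespace Pool.Agent.DBC

open Complex MeasureTheory Set Filter Topology
open Pool.Agent.DBN

/-- all zeros `z` of `H_t` with `|z - 2 T| ≤ K` are real and simple, and the real ones have the
distance `(4 π + O(ε)) / log T` -/
def CrysAt (K ε t T : ℝ) : Prop :=
  (∀ z : ℂ, ‖z - 2 * T‖ ≤ K → H t z = 0 → z.im = 0 ∧ deriv (H t) z ≠ 0) ∧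
  (∀ x y : ℝ, |x - 2 * T| ≤ K → |y - 2 * T| ≤ K → x < y → H t x = 0 → H t y = 0 →
    4 * Real.pi - ε ≤ (y - x) * Real.log T) ∧
  (∀ x : ℝ, |x - 2 * T| ≤ K → ∃ y : ℝ, x ≤ y ∧ (y - x) * Real.log T ≤ 4 * Real.pi + ε ∧
    H t y = 0)

/-- for every `0 < c₁ ≤ c₂`: at almost all heights `T` (all `T` in `[X, 2 X]` outside a set of
measure `X^(1 - δ)`) the zeros of `H_t` near `2 T` are real, simple and regularly spaced at all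
times `t` with `c₁ ≤ t log T ≤ c₂` -/
def AlmostAll (c₁ c₂ : ℝ) : Prop :=
  ∀ K ε : ℝ, 0 < K → 0 < ε → ∃ δ X₀ : ℝ, 0 < δ ∧ ∀ X : ℝ, X₀ ≤ X →
    volume {T : ℝ | X ≤ T ∧ T ≤ 2 * X ∧ ∃ t : ℝ, c₁ ≤ t * Real.log T ∧ t * Real.log T ≤ c₂ ∧
      ¬ CrysAt K ε t T} ≤ ENNReal.ofReal (X ^ (1 - δ))

/-- bounds for `xi` near `1 / 2 + i T`, `T` in `G`, with the exponent `m (Re w)`, `|Im w| ≤ R` -/
def XiG (G : Set ℝ) (m : ℝ → ℝ) : Prop :=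
  ∀ ε κ R : ℝ, 0 < ε → 0 < κ → 0 < R → ∃ C T₀ : ℝ, 0 ≤ C ∧ 2 ≤ T₀ ∧ ∀ (T : ℝ) (w : ℂ),
    T ∈ G → T₀ ≤ T → |w.im| ≤ R → ‖xi (1 / 2 + T * I + w)‖ ≤
      C * size T * T ^ (m w.re + ε) * Real.exp (κ * ‖w‖ ^ 2 * Real.log T)

/-- two-sided bounds for `xi` for `Re s ≥ 1/2 + l/4 + δ` near `i T`, `T` in `G` -/
def XbG (G : Set ℝ) (l : ℝ) : Prop :=
  ∀ δ K ε : ℝ, 0 < δ → 0 < K → 0 < ε → ∃ T₀ : ℝ, 2 ≤ T₀ ∧ ∀ (T : ℝ) (s : ℂ), T ∈ G → T₀ ≤ T →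
    1 / 2 + l / 4 + δ ≤ s.re → s.re ≤ K → |s.im - T| ≤ K →
    size T * T ^ ((s.re - 1 / 2) / 2 - ε) ≤ ‖xi s‖ ∧
      ‖xi s‖ ≤ size T * T ^ ((s.re - 1 / 2) / 2 + ε)

/-- the hypotheses of the main part, on a set `G` of heights -/
structure HypG (G : Set ℝ) (l c₁ c₂ K : ℝ) : Prop where
  l0 : 0 < l
  lc : l < c₁
  cc : c₁ ≤ c₂
  K0 : 0 < K
  xl : XiG G (mm l)
  xb : XbG G l

/-- `Q t T x τ` for all large `T` in `G`, `c₁ ≤ t log T ≤ c₂`, `-δ ≤ x ≤ K`, `|τ - T| ≤ K` -/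
def EvG (G : Set ℝ) (c₁ c₂ K δ : ℝ) (Q : ℝ → ℝ → ℝ → ℝ → Prop) : Prop :=
  ∃ T₀ : ℝ, 2 ≤ T₀ ∧ ∀ t T x τ : ℝ, T ∈ G → T₀ ≤ T → c₁ ≤ t * Real.log T →
    t * Real.log T ≤ c₂ → -δ ≤ x → x ≤ K → |τ - T| ≤ K → Q t T x τ

/-- the upper bound `T^ε` for `ζ` to the right of the critical line, `|Im s - T| ≤ R` -/
def UpZ (ε R T : ℝ) : Prop :=
  ∀ s : ℂ, 1 / 2 ≤ s.re → s.re ≤ R → |s.im - T| ≤ R → ‖riemannZeta s‖ ≤ T ^ ε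

/-- the lower bound `T^(-ε)` for `ζ`, `Re s ≥ 1/2 + η`, `|Im s - T| ≤ R` -/
def LoZ (η ε R T : ℝ) : Prop :=
  ∀ s : ℂ, 1 / 2 + η ≤ s.re → s.re ≤ R → |s.im - T| ≤ R → T ^ (-ε) ≤ ‖riemannZeta s‖

/-- the good heights of level `n` -/
def Gd (η : ℝ) (n : ℕ) : Set ℝ :=
  {T : ℝ | UpZ (1 / (n + 1 : ℝ)) (n + 1) T ∧ LoZ η (1 / (n + 1 : ℝ)) (n + 1) T}

/-- the mollifier `∑_{n ≤ Y} μ(n) n^(-s)` -/
noncomputable def Mo (Y : ℕ) (s : ℂ) : ℂ :=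
  ∑ n ∈ Finset.Icc 1 Y, ((ArithmeticFunction.moebius n : ℤ) : ℂ) * (n : ℂ) ^ (-s)

/-- `∑_{d | n, d ≤ Y} μ(d)` -/
noncomputable def am (Y n : ℕ) : ℝ :=
  ∑ d ∈ (Finset.Icc 1 Y).filter (fun d => d ∣ n), ((ArithmeticFunction.moebius d : ℤ) : ℝ)

/-- `-∑_{k ≤ Y} μ(k) {1 / (k t)} - 1_{t ≤ 1}`, its Mellin transform is `(ζ Mo - 1) / s` -/
noncomputable def GG (Y : ℕ) (t : ℝ) : ℝ :=
  -(∑ k ∈ Finset.Icc 1 Y, ((ArithmeticFunction.moebius k : ℤ) : ℝ) * Int.fract (1 / (k * t))) -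
    if t ≤ 1 then 1 else 0

end Pool.Agent.DBC
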