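import Pool.Agent.DBC.Defs

/-!
# All zeros of `H_t` beyond `exp (c / t)` are real and regularly spaced: targets

Project DBC (owner helper11), addition to `MP_4e5e8a_nt.DBNFlow` (row 4980). One file per target,
`Pool/Agent/DBC/P_X.lean`, `theorem Pool.Agent.DBC.p_X (other targets) : T_X`, helper lemmas in the
namespace `Pool.Agent.DBC.X_`. The docstrings contain the proofs. There `L = log T`,
`c = t * L` (so `c₁ ≤ c ≤ c₂`, `1 / t = L / c`, `e^(-u²/t) = T^(-u²/c)`), `sd t T = c / 4`.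
Landed in `Pool.Agent.DBN` (use freely): `xi_two`, `xi_one_sub`, `differentiable_xi` (Xi),
`subG_xi`, `xi_far`, `size_pos` (Far), `flow_pos` (Up), `H_eq_flow` (PhiC), `xi_conj` (Vert),
`flow_conj` (ZS), `mu_of_good`, `mu_outside` (Good), `mu_symm` (Mu2), `xi_le` (ZX), `few_growth`
(ZMain), `main` (Final).
-/

set_option autoImplicit false

namespace Pool.Agent.DBC

open Complex MeasureTheory Set Filter Topology
open Pool.Agent.DBN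

/-! ### exact identities -/

/-- SPL. Exact splitting of the flow. Proof: `flow_pos`, substitute `u = √t v` in
`∫ v, e^(-v²) xi (s + √t v)` (`integral_comp_mul_left`), split the line at `0`; on the negative half
line replace `u` by `-u` and use `xi (s - u) = xi (1 - s + u)` (`xi_one_sub`). `√π * √t = √(π t)`.
Integrability of `u ↦ e^(-u²/t) xi (s + u)` from `subG_xi` (`‖s + u‖² ≤ 2 ‖s‖² + 2 u²`). -/
def T_SPL : Prop := ∀ (t : ℝ) (s : ℂ), 0 < t →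
  flow t s = (((√(Real.pi * t))⁻¹ : ℝ) : ℂ) * (W t s + W t (1 - s))

/-- IGR. Integrability. Proof: `subG_xi` with `δ = 1 / (8 t)`: the norm is at most
`C (1 + |u|) e^(-u²/t + (2 ‖s‖² + 2 u²)/(8 t))`; continuity of `xi`. -/
def T_IGR : Prop := ∀ (t : ℝ) (s : ℂ), 0 < t →
  Integrable (fun u : ℝ => ((Real.exp (-(u ^ 2 / t)) : ℝ) : ℂ) * xi (s + u)) ∧
  Integrable (fun u : ℝ => ((u * Real.exp (-(u ^ 2 / t)) : ℝ) : ℂ) * xi (s + u)) ∧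
  Integrable (fun u : ℝ => (1 + |u|) * (Real.exp (-(u ^ 2 / t)) * ‖xi (s + u)‖))

/-- DER (IGR may be used). Derivative of `W t`. Proof: (1) differentiate under the integral
(`hasDerivAt_integral_of_dominated_loc_of_deriv_le` on a ball of radius `1`, see
`differentiable_avg` in DBN/FlowReg.lean): the derivative is `∫_0^∞ e^(-u²/t) xi' (s + u) du`;
`‖xi' w‖ ≤ sup_{‖z - w‖ ≤ 1} ‖xi z‖` (Cauchy) and `subG_xi`. (2) `e^(-u²/t) xi (s + u)` has the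
`u`-derivative `-(2 u / t) e^(-u²/t) xi (s + u) + e^(-u²/t) xi' (s + u)`, it tends to `0` at
infinity and is `xi s` at `0` (`integral_Ioi_of_hasDerivAt_of_tendsto`). -/
def T_DER : Prop := ∀ (t : ℝ) (s : ℂ), 0 < t →
  HasDerivAt (W t) (((2 / t : ℝ) : ℂ) * V t s - xi s) s

/-- CNJ. Proof: `xi (conj s) = conj (xi s)` (see `flow_conj` in DBN/ZS.lean), `integral_conj`. -/
def T_CNJ : Prop := ∀ (t : ℝ) (s : ℂ),
  W t ((starRingEnd ℂ) s) = (starRingEnd ℂ) (W t s)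

/-! ### estimates away from the saddle point -/

/-- XIL. Proof: `mm l` is continuous (both formulas give `l / 8` for `|y| = l / 4`) and
nonnegative. `xi_le` (DBN/ZX.lean) needs `MuLe (1/2 + σ) (mm l σ - σ/2)` for every `σ`. For
`|σ| ≤ l/4` this is `mu_of_growth` (`0 < l → GrowthLe l A → MuLe (1/2 + σ) (A + σ²/l - σ/2)`; it
is used in Final.lean). For `σ ≥ l/4`: `mu_of_good` and `mu_outside` give
`MuLe (1/2 + σ) 0`; for `σ ≤ -l/4` apply `mu_symm`. (Compare `flow_good` in DBN/ZA.lean.) -/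
def T_XIL : Prop := ∀ l : ℝ, 0 < l → GrowthLe l (l / 16) → XiLe (mm l)

/-- INA. Elementary inequality. Proof: (1) first with `g₁ = min ((c₁ - l)²/(16 c₂)) (r²/c₂) - δ` in
place of `g` and without `κ u²`, for `δ ≤ l/4`. If `|x + u| ≤ l/4`, with `y = x + u`:
`y²/l - (y - x)²/c ≤ y² (1/l - 1/c) + 2 x y / c ≤ (l²/16) (1/l - 1/c) + max x (-x) / 2`, so the left
side is at most `l/8 - l²/(16 c) + |x|/2 = c/16 - (c - l)²/(16 c) + |x|/2` and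
`|x|/2 ≤ x/2 + δ`. If `|x + u| > l/4` then `x + u > 0` (otherwise `|x + u| ≤ -x ≤ δ`) and the left
side is `(x + u)/2 - u²/c = c/16 + x/2 - (u - c/4)²/c`. (2) Apply (1) with `c' = c + η` in place of
`c`, `c₂ + 1` in place of `c₂`, `r/2` in place of `r` (`η ≤ min 1 (2 r)`):
`-u²/c = -u²/c' - η u²/(c c')` and `c'/16 = c/16 + η/16`; take `η ≤ 8 g₁`, `κ = η / (c₂ (c₂ + 1))`.
-/
def T_INA : Prop := ∀ l c₁ c₂ K r : ℝ, 0 < l → l < c₁ → c₁ ≤ c₂ → 0 < K → 0 < r →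
  ∃ δ g κ : ℝ, 0 < δ ∧ 0 < g ∧ 0 < κ ∧ ∀ c x u : ℝ, c₁ ≤ c → c ≤ c₂ → -δ ≤ x → x ≤ K → 0 ≤ u →
    r ≤ |u - c / 4| → mm l (x + u) - u ^ 2 / c ≤ c / 16 + x / 2 - g - κ * u ^ 2

/-- INB. Elementary inequality, the other side. Proof: first without `κ u²`, then as in INA (2).
`y = u - x`. If `|y| > l/4` and `y > 0`: `(u - x)/2 - u²/c ≤ c/16 - x/2 ≤ c/16 + x/2 - δ`. If
`|y| > l/4` and `y < 0`: `(x - u)/2 - u²/c ≤ x/2 = c/16 + x/2 - c/16`. If `|y| ≤ l/4`, `y ≥ 0`: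
`l/16 + y²/l - (y + x)²/c ≤ l/16 + y² (1/l - 1/c) ≤ c/16 - (c - l)²/(16 c)`. If `|y| ≤ l/4`, `y <
0`:
`y²/l ≤ |y|/4 ≤ x/4`, so the left side is at most `l/16 + x/4 ≤ c/16 + x/2 - δ/4`. -/
def T_INB : Prop := ∀ l c₁ c₂ K δ : ℝ, 0 < l → l < c₁ → c₁ ≤ c₂ → 0 < K → 0 < δ →
  ∃ g κ : ℝ, 0 < g ∧ 0 < κ ∧ ∀ c x u : ℝ, c₁ ≤ c → c ≤ c₂ → δ ≤ x → x ≤ K → 0 ≤ u →
    mm l (u - x) - u ^ 2 / c ≤ c / 16 + x / 2 - g - κ * u ^ 2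

/-- OFA (from INA). Away from the saddle. Proof: INA, `g`, `κ`. `XiLe (mm l)` with `ε = g/4` and
`κ' = min (κ/4) (g/(12 K² + 12))` at `w = x + u + i (τ - T)`, `‖w‖² ≤ 2 u² + 2 K² + K²` (take
`δ ≤ K`): `e^(-u²/t) ‖xi (pt x τ + u)‖ ≤ C size T * T^(mm l (x + u) + g/4 - u²/c + κ' (2 u² + 3 K²))
≤ C size T * T^(c/16 + x/2 - g/2) * T^(-κ u²/2)`, and `∫_0^∞ (1 + u) T^(-κ u²/2) du` is at most a
constant for `T ≥ 2` (`T^(-κ u²/2) ≤ exp (-κ u²/4)`). The bound for `xi (pt x τ)` is the case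
`u = 0` (`|0 - c/4| ≥ r`, as `r ≤ 1/4 < c₁/4`). -/
def T_OFA : Prop := ∀ l c₁ c₂ K r : ℝ, Hyp l c₁ c₂ K → 0 < r → r ≤ 1 / 4 →
  ∃ δ g C : ℝ, 0 < δ ∧ 0 < g ∧ 0 ≤ C ∧ Ev c₁ c₂ K δ (fun t T x τ =>
    ∫ u in Ioi (0 : ℝ) \ Ioo (sd t T - r) (sd t T + r),
      (1 + u) * (Real.exp (-(u ^ 2 / t)) * ‖xi (pt x τ + u)‖) ≤
        C * (size T * T ^ (t * Real.log T / 16 + x / 2 - g)) ∧
    ‖xi (pt x τ)‖ ≤ C * (size T * T ^ (t * Real.log T / 16 + x / 2 - g)))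

/-- OFB (from INB). The other side. Proof: as OFA, with `x` replaced by `-x`, INB, and the integral
over the whole half line; `W` is at most the integral of the norm. -/
def T_OFB : Prop := ∀ l c₁ c₂ K δ : ℝ, Hyp l c₁ c₂ K → 0 < δ →
  ∃ g C : ℝ, 0 < g ∧ 0 ≤ C ∧ ∃ T₀ : ℝ, 2 ≤ T₀ ∧ ∀ t T x τ : ℝ, T₀ ≤ T →
    c₁ ≤ t * Real.log T → t * Real.log T ≤ c₂ → δ ≤ x → x ≤ K → |τ - T| ≤ K →
    ‖W t (pt (-x) τ)‖ ≤ C * (size T * T ^ (t * Real.log T / 16 + x / 2 - g))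

/-! ### the saddle point -/

/-- LOC. To the right of `Re s = 1`. Proof: `0 < c ≤ ‖ζ(w)‖ ≤ C` for `Re w ≥ 1 + δ/2`
(`‖ζ(w)‖ ≤ ζ(1 + δ/2)`, `1/ζ = ∑ μ(n) n^(-w)`; compare `xi_low` in DBN/ZLP.lean and `zeta_sub` in
DBN/Mu.lean). With `xi_two` and `T ≥ 2 K + 4`: for complex `v`, `‖v‖ ≤ ρ := min 1 (δ/2)`, the
function
`f v = T^(-v/2) xi (s + v) / xi s` has `‖f v‖ ≤ C₁` (`Im` changes by at most `1`: `size`, and
`(Im)^p / T^p` for `|p| ≤ K`, are comparable with those at `T`; the exponent of `T` is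
`(Re s + Re v - 1/2)/2 - (Re s - 1/2)/2 - Re v / 2 = 0`). `f 0 = 1`, Cauchy:
`‖f' v‖ ≤ 2 C₁/ρ` for `‖v‖ ≤ ρ/2`, so `‖f v - 1‖ ≤ (2 C₁/ρ) ‖v‖`. The lower bound for `‖xi s‖` is in
`xi_two`. -/
def T_LOC : Prop := ∀ δ K : ℝ, 0 < δ → 0 < K → ∃ r C T₀ : ℝ, 0 < r ∧ 0 < C ∧ 2 ≤ T₀ ∧
  ∀ (T : ℝ) (s : ℂ), T₀ ≤ T → 1 + δ ≤ s.re → s.re ≤ K → |s.im - T| ≤ K →
    size T * T ^ ((s.re - 1 / 2) / 2) ≤ C * ‖xi s‖ ∧
    ∀ v : ℝ, |v| ≤ r → ‖((T ^ (-(v / 2)) : ℝ) : ℂ) * xi (s + v) - xi s‖ ≤ C * |v| * ‖xi s‖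

/-- GAU. Truncated Gaussian integrals. Proof: `∫ e^(-v²/t) = √(π t)`; outside `(-r, r)`
`e^(-v²/t) ≤ e^(-r²/(2t)) e^(-v²/(2t))`, with integral at most `√(2 π t) e^(-r²/(2t))`;
`∫ |v| e^(-v²/t) = t` over the line. -/
def T_GAU : Prop := ∀ r t : ℝ, 0 < r → 0 < t →
  √(Real.pi * t) - 2 * √(Real.pi * t) * Real.exp (-(r ^ 2 / (2 * t))) ≤
    ∫ v in Ioo (-r) r, Real.exp (-(v ^ 2 / t)) ∧
  ∫ v in Ioo (-r) r, Real.exp (-(v ^ 2 / t)) ≤ √(Real.pi * t) ∧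
  ∫ v in Ioo (-r) r, |v| * Real.exp (-(v ^ 2 / t)) ≤ t

/-- NEA (from LOC, GAU). The saddle. Proof: `δ = (c₁ - 2)/8`, LOC for `δ` and
`K' = K + c₂ + 1`, `r ≤ 1/4`; `s' = pt x τ + sd t T` has `Re s' = 1/2 + x + c/4 ≥ 1 + δ`. Substitute
`u = sd + v`: `(sd + v)²/t = sd²/t + v L/2 + v²/t` (`2 sd / t = L/2`), so
`e^(-u²/t) = e^(-sd²/t) T^(-v/2) e^(-v²/t)`, and by LOC the integral is
`e^(-sd²/t) xi s' (∫_{|v|<r} e^(-v²/t) dv + O(C ∫ |v| e^(-v²/t) dv))`; GAU: relative error at most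
`2 e^(-r²/(2t)) + C t/√(π t)`, and `t ≤ c₂/L → 0`. The second one: `u = sd + v`, the additional
error is at most `e^(-sd²/t) ‖xi s'‖ (1 + C r) ∫ |v| e^(-v²/t)`. Third: `sd²/t = t L²/16`, so
`e^(-sd²/t) = T^(-c/16)`, and LOC: `‖xi s'‖ ≥ C⁻¹ size T * T^(x/2 + c/8)`; `√(π t) ≥ √(c₁/L)` and
`C⁻¹ √(c₁/L) ≥ T^(-ε)` for large `T`. -/
def T_NEA : Prop := ∀ c₁ c₂ K : ℝ, 2 < c₁ → c₁ ≤ c₂ → 0 < K → ∃ r δ : ℝ, 0 < r ∧ r ≤ 1 / 4 ∧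
  0 < δ ∧ ∀ ε : ℝ, 0 < ε → Ev c₁ c₂ K δ (fun t T x τ =>
    ‖(∫ u in Ioo (sd t T - r) (sd t T + r),
      ((Real.exp (-(u ^ 2 / t)) : ℝ) : ℂ) * xi (pt x τ + u)) - PP t T (pt x τ)‖ ≤
        ε * ‖PP t T (pt x τ)‖ ∧
    ‖(∫ u in Ioo (sd t T - r) (sd t T + r),
      ((u * Real.exp (-(u ^ 2 / t)) : ℝ) : ℂ) * xi (pt x τ + u)) -
        (sd t T : ℂ) * PP t T (pt x τ)‖ ≤ ε * ‖PP t T (pt x τ)‖ ∧
    size T * T ^ (t * Real.log T / 16 + x / 2 - ε) ≤ ‖PP t T (pt x τ)‖)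

/-- SAD (from IGR, OFA, NEA). Proof: `Ioi 0` is the disjoint union of the interval (`r ≤ 1/4 <
sd t T`, as `sd ≥ c₁/4 > 1/2`) and of the rest; NEA and OFA; `δ` = the minimum of the two. The rest
is
at most `C size T * T^(c/16 + x/2 - g) ≤ C T^(-g/2) ‖PP‖` by the lower bound of NEA with
`ε = g/2`. -/
def T_SAD : Prop := ∀ l c₁ c₂ K : ℝ, Hyp l c₁ c₂ K → ∃ δ : ℝ, 0 < δ ∧ ∀ ε : ℝ, 0 < ε →
  Ev c₁ c₂ K δ (fun t T x τ =>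
    ‖W t (pt x τ) - PP t T (pt x τ)‖ ≤ ε * ‖PP t T (pt x τ)‖ ∧
    ‖V t (pt x τ) - (sd t T : ℂ) * PP t T (pt x τ)‖ ≤ ε * ‖PP t T (pt x τ)‖ ∧
    ‖xi (pt x τ)‖ ≤ ε * ‖PP t T (pt x τ)‖ ∧
    size T * T ^ (t * Real.log T / 16 + x / 2 - ε) ≤ ‖PP t T (pt x τ)‖)

/-- LGD (from DER, SAD). The logarithmic derivative. Proof: `W = PP + e₀`, `V = sd PP + e₁`,
`deriv (W t) s = (2/t) V - xi s` (DER); `(2/t) sd = L/2`, so `deriv W - (L/2) W =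
(2/t) e₁ - xi s - (L/2) e₀`, of norm at most `(2 L/c₁ + 1 + L/2) ε' ‖PP‖`, `2/t = 2 L/c ≤ 2 L/c₁`,
and
`‖PP‖ ≤ 2 ‖W‖` for `ε' ≤ 1/2`. `PP ≠ 0` by its lower bound. -/
def T_LGD : Prop := ∀ l c₁ c₂ K : ℝ, Hyp l c₁ c₂ K → ∃ δ : ℝ, 0 < δ ∧ ∀ ε : ℝ, 0 < ε →
  Ev c₁ c₂ K δ (fun t T x τ => W t (pt x τ) ≠ 0 ∧
    ‖deriv (W t) (pt x τ) - (Real.log T / 2 : ℝ) * W t (pt x τ)‖ ≤
      ε * Real.log T * ‖W t (pt x τ)‖)

/-- CMP (from DER, LGD, OFB, SAD). Comparison of both sides. Proof: `δ` from LGD (`ε = 1/4`). For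
`0 < x ≤ δ`: `g y = ‖W t (pt y τ)‖²`, `y ∈ [-x, x]`, has the derivative `2 Re (conj W * W')`
`≥ 2 (L/2 - L/4) ‖W‖² > 0` (`y ↦ pt y τ` has derivative `1`), so `g (-x) < g x`. For `δ ≤ x ≤ K`:
OFB and SAD (`ε = g/2` and `‖W‖ ≥ ‖PP‖/2`): `C size T * T^(c/16 + x/2 - g) <
size T * T^(c/16 + x/2 - g/2) / 2` for large `T`. -/
def T_CMP : Prop := ∀ l c₁ c₂ K : ℝ, Hyp l c₁ c₂ K → ∃ T₀ : ℝ, 2 ≤ T₀ ∧
  ∀ t T x τ : ℝ, T₀ ≤ T → c₁ ≤ t * Real.log T → t * Real.log T ≤ c₂ → 0 < x → x ≤ K →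
    |τ - T| ≤ K → ‖W t (pt (-x) τ)‖ < ‖W t (pt x τ)‖

/-! ### zeros -/

/-- ZER (from SPL, CNJ, DER, LGD, CMP). Proof: `s = pt x τ`; `1 - s = conj (pt (-x) τ)`, so
`‖W t (1 - s)‖ = ‖W t (pt (-x) τ)‖` (CNJ). If `x > 0` (or `x < 0`) then `W t s + W t (1 - s) ≠ 0`
by CMP, so `flow t s ≠ 0` by SPL. If `x = 0`: `1 - s = conj s`, `flow t s = 2 (√(π t))⁻¹ Re (W t
s)`.
At a zero `W t s = i β`, `β ≠ 0` (LGD), `W' = μ W` with `Re μ ≥ L/4 > 0`, and the derivative of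
`flow t` is `(√(π t))⁻¹ (W' s - W' (1 - s))`, `W' (1 - s) = conj (W' s)` (derivative of CNJ), so it
is `2 i (√(π t))⁻¹ Im (W' s) = 2 i (√(π t))⁻¹ β Re μ ≠ 0`. -/
def T_ZER : Prop := ∀ l c₁ c₂ K : ℝ, Hyp l c₁ c₂ K → ∃ T₀ : ℝ, 2 ≤ T₀ ∧
  ∀ t T x τ : ℝ, T₀ ≤ T → c₁ ≤ t * Real.log T → t * Real.log T ≤ c₂ → |x| ≤ K → |τ - T| ≤ K →
    flow t (pt x τ) = 0 → x = 0 ∧ deriv (flow t) (pt x τ) ≠ 0

/-- ANG. Argument of a curve. Proof: let `θ y = ∫_a^y Re μ`, `f y = f a * exp (i ∫_a^y μ)` (the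
quotient has derivative `0`), `f a = ρ e^(i α)`; so `Re (f y) = ρ exp (-∫_a^y Im μ) cos (α + θ y)`,
and `m₁ (y' - y) ≤ θ y' - θ y ≤ m₂ (y' - y)` for `y ≤ y'`. Zeros are the `y` with
`cos (α + θ y) = 0`: two different zeros of `cos` differ by at least `π` (first claim); an interval
of length at least `π` contains a zero of `cos`, and `θ` is continuous (second claim). -/
def T_ANG : Prop := ∀ (f μ : ℝ → ℂ) (a b m₁ m₂ : ℝ), a < b → 0 < m₁ → Continuous μ →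
  (∀ y ∈ Icc a b, f y ≠ 0) → (∀ y ∈ Icc a b, HasDerivAt f (I * μ y * f y) y) →
  (∀ y ∈ Icc a b, m₁ ≤ (μ y).re ∧ (μ y).re ≤ m₂) →
  (∀ y ∈ Icc a b, ∀ y' ∈ Icc a b, y < y' → (f y).re = 0 → (f y').re = 0 →
    Real.pi ≤ m₂ * (y' - y)) ∧
  (Real.pi ≤ m₁ * (b - a) → ∃ y ∈ Icc a b, (f y).re = 0)

/-- SPC (from SPL, CNJ, DER, LGD, ANG). Spacing on the line. Proof: `f y = W t (pt 0 y)`,
`f' = i W' (pt 0 y) = i μ f`, `μ = W'/W` (continuous where `W ≠ 0`; change it outside `[a, b]`, for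
instance compose with the projection to `[a, b]`), `|μ - L/2| ≤ ε' L` (LGD, `K + 20` in place of
`K`), so `(1/2 - ε') L ≤ Re μ ≤ (1/2 + ε') L`. `flow t (pt 0 y) = 2 (√(π t))⁻¹ Re (f y)`. ANG on
`[y, y']` resp. on `[y, y + (2 π + ε)/L]`; `π/(1/2 + ε') ≥ 2 π - ε`, `π/(1/2 - ε') ≤ 2 π + ε`. If
`y' - y > 1` the first claim is trivial for `L ≥ 2 π`. -/
def T_SPC : Prop := ∀ l c₁ c₂ K : ℝ, Hyp l c₁ c₂ K → ∀ ε : ℝ, 0 < ε → ∃ T₀ : ℝ, 2 ≤ T₀ ∧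
  ∀ t T y : ℝ, T₀ ≤ T → c₁ ≤ t * Real.log T → t * Real.log T ≤ c₂ → |y - T| ≤ K →
    (∀ y' : ℝ, y < y' → flow t (pt 0 y) = 0 → flow t (pt 0 y') = 0 →
      2 * Real.pi - ε ≤ (y' - y) * Real.log T) ∧
    ∃ y' : ℝ, y ≤ y' ∧ (y' - y) * Real.log T ≤ 2 * Real.pi + ε ∧ flow t (pt 0 y') = 0

/-- HTR (from XIL, ZER, SPC). Transfer to `H`. Proof: `Hyp` by XIL. `H_eq_flow`:
`H t z = flow t (1/2 + I z/2)/8`, and `1/2 + I z/2 = pt (-z.im/2) (z.re/2)`; the derivative is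
`(I/2) flow' /8`. `‖z - 2 T‖ ≤ K` gives `|z.re/2 - T| ≤ K/2`, `|z.im/2| ≤ K/2`. SPC with `y = x/2`.
-/
def T_HTR : Prop := ∀ l c₁ c₂ : ℝ, 0 < l → GrowthLe l (l / 16) → l < c₁ → 2 < c₁ → c₁ ≤ c₂ →
  Crys c₁ c₂

/-- CLS. Classical form. Proof: for `z` with `exp (c₁/t) ≤ z.re/2 ≤ exp (c₂/t)` put `T = z.re/2`;
then `c₁ ≤ t log T ≤ c₂` and `T ≥ exp (c₁/t₀) ≥ T₀` for small `t₀`; `Crys` with `K` (`‖z - 2 T‖ =
|z.im|`). For the spacing `T = x/2`, `K = 1`: if `y - x > 1` the claim is trivial; `log x = log T +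
log 2` and `(y - x) log x ≥ (y - x) log T`; for the upper bound `(y - x) log 2 ≤ ε/2` for large `T`.
For `x < y` (strict) apply the third part of `Crys` at `x'` with `(x' - x) log T = ε/4`. -/
def T_CLS : Prop := ∀ c₁ c₂ : ℝ, 0 < c₁ → Crys c₁ c₂ → Regular c₁ c₂

/-- CVR (from few_growth in DBN). Converse. Proof: let `c₁ < c < c₂`, `c > 0`. For a closed disc
with centre `w` and radius `r < |w.im|` and `T` large, `t = c/log T ≤ t₀`: all `z` in the disc with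
centre `2 T + w` have `z.im ≠ 0`, `|z.im| ≤ K := ‖w‖ + r`, `|z.re/2 - T| ≤ K`, and
`exp (c₁/t) = T^(c₁/c) ≤ T - K`, `T + K ≤ T^(c₂/c)`; so `H t` has no zero in the disc and
`zeroCount`
is `0` (the divisor of a nonvanishing analytic function is `0`). Hence `FewZeros c`, and
`few_growth` gives `GrowthLe c (c/16)`. -/
def T_CVR : Prop := ∀ c₁ c₂ c : ℝ, RealZ c₁ c₂ → 0 < c → c₁ < c → c < c₂ → GrowthLe c (c / 16)

end Pool.Agent.DBC
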