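import Pool.Agent.DBC.Defs2
import Pool.Agent.DBC.Targets

/-!
# The exact reality threshold of the flow: targets

Project DBC2 (owner helper11), addition to `MP_4e5e8a_nt.DBNFlow`. One file per target,
`Pool/Agent/DBC/Q_X.lean`, `theorem Pool.Agent.DBC.q_X (other targets) : U_X`, helper lemmas in the
namespace `Pool.Agent.DBC.X2_`. The docstrings contain the proofs. There `L = log T`, `c = t * L`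
(so `c₁ ≤ c ≤ c₂`, `1 / t = L / c`, `e^(-u²/t) = T^(-u²/c)`), `sd t T = c / 4`.
Many targets are adaptations of landed files `Pool/Agent/DBC/P_*.lean` (copy and change).
Landed in `Pool.Agent.DBN`: `xi_eq`, `xi_two`, `xi_one_sub`, `differentiable_xi` (Xi), `subG_xi`,
`size_pos` (Far), `flow_pos`, `log_pos_of` (Up), `rpow_shift_le`, `size_shift_le` (Down2),
`mu_unif`, `mu_zero` (Mu), `mu_of_good`, `mu_outside` (Good), `inv_flow` (Gauss),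
`differentiable_flow`, `subG_flow` (FlowReg), `flow_good` (ZA), `low_pos` (ZLP, see its proof).
-/

set_option autoImplicit false

namespace Pool.Agent.DBC

open Complex MeasureTheory Set Filter Topology
open Pool.Agent.DBN

/-! ### complex analysis -/

/-- BCL. Logarithms and Borel-Caratheodory. Proof: `g'/g` is holomorphic on the ball, it has a
primitive there (Mathlib.Analysis.Complex.HasPrimitives), take the primitive `h` with `h 0 = 0`; the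
quotient `g / exp h` has derivative `0` on the (convex) ball, so it is `g 0`. `Re (h v) = log
(‖g v‖ / ‖g 0‖) ≤ M`; then `Complex.borelCaratheodory_zero`. -/
def U_BCL : Prop := ∀ (g : ℂ → ℂ) (ρ M : ℝ), 0 < ρ → 0 < M →
  DifferentiableOn ℂ g (Metric.ball 0 ρ) →
  (∀ v ∈ Metric.ball (0 : ℂ) ρ, g v ≠ 0 ∧ ‖g v‖ ≤ Real.exp M * ‖g 0‖) →
  ∃ h : ℂ → ℂ, LogOn g h ρ ∧ ∀ v ∈ Metric.ball (0 : ℂ) ρ, ‖h v‖ ≤ 2 * M * ‖v‖ / (ρ - ‖v‖)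

/-- SD1. The saddle point. Proof: Cauchy: `‖h' v‖ ≤ 2 η lam / ρ` for `‖v‖ ≤ ρ/2` (circle of radius
almost `ρ/2`), and then `‖h'' v‖ ≤ 8 η lam / ρ²` for `‖v‖ ≤ ρ/4`. So `v ↦ h' v / (2 lam)` maps the
closed ball of radius `ρ/4` to itself (`η / ρ ≤ ρ/4`) and is a contraction (`4 η / ρ² ≤ 1/2`):
`ContractingWith`. The fixed point satisfies `‖v₀‖ ≤ η / ρ`. Taylor:
`‖h (v₀ + w) - h v₀ - h' v₀ w‖ ≤ (8 η lam / ρ²) w²` for `‖v₀ + w‖ ≤ ρ/4` (`h'` is Lipschitz on the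
segment with the constant above; mean value inequality for `w ↦ h (v₀ + w) - h' v₀ w`). -/
def U_SD1 : Prop := ∀ (h : ℂ → ℂ) (ρ η lam : ℝ), 0 < ρ → 0 < η → 16 * η ≤ ρ ^ 2 → 0 < lam →
  DifferentiableOn ℂ h (Metric.ball 0 ρ) → (∀ v ∈ Metric.ball (0 : ℂ) ρ, ‖h v‖ ≤ η * lam) →
  ∃ v₀ : ℂ, ‖v₀‖ ≤ η / ρ ∧ deriv h v₀ = 2 * lam * v₀ ∧
    ∀ w : ℝ, ‖v₀ + w‖ ≤ ρ / 4 →
      ‖h (v₀ + w) - h v₀ - deriv h v₀ * w‖ ≤ 8 * η * lam / ρ ^ 2 * w ^ 2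

/-- SD2. Contour shift. Proof: Cauchy's theorem for the rectangle with the corners `-a` and
`a + y₀ i` (`Complex.integral_boundary_rect_eq_zero_of_differentiableOn`). -/
def U_SD2 : Prop := ∀ (F : ℂ → ℂ) (ρ a y₀ B : ℝ), 0 < a → a + |y₀| < ρ →
  DifferentiableOn ℂ F (Metric.ball 0 ρ) →
  (∀ y : ℝ, |y| ≤ |y₀| → ‖F (a + y * I)‖ ≤ B ∧ ‖F (-a + y * I)‖ ≤ B) →
  ‖(∫ x in Ioo (-a) a, F x) - ∫ x in Ioo (-a) a, F (x + y₀ * I)‖ ≤ 2 * |y₀| * B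

/-- SD3. Perturbed Gaussian integral. Proof: `‖exp z - 1‖ ≤ ‖z‖ exp ‖z‖`, so the integral differs
from `∫_α^β e^(-lam w²) dw` by at most `∫ κ lam w² e^(-lam w² / 2) dw = κ √(2 π) lam^(-1/2)` (over
the line, `κ ≤ 1/2`), and `∫_α^β e^(-lam w²) dw ≥ ∫_{-b}^b ≥ √(π/lam) - √(2 π/lam) e^(-lam b²/2)`
(outside: `e^(-lam w²) ≤ e^(-lam b²/2) e^(-lam w²/2)`). Numbers: `√π ≥ 1.77`, `√(2π) ≤ 2.51`,
`κ √(2π) ≤ 0.26`, `2.51 e^(-2) ≤ 0.35`. -/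
def U_SD3 : Prop := ∀ (R : ℝ → ℂ) (α β b κ lam : ℝ), 0 < lam → 0 < b → α ≤ -b → b ≤ β →
  0 ≤ κ → κ ≤ 1 / 10 → 4 ≤ lam * b ^ 2 → ContinuousOn R (Icc α β) →
  (∀ w ∈ Icc α β, ‖R w‖ ≤ κ * lam * w ^ 2) →
  1 / √lam ≤ ‖∫ w in Ioo α β, exp (-(lam * w ^ 2 : ℝ) + R w)‖

/-- SDH (from SD1, SD2, SD3). The saddle point lemma. Proof: `η₀ = ρ²/4096`, `a = ρ/8`,
`φ v = -lam v² + h v`, `v₀ = x₀ + i y₀` from SD1 (`‖v₀‖ ≤ η/ρ ≤ ρ/4096`). Outside `(-a, a)`: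
`‖e^φ‖ ≤ e^(-lam a² + η lam)`. On the vertical sides at `±a`, `|y| ≤ |y₀|`:
`‖e^φ‖ ≤ e^(-lam (a² - y₀²) + η lam)`; both at most `e^(-lam ρ²/128)`. SD2 moves `(-a, a)` to
`(-a, a) + i y₀`; there `x + i y₀ = v₀ + w`, `w = x - x₀` real, `φ (v₀ + w) = φ v₀ - lam w² + R w`,
`‖R w‖ ≤ κ lam w²`, `κ = 8 η/ρ² ≤ 1/10` (SD1), SD3 with `b = a/2` (`lam b² ≥ 4` for `lam ≥ lam₀`):
the shifted integral has norm at least `‖e^(φ v₀)‖ / √lam ≥ e^(-2 η lam) / √lam`, as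
`lam ‖v₀‖² ≤ lam η²/ρ² ≤ η lam`. The errors are at most `(ρ + 2 |y₀|) e^(-lam ρ²/128)`, and
`2 ρ e^(-lam ρ²/128) ≤ (1/2) e^(-2 η lam) / √lam` for `lam ≥ lam₀` (`2 η ≤ ρ²/2048`). -/
def U_SDH : Prop := ∀ ρ : ℝ, 0 < ρ → ∃ η₀ lam₀ : ℝ, 0 < η₀ ∧ 0 < lam₀ ∧
  ∀ (η lam : ℝ) (h : ℂ → ℂ), 0 < η → η ≤ η₀ → lam₀ ≤ lam →
    DifferentiableOn ℂ h (Metric.ball 0 ρ) → (∀ v ∈ Metric.ball (0 : ℂ) ρ, ‖h v‖ ≤ η * lam) →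
    1 / (2 * √lam) * Real.exp (-(2 * η * lam)) ≤
      ‖∫ v in Ioo (-(ρ / 2)) (ρ / 2), exp (-(lam * v ^ 2 : ℝ) + h v)‖

/-! ### the function `xi` in the zero-free region -/

/-- LZE (from BCL). Bounds for `ζ`. Proof: if `K < 1/2 + l/4 + δ` there is nothing to prove. Upper
bound: `mu_interp` (DBN/Mu.lean) between `1/2 + l/4` and `2 K + 7` (`mu_zero`), both exponents `0`:
`‖ζ(σ + i y)‖ ≤ C y^ε'` for `1/2 + l/4 ≤ σ ≤ 2 K + 7`, `y ≥ 2`. Lower bound: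
`s₁ = K + 3 + i Im s`, `ρ = K + 3 - (1/2 + l/4 + δ/2)`, `g v = ζ (s₁ + v)` on the ball of radius `ρ`
(there `1/2 + l/4 + δ/2 < Re < 2 K + 6`, no zeros for `T` large), `‖g 0‖ ≥ c₀ > 0` (`SPZ.s4`, second
component), `‖g v‖ ≤ T^(2 ε') ‖g 0‖`, so `M = 2 ε' L`; `v = s - s₁` is real, `|v| ≤ ρ - δ/2`, BCL:
`‖h v‖ ≤ 4 M ρ/δ`, `‖ζ s‖ ≥ c₀ e^(-4 M ρ/δ) ≥ T^(-ε)` for `ε'` small, `T` large. -/
def U_LZE : Prop := ∀ l δ K ε : ℝ, 0 < l → 0 < δ → 0 < K → 0 < ε → MuLe (1 / 2 + l / 4) 0 →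
  ZF l → ∃ T₀ : ℝ, 2 ≤ T₀ ∧ ∀ (T : ℝ) (s : ℂ), T₀ ≤ T → 1 / 2 + l / 4 + δ ≤ s.re → s.re ≤ K →
    |s.im - T| ≤ K → T ^ (-ε) ≤ ‖riemannZeta s‖ ∧ ‖riemannZeta s‖ ≤ T ^ ε

/-- XBD (from LZE). Bounds for `xi`. Proof: `xi_two` and LZE with `ε/2`; the comparison of `Im s`
with `T` exactly as in `LOC_.xi_both` (P_LOC.lean); the constants are at most `T^(ε/2)`. -/
def U_XBD : Prop := ∀ l δ K ε : ℝ, 0 < l → 0 < δ → 0 < K → 0 < ε → MuLe (1 / 2 + l / 4) 0 →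
  ZF l → ∃ T₀ : ℝ, 2 ≤ T₀ ∧ ∀ (T : ℝ) (s : ℂ), T₀ ≤ T → 1 / 2 + l / 4 + δ ≤ s.re → s.re ≤ K →
    |s.im - T| ≤ K → size T * T ^ ((s.re - 1 / 2) / 2 - ε) ≤ ‖xi s‖ ∧
      ‖xi s‖ ≤ size T * T ^ ((s.re - 1 / 2) / 2 + ε)

/-- NE2 (from BCL, SDH, XBD). The saddle. Proof: `δ = (c₁ - l)/16`, `r = min (δ/4) (c₁/8)`,
`s' = pt x τ + sd t T`, `Re s' = 1/2 + x + c/4 ≥ 1/2 + l/4 + 3 δ`. `g v = T^(-v/2) xi (s' + v)` on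
the ball of radius `4 r ≤ δ` has no zeros and `‖g v‖ ≤ T^(2 ε') ‖g 0‖` (XBD with `δ`, `K + c₂ + 2`,
`ε'`), so by BCL (`M = 2 ε' L`) `g v = xi s' e^(h v)`, `‖h v‖ ≤ 2 M = 4 ε' L ≤ η / t` for
`‖v‖ < 2 r`, `η = 4 ε' c₂`. As in NEA (`NEA_.weight_eq`, `NEA_.shift_Ioo`) the integral is
`e^(-sd²/t) xi s' ∫_{|v| < r} e^(-v²/t + h v) dv`; SDH (`ρ = 2 r`, `lam = 1/t`): at least
`T^(-c/16) size T * T^(x/2 + c/8 - ε') (√t / 2) T^(-8 ε' c₂/c₁)` (`e^(-2 η/t) = T^(-2 η/c)`). -/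
def U_NE2 : Prop := ∀ l c₁ c₂ K : ℝ, Hyp2 l c₁ c₂ K → ∃ r δ : ℝ, 0 < r ∧ r < c₁ / 4 ∧ 0 < δ ∧
  ∀ ε : ℝ, 0 < ε → Ev c₁ c₂ K δ (fun t T x τ =>
    size T * T ^ (t * Real.log T / 16 + x / 2 - ε) ≤
      ‖∫ u in Ioo (sd t T - r) (sd t T + r),
        ((Real.exp (-(u ^ 2 / t)) : ℝ) : ℂ) * xi (pt x τ + u)‖)

/-! ### bounds for `W` -/

/-- OA2 (from INA). Away from the saddle. Adapt P_OFA.lean (`Hyp2` in place of `Hyp`, without the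
bound for `xi (pt x τ)`, so `r ≤ 1/4` is not needed). -/
def U_OA2 : Prop := ∀ l c₁ c₂ K r : ℝ, Hyp2 l c₁ c₂ K → 0 < r →
  ∃ δ g C : ℝ, 0 < δ ∧ 0 < g ∧ 0 ≤ C ∧ Ev c₁ c₂ K δ (fun t T x τ =>
    ∫ u in Ioi (0 : ℝ) \ Ioo (sd t T - r) (sd t T + r),
      Real.exp (-(u ^ 2 / t)) * ‖xi (pt x τ + u)‖ ≤
        C * (size T * T ^ (t * Real.log T / 16 + x / 2 - g)))

/-- OB2 (from INB). The other side. Adapt P_OFB.lean (`Hyp2` in place of `Hyp`). -/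
def U_OB2 : Prop := ∀ l c₁ c₂ K δ : ℝ, Hyp2 l c₁ c₂ K → 0 < δ →
  ∃ g C : ℝ, 0 < g ∧ 0 ≤ C ∧ ∃ T₀ : ℝ, 2 ≤ T₀ ∧ ∀ t T x τ : ℝ, T₀ ≤ T →
    c₁ ≤ t * Real.log T → t * Real.log T ≤ c₂ → δ ≤ x → x ≤ K → |τ - T| ≤ K →
    ‖W t (pt (-x) τ)‖ ≤ C * (size T * T ^ (t * Real.log T / 16 + x / 2 - g))

/-- INC. Elementary inequality. Proof: `δ = min (l/4) ((c₁ - l)²/(16 (c₂ + 1)))`. First for `c'` in
`[c₁, c₂ + 1]`, without `ε` and `κ`: if `|x + u| ≤ l/4` see INA (1): the left side is at most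
`c'/16 - (c' - l)²/(16 c') + |x|/2 ≤ c'/16 + x/2 + δ - (c₁ - l)²/(16 (c₂ + 1)) ≤ c'/16 + x/2`; if
`|x + u| > l/4` then `x + u > 0` and it is `c'/16 + x/2 - (u - c'/4)²/c'`. Then `c' = c + η`,
`-u²/c = -u²/c' - η u²/(c c')`, `c'/16 = c/16 + η/16`, `η = min 1 (16 ε)`,
`κ = η/(c₂ (c₂ + 1))`. -/
def U_INC : Prop := ∀ l c₁ c₂ K : ℝ, 0 < l → l < c₁ → c₁ ≤ c₂ → 0 < K →
  ∃ δ : ℝ, 0 < δ ∧ ∀ ε : ℝ, 0 < ε → ∃ κ : ℝ, 0 < κ ∧ ∀ c x u : ℝ, c₁ ≤ c → c ≤ c₂ → -δ ≤ x →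
    x ≤ K → 0 ≤ u → mm l (x + u) - u ^ 2 / c ≤ c / 16 + x / 2 + ε - κ * u ^ 2

/-- UP2 (from INC). Upper bound for `W`. Proof: as OFA / OFB (the integral over the half line of
the norm), with INC in place of INA, `ε/4`, and the constant `C ≤ T^(ε/4)`. -/
def U_UP2 : Prop := ∀ l c₁ c₂ K : ℝ, Hyp2 l c₁ c₂ K → ∃ δ : ℝ, 0 < δ ∧ ∀ ε : ℝ, 0 < ε →
  Ev c₁ c₂ K δ (fun t T x τ =>
    ‖W t (pt x τ)‖ ≤ size T * T ^ (t * Real.log T / 16 + x / 2 + ε))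

/-- LO2 (from IGR, NE2, OA2). Lower bound for `W`. Proof: `Ioi 0` is the disjoint union of the
interval (`r < c₁/4 ≤ sd t T`) and of the rest; NE2 with `min (ε/2) (g/2)`, OA2; the rest is at
most half of the main part, and `(1/2) T^(-ε/2) ≥ T^(-ε)`. -/
def U_LO2 : Prop := ∀ l c₁ c₂ K : ℝ, Hyp2 l c₁ c₂ K → ∃ δ : ℝ, 0 < δ ∧ ∀ ε : ℝ, 0 < ε →
  Ev c₁ c₂ K δ (fun t T x τ =>
    size T * T ^ (t * Real.log T / 16 + x / 2 - ε) ≤ ‖W t (pt x τ)‖)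

/-- GD2 (from BCL, DER, UP2, LO2). The logarithmic derivative. Proof: UP2, LO2 for `K + 1`
(`Hyp2 l c₁ c₂ (K + 1)`), `δ'` the smaller of the two `δ`, `δ = min (δ'/2) 1`. For `s = pt x τ`,
`g v = T^(-v/2) W t (s + v)`, `‖v‖ < δ`: `s + v = pt (x + Re v) (τ + Im v)`, so `g` has no zeros and
`‖g v‖ ≤ T^(2 ε') ‖g 0‖`; BCL (`M = 2 ε' L`): `‖h v‖ ≤ 2 M` for `‖v‖ ≤ δ/2`, so `‖h' 0‖ ≤ 4 M/δ`
(Cauchy), and `g' 0 = g 0 * h' 0` is `W' s - (L/2) W s`. `W t` is differentiable by DER. -/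
def U_GD2 : Prop := ∀ l c₁ c₂ K : ℝ, Hyp2 l c₁ c₂ K → ∃ δ : ℝ, 0 < δ ∧ ∀ ε : ℝ, 0 < ε →
  Ev c₁ c₂ K δ (fun t T x τ => W t (pt x τ) ≠ 0 ∧
    ‖deriv (W t) (pt x τ) - (Real.log T / 2 : ℝ) * W t (pt x τ)‖ ≤
      ε * Real.log T * ‖W t (pt x τ)‖ ∧
    size T * T ^ (t * Real.log T / 16 + x / 2 - ε) ≤ ‖W t (pt x τ)‖)

/-! ### zeros -/

/-- CM2 (from DER, GD2, OB2). Adapt P_CMP.lean. -/
def U_CM2 : Prop := ∀ l c₁ c₂ K : ℝ, Hyp2 l c₁ c₂ K → ∃ T₀ : ℝ, 2 ≤ T₀ ∧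
  ∀ t T x τ : ℝ, T₀ ≤ T → c₁ ≤ t * Real.log T → t * Real.log T ≤ c₂ → 0 < x → x ≤ K →
    |τ - T| ≤ K → ‖W t (pt (-x) τ)‖ < ‖W t (pt x τ)‖

/-- ZE2 (from SPL, CNJ, DER, GD2, CM2). Adapt P_ZER.lean. -/
def U_ZE2 : Prop := ∀ l c₁ c₂ K : ℝ, Hyp2 l c₁ c₂ K → ∃ T₀ : ℝ, 2 ≤ T₀ ∧
  ∀ t T x τ : ℝ, T₀ ≤ T → c₁ ≤ t * Real.log T → t * Real.log T ≤ c₂ → |x| ≤ K → |τ - T| ≤ K →
    flow t (pt x τ) = 0 → x = 0 ∧ deriv (flow t) (pt x τ) ≠ 0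

/-- SP2 (from SPL, CNJ, DER, GD2, ANG). Adapt P_SPC.lean. -/
def U_SP2 : Prop := ∀ l c₁ c₂ K : ℝ, Hyp2 l c₁ c₂ K → ∀ ε : ℝ, 0 < ε → ∃ T₀ : ℝ, 2 ≤ T₀ ∧
  ∀ t T y : ℝ, T₀ ≤ T → c₁ ≤ t * Real.log T → t * Real.log T ≤ c₂ → |y - T| ≤ K →
    (∀ y' : ℝ, y < y' → flow t (pt 0 y) = 0 → flow t (pt 0 y') = 0 →
      2 * Real.pi - ε ≤ (y' - y) * Real.log T) ∧
    ∃ y' : ℝ, y ≤ y' ∧ (y' - y) * Real.log T ≤ 2 * Real.pi + ε ∧ flow t (pt 0 y') = 0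

/-- HT2 (from XIL, ZE2, SP2). Adapt P_HTR.lean; the field `ml` of `Hyp2` is `mu_of_good`. -/
def U_HT2 : Prop := ∀ l c₁ c₂ : ℝ, 0 < l → GrowthLe l (l / 16) → ZF l → l < c₁ → c₁ ≤ c₂ →
  Crys c₁ c₂

/-! ### the converse -/

/-- NZR. Proof: see P_CVR.lean: `H t z = flow t (1/2 + I z/2)/8`, with
`t = c / log T`, `1/2 + T I + w = 1/2 + I z/2` for `z = 2 (T + Im w) - 2 i Re w`, so `z.im ≠ 0`,
`|z.im| ≤ 2 K`, `|z.re/2 - T| ≤ K`, and `exp (c₁/t) = T^(c₁/c) ≤ T - K`, `T + K ≤ T^(c₂/c)`,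
`t ≤ t₀` for large `T`. -/
def U_NZR : Prop := ∀ c₁ c₂ c : ℝ, RealZ c₁ c₂ → 0 < c → c₁ < c → c < c₂ → NZ c

/-- FLO (from BCL). Lower bound for the flow. Proof: `R = K + 1`, `ρ₀ = δ/8`, `Low c R` gives for
`|v| ≤ 1` a point `w₀` with `‖w₀ - (R + v I)‖ ≤ δ/8` and a lower bound with `ε'`. On the ball of
radius `R' = R - δ/2` the function `g z = T^(-z/2) flow t (1/2 + T I + w₀ + z)` has no zeros
(`Re (w₀ + z) ≥ δ/2 - δ/8 > 0`, `NZ c`) and by `FlowLe` (`κ` small, `‖w‖ ≤ 3 K + 5`)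
`‖g z‖ ≤ T^(4 ε') ‖g 0‖`; BCL with `M = 4 ε' L`. The point `x + v I = w₀ + z` has
`‖z‖ ≤ R - δ + δ/8`, `R' - ‖z‖ ≥ 3 δ/8`, so `‖h z‖ ≤ 2 M R * 8/(3 δ)` and the flow at this point is
at least `T^(Re z/2) ‖g 0‖ e^(-‖h z‖) ≥ size T * T^(x/2 + c/16 - ε)` for `ε'` small. -/
def U_FLO : Prop := ∀ c : ℝ, 0 < c → FlowLe c univ (fun x => |x| / 2 + c / 16) →
  (∀ R : ℝ, 1 ≤ R → Low c R) → NZ c → LowAll c

/-- IVF. Inverse flow with a shifted contour. Proof: `inv_flow differentiable_xi subG_xi r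
(c/4/r) s` with `r = √t` exactly as in the proof of `low_pos` (ZLP.lean), then `y = r y'`
(`integral_comp_mul_left`): `-(y'/r + i c/(4 r))² = -y'²/t - i y' L/2 + c L/16`, as `c/t = L`. -/
def U_IVF : Prop := ∀ (c T : ℝ) (s : ℂ), 0 < c → 1 < T →
  ((√(Real.pi * (c / Real.log T)) : ℝ) : ℂ) * xi (s + (c / 4 : ℝ)) =
    ((T ^ (c / 16) : ℝ) : ℂ) * ∫ y : ℝ,
      exp (-((y ^ 2 / (c / Real.log T) : ℝ) : ℂ) - ((y * Real.log T / 2 : ℝ) : ℂ) * I) *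
        flow (c / Real.log T) (s + y * I)

/-- CLO (from BCL, SDH, IVF). Proof: `r = min (δ/8) (1/8)`, `s = 1/2 + x + i T`, `δ ≤ x ≤ K`, `t =
c/L`.
`g v = e^(-v L/2) flow t (s + v)` on the ball of radius `4 r`: no zeros and `‖g v‖ ≤ T^(3 ε') ‖g 0‖`
(`LowAll c` with `δ/2`, `K + 1`; `FlowLe`), BCL (`M = 3 ε' L`): `g v = g 0 e^(h v)`, `‖h v‖ ≤ 2 M`
for
`‖v‖ < 2 r`; SDH for the function `v ↦ h (i v)`, `ρ = 2 r`, `lam = 1/t = L/c`, `η = 6 ε' c`: the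
part
`|y| < r` of the integral in IVF has norm at least `‖g 0‖ (√t/2) T^(-12 ε')`
`≥ size T * T^(x/2 + c/16 - 14 ε')`. The part `|y| ≥ r` is at most
`∫ T^(-y²/c) C size T * T^(x/2 + c/16 + ε') T^(κ (2 K² + 2 y² + 1))`
`≤ C' size T * T^(x/2 + c/16 + 2 ε' - r²/(2 c))` (`κ ≤ 1/(8 c)` and `κ` small). So the integral is
not `0` for `T` large, and `xi (s + c/4) ≠ 0` by IVF. -/
def U_CLO : Prop := ∀ c δ K : ℝ, 0 < c → 0 < δ → 0 < K →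
  FlowLe c univ (fun x => |x| / 2 + c / 16) → LowAll c →
  ∃ T₀ : ℝ, 2 ≤ T₀ ∧ ∀ T x : ℝ, T₀ ≤ T → δ ≤ x → x ≤ K →
    xi (((1 / 2 + x + c / 4 : ℝ) : ℂ) + T * I) ≠ 0

/-- CV2 (from CVR, NZR, FLO, CLO). Proof: CVR gives `GrowthLe c (c/16)`, `flow_good` gives `FlowLe`,
`low_pos` with `R₀ = 0` (or any `R₀ ≤ 1`) gives `Low c R` for `R ≥ 1`. A zero `s` of `ζ` with
`Re s ≥ 1/2 + c/4 + δ` and `Im s ≥ T₀` has `Re s < 1` (`riemannZeta_ne_zero_of_one_le_re`), and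
`xi s = 0` by `xi_eq` (`Im s > 0`, `gammaR_ne_zero`): contradiction to CLO with
`x = Re s - 1/2 - c/4`. -/
def U_CV2 : Prop := ∀ c₁ c₂ c : ℝ, RealZ c₁ c₂ → 0 < c → c₁ < c → c < c₂ → ZeroFree c

end Pool.Agent.DBC
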