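import Pool.Agent.DBC.Targets5

/-!
# DBC4, target `Y_GT`: the difference of `GG Y` at `exp (-h) t` and `t`
-/

set_option autoImplicit false

namespace Pool.Agent.DBC

open Complex MeasureTheory Set Filter Topology
open Pool.Agent.DBN

namespace GT4_

/-- the linear coefficient -/
noncomputable def cc (Y : ℕ) : ℝ :=
  ∑ k ∈ Finset.Icc 1 Y, ((ArithmeticFunction.moebius k : ℤ) : ℝ) / k

theorem abs_moebius_le (k : ℕ) : |((ArithmeticFunction.moebius k : ℤ) : ℝ)| ≤ 1 := by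
  have h := ArithmeticFunction.abs_moebius_le_one (n := k)
  rw [← Int.cast_abs]
  exact_mod_cast h

theorem abs_cc_le (Y : ℕ) : |cc Y| ≤ Y := by
  unfold cc
  refine (Finset.abs_sum_le_sum_abs _ _).trans ?_
  have h : ∀ k ∈ Finset.Icc 1 Y, |((ArithmeticFunction.moebius k : ℤ) : ℝ) / k| ≤ 1 := by
    intro k hk
    rw [Finset.mem_Icc] at hk
    have hk1 : (1 : ℝ) ≤ k := by exact_mod_cast hk.1
    rw [abs_div, abs_of_nonneg (by linarith : (0 : ℝ) ≤ k), div_le_one (by linarith)]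
    exact (abs_moebius_le k).trans hk1
  refine (Finset.sum_le_sum h).trans ?_
  simp

theorem am_one {Y : ℕ} (hY : 1 ≤ Y) : am Y 1 = 1 := by
  unfold am
  have h : (Finset.Icc 1 Y).filter (fun d => d ∣ 1) = {1} := by
    ext d
    simp only [Finset.mem_filter, Finset.mem_Icc, Nat.dvd_one, Finset.mem_singleton]
    constructor
    · exact fun h => h.2
    · rintro rfl
      exact ⟨⟨le_rfl, hY⟩, rfl⟩
  rw [h, Finset.sum_singleton]
  simp

theorem sum_am (Y N : ℕ) : ∑ n ∈ Finset.Icc 1 N, am Y n =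
    ∑ k ∈ Finset.Icc 1 Y, ((ArithmeticFunction.moebius k : ℤ) : ℝ) * ((N / k : ℕ) : ℝ) := by
  unfold am
  simp only [Finset.sum_filter]
  rw [Finset.sum_comm]
  refine Finset.sum_congr rfl fun k _ => ?_
  rw [← Finset.sum_filter, Finset.sum_const, nsmul_eq_mul, mul_comm]
  congr 2
  rw [← Nat.Ioc_filter_dvd_card_eq_div]
  congr 1

theorem GG_eq {Y : ℕ} {x : ℝ} (hY : 1 ≤ Y) (hx : 0 < x) :
    GG Y (1 / x) = -(cc Y * x) + ∑ n ∈ Finset.Icc 2 ⌊x⌋₊, am Y n := by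
  have h1 : ∑ k ∈ Finset.Icc 1 Y, ((ArithmeticFunction.moebius k : ℤ) : ℝ) *
      Int.fract (1 / (k * (1 / x))) = cc Y * x - ∑ n ∈ Finset.Icc 1 ⌊x⌋₊, am Y n := by
    rw [sum_am, cc, Finset.sum_mul, ← Finset.sum_sub_distrib]
    refine Finset.sum_congr rfl fun k hk => ?_
    rw [Finset.mem_Icc] at hk
    have hk0 : (0 : ℝ) < k := by exact_mod_cast hk.1
    have e1 : 1 / ((k : ℝ) * (1 / x)) = x / k := by
      field_simp
    have e2 : ((⌊x / (k : ℝ)⌋ : ℤ) : ℝ) = ((⌊x⌋₊ / k : ℕ) : ℝ) := by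
      rw [← natCast_floor_eq_intCast_floor (by positivity), Nat.floor_div_natCast]
    rw [e1, Int.fract, e2]
    ring
  unfold GG
  rw [h1]
  by_cases hx1 : x < 1
  · have h2 : ¬ (1 / x ≤ 1) := by
      rw [not_le, one_lt_div hx]
      exact hx1
    have h3 : ⌊x⌋₊ = 0 := Nat.floor_eq_zero.2 hx1
    rw [if_neg h2, h3]
    simp
  · push Not at hx1
    have h2 : 1 / x ≤ 1 := by
      rw [div_le_one hx]
      exact hx1
    have h3 : 1 ≤ ⌊x⌋₊ := (Nat.one_le_floor_iff x).2 hx1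
    have h4 : Finset.Icc 1 ⌊x⌋₊ = insert 1 (Finset.Icc 2 ⌊x⌋₊) := by
      ext n
      simp only [Finset.mem_Icc, Finset.mem_insert]
      omega
    rw [if_pos h2, h4, Finset.sum_insert (by simp), am_one hY]
    ring

theorem exp_sub_one_le {h : ℝ} (h0 : 0 ≤ h) (h1 : h ≤ 1 / 3) : Real.exp h - 1 ≤ 2 * h := by
  have h2 : Real.exp h ≤ 1 / (1 - h) := Real.exp_bound_div_one_sub_of_interval h0 (by linarith)
  have h3 : 1 / (1 - h) ≤ 1 + 2 * h := by
    rw [div_le_iff₀ (by linarith)]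
    nlinarith
  linarith

end GT4_

open GT4_ in
theorem s_GT : Y_GT := by
  intro Y X h t hY hX hh ht
  have hX0 : 0 < X := by linarith
  have ht0 : 0 < t := lt_of_lt_of_le (by positivity) ht
  have hh0 : 0 < h := by
    rw [hh]
    positivity
  have hh1 : h ≤ 1 / 3 := by
    rw [hh]
    exact one_div_le_one_div_of_le (by norm_num) (by linarith)
  have hhX : h * X = 1 / 3 := by
    rw [hh]
    field_simp
  obtain ⟨x, hx⟩ : ∃ x : ℝ, x = 1 / t := ⟨_, rfl⟩
  obtain ⟨x', hx'⟩ : ∃ x' : ℝ, x' = x * Real.exp h := ⟨_, rfl⟩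
  have hx0 : 0 < x := by
    rw [hx]
    positivity
  have hxX : x ≤ X := by
    rw [hx, div_le_iff₀ ht0]
    rw [div_le_iff₀ hX0] at ht
    linarith
  have hE := exp_sub_one_le hh0.le hh1
  have hE1 : 1 ≤ Real.exp h := Real.one_le_exp hh0.le
  have hx'0 : 0 < x' := by
    rw [hx']
    positivity
  have hd0 : 0 ≤ x' - x := by
    rw [hx']
    nlinarith
  have hd1 : x' - x ≤ 2 * h * x := by
    rw [hx']
    nlinarith
  have hd2 : x' - x ≤ 2 / 3 := by
    nlinarith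
  have e1 : t = 1 / x := by
    rw [hx]
    field_simp
  have e2 : Real.exp (-h) * t = 1 / x' := by
    rw [hx', Real.exp_neg, e1]
    field_simp
  have e3 : GG Y t = -(cc Y * x) + ∑ n ∈ Finset.Icc 2 ⌊x⌋₊, am Y n := by
    rw [e1]
    exact GG_eq hY hx0
  have e4 : GG Y (Real.exp (-h) * t) = -(cc Y * x') + ∑ n ∈ Finset.Icc 2 ⌊x'⌋₊, am Y n := by
    rw [e2]
    exact GG_eq hY hx'0
  obtain ⟨a, ha⟩ : ∃ a : ℝ, a = ∑ n ∈ Finset.Icc 2 ⌊x'⌋₊, am Y n -
      ∑ n ∈ Finset.Icc 2 ⌊x⌋₊, am Y n := ⟨_, rfl⟩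
  have e5 : GG Y (Real.exp (-h) * t) - GG Y t = a + -(cc Y * (x' - x)) := by
    rw [e3, e4, ha]
    ring
  have hb : (-(cc Y * (x' - x))) ^ 2 ≤ (2 * Y * h / t) ^ 2 := by
    rw [neg_sq, ← sq_abs]
    refine pow_le_pow_left₀ (abs_nonneg _) ?_ 2
    rw [abs_mul, abs_of_nonneg hd0]
    calc |cc Y| * (x' - x) ≤ Y * (2 * h * x) := by
          have := abs_cc_le Y
          gcongr
      _ = 2 * Y * h / t := by
          rw [hx]
          ring
  have hsum0 : ∀ n ∈ Finset.Icc 2 ⌊2 * X⌋₊, 0 ≤ am Y n ^ 2 *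
      (if 1 / (n : ℝ) < t ∧ t ≤ Real.exp h / n then (1 : ℝ) else 0) := by
    intro n _
    split_ifs <;> positivity
  have haa : a ^ 2 ≤ ∑ n ∈ Finset.Icc 2 ⌊2 * X⌋₊, am Y n ^ 2 *
      (if 1 / (n : ℝ) < t ∧ t ≤ Real.exp h / n then 1 else 0) := by
    have hf1 : ⌊x⌋₊ ≤ ⌊x'⌋₊ := Nat.floor_le_floor (by linarith)
    have hf2 : ⌊x'⌋₊ ≤ ⌊x⌋₊ + 1 := by
      have g1 : x' < ((⌊x⌋₊ + 1 + 1 : ℕ) : ℝ) := by
        have := Nat.lt_floor_add_one x
        push_cast
        linarith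
      have g2 := (Nat.floor_lt hx'0.le).2 g1
      omega
    rcases Nat.lt_or_ge ⌊x⌋₊ ⌊x'⌋₊ with hlt | hge
    · have hN : ⌊x'⌋₊ = ⌊x⌋₊ + 1 := by omega
      rcases Nat.eq_zero_or_pos ⌊x⌋₊ with h0 | h0
      · have ha0 : a = 0 := by
          rw [ha, hN, h0]
          simp
        rw [ha0]
        have := Finset.sum_nonneg hsum0
        simpa using this
      · have ha1 : a = am Y (⌊x⌋₊ + 1) := by
          rw [ha, hN, Finset.sum_Icc_succ_top (by omega)]
          ring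
        have hn1 : ((⌊x⌋₊ + 1 : ℕ) : ℝ) ≤ x' := by
          rw [← hN]
          exact Nat.floor_le hx'0.le
        have hn2 : x < ((⌊x⌋₊ + 1 : ℕ) : ℝ) := by
          have := Nat.lt_floor_add_one x
          push_cast
          exact this
        have hn0 : (0 : ℝ) < ((⌊x⌋₊ + 1 : ℕ) : ℝ) := by positivity
        have hmem : ⌊x⌋₊ + 1 ∈ Finset.Icc 2 ⌊2 * X⌋₊ := by
          rw [Finset.mem_Icc]
          refine ⟨by omega, Nat.le_floor ?_⟩
          linarith
        have hc : 1 / ((⌊x⌋₊ + 1 : ℕ) : ℝ) < t ∧ t ≤ Real.exp h / ((⌊x⌋₊ + 1 : ℕ) : ℝ) := by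
          constructor
          · rw [e1]
            exact one_div_lt_one_div_of_lt hx0 hn2
          · rw [e1, div_le_div_iff₀ hx0 hn0, one_mul]
            rw [hx'] at hn1
            linarith
        have hs := Finset.single_le_sum hsum0 hmem
        rw [if_pos hc, mul_one] at hs
        rw [ha1]
        exact hs
    · have hN : ⌊x'⌋₊ = ⌊x⌋₊ := le_antisymm hge hf1
      have ha0 : a = 0 := by
        rw [ha, hN]
        ring
      rw [ha0]
      have := Finset.sum_nonneg hsum0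
      simpa using this
  rw [e5]
  calc (a + -(cc Y * (x' - x))) ^ 2 ≤ 2 * a ^ 2 + 2 * (-(cc Y * (x' - x))) ^ 2 := by
        nlinarith [sq_nonneg (a - -(cc Y * (x' - x)))]
    _ ≤ _ := by linarith

end Pool.Agent.DBC
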