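import Pool.Agent.DBC.Targets5

/-!
# Real zeros of the flow at almost all heights: block LT
-/

set_option autoImplicit false

namespace Pool.Agent.DBC

open Complex MeasureTheory Set Filter Topology
open Pool.Agent.DBN
open scoped ENNReal

namespace LT4_

theorem GG_abs (Y : ℕ) (t : ℝ) : |GG Y t| ≤ (Y : ℝ) + 1 := by
  unfold GG
  have h1 : |∑ k ∈ Finset.Icc 1 Y, ((ArithmeticFunction.moebius k : ℤ) : ℝ) *
      Int.fract (1 / (k * t))| ≤ (Y : ℝ) := by
    refine (Finset.abs_sum_le_sum_abs _ _).trans ?_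
    calc ∑ k ∈ Finset.Icc 1 Y, |((ArithmeticFunction.moebius k : ℤ) : ℝ) *
          Int.fract (1 / (k * t))| ≤ ∑ _k ∈ Finset.Icc 1 Y, (1 : ℝ) := by
          refine Finset.sum_le_sum fun k _ => ?_
          have h2 : |((ArithmeticFunction.moebius k : ℤ) : ℝ)| ≤ 1 := by
            have := ArithmeticFunction.abs_moebius_le_one (n := k)
            exact_mod_cast this
          have h3 := (Int.fract_lt_one (1 / ((k : ℝ) * t))).le
          have h4 := Int.fract_nonneg (1 / ((k : ℝ) * t))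
          rw [abs_mul, abs_of_nonneg h4]
          exact mul_le_one₀ h2 h4 h3
      _ = (Y : ℝ) := by simp
  have h5 : |(if t ≤ 1 then (1 : ℝ) else 0)| ≤ 1 := by
    split_ifs <;> simp
  have h6 := abs_sub (-(∑ k ∈ Finset.Icc 1 Y, ((ArithmeticFunction.moebius k : ℤ) : ℝ) *
      Int.fract (1 / (k * t)))) (if t ≤ 1 then (1 : ℝ) else 0)
  rw [abs_neg] at h6
  linarith

theorem diff_sq (Y : ℕ) (s t : ℝ) : (GG Y s - GG Y t) ^ 2 ≤ 4 * ((Y : ℝ) + 1) ^ 2 := by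
  have h1 := abs_le.1 (GG_abs Y s)
  have h2 := abs_le.1 (GG_abs Y t)
  have h3 : |GG Y s - GG Y t| ≤ 2 * ((Y : ℝ) + 1) := by
    rw [abs_le]
    constructor <;> linarith
  calc (GG Y s - GG Y t) ^ 2 = |GG Y s - GG Y t| ^ 2 := (sq_abs _).symm
    _ ≤ (2 * ((Y : ℝ) + 1)) ^ 2 := pow_le_pow_left₀ (abs_nonneg _) h3 2
    _ = _ := by ring

theorem en_sq (a : ℝ) : ‖(a : ℂ)‖ₑ ^ 2 = ENNReal.ofReal (a ^ 2) := by
  rw [← ofReal_norm, Complex.norm_real, Real.norm_eq_abs, ← ENNReal.ofReal_pow (abs_nonneg _),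
    sq_abs]

/-- the part near zero -/
theorem part1 (σ X A : ℝ) (hσ : 1 / 2 < σ) (hX : 1 ≤ X) (hA : 0 ≤ A) (u : ℝ → ℝ)
    (hu : ∀ t, u t ^ 2 ≤ A) :
    ∫⁻ t in Ioc (0 : ℝ) (1 / X), ENNReal.ofReal (t ^ (2 * σ - 1)) * ‖((u t : ℝ) : ℂ)‖ₑ ^ 2 ≤
      ENNReal.ofReal (A * X ^ (-(2 * σ))) := by
  have hX0 : 0 < X := by linarith
  have h0 : (0 : ℝ) ≤ 1 / X := by positivity
  have hi : IntervalIntegrable (fun t : ℝ => A * t ^ (2 * σ - 1)) volume 0 (1 / X) :=
    (intervalIntegral.intervalIntegrable_rpow' (by linarith)).const_mul A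
  have hi' : IntegrableOn (fun t : ℝ => A * t ^ (2 * σ - 1)) (Ioc 0 (1 / X)) :=
    (intervalIntegrable_iff_integrableOn_Ioc_of_le h0).1 hi
  calc ∫⁻ t in Ioc (0 : ℝ) (1 / X), ENNReal.ofReal (t ^ (2 * σ - 1)) * ‖((u t : ℝ) : ℂ)‖ₑ ^ 2
      ≤ ∫⁻ t in Ioc (0 : ℝ) (1 / X), ENNReal.ofReal (A * t ^ (2 * σ - 1)) := by
        refine setLIntegral_mono' measurableSet_Ioc fun t ht => ?_
        have ht0 : 0 ≤ t ^ (2 * σ - 1) := Real.rpow_nonneg ht.1.le _
        rw [en_sq, ← ENNReal.ofReal_mul ht0]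
        refine ENNReal.ofReal_le_ofReal ?_
        nlinarith [hu t]
    _ = ENNReal.ofReal (∫ t in Ioc (0 : ℝ) (1 / X), A * t ^ (2 * σ - 1)) := by
        refine (ofReal_integral_eq_lintegral_ofReal hi' ?_).symm
        filter_upwards [ae_restrict_mem measurableSet_Ioc] with t ht
        exact mul_nonneg hA (Real.rpow_nonneg ht.1.le _)
    _ ≤ _ := by
        refine ENNReal.ofReal_le_ofReal ?_
        rw [← intervalIntegral.integral_of_le h0, intervalIntegral.integral_const_mul,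
          integral_rpow (Or.inl (by linarith)), sub_add_cancel,
          Real.zero_rpow (by linarith), sub_zero, one_div, Real.inv_rpow hX0.le,
          ← Real.rpow_neg hX0.le]
        have h1 : 0 ≤ X ^ (-(2 * σ)) := Real.rpow_nonneg hX0.le _
        have h2 : X ^ (-(2 * σ)) / (2 * σ) ≤ X ^ (-(2 * σ)) := div_le_self h1 (by linarith)
        exact mul_le_mul_of_nonneg_left h2 hA

/-- one interval -/
theorem part2 (σ X h : ℝ) (n : ℕ) (hσ1 : σ < 1) (hX : 1 ≤ X)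
    (hh : h = 1 / (3 * X)) (hn : 2 ≤ n) :
    (Real.exp h / n) ^ (2 * σ - 1) * (Real.exp h / n - 1 / n) ≤
      X⁻¹ * (n : ℝ) ^ (-(2 * σ)) := by
  have hX0 : 0 < X := by linarith
  have hn0 : (0 : ℝ) < n := by
    have : 0 < n := by omega
    exact_mod_cast this
  have h0 : 0 < h := by rw [hh]; positivity
  have h13 : h ≤ 1 / 3 := by
    rw [hh]
    apply one_div_le_one_div_of_le (by norm_num)
    linarith
  have hX1 : X⁻¹ = 3 * h := by
    rw [hh]; field_simp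
  have he1 : 1 ≤ Real.exp h := Real.one_le_exp h0.le
  have he2 : Real.exp h ≤ 3 / 2 := by
    have h1 : Real.exp h ≤ 1 / (1 - h) :=
      Real.exp_bound_div_one_sub_of_interval h0.le (by linarith)
    have h2 : 1 / (1 - h) ≤ 3 / 2 := by
      rw [div_le_div_iff₀ (by linarith) (by norm_num)]
      linarith
    linarith
  have he3 : Real.exp h - 1 ≤ 3 / 2 * h := by
    have h1 : 1 - h ≤ Real.exp (-h) := by
      have := Real.add_one_le_exp (-h)
      linarith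
    have h2 : Real.exp (-h) * Real.exp h = 1 := by
      rw [← Real.exp_add]; simp
    nlinarith [Real.exp_pos h]
  have hr : (Real.exp h / n) ^ (2 * σ - 1) =
      Real.exp h ^ (2 * σ - 1) * (n : ℝ) ^ (-(2 * σ)) * n := by
    rw [Real.div_rpow (by linarith) hn0.le]
    have : (n : ℝ) ^ (-(2 * σ)) * n = ((n : ℝ) ^ (2 * σ - 1))⁻¹ := by
      rw [← Real.rpow_neg hn0.le]
      nth_rewrite 2 [← Real.rpow_one (n : ℝ)]
      rw [← Real.rpow_add hn0]
      congr 1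
      ring
    rw [mul_assoc, this]
    rfl
  have hexp : Real.exp h ^ (2 * σ - 1) ≤ Real.exp h := by
    calc Real.exp h ^ (2 * σ - 1) ≤ Real.exp h ^ (1 : ℝ) :=
          Real.rpow_le_rpow_of_exponent_le he1 (by linarith)
      _ = Real.exp h := Real.rpow_one _
  have hnr : 0 ≤ (n : ℝ) ^ (-(2 * σ)) := Real.rpow_nonneg hn0.le _
  have key : Real.exp h ^ (2 * σ - 1) * (Real.exp h - 1) ≤ 3 * h := by
    have h1 : Real.exp h ^ (2 * σ - 1) * (Real.exp h - 1) ≤ 3 / 2 * (3 / 2 * h) :=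
      mul_le_mul (hexp.trans he2) he3 (by linarith) (by norm_num)
    linarith
  rw [hr, hX1]
  calc Real.exp h ^ (2 * σ - 1) * (n : ℝ) ^ (-(2 * σ)) * n * (Real.exp h / n - 1 / n)
      = (Real.exp h ^ (2 * σ - 1) * (Real.exp h - 1)) * (n : ℝ) ^ (-(2 * σ)) := by
        field_simp
    _ ≤ 3 * h * (n : ℝ) ^ (-(2 * σ)) := mul_le_mul_of_nonneg_right key hnr

/-- the tail -/
theorem part3 (σ X A : ℝ) (hσ1 : σ < 1) (hX : 1 ≤ X) (hA : 0 ≤ A) :
    ∫⁻ t in Ioi (1 / X), ENNReal.ofReal (A * t ^ (2 * σ - 3)) =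
      ENNReal.ofReal (A * (X ^ (2 - 2 * σ) / (2 - 2 * σ))) := by
  have hX0 : 0 < X := by linarith
  have h0 : (0 : ℝ) < 1 / X := by positivity
  have hi : IntegrableOn (fun t : ℝ => A * t ^ (2 * σ - 3)) (Ioi (1 / X)) :=
    (integrableOn_Ioi_rpow_of_lt (by linarith) h0).const_mul A
  rw [← ofReal_integral_eq_lintegral_ofReal hi]
  · congr 1
    rw [integral_const_mul, integral_Ioi_rpow_of_lt (by linarith) h0]
    congr 1
    rw [one_div, Real.inv_rpow hX0.le, ← Real.rpow_neg hX0.le]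
    have e1 : -(2 * σ - 3 + 1) = 2 - 2 * σ := by ring
    have e2 : 2 * σ - 3 + 1 = -(2 - 2 * σ) := by ring
    rw [e1, e2, neg_div_neg_eq]
  · filter_upwards [ae_restrict_mem measurableSet_Ioi] with t ht
    exact mul_nonneg hA (Real.rpow_nonneg (h0.trans ht).le _)

/-- the pointwise bound in the second part -/
theorem point (σ X h t : ℝ) (Y : ℕ) (hσ : 1 / 2 < σ) (hX : 1 ≤ X) (hY : 1 ≤ Y)
    (hh : h = 1 / (3 * X)) (ht : 1 / X < t) (hGT : Y_GT) :
    ENNReal.ofReal (t ^ (2 * σ - 1)) *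
      ‖((GG Y (Real.exp (-h) * t) - GG Y t : ℝ) : ℂ)‖ₑ ^ 2 ≤
    (∑ n ∈ Finset.Icc 2 ⌊2 * X⌋₊, ENNReal.ofReal (2 * am Y n ^ 2) *
      (Ioc (1 / (n : ℝ)) (Real.exp h / n)).indicator
        (fun _ => ENNReal.ofReal ((Real.exp h / n) ^ (2 * σ - 1))) t) +
      ENNReal.ofReal (8 * (Y : ℝ) ^ 2 * h ^ 2 * t ^ (2 * σ - 3)) := by
  have hX0 : 0 < X := by linarith
  have h0 : (0 : ℝ) < 1 / X := by positivity
  have ht0 : 0 < t := h0.trans ht
  have hp : 0 ≤ t ^ (2 * σ - 1) := Real.rpow_nonneg ht0.le _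
  have hG := hGT Y X h t hY hX hh ht.le
  have e3 : t ^ (2 * σ - 1) * (2 * (2 * Y * h / t) ^ 2) =
      8 * (Y : ℝ) ^ 2 * h ^ 2 * t ^ (2 * σ - 3) := by
    have : t ^ (2 * σ - 1) = t ^ (2 * σ - 3) * t ^ 2 := by
      rw [← Real.rpow_natCast t 2, ← Real.rpow_add ht0]
      congr 1
      push_cast
      ring
    rw [this]
    field_simp
    ring
  have hs : ∀ n ∈ Finset.Icc 2 ⌊2 * X⌋₊, (0 : ℝ) ≤ 2 * am Y n ^ 2 *
      (Ioc (1 / (n : ℝ)) (Real.exp h / n)).indicator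
        (fun _ => (Real.exp h / n) ^ (2 * σ - 1)) t := by
    intro n _
    refine mul_nonneg (by positivity) (indicator_nonneg (fun _ _ => ?_) _)
    exact Real.rpow_nonneg (by positivity) _
  have e4 : (∑ n ∈ Finset.Icc 2 ⌊2 * X⌋₊, ENNReal.ofReal (2 * am Y n ^ 2) *
      (Ioc (1 / (n : ℝ)) (Real.exp h / n)).indicator
        (fun _ => ENNReal.ofReal ((Real.exp h / n) ^ (2 * σ - 1))) t) =
      ENNReal.ofReal (∑ n ∈ Finset.Icc 2 ⌊2 * X⌋₊, 2 * am Y n ^ 2 *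
      (Ioc (1 / (n : ℝ)) (Real.exp h / n)).indicator
        (fun _ => (Real.exp h / n) ^ (2 * σ - 1)) t) := by
    rw [ENNReal.ofReal_sum_of_nonneg hs]
    refine Finset.sum_congr rfl fun n _ => ?_
    by_cases hm : t ∈ Ioc (1 / (n : ℝ)) (Real.exp h / n)
    · rw [indicator_of_mem hm, indicator_of_mem hm]
      exact (ENNReal.ofReal_mul (by positivity)).symm
    · rw [indicator_of_notMem hm, indicator_of_notMem hm, mul_zero, mul_zero,
        ENNReal.ofReal_zero]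
  rw [e4, ← ENNReal.ofReal_add (Finset.sum_nonneg hs) (by positivity), en_sq,
    ← ENNReal.ofReal_mul hp]
  refine ENNReal.ofReal_le_ofReal ?_
  refine (mul_le_mul_of_nonneg_left hG hp).trans ?_
  rw [mul_add, e3]
  refine add_le_add ?_ le_rfl
  rw [Finset.mul_sum, Finset.mul_sum]
  refine Finset.sum_le_sum fun n _ => ?_
  by_cases hm : t ∈ Ioc (1 / (n : ℝ)) (Real.exp h / n)
  · rw [indicator_of_mem hm, if_pos ⟨hm.1, hm.2⟩]
    have h1 : t ^ (2 * σ - 1) ≤ (Real.exp h / n) ^ (2 * σ - 1) :=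
      Real.rpow_le_rpow ht0.le hm.2 (by linarith)
    nlinarith [sq_nonneg (am Y n)]
  · have hm' : ¬ (1 / (n : ℝ) < t ∧ t ≤ Real.exp h / n) := fun hc => hm ⟨hc.1, hc.2⟩
    rw [indicator_of_notMem hm, if_neg hm']
    simp

end LT4_

open LT4_ in
theorem s_LT (h1 : Y_GT) : Y_LT := by
  intro σ hσ hσ1
  have hd : 0 < 2 - 2 * σ := by linarith
  refine ⟨6 + 1 / (2 - 2 * σ), by positivity, fun Y X h hY hX hh => ?_⟩
  have hX0 : 0 < X := by linarith
  have h0 : (0 : ℝ) ≤ 1 / X := by positivity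
  set S : ℝ := ∑ n ∈ Finset.Icc 2 ⌊2 * X⌋₊, am Y n ^ 2 * (n : ℝ) ^ (-(2 * σ)) with hS
  have hS0 : 0 ≤ S := Finset.sum_nonneg fun n _ =>
    mul_nonneg (sq_nonneg _) (Real.rpow_nonneg (Nat.cast_nonneg n) _)
  have hsplit : Ioi (0 : ℝ) = Ioc 0 (1 / X) ∪ Ioi (1 / X) := (Ioc_union_Ioi_eq_Ioi h0).symm
  have hdisj : Disjoint (Ioc (0 : ℝ) (1 / X)) (Ioi (1 / X)) := by
    rw [Set.disjoint_left]
    intro t ht ht'
    exact absurd ht.2 (not_le.2 ht')
  rw [hsplit, lintegral_union measurableSet_Ioi hdisj]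
  have p1 := part1 σ X (4 * ((Y : ℝ) + 1) ^ 2) hσ hX (by positivity)
    (fun t => GG Y (Real.exp (-h) * t) - GG Y t) (fun t => diff_sq Y _ _)
  have p2 : ∫⁻ t in Ioi (1 / X), ENNReal.ofReal (t ^ (2 * σ - 1)) *
      ‖((GG Y (Real.exp (-h) * t) - GG Y t : ℝ) : ℂ)‖ₑ ^ 2 ≤
      ENNReal.ofReal (2 * (X⁻¹ * S)) +
        ENNReal.ofReal (8 * (Y : ℝ) ^ 2 * h ^ 2 * (X ^ (2 - 2 * σ) / (2 - 2 * σ))) := by
    refine (setLIntegral_mono' measurableSet_Ioi fun t ht =>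
      point σ X h t Y hσ hX hY hh ht h1).trans ?_
    have hmeas : ∀ n : ℕ, Measurable fun t : ℝ => ENNReal.ofReal (2 * am Y n ^ 2) *
      (Ioc (1 / (n : ℝ)) (Real.exp h / n)).indicator
        (fun _ => ENNReal.ofReal ((Real.exp h / n) ^ (2 * σ - 1))) t := fun n =>
      (measurable_const.indicator measurableSet_Ioc).const_mul _
    rw [lintegral_add_left (Finset.measurable_fun_sum _ fun n _ => hmeas n),
      part3 σ X _ hσ1 hX (by positivity)]
    refine add_le_add ?_ le_rfl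
    rw [lintegral_finsetSum _ fun n _ => hmeas n]
    have e5 : 2 * (X⁻¹ * S) = ∑ n ∈ Finset.Icc 2 ⌊2 * X⌋₊, 2 * am Y n ^ 2 *
        (X⁻¹ * (n : ℝ) ^ (-(2 * σ))) := by
      rw [hS, Finset.mul_sum, Finset.mul_sum]
      refine Finset.sum_congr rfl fun n _ => ?_
      ring
    rw [e5, ENNReal.ofReal_sum_of_nonneg fun n _ => mul_nonneg (by positivity)
      (mul_nonneg (by positivity) (Real.rpow_nonneg (Nat.cast_nonneg n) _))]
    refine Finset.sum_le_sum fun n hn => ?_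
    rw [lintegral_const_mul _ (measurable_const.indicator measurableSet_Ioc),
      lintegral_indicator_const measurableSet_Ioc,
      ENNReal.ofReal_mul (p := 2 * am Y n ^ 2) (by positivity)]
    have hv : ENNReal.ofReal ((Real.exp h / n) ^ (2 * σ - 1)) *
        (volume.restrict (Ioi (1 / X))) (Ioc (1 / (n : ℝ)) (Real.exp h / n)) ≤
        ENNReal.ofReal (X⁻¹ * (n : ℝ) ^ (-(2 * σ))) := by
      calc ENNReal.ofReal ((Real.exp h / n) ^ (2 * σ - 1)) *
            (volume.restrict (Ioi (1 / X))) (Ioc (1 / (n : ℝ)) (Real.exp h / n))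
          ≤ ENNReal.ofReal ((Real.exp h / n) ^ (2 * σ - 1)) *
            volume (Ioc (1 / (n : ℝ)) (Real.exp h / n)) := by
            gcongr
            exact Measure.restrict_le_self
        _ = ENNReal.ofReal ((Real.exp h / n) ^ (2 * σ - 1) *
            (Real.exp h / n - 1 / n)) := by
            rw [Real.volume_Ioc, ← ENNReal.ofReal_mul (Real.rpow_nonneg (by positivity) _)]
        _ ≤ _ := ENNReal.ofReal_le_ofReal
            (part2 σ X h n hσ1 hX hh (Finset.mem_Icc.1 hn).1)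
    gcongr
  refine (add_le_add p1 p2).trans ?_
  rw [← ENNReal.ofReal_add (by positivity) (by positivity),
    ← ENNReal.ofReal_add (by positivity) (by positivity)]
  refine ENNReal.ofReal_le_ofReal ?_
  have hpow : h ^ 2 * X ^ (2 - 2 * σ) = 1 / 9 * X ^ (-(2 * σ)) := by
    have : X ^ (2 - 2 * σ) = X ^ (-(2 * σ)) * X ^ 2 := by
      rw [← Real.rpow_natCast X 2, ← Real.rpow_add hX0]
      congr 1
      push_cast
      ring
    rw [this, hh]
    field_simp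
    ring
  have hP : 0 ≤ X ^ (-(2 * σ)) := Real.rpow_nonneg hX0.le _
  have hXS : 0 ≤ X⁻¹ * S := mul_nonneg (by positivity) hS0
  have hq : 0 ≤ 1 / (2 - 2 * σ) := by positivity
  have e6 : 8 * (Y : ℝ) ^ 2 * h ^ 2 * (X ^ (2 - 2 * σ) / (2 - 2 * σ)) ≤
      1 / (2 - 2 * σ) * (((Y : ℝ) + 1) ^ 2 * X ^ (-(2 * σ))) := by
    calc 8 * (Y : ℝ) ^ 2 * h ^ 2 * (X ^ (2 - 2 * σ) / (2 - 2 * σ))
        = 1 / (2 - 2 * σ) * (8 * (Y : ℝ) ^ 2 * (h ^ 2 * X ^ (2 - 2 * σ))) := by ring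
      _ = 1 / (2 - 2 * σ) * (8 / 9 * (Y : ℝ) ^ 2 * X ^ (-(2 * σ))) := by rw [hpow]; ring
      _ ≤ _ := by
        refine mul_le_mul_of_nonneg_left (mul_le_mul_of_nonneg_right ?_ hP) hq
        have : (0 : ℝ) ≤ Y := Nat.cast_nonneg Y
        nlinarith
  have hYP : 0 ≤ ((Y : ℝ) + 1) ^ 2 * X ^ (-(2 * σ)) := mul_nonneg (by positivity) hP
  have e7 : 0 ≤ 1 / (2 - 2 * σ) * (X⁻¹ * S) := mul_nonneg hq hXS
  nlinarith [e6, hYP, hXS, e7]

end Pool.Agent.DBC
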