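import Pool.Agent.DBC.Targets5

/-!
# DBC, target `Y_MF`: the Mellin transform of the difference
-/

set_option autoImplicit false

namespace Pool.Agent.DBC

open Complex MeasureTheory Set Filter Topology
open Pool.Agent.DBN
open scoped ENNReal

namespace MF4_

open Pool.Agent.NBL (Adm nb ch adm_nb adm_ch nb_mellin ch_mellin mellin_sum)

theorem pos_of_mem {Y k : ℕ} (hk : k ∈ Finset.Icc 1 Y) : 0 < k :=
  (Finset.mem_Icc.1 hk).1

/-- the coefficients -/
noncomputable def cf (k : ℕ) : ℂ := -((ArithmeticFunction.moebius k : ℤ) : ℂ)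

theorem GG_eq (Y : ℕ) : (fun t : ℝ => ((GG Y t : ℝ) : ℂ)) =
    fun t : ℝ => (∑ k ∈ Finset.Icc 1 Y, cf k * nb k t) + (-1 : ℂ) * ch 1 t := by
  funext t
  have h1 : (∑ k ∈ Finset.Icc 1 Y, cf k * nb k t) =
      -((∑ k ∈ Finset.Icc 1 Y, ((ArithmeticFunction.moebius k : ℤ) : ℝ) *
        Int.fract (1 / (k * t)) : ℝ) : ℂ) := by
    rw [ofReal_sum, ← Finset.sum_neg_distrib]
    refine Finset.sum_congr rfl fun k _ => ?_
    unfold cf nb
    push_cast
    ring
  have h2 : ch 1 t = ((if t ≤ 1 then (1 : ℝ) else 0 : ℝ) : ℂ) := by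
    unfold ch
    rw [Nat.cast_one, div_one]
    split_ifs <;> simp
  rw [h1, h2]
  unfold GG
  push_cast
  ring

theorem adm_GG (Y : ℕ) : Adm (fun t : ℝ => ((GG Y t : ℝ) : ℂ)) := by
  rw [GG_eq]
  exact (Adm.sum _ fun k hk => (adm_nb (pos_of_mem hk)).mul _).add ((adm_ch one_pos).mul _)

theorem adm_scale {g : ℝ → ℂ} (hg : Adm g) {a : ℝ} (ha : 0 < a) (ha1 : a ≤ 1) :
    Adm (fun t : ℝ => g (a * t)) := by
  obtain ⟨m, M, hM, hb⟩ := hg
  refine ⟨m.comp (measurable_const.mul measurable_id), M / a, by positivity, fun t ht => ?_⟩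
  have h1 : min 1 (1 / (a * t)) ≤ 1 / a * min 1 (1 / t) := by
    rcases le_total 1 (1 / t) with h | h
    · rw [min_eq_left h, mul_one]
      refine (min_le_left _ _).trans ?_
      rw [le_div_iff₀ ha, one_mul]
      exact ha1
    · rw [min_eq_right h]
      refine (min_le_right _ _).trans (le_of_eq ?_)
      field_simp
  calc ‖g (a * t)‖ ≤ M * min 1 (1 / (a * t)) := hb _ (mul_pos ha ht)
    _ ≤ M * (1 / a * min 1 (1 / t)) := mul_le_mul_of_nonneg_left h1 hM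
    _ = M / a * min 1 (1 / t) := by ring

theorem mellin_GG (Y : ℕ) {s : ℂ} (h0 : 0 < s.re) (h1 : s.re < 1) :
    mellin (fun t : ℝ => ((GG Y t : ℝ) : ℂ)) s = (riemannZeta s * Mo Y s - 1) / s := by
  have hA : ∀ k ∈ Finset.Icc 1 Y, Adm (nb k) := fun k hk => adm_nb (pos_of_mem hk)
  have hc : Adm (ch 1) := adm_ch one_pos
  have e1 := (hasMellin_add ((Adm.sum _ fun k hk => (hA k hk).mul (cf k)).conv h0 h1)
    ((hc.mul (-1)).conv h0 h1)).2
  have e2 : mellin (fun t : ℝ => (-1 : ℂ) * ch 1 t) s = (-1 : ℂ) * mellin (ch 1) s :=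
    mellin_const_smul (ch 1) s (-1 : ℂ)
  rw [GG_eq, e1, e2, mellin_sum _ cf hA h0 h1, ch_mellin one_pos h0, Nat.cast_one, one_cpow]
  have e3 : (∑ k ∈ Finset.Icc 1 Y, cf k * mellin (nb k) s) = riemannZeta s * Mo Y s / s := by
    unfold Mo
    rw [Finset.mul_sum, Finset.sum_div]
    refine Finset.sum_congr rfl fun k hk => ?_
    rw [nb_mellin (pos_of_mem hk) h0 h1]
    unfold cf
    ring
  rw [e3]
  ring

theorem exp_cpow (h : ℝ) (s : ℂ) : ((Real.exp (-h) : ℝ) : ℂ) ^ (-s) = exp (h * s) := by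
  have hne : ((Real.exp (-h) : ℝ) : ℂ) ≠ 0 := by
    exact_mod_cast (Real.exp_pos _).ne'
  rw [cpow_def_of_ne_zero hne, ← ofReal_log (Real.exp_pos _).le, Real.log_exp]
  congr 1
  push_cast
  ring

end MF4_

open MF4_ in
theorem s_MF : Y_MF := by
  intro Y h hh
  have ha : 0 < Real.exp (-h) := Real.exp_pos _
  have ha1 : Real.exp (-h) ≤ 1 := by
    rw [Real.exp_le_one_iff]
    linarith
  have hG := adm_GG Y
  have hS := adm_scale hG ha ha1
  have hfun : (fun t : ℝ => ((GG Y (Real.exp (-h) * t) - GG Y t : ℝ) : ℂ)) =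
      fun t : ℝ => ((GG Y (Real.exp (-h) * t) : ℝ) : ℂ) - ((GG Y t : ℝ) : ℂ) := by
    funext t
    push_cast
    ring
  refine ⟨?_, fun s h0 h1 => ?_⟩
  · have h2 := hS.add (hG.mul (-1))
    have h3 : (fun t : ℝ => ((GG Y (Real.exp (-h) * t) - GG Y t : ℝ) : ℂ)) =
        fun t : ℝ => ((GG Y (Real.exp (-h) * t) : ℝ) : ℂ) + (-1) * ((GG Y t : ℝ) : ℂ) := by
      funext t
      push_cast
      ring
    rw [h3]
    exact h2
  · rw [hfun, (hasMellin_sub (hS.conv h0 h1) (hG.conv h0 h1)).2,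
      mellin_comp_mul_left (fun t : ℝ => ((GG Y t : ℝ) : ℂ)) s ha, mellin_GG Y h0 h1,
      exp_cpow, smul_eq_mul]
    ring

end Pool.Agent.DBC
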