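import Pool.Agent.DBC.Targets5
import Pool.Agent.NBL.Adm

/-!
# PL: Plancherel's theorem for the Mellin transform on the line of real part σ
-/

set_option autoImplicit false

open MeasureTheory Complex Set Filter Topology Asymptotics FourierTransform
open scoped ENNReal

namespace Pool.Agent.DBC

namespace PL4_

/-- the function on the additive group -/
noncomputable def phi (σ : ℝ) (g : ℝ → ℂ) (u : ℝ) : ℂ :=
  Real.exp (-σ * u) • g (Real.exp (-u))

lemma phi_meas (σ : ℝ) {g : ℝ → ℂ} (hg : Measurable g) : Measurable (phi σ g) := by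
  unfold phi
  exact (Real.measurable_exp.comp (measurable_const.mul measurable_id)).smul
    (hg.comp (Real.measurable_exp.comp measurable_neg))

lemma phi_bound {σ c : ℝ} (h1c : c ≤ σ) (h2c : c ≤ 1 - σ) {g : ℝ → ℂ} {M : ℝ}
    (hb : ∀ t : ℝ, 0 < t → ‖g t‖ ≤ M ∧ ‖g t‖ ≤ M * (1 / t))
    (u : ℝ) : ‖phi σ g u‖ ≤ M * Real.exp (-c * |u|) := by
  unfold phi
  rw [norm_smul, Real.norm_of_nonneg (Real.exp_pos _).le]
  obtain ⟨h1, h2⟩ := hb (Real.exp (-u)) (Real.exp_pos _)
  have hM : 0 ≤ M := (norm_nonneg _).trans h1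
  rcases le_total 0 u with hu | hu
  · rw [abs_of_nonneg hu]
    calc Real.exp (-σ * u) * ‖g (Real.exp (-u))‖ ≤ Real.exp (-c * u) * M := by
          refine mul_le_mul (Real.exp_le_exp.2 (by nlinarith)) h1 (norm_nonneg _)
            (Real.exp_pos _).le
      _ = M * Real.exp (-c * u) := mul_comm _ _
  · rw [abs_of_nonpos hu]
    calc Real.exp (-σ * u) * ‖g (Real.exp (-u))‖
        ≤ Real.exp (-σ * u) * (M * (1 / Real.exp (-u))) :=
          mul_le_mul_of_nonneg_left h2 (Real.exp_pos _).le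
      _ = M * Real.exp ((1 - σ) * u) := by
          have e : (1 : ℝ) / Real.exp (-u) = Real.exp u := by
            rw [Real.exp_neg, one_div, inv_inv]
          rw [e, mul_comm, mul_assoc, ← Real.exp_add]
          congr 2
          ring
      _ ≤ M * Real.exp (-c * -u) := by
          refine mul_le_mul_of_nonneg_left (Real.exp_le_exp.2 ?_) hM
          nlinarith

lemma integrable_exp_abs {c : ℝ} (hc : 0 < c) :
    Integrable (fun u : ℝ => Real.exp (-c * |u|)) := by
  rw [← integrableOn_univ, ← Iic_union_Ioi (a := (0 : ℝ)), integrableOn_union]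
  constructor
  · refine (integrableOn_exp_mul_Iic (a := c) hc 0).congr_fun (fun u hu => ?_)
      measurableSet_Iic
    have hu' : u ≤ 0 := hu
    simp only [abs_of_nonpos hu']
    congr 1
    ring
  · refine (integrableOn_exp_mul_Ioi (a := -c) (by linarith) 0).congr_fun (fun u hu => ?_)
      measurableSet_Ioi
    have hu' : 0 < u := hu
    simp only [abs_of_pos hu']

lemma phi_int {σ : ℝ} (h0 : 0 < σ) (h1 : σ < 1) {g : ℝ → ℂ} (hg : NBL.Adm g) :
    Integrable (phi σ g) := by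
  obtain ⟨M, hM, hb⟩ := hg.norm_le
  have hc : 0 < min σ (1 - σ) := lt_min h0 (by linarith)
  refine ((integrable_exp_abs hc).const_mul M).mono' (phi_meas σ hg.1).aestronglyMeasurable ?_
  exact Eventually.of_forall fun u => phi_bound (min_le_left _ _) (min_le_right _ _) hb u

lemma phi_memLp {σ : ℝ} (h0 : 0 < σ) (h1 : σ < 1) {g : ℝ → ℂ} (hg : NBL.Adm g) :
    MemLp (phi σ g) 2 := by
  obtain ⟨M, hM, hb⟩ := hg.norm_le
  have hc : 0 < min σ (1 - σ) := lt_min h0 (by linarith)
  rw [memLp_two_iff_integrable_sq_norm (phi_meas σ hg.1).aestronglyMeasurable]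
  refine ((phi_int h0 h1 hg).norm.const_mul M).mono'
    ((phi_meas σ hg.1).norm.pow_const 2).aestronglyMeasurable ?_
  refine Eventually.of_forall fun u => ?_
  rw [Real.norm_of_nonneg (by positivity), sq]
  refine mul_le_mul_of_nonneg_right
    ((phi_bound (min_le_left _ _) (min_le_right _ _) hb u).trans ?_) (norm_nonneg _)
  have : Real.exp (-(min σ (1 - σ)) * |u|) ≤ 1 := by
    rw [Real.exp_le_one_iff]
    have := abs_nonneg u
    nlinarith
  nlinarith

lemma lint_phi (σ : ℝ) (g : ℝ → ℂ) :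
    ∫⁻ t in Ioi (0 : ℝ), ENNReal.ofReal (t ^ (2 * σ - 1)) * ‖g t‖ₑ ^ 2 =
      ∫⁻ u, ‖phi σ g u‖ₑ ^ 2 := by
  have himg : Real.exp ∘ Neg.neg '' univ = Ioi (0 : ℝ) := by
    rw [Set.image_comp, Set.image_univ_of_surjective neg_surjective, Set.image_univ,
      Real.range_exp]
  rw [← himg, lintegral_image_eq_lintegral_abs_deriv_mul (f' := fun x => -Real.exp (-x))
    MeasurableSet.univ (fun x _ => mul_neg_one (Real.exp (-x)) ▸
      ((Real.hasDerivAt_exp (-x)).comp x (hasDerivAt_neg x)).hasDerivWithinAt)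
    (Real.exp_injective.injOn.comp neg_injective.injOn (univ.mapsTo_univ _)),
    Measure.restrict_univ]
  refine lintegral_congr fun u => ?_
  unfold phi
  rw [enorm_smul, mul_pow, abs_neg, abs_of_pos (Real.exp_pos _), ← mul_assoc]
  have e0 : (Real.exp ∘ Neg.neg) u = Real.exp (-u) := rfl
  rw [e0]
  congr 1
  rw [Real.enorm_eq_ofReal (Real.exp_pos _).le, ← ENNReal.ofReal_pow (Real.exp_pos _).le,
    ← Real.exp_nat_mul, ← ENNReal.ofReal_mul (Real.exp_pos _).le, ← Real.exp_mul,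
    ← Real.exp_add]
  congr 2
  push_cast
  ring

end PL4_

open PL4_

/-- Plancherel's theorem for the Mellin transform on the line of real part `σ` -/
theorem s_PL : Y_PL := by
  intro σ h0 h1 g hg
  have k1 := Pool.Agent.H25.Plancherel.eLpNorm_fourier_eq (phi_int h0 h1 hg)
    (phi_memLp h0 h1 hg)
  have k2 : ∫⁻ v, ‖𝓕 (phi σ g) v‖ₑ ^ 2 = ∫⁻ u, ‖phi σ g u‖ₑ ^ 2 := by
    rw [← NBL.sq_eLpNorm, ← NBL.sq_eLpNorm, k1]
  have k4 : ∀ τ : ℝ, mellin g (σ + τ * I) = 𝓕 (phi σ g) (τ / (2 * Real.pi)) := by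
    intro τ
    rw [mellin_eq_fourier]
    have e1 : ((σ + τ * I : ℂ)).re = σ := by simp
    have e2 : ((σ + τ * I : ℂ)).im = τ := by simp
    rw [e1, e2]
    rfl
  rw [lint_phi σ g, ← k2]
  simp_rw [k4]
  have hcont : Measurable (fun v : ℝ => ‖𝓕 (phi σ g) v‖ₑ ^ 2) := by
    have : Continuous (𝓕 (phi σ g)) := by
      have := VectorFourier.fourierIntegral_continuous (V := ℝ) (W := ℝ)
        Real.continuous_fourierChar (L := innerₗ ℝ) continuous_inner (phi_int h0 h1 hg)
      exact this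
    exact this.measurable.enorm.pow_const 2
  have hpi : (0 : ℝ) < 2 * Real.pi := by positivity
  have e : ∫⁻ τ : ℝ, ‖𝓕 (phi σ g) (τ / (2 * Real.pi))‖ₑ ^ 2 =
      ∫⁻ v, ‖𝓕 (phi σ g) v‖ₑ ^ 2 ∂(Measure.map (fun τ : ℝ => τ * (2 * Real.pi)⁻¹) volume) := by
    rw [lintegral_map hcont (by fun_prop)]
    rfl
  rw [e, Real.map_volume_mul_right (by positivity), lintegral_smul_measure, inv_inv,
    abs_of_pos hpi, smul_eq_mul]

end Pool.Agent.DBC
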