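import Pool.Agent.DBC.Targets2

/-!
# The logarithmic derivative of `W`
-/

set_option autoImplicit false

namespace Pool.Agent.DBC

open Complex MeasureTheory Set Filter Topology
open Pool.Agent.DBN

namespace GD22_

/-- from a comparison on a ball to the logarithmic derivative -/
theorem logd (h1 : U_BCL) (F : ℂ → ℂ) (s : ℂ) (L δ M : ℝ) (hδ : 0 < δ) (hM : 0 < M)
    (hF : Differentiable ℂ F)
    (hb : ∀ v ∈ Metric.ball (0 : ℂ) δ, F (s + v) ≠ 0 ∧
      ‖F (s + v)‖ ≤ Real.exp (v.re * (L / 2)) * (Real.exp M * ‖F s‖)) :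
    ‖deriv F s - ((L / 2 : ℝ) : ℂ) * F s‖ ≤ 4 * M / δ * ‖F s‖ := by
  set g : ℂ → ℂ := fun v => exp (-(v * ((L / 2 : ℝ) : ℂ))) * F (s + v) with hg
  have hg0 : g 0 = F s := by simp [hg]
  have hgd : Differentiable ℂ g := by
    have h2 : Differentiable ℂ (fun v : ℂ => exp (-(v * ((L / 2 : ℝ) : ℂ)))) := by fun_prop
    have h3 : Differentiable ℂ (fun v : ℂ => F (s + v)) :=
      hF.comp ((differentiable_const s).add differentiable_id)
    exact h2.mul h3
  have hn : ∀ v : ℂ, ‖exp (-(v * ((L / 2 : ℝ) : ℂ)))‖ = Real.exp (-(v.re * (L / 2))) := by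
    intro v
    rw [Complex.norm_exp]
    congr 1
    rw [Complex.neg_re, Complex.mul_re, Complex.ofReal_re, Complex.ofReal_im, mul_zero, sub_zero]
  have hgb : ∀ v ∈ Metric.ball (0 : ℂ) δ, g v ≠ 0 ∧ ‖g v‖ ≤ Real.exp M * ‖g 0‖ := by
    intro v hv
    obtain ⟨h2, h3⟩ := hb v hv
    refine ⟨mul_ne_zero (exp_ne_zero _) h2, ?_⟩
    rw [hg0]
    simp only [hg]
    rw [norm_mul, hn]
    calc Real.exp (-(v.re * (L / 2))) * ‖F (s + v)‖ ≤ Real.exp (-(v.re * (L / 2))) *
          (Real.exp (v.re * (L / 2)) * (Real.exp M * ‖F s‖)) :=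
          mul_le_mul_of_nonneg_left h3 (Real.exp_pos _).le
      _ = (Real.exp (-(v.re * (L / 2))) * Real.exp (v.re * (L / 2))) *
          (Real.exp M * ‖F s‖) := by ring
      _ = Real.exp M * ‖F s‖ := by
          rw [← Real.exp_add, neg_add_cancel, Real.exp_zero, one_mul]
  obtain ⟨h, ⟨hd, h0, hh⟩, hb2⟩ := h1 g δ M hδ hM hgd.differentiableOn hgb
  have hder : ‖deriv h 0‖ ≤ 2 * M / (δ / 2) := by
    refine Complex.norm_deriv_le_of_forall_mem_sphere_norm_le (by positivity) ?_ ?_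
    · refine DifferentiableOn.diffContOnCl_ball hd ?_
      exact Metric.closedBall_subset_ball (by linarith)
    · intro v hv
      have hv' : ‖v‖ = δ / 2 := by simpa using hv
      have hv2 : v ∈ Metric.ball (0 : ℂ) δ := by
        rw [mem_ball_zero_iff, hv']; linarith
      have h2 := hb2 v hv2
      rw [hv'] at h2
      have h3 : 2 * M * (δ / 2) / (δ - δ / 2) = 2 * M := by
        field_simp
        ring
      rw [h3] at h2
      exact h2
  have hd1 : HasDerivAt g (g 0 * (exp (h 0) * deriv h 0)) 0 := by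
    have h2 : HasDerivAt h (deriv h 0) 0 :=
      (hd.differentiableAt (Metric.ball_mem_nhds 0 hδ)).hasDerivAt
    have h3 : HasDerivAt (fun v => g 0 * exp (h v)) (g 0 * (exp (h 0) * deriv h 0)) 0 :=
      h2.cexp.const_mul (g 0)
    refine h3.congr_of_eventuallyEq ?_
    filter_upwards [Metric.ball_mem_nhds (0 : ℂ) hδ] with v hv using hh v hv
  have hd2 : HasDerivAt g (deriv F s - ((L / 2 : ℝ) : ℂ) * F s) 0 := by
    have h2 : HasDerivAt (fun v : ℂ => exp (-(v * ((L / 2 : ℝ) : ℂ))))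
        (exp (-((0 : ℂ) * ((L / 2 : ℝ) : ℂ))) * (-(1 * ((L / 2 : ℝ) : ℂ)))) 0 :=
      ((hasDerivAt_id (0 : ℂ)).mul_const _).neg.cexp
    have h3 : HasDerivAt (fun v : ℂ => F (s + v)) (deriv F s) 0 := by
      have h4 : HasDerivAt F (deriv F s) (s + 0) := by
        rw [add_zero]
        exact (hF s).hasDerivAt
      exact h4.comp_const_add s 0
    have h4 := h2.mul h3
    refine h4.congr_deriv ?_
    rw [zero_mul, neg_zero, exp_zero, add_zero]
    ring
  have he := hd1.unique hd2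
  rw [← he, h0, exp_zero, one_mul, norm_mul, hg0]
  calc ‖F s‖ * ‖deriv h 0‖ ≤ ‖F s‖ * (2 * M / (δ / 2)) :=
        mul_le_mul_of_nonneg_left hder (norm_nonneg _)
    _ = 4 * M / δ * ‖F s‖ := by
        field_simp
        ring

theorem pt_add (x τ : ℝ) (v : ℂ) : pt x τ + v = pt (x + v.re) (τ + v.im) := by
  unfold pt
  apply Complex.ext
  · simp
    ring
  · simp

theorem rpow_split (T a b c : ℝ) (hT : 0 < T) :
    T ^ (a + b / 2 + c) = Real.exp (b * (Real.log T / 2)) * (Real.exp (2 * c * Real.log T) *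
      T ^ (a - c)) := by
  rw [Real.rpow_def_of_pos hT, Real.rpow_def_of_pos hT, ← Real.exp_add, ← Real.exp_add]
  congr 1
  ring

end GD22_

theorem q_GD2 (h1 : U_BCL) (h2 : T_DER) (h3 : U_UP2) (h4 : U_LO2) : U_GD2 := by
  intro l c₁ c₂ K h
  have hK1 : Hyp2 l c₁ c₂ (K + 1) :=
    ⟨h.l0, h.lc, h.cc, by linarith [h.K0], h.xl, h.ml, h.zf⟩
  obtain ⟨δ₁, hδ₁, hU⟩ := h3 l c₁ c₂ (K + 1) hK1
  obtain ⟨δ₂, hδ₂, hLo⟩ := h4 l c₁ c₂ (K + 1) hK1
  set δ := min (min δ₁ δ₂ / 2) 1 with hδdef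
  have hδ0 : 0 < δ := lt_min (by have := lt_min hδ₁ hδ₂; linarith) one_pos
  have hδa : δ ≤ δ₁ / 2 := (min_le_left _ _).trans (by have := min_le_left δ₁ δ₂; linarith)
  have hδb : δ ≤ δ₂ / 2 := (min_le_left _ _).trans (by have := min_le_right δ₁ δ₂; linarith)
  have hδc : δ ≤ 1 := min_le_right _ _
  refine ⟨δ, hδ0, fun ε hε => ?_⟩
  set e := min ε (ε * δ / 8) with he
  have he0 : 0 < e := lt_min hε (by positivity)
  have he1 : e ≤ ε := min_le_left _ _
  have he2 : e ≤ ε * δ / 8 := min_le_right _ _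
  obtain ⟨T₁, hT₁, hE1⟩ := hU e he0
  obtain ⟨T₂, hT₂, hE2⟩ := hLo e he0
  refine ⟨max (max T₁ T₂) 3, le_max_of_le_left (le_max_of_le_left hT₁),
    fun t T x τ hT hc1 hc2 hx1 hx2 hτ => ?_⟩
  have hTa : T₁ ≤ T := ((le_max_left _ _).trans (le_max_left _ _)).trans hT
  have hTb : T₂ ≤ T := ((le_max_right _ _).trans (le_max_left _ _)).trans hT
  have hT3 : 3 ≤ T := (le_max_right _ _).trans hT
  have hT0 : 0 < T := by linarith
  have hL : 1 ≤ Real.log T := by
    rw [Real.le_log_iff_exp_le (by linarith)]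
    have := Real.exp_one_lt_d9
    linarith
  have hL0 : 0 < Real.log T := by linarith
  have ht : 0 < t := by
    have h5 : 0 < t * Real.log T := by linarith [h.lc, h.l0]
    exact (mul_pos_iff_of_pos_right hL0).mp h5
  have hsz : 0 < size T := by unfold size; positivity
  have hlow : size T * T ^ (t * Real.log T / 16 + x / 2 - e) ≤ ‖W t (pt x τ)‖ :=
    hE2 t T x τ hTb hc1 hc2 (by linarith) (by linarith) (by linarith)
  have hWpos : 0 < ‖W t (pt x τ)‖ :=
    lt_of_lt_of_le (mul_pos hsz (Real.rpow_pos_of_pos hT0 _)) hlow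
  have hdW : Differentiable ℂ (W t) := fun s => (h2 t s ht).differentiableAt
  have hball : ∀ v ∈ Metric.ball (0 : ℂ) δ, W t (pt x τ + v) ≠ 0 ∧
      ‖W t (pt x τ + v)‖ ≤ Real.exp (v.re * (Real.log T / 2)) *
        (Real.exp (2 * e * Real.log T) * ‖W t (pt x τ)‖) := by
    intro v hv
    rw [mem_ball_zero_iff] at hv
    have hre : |v.re| < δ := (Complex.abs_re_le_norm v).trans_lt hv
    have him : |v.im| < δ := (Complex.abs_im_le_norm v).trans_lt hv
    obtain ⟨hr1, hr2⟩ := abs_lt.1 hre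
    have hτ' : |τ + v.im - T| ≤ K + 1 := by
      have : τ + v.im - T = (τ - T) + v.im := by ring
      rw [this]
      exact (abs_add_le _ _).trans (by linarith)
    rw [GD22_.pt_add]
    have hlo := hE2 t T (x + v.re) (τ + v.im) hTb hc1 hc2 (by linarith) (by linarith) hτ'
    have hup := hE1 t T (x + v.re) (τ + v.im) hTa hc1 hc2 (by linarith) (by linarith) hτ'
    beta_reduce at hlo hup
    refine ⟨?_, ?_⟩
    · intro h0
      rw [h0, norm_zero] at hlo
      have := mul_pos hsz (Real.rpow_pos_of_pos hT0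
        (t * Real.log T / 16 + (x + v.re) / 2 - e))
      linarith
    · have hsplit := GD22_.rpow_split T (t * Real.log T / 16 + x / 2) v.re e hT0
      have hex : t * Real.log T / 16 + (x + v.re) / 2 + e =
          t * Real.log T / 16 + x / 2 + v.re / 2 + e := by ring
      rw [hex, hsplit] at hup
      refine hup.trans ?_
      calc size T * (Real.exp (v.re * (Real.log T / 2)) * (Real.exp (2 * e * Real.log T) *
            T ^ (t * Real.log T / 16 + x / 2 - e))) =
            Real.exp (v.re * (Real.log T / 2)) * (Real.exp (2 * e * Real.log T) *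
            (size T * T ^ (t * Real.log T / 16 + x / 2 - e))) := by ring
        _ ≤ _ := by
            refine mul_le_mul_of_nonneg_left ?_ (Real.exp_pos _).le
            exact mul_le_mul_of_nonneg_left hlow (Real.exp_pos _).le
  have hmain := GD22_.logd h1 (W t) (pt x τ) (Real.log T) δ (2 * e * Real.log T) hδ0
    (by positivity) hdW hball
  refine ⟨norm_pos_iff.1 hWpos, ?_, ?_⟩
  · refine hmain.trans ?_
    refine mul_le_mul_of_nonneg_right ?_ hWpos.le
    rw [div_le_iff₀ hδ0]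
    have h8 : 8 * e ≤ ε * δ := by linarith
    nlinarith
  · refine le_trans ?_ hlow
    refine mul_le_mul_of_nonneg_left ?_ hsz.le
    exact Real.rpow_le_rpow_of_exponent_le (by linarith) (by linarith)

end Pool.Agent.DBC
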