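import Pool.Agent.DBC.Targets
import Pool.Agent.DBN.PhiC
import Pool.Agent.DBN.FlowReg

/-!
# HTR: transfer to `H`
-/

set_option autoImplicit false

namespace Pool.Agent.DBC

open Complex MeasureTheory Set Filter Topology
open Pool.Agent.DBN

namespace HTR_

theorem H_pt (t : ℝ) (z : ℂ) : H t z = flow t (pt (-(z.im / 2)) (z.re / 2)) / 8 := by
  rw [H_eq_flow]
  congr 2
  unfold pt
  apply Complex.ext
  · simp
    ring
  · simp

theorem H_pt_real (t x : ℝ) : H t x = flow t (pt 0 (x / 2)) / 8 := by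
  rw [H_pt]
  simp

theorem H_zero (t : ℝ) (z : ℂ) : H t z = 0 ↔ flow t (pt (-(z.im / 2)) (z.re / 2)) = 0 := by
  rw [H_pt]
  simp

theorem H_zero_real (t x : ℝ) : H t x = 0 ↔ flow t (pt 0 (x / 2)) = 0 := by
  rw [H_pt_real]
  simp

theorem H_deriv (t : ℝ) (z : ℂ) (h : deriv (flow t) (pt (-(z.im / 2)) (z.re / 2)) ≠ 0) :
    deriv (H t) z ≠ 0 := by
  have e : pt (-(z.im / 2)) (z.re / 2) = 1 / 2 + I * z / 2 := by
    unfold pt
    apply Complex.ext
    · simp
      ring
    · simp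
  rw [e] at h
  have e2 : H t = fun z : ℂ => flow t (1 / 2 + I * z / 2) / 8 := by
    funext w
    exact H_eq_flow t w
  have h1 : HasDerivAt (flow t) (deriv (flow t) (1 / 2 + I * z / 2)) (1 / 2 + I * z / 2) :=
    (differentiable_flow t _).hasDerivAt
  have h2 : HasDerivAt (fun z : ℂ => 1 / 2 + I * z / 2) (I * 1 / 2) z :=
    (((hasDerivAt_id z).const_mul I).div_const 2).const_add (1 / 2)
  have h3 := (h1.comp z h2).div_const 8
  rw [e2]
  have h4 : deriv (fun z : ℂ => flow t (1 / 2 + I * z / 2) / 8) z =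
      deriv (flow t) (1 / 2 + I * z / 2) * (I * 1 / 2) / 8 := h3.deriv
  rw [h4]
  have hI : (I : ℂ) ≠ 0 := I_ne_zero
  refine div_ne_zero (mul_ne_zero h ?_) (by norm_num)
  rw [mul_one]
  exact div_ne_zero hI (by norm_num)

end HTR_

open HTR_ in
theorem p_HTR (h1 : T_XIL) (h2 : T_ZER) (h3 : T_SPC) : T_HTR := by
  intro l c₁ c₂ hl hG hlc h2c hcc K ε hK hε
  have hyp : Hyp l c₁ c₂ K := ⟨hl, hlc, h2c, hcc, hK, h1 l hl hG⟩
  obtain ⟨Ta, hTa, ha⟩ := h2 l c₁ c₂ K hyp
  obtain ⟨Tb, hTb, hb⟩ := h3 l c₁ c₂ K hyp (ε / 2) (by linarith)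
  refine ⟨max Ta Tb, le_max_of_le_left hTa, fun t T hT hc1 hc2 => ?_⟩
  have hTa' : Ta ≤ T := (le_max_left _ _).trans hT
  have hTb' : Tb ≤ T := (le_max_right _ _).trans hT
  refine ⟨?_, ?_, ?_⟩
  · intro z hz hz0
    have hre : |z.re / 2 - T| ≤ K := by
      have e1 : |(z - 2 * T).re| ≤ K := (Complex.abs_re_le_norm _).trans hz
      have e2 : (z - 2 * T).re = z.re - 2 * T := by simp
      rw [e2, abs_le] at e1
      rw [abs_le]
      constructor <;> linarith [e1.1, e1.2]
    have him : |-(z.im / 2)| ≤ K := by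
      have e1 : |(z - 2 * T).im| ≤ K := (Complex.abs_im_le_norm _).trans hz
      have e2 : (z - 2 * T).im = z.im := by simp
      rw [e2, abs_le] at e1
      rw [abs_le]
      constructor <;> linarith [e1.1, e1.2]
    obtain ⟨e1, e2⟩ := ha t T (-(z.im / 2)) (z.re / 2) hTa' hc1 hc2 him hre
      ((H_zero t z).mp hz0)
    exact ⟨by linarith, H_deriv t z e2⟩
  · intro x y hx _ hxy hx0 hy0
    have hx' : |x / 2 - T| ≤ K := by
      rw [abs_le] at hx
      rw [abs_le]
      constructor <;> linarith [hx.1, hx.2]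
    have e1 := (hb t T (x / 2) hTb' hc1 hc2 hx').1 (y / 2) (by linarith)
      ((H_zero_real t x).mp hx0) ((H_zero_real t y).mp hy0)
    have e2 : (y - x) * Real.log T = 2 * ((y / 2 - x / 2) * Real.log T) := by ring
    rw [e2]
    linarith
  · intro x hx
    have hx' : |x / 2 - T| ≤ K := by
      rw [abs_le] at hx
      rw [abs_le]
      constructor <;> linarith [hx.1, hx.2]
    obtain ⟨y', h4, h5, h6⟩ := (hb t T (x / 2) hTb' hc1 hc2 hx').2
    refine ⟨2 * y', by linarith, ?_, ?_⟩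
    · have e2 : (2 * y' - x) * Real.log T = 2 * ((y' - x / 2) * Real.log T) := by ring
      rw [e2]
      linarith
    · rw [H_zero_real]
      have e3 : 2 * y' / 2 = y' := by ring
      rw [e3]
      exact h6

end Pool.Agent.DBC
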