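import Pool.Agent.DBC.Targets2

/-!
# DBC2, target SP2: the spacing of the zeros of the flow on the critical line
-/

set_option autoImplicit false

namespace Pool.Agent.DBC

open Complex MeasureTheory Set Filter Topology
open Pool.Agent.DBN

namespace SP22_

/-- the flow on the critical line -/
theorem spc_flow (h1 : T_SPL) (h2 : T_CNJ) (t y : ℝ) (ht : 0 < t) :
    flow t (pt 0 y) = 0 ↔ (W t (pt 0 y)).re = 0 := by
  have hs : 1 - pt 0 y = (starRingEnd ℂ) (pt 0 y) := by
    apply Complex.ext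
    · simp [pt]; norm_num
    · simp [pt]
  have hc : (√(Real.pi * t))⁻¹ ≠ 0 :=
    (inv_pos.mpr (Real.sqrt_pos.mpr (mul_pos Real.pi_pos ht))).ne'
  have hc' : (((√(Real.pi * t))⁻¹ : ℝ) : ℂ) ≠ 0 := by exact_mod_cast hc
  rw [h1 t (pt 0 y) ht, hs, h2 t (pt 0 y), Complex.add_conj, mul_eq_zero]
  constructor
  · rintro (h | h)
    · exact absurd h hc'
    · have : 2 * (W t (pt 0 y)).re = 0 := by exact_mod_cast h
      linarith
  · intro h
    right
    rw [h]
    simp

theorem spc_pt (y : ℝ) : HasDerivAt (fun u : ℝ => pt 0 u) I y := by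
  have h : HasDerivAt (fun u : ℝ => (u : ℂ)) 1 y := Complex.ofRealCLM.hasDerivAt
  have h2 := (h.mul_const I).const_add (((1 / 2 + 0 : ℝ) : ℂ))
  simpa [pt] using h2

end SP22_

open SP22_ in
theorem q_SP2 (h1 : T_SPL) (h2 : T_CNJ) (h3 : T_DER) (h4 : U_GD2) (h5 : T_ANG) : U_SP2 := by
  intro l c₁ c₂ K hH ε hε
  have hH' : Hyp2 l c₁ c₂ (K + 20) :=
    ⟨hH.l0, hH.lc, hH.cc, by linarith [hH.K0], hH.xl, hH.ml, hH.zf⟩
  obtain ⟨δ, hδ, hlg⟩ := h4 l c₁ c₂ (K + 20) hH'
  have hpi := Real.pi_pos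
  have hp : 0 < 4 * (2 * Real.pi + ε) := by positivity
  set e : ℝ := ε / (4 * (2 * Real.pi + ε)) with he
  have he0 : 0 < e := div_pos hε hp
  have he1 : e * (2 * Real.pi + ε) = ε / 4 := by
    rw [he]
    field_simp
  have he2 : e < 1 / 4 := by
    rw [he, div_lt_div_iff₀ hp (by norm_num)]
    linarith
  obtain ⟨T₀, hT₀, hEv⟩ := hlg e he0
  refine ⟨max T₀ (Real.exp (2 * Real.pi + ε)), le_trans hT₀ (le_max_left _ _), ?_⟩
  intro t T y hT hc1 hc2 hyT
  have hT1 : T₀ ≤ T := le_trans (le_max_left _ _) hT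
  have hT2 : Real.exp (2 * Real.pi + ε) ≤ T := le_trans (le_max_right _ _) hT
  have hL : 2 * Real.pi + ε ≤ Real.log T :=
    (Real.le_log_iff_exp_le (lt_of_lt_of_le (Real.exp_pos _) hT2)).mpr hT2
  have hL0 : 0 < Real.log T := by linarith
  have ht : 0 < t := by
    by_contra hcon
    have : t * Real.log T ≤ 0 := mul_nonpos_of_nonpos_of_nonneg (not_lt.mp hcon) hL0.le
    linarith [hH.l0, hH.lc]
  set L := Real.log T with hLdef
  -- the data on the interval `[y, y + 1]`
  have hQ : ∀ u ∈ Icc y (y + 1), W t (pt 0 u) ≠ 0 ∧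
      ‖deriv (W t) (pt 0 u) - (L / 2 : ℝ) * W t (pt 0 u)‖ ≤ e * L * ‖W t (pt 0 u)‖ := by
    intro u hu
    have hab : |u - T| ≤ K + 20 := by
      rw [abs_le] at hyT ⊢
      constructor <;> linarith [hu.1, hu.2, hyT.1, hyT.2]
    have h6 := hEv t T 0 u hT1 hc1 hc2 (by linarith) (by linarith [hH.K0]) hab
    exact ⟨h6.1, h6.2.1⟩
  have hdiff : Differentiable ℂ (W t) := fun s => (h3 t s ht).differentiableAt
  have hWc : Continuous (W t) := hdiff.continuous
  have hW'c : Continuous (deriv (W t)) :=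
    (hdiff.contDiff (n := 1)).continuous_deriv le_rfl
  have hptc : Continuous (fun u : ℝ => pt 0 u) :=
    continuous_iff_continuousAt.mpr fun u => (spc_pt u).continuousAt
  set pr : ℝ → ℝ := fun u => max y (min (y + 1) u) with hpr
  have hprc : Continuous pr := by
    rw [hpr]
    exact continuous_const.max (continuous_const.min continuous_id)
  have hprm : ∀ u, pr u ∈ Icc y (y + 1) := fun u =>
    ⟨le_max_left _ _, max_le (by linarith) (min_le_left _ _)⟩
  have hpre : ∀ u ∈ Icc y (y + 1), pr u = u := by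
    intro u hu
    rw [hpr]
    simp only
    rw [min_eq_right hu.2, max_eq_right hu.1]
  set μ : ℝ → ℂ := fun u => deriv (W t) (pt 0 (pr u)) / W t (pt 0 (pr u)) with hμ
  have hμc : Continuous μ := by
    rw [hμ]
    exact ((hW'c.comp (hptc.comp hprc))).div (hWc.comp (hptc.comp hprc))
      (fun u => (hQ (pr u) (hprm u)).1)
  have hf0 : ∀ u ∈ Icc y (y + 1), W t (pt 0 u) ≠ 0 := fun u hu => (hQ u hu).1
  have hfd : ∀ u ∈ Icc y (y + 1), HasDerivAt (fun v : ℝ => W t (pt 0 v))
      (I * μ u * W t (pt 0 u)) u := by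
    intro u hu
    have hd : HasDerivAt (W t) (deriv (W t) (pt 0 u)) (pt 0 u) := (hdiff _).hasDerivAt
    have h := HasDerivAt.comp u hd (spc_pt u)
    have e1 : I * μ u * W t (pt 0 u) = deriv (W t) (pt 0 u) * I := by
      rw [hμ]
      simp only
      rw [hpre u hu]
      have := hf0 u hu
      field_simp
    rw [e1]
    exact h
  have hμr : ∀ u ∈ Icc y (y + 1), (1 / 2 - e) * L ≤ (μ u).re ∧ (μ u).re ≤ (1 / 2 + e) * L := by
    intro u hu
    have hq := hQ u hu
    have hn : 0 < ‖W t (pt 0 u)‖ := norm_pos_iff.mpr hq.1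
    have e1 : μ u - (L / 2 : ℝ) =
        (deriv (W t) (pt 0 u) - (L / 2 : ℝ) * W t (pt 0 u)) / W t (pt 0 u) := by
      rw [hμ]
      simp only
      rw [hpre u hu]
      have := hq.1
      field_simp
    have e2 : ‖μ u - (L / 2 : ℝ)‖ ≤ e * L := by
      rw [e1, norm_div, div_le_iff₀ hn]
      exact hq.2
    have e3 := (Complex.abs_re_le_norm (μ u - (L / 2 : ℝ))).trans e2
    rw [Complex.sub_re, Complex.ofReal_re, abs_le] at e3
    constructor <;> linarith [e3.1, e3.2]
  have hm1 : 0 < (1 / 2 - e) * L := mul_pos (by linarith) hL0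
  have hsub : ∀ b, b ≤ y + 1 → ∀ u ∈ Icc y b, u ∈ Icc y (y + 1) :=
    fun b hb u hu => ⟨hu.1, hu.2.trans hb⟩
  refine ⟨?_, ?_⟩
  · intro y' hy hz hz'
    rcases le_or_gt y' (y + 1) with hle | hgt
    · have key := (h5 (fun v : ℝ => W t (pt 0 v)) μ y y' ((1 / 2 - e) * L) ((1 / 2 + e) * L) hy hm1
        hμc (fun u hu => hf0 u (hsub y' hle u hu)) (fun u hu => hfd u (hsub y' hle u hu))
        (fun u hu => hμr u (hsub y' hle u hu))).1 y (left_mem_Icc.mpr hy.le) y'
        (right_mem_Icc.mpr hy.le) hy ((spc_flow h1 h2 t y ht).mp hz)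
        ((spc_flow h1 h2 t y' ht).mp hz')
      by_contra hcon
      have hcon' := not_le.mp hcon
      have k1 : (1 / 2 + e) * ((y' - y) * L) < (1 / 2 + e) * (2 * Real.pi - ε) :=
        mul_lt_mul_of_pos_left hcon' (by linarith)
      have k2 : e * (2 * Real.pi - ε) ≤ ε / 4 := by
        rw [← he1]
        exact mul_le_mul_of_nonneg_left (by linarith) he0.le
      nlinarith [k1, k2, key]
    · have k1 : L ≤ (y' - y) * L := by nlinarith
      linarith
  · have hb1 : (2 * Real.pi + ε) / L ≤ 1 := (div_le_one hL0).mpr hL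
    have hb0 : 0 < (2 * Real.pi + ε) / L := div_pos (by linarith) hL0
    have hb2 : (2 * Real.pi + ε) / L * L = 2 * Real.pi + ε := by field_simp
    obtain ⟨u, hu, hre⟩ := (h5 (fun v : ℝ => W t (pt 0 v)) μ y (y + (2 * Real.pi + ε) / L)
        ((1 / 2 - e) * L) ((1 / 2 + e) * L) (by linarith) hm1
        hμc (fun u hu => hf0 u (hsub _ (by linarith) u hu))
        (fun u hu => hfd u (hsub _ (by linarith) u hu))
        (fun u hu => hμr u (hsub _ (by linarith) u hu))).2 (by
          have e1 : (1 / 2 - e) * L * (y + (2 * Real.pi + ε) / L - y) =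
              (1 / 2 - e) * ((2 * Real.pi + ε) / L * L) := by ring
          rw [e1, hb2]
          nlinarith [he1])
    refine ⟨u, hu.1, ?_, (spc_flow h1 h2 t u ht).mpr hre⟩
    calc (u - y) * L ≤ ((2 * Real.pi + ε) / L) * L :=
          mul_le_mul_of_nonneg_right (by linarith [hu.2]) hL0.le
      _ = 2 * Real.pi + ε := hb2

end Pool.Agent.DBC
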