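import Pool.Agent.DBC.Targets

/-!
# DBC: ANG, the argument of a curve
-/

set_option autoImplicit false

namespace Pool.Agent.DBC

open Complex MeasureTheory Set Filter Topology

namespace ANG_

lemma cos_gap {x y : ℝ} (hx : Real.cos x = 0) (hy : Real.cos y = 0) (hxy : x < y) :
    Real.pi ≤ y - x := by
  obtain ⟨k, hk⟩ := Real.cos_eq_zero_iff.1 hx
  obtain ⟨l, hl⟩ := Real.cos_eq_zero_iff.1 hy
  have hpi := Real.pi_pos
  have h1 : (k : ℝ) < (l : ℝ) := by
    by_contra hn
    push Not at hn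
    have : (2 * (l : ℝ) + 1) * Real.pi / 2 ≤ (2 * (k : ℝ) + 1) * Real.pi / 2 := by nlinarith
    linarith
  have h2 : k + 1 ≤ l := by exact_mod_cast h1
  have h3 : (k : ℝ) + 1 ≤ (l : ℝ) := by exact_mod_cast h2
  rw [hk, hl]
  nlinarith

lemma exists_zero (α : ℝ) (h1 : -Real.pi < α) (h2 : α ≤ Real.pi) :
    ∃ z ∈ Icc α (α + Real.pi), Real.cos z = 0 := by
  have hpi := Real.pi_pos
  rcases le_or_gt α (-(Real.pi / 2)) with h | h
  · exact ⟨-(Real.pi / 2), ⟨h, by linarith⟩, by rw [Real.cos_neg, Real.cos_pi_div_two]⟩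
  · rcases le_or_gt α (Real.pi / 2) with h' | h'
    · exact ⟨Real.pi / 2, ⟨h', by linarith⟩, Real.cos_pi_div_two⟩
    · refine ⟨Real.pi / 2 + Real.pi, ⟨by linarith, by linarith⟩, ?_⟩
      rw [Real.cos_add_pi, Real.cos_pi_div_two, neg_zero]

end ANG_

theorem p_ANG : T_ANG := by
  intro f μ a b m₁ m₂ hab hm₁ hμ hf0 hf hbd
  have hre : Continuous fun y => (μ y).re := Complex.continuous_re.comp hμ
  have him : Continuous fun y => (μ y).im := Complex.continuous_im.comp hμ
  set θ : ℝ → ℝ := fun y => ∫ s in a..y, (μ s).re with hθ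
  set η : ℝ → ℝ := fun y => ∫ s in a..y, (μ s).im with hη
  have dθ : ∀ y, HasDerivAt θ (μ y).re y := fun y => (hre.integral_hasStrictDerivAt a y).hasDerivAt
  have dη : ∀ y, HasDerivAt η (μ y).im y := fun y => (him.integral_hasStrictDerivAt a y).hasDerivAt
  have θa : θ a = 0 := intervalIntegral.integral_same
  have ηa : η a = 0 := intervalIntegral.integral_same
  -- increments of the angle
  have inc : ∀ y ∈ Icc a b, ∀ y' ∈ Icc a b, y ≤ y' →
      m₁ * (y' - y) ≤ θ y' - θ y ∧ θ y' - θ y ≤ m₂ * (y' - y) := by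
    intro y hy y' hy' hyy
    have e : θ y' - θ y = ∫ s in y..y', (μ s).re := by
      simp only [hθ]
      exact intervalIntegral.integral_interval_sub_left (hre.intervalIntegrable _ _)
        (hre.intervalIntegrable _ _)
    have c1 : ∫ _s in y..y', m₁ = m₁ * (y' - y) := by
      rw [intervalIntegral.integral_const, smul_eq_mul, mul_comm]
    have c2 : ∫ _s in y..y', m₂ = m₂ * (y' - y) := by
      rw [intervalIntegral.integral_const, smul_eq_mul, mul_comm]
    rw [e, ← c1, ← c2]
    constructor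
    · exact intervalIntegral.integral_mono_on hyy (continuous_const.intervalIntegrable _ _)
        (hre.intervalIntegrable _ _) fun s hs => (hbd s ⟨hy.1.trans hs.1, hs.2.trans hy'.2⟩).1
    · exact intervalIntegral.integral_mono_on hyy (hre.intervalIntegrable _ _)
        (continuous_const.intervalIntegrable _ _)
        fun s hs => (hbd s ⟨hy.1.trans hs.1, hs.2.trans hy'.2⟩).2
  -- the formula for `f`
  have der : ∀ y ∈ Icc a b,
      HasDerivAt (fun y => f y * cexp ((η y : ℂ) - I * (θ y : ℂ))) 0 y := by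
    intro y hy
    have h1 : HasDerivAt (fun y => ((η y : ℂ) - I * (θ y : ℂ)))
        (((μ y).im : ℂ) - I * ((μ y).re : ℂ)) y :=
      (dη y).ofReal_comp.sub ((dθ y).ofReal_comp.const_mul I)
    have h2 := (hf y hy).mul h1.cexp
    refine h2.congr_deriv ?_
    have e : μ y = ((μ y).re : ℂ) + ((μ y).im : ℂ) * I := (Complex.re_add_im _).symm
    generalize cexp ((η y : ℂ) - I * (θ y : ℂ)) = E
    conv_lhs => rw [e]
    simp only [Complex.add_re, Complex.add_im, Complex.ofReal_re, Complex.ofReal_im,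
      Complex.mul_re, Complex.mul_im, Complex.I_re, Complex.I_im]
    ring_nf
    rw [Complex.I_sq]
    ring
  have const : ∀ y ∈ Icc a b, f y * cexp ((η y : ℂ) - I * (θ y : ℂ)) = f a := by
    intro y hy
    have h := constant_of_has_deriv_right_zero
      (f := fun y => f y * cexp ((η y : ℂ) - I * (θ y : ℂ))) (a := a) (b := b)
      (fun z hz => (der z hz).continuousAt.continuousWithinAt)
      (fun z hz => (der z ⟨hz.1, hz.2.le⟩).hasDerivWithinAt) y hy
    simpa [θa, ηa] using h
  set α : ℝ := Complex.arg (f a) with hα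
  have hfa : f a = (‖f a‖ : ℂ) * cexp ((α : ℂ) * I) := (Complex.norm_mul_exp_arg_mul_I (f a)).symm
  have form : ∀ y ∈ Icc a b,
      (f y).re = ‖f a‖ * Real.exp (-η y) * Real.cos (α + θ y) := by
    intro y hy
    have h1 : f y = f a * cexp (-((η y : ℂ) - I * (θ y : ℂ))) := by
      rw [← const y hy, mul_assoc, ← Complex.exp_add, add_neg_cancel, Complex.exp_zero, mul_one]
    have h2 : f y = ((‖f a‖ * Real.exp (-η y) : ℝ) : ℂ) * cexp (((α + θ y : ℝ) : ℂ) * I) := by
      rw [h1, hfa]
      push_cast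
      have e2 : (α : ℂ) * I + -((η y : ℂ) - I * (θ y : ℂ)) =
          -(η y : ℂ) + ((α : ℂ) + (θ y : ℂ)) * I := by ring
      rw [mul_assoc, ← Complex.exp_add, e2, Complex.exp_add, ← mul_assoc]
      congr 2
      simp
    rw [h2, Complex.re_ofReal_mul, Complex.exp_ofReal_mul_I_re]
  have hpos : 0 < ‖f a‖ := norm_pos_iff.2 (hf0 a ⟨le_rfl, hab.le⟩)
  have zero_iff : ∀ y ∈ Icc a b, ((f y).re = 0 ↔ Real.cos (α + θ y) = 0) := by
    intro y hy
    rw [form y hy]
    have hp : ‖f a‖ * Real.exp (-η y) ≠ 0 := (mul_pos hpos (Real.exp_pos _)).ne'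
    constructor
    · intro h
      exact (mul_eq_zero.1 h).resolve_left hp
    · intro h
      rw [h, mul_zero]
  constructor
  · intro y hy y' hy' hyy h1 h2
    obtain ⟨i1, i2⟩ := inc y hy y' hy' hyy.le
    have hlt : α + θ y < α + θ y' := by
      have : 0 < m₁ * (y' - y) := mul_pos hm₁ (by linarith)
      linarith
    have := ANG_.cos_gap ((zero_iff y hy).1 h1) ((zero_iff y' hy').1 h2) hlt
    linarith
  · intro hpi
    obtain ⟨z, ⟨z1, z2⟩, hz⟩ := ANG_.exists_zero α (Complex.neg_pi_lt_arg _) (Complex.arg_le_pi _)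
    obtain ⟨i1, -⟩ := inc a ⟨le_rfl, hab.le⟩ b ⟨hab.le, le_rfl⟩ hab.le
    have hc : ContinuousOn θ (Icc a b) := fun y _ => (dθ y).continuousAt.continuousWithinAt
    have hmem : z - α ∈ Icc (θ a) (θ b) := ⟨by linarith, by linarith⟩
    obtain ⟨y, hy, hyz⟩ := intermediate_value_Icc hab.le hc hmem
    refine ⟨y, hy, (zero_iff y hy).2 ?_⟩
    have : α + θ y = z := by
      have h : θ y = z - α := hyz
      linarith
    rw [this]
    exact hz

end Pool.Agent.DBC
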