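import Pool.Agent.DBC.Targets
import Pool.Agent.DBN.Far

/-!
# DER: the derivative of `W t`
-/

set_option autoImplicit false

namespace Pool.Agent.DBC

open Complex MeasureTheory Set Filter Topology
open Pool.Agent.DBN

namespace DER_

/-- a bound for the integrand -/
theorem bound {t : ℝ} (ht : 0 < t) : ∃ C : ℝ, 0 ≤ C ∧ ∀ (z : ℂ) (u : ℝ),
    ‖((Real.exp (-(u ^ 2 / t)) : ℝ) : ℂ) * xi (z + u)‖ ≤
      C * Real.exp (‖z‖ ^ 2 / (2 * t)) * Real.exp (-(1 / (2 * t)) * u ^ 2) := by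
  obtain ⟨C, hC, h⟩ := subG_xi (1 / (4 * t)) (by positivity)
  refine ⟨C, hC, fun z u => ?_⟩
  have h1 := h (z + u)
  have h2 : ‖z + u‖ ^ 2 ≤ 2 * ‖z‖ ^ 2 + 2 * u ^ 2 := by
    have h6 : ‖z + (u : ℂ)‖ ≤ ‖z‖ + |u| := by
      refine (norm_add_le _ _).trans_eq ?_
      rw [Complex.norm_real, Real.norm_eq_abs]
    have h7 : ‖z + (u : ℂ)‖ ^ 2 ≤ (‖z‖ + |u|) ^ 2 := by gcongr
    have h8 : |u| ^ 2 = u ^ 2 := sq_abs u
    nlinarith [sq_nonneg (‖z‖ - |u|)]
  have h3 : 1 / (4 * t) * ‖z + u‖ ^ 2 ≤ ‖z‖ ^ 2 / (2 * t) + u ^ 2 / (2 * t) := by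
    calc 1 / (4 * t) * ‖z + u‖ ^ 2 ≤ 1 / (4 * t) * (2 * ‖z‖ ^ 2 + 2 * u ^ 2) := by gcongr
      _ = _ := by field_simp; ring
  rw [norm_mul, Complex.norm_real, Real.norm_eq_abs, abs_of_pos (Real.exp_pos _)]
  calc Real.exp (-(u ^ 2 / t)) * ‖xi (z + u)‖
      ≤ Real.exp (-(u ^ 2 / t)) * (C * Real.exp (‖z‖ ^ 2 / (2 * t) + u ^ 2 / (2 * t))) := by
        gcongr
        exact h1.trans (by gcongr)
    _ = C * (Real.exp (‖z‖ ^ 2 / (2 * t) + u ^ 2 / (2 * t)) * Real.exp (-(u ^ 2 / t))) := by ring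
    _ = C * Real.exp (‖z‖ ^ 2 / (2 * t) + -(1 / (2 * t)) * u ^ 2) := by
        rw [← Real.exp_add]
        congr 2
        field_simp
        ring
    _ = _ := by rw [Real.exp_add]; ring

theorem part1 {t : ℝ} (ht : 0 < t) (s : ℂ) :
    IntegrableOn (fun u : ℝ => ((Real.exp (-(u ^ 2 / t)) : ℝ) : ℂ) * deriv xi (s + u))
      (Ioi (0 : ℝ)) ∧
    HasDerivAt (W t) (∫ u in Ioi (0 : ℝ),
      ((Real.exp (-(u ^ 2 / t)) : ℝ) : ℂ) * deriv xi (s + u)) s := by
  obtain ⟨C, hC, h⟩ := bound ht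
  set F : ℂ → ℝ → ℂ := fun z u => ((Real.exp (-(u ^ 2 / t)) : ℝ) : ℂ) * xi (z + u) with hF
  set F' : ℂ → ℝ → ℂ := fun z u => ((Real.exp (-(u ^ 2 / t)) : ℝ) : ℂ) * deriv xi (z + u) with hF'
  have hder : ∀ (u : ℝ) (z : ℂ), HasDerivAt (fun z => F z u) (F' z u) z := by
    intro u z
    have h1 : HasDerivAt (fun z : ℂ => xi (z + u)) (deriv xi (z + u)) z := by
      have := (differentiable_xi (z + u)).hasDerivAt
      exact this.comp_add_const z (u : ℂ)
    exact h1.const_mul _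
  have hbd : ∀ (u : ℝ) (z : ℂ), z ∈ Metric.ball s 1 → ‖F' z u‖ ≤
      C * Real.exp ((‖s‖ + 2) ^ 2 / (2 * t)) * Real.exp (-(1 / (2 * t)) * u ^ 2) := by
    intro u z hz
    have hFd : Differentiable ℂ fun z => F z u := fun z => (hder u z).differentiableAt
    have h2 : ‖deriv (fun z => F z u) z‖ ≤
        C * Real.exp ((‖s‖ + 2) ^ 2 / (2 * t)) * Real.exp (-(1 / (2 * t)) * u ^ 2) / 1 := by
      apply Complex.norm_deriv_le_of_forall_mem_sphere_norm_le one_pos hFd.diffContOnCl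
      intro w hw
      refine (h w u).trans ?_
      have h3 : ‖w‖ ≤ ‖s‖ + 2 := by
        have h4 : ‖w - z‖ = 1 := by simpa [dist_eq_norm] using hw
        have h5 : ‖z - s‖ < 1 := by simpa [dist_eq_norm] using hz
        have h6 : w = (w - z) + (z - s) + s := by ring
        rw [h6]
        refine (norm_add_le _ _).trans ?_
        have := norm_add_le (w - z) (z - s)
        linarith
      gcongr
    rw [(hder u z).deriv, div_one] at h2
    exact h2
  have hxc := differentiable_xi.continuous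
  have hFc : ∀ z, AEStronglyMeasurable (F z) (volume.restrict (Ioi (0 : ℝ))) := by
    intro z
    apply Continuous.aestronglyMeasurable
    simp only [hF]
    fun_prop
  have hF'c : AEStronglyMeasurable (F' s) (volume.restrict (Ioi (0 : ℝ))) := by
    apply Continuous.aestronglyMeasurable
    have h1 : Continuous (deriv xi) := by
      have := differentiable_xi.contDiff (n := 1)
      exact this.continuous_deriv le_rfl
    simp only [hF']
    fun_prop
  have hg : Integrable (fun u : ℝ => Real.exp (-(1 / (2 * t)) * u ^ 2)) :=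
    integrable_exp_neg_mul_sq (by positivity)
  have hint : Integrable (F s) (volume.restrict (Ioi (0 : ℝ))) := by
    refine Integrable.mono' (g := fun u => C * Real.exp (‖s‖ ^ 2 / (2 * t)) *
      Real.exp (-(1 / (2 * t)) * u ^ 2)) ((hg.const_mul _).integrableOn) (hFc s) ?_
    exact Eventually.of_forall fun u => h s u
  exact hasDerivAt_integral_of_dominated_loc_of_deriv_le (F := F) (F' := F') (x₀ := s)
    (s := Metric.ball s 1)
    (bound := fun u => C * Real.exp ((‖s‖ + 2) ^ 2 / (2 * t)) *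
      Real.exp (-(1 / (2 * t)) * u ^ 2))
    (Metric.ball_mem_nhds s one_pos) (Eventually.of_forall hFc) hint hF'c
    (Eventually.of_forall fun u z hz => hbd u z hz)
    ((hg.const_mul _).integrableOn)
    (Eventually.of_forall fun u z _ => hder u z)

theorem part2 {t : ℝ} (ht : 0 < t) (s : ℂ)
    (h1 : IntegrableOn (fun u : ℝ => ((Real.exp (-(u ^ 2 / t)) : ℝ) : ℂ) * deriv xi (s + u))
      (Ioi (0 : ℝ)))
    (h2 : IntegrableOn (fun u : ℝ => ((u * Real.exp (-(u ^ 2 / t)) : ℝ) : ℂ) * xi (s + u))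
      (Ioi (0 : ℝ))) :
    ∫ u in Ioi (0 : ℝ), ((Real.exp (-(u ^ 2 / t)) : ℝ) : ℂ) * deriv xi (s + u) =
      ((2 / t : ℝ) : ℂ) * V t s - xi s := by
  obtain ⟨C, hC, h⟩ := bound ht
  set f : ℝ → ℂ := fun u => ((Real.exp (-(u ^ 2 / t)) : ℝ) : ℂ) * xi (s + u) with hf
  set f' : ℝ → ℂ := fun u => ((Real.exp (-(u ^ 2 / t)) : ℝ) : ℂ) * deriv xi (s + u) -
    ((2 / t : ℝ) : ℂ) * (((u * Real.exp (-(u ^ 2 / t)) : ℝ) : ℂ) * xi (s + u)) with hf'
  have hder : ∀ u : ℝ, HasDerivAt f (f' u) u := by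
    intro u
    have e1 : HasDerivAt (fun u : ℝ => Real.exp (-(u ^ 2 / t)))
        (Real.exp (-(u ^ 2 / t)) * (-(2 * u / t))) u := by
      have e2 : HasDerivAt (fun u : ℝ => -(u ^ 2 / t)) (-(2 * u / t)) u := by
        have e0 := ((hasDerivAt_pow 2 u).div_const t).fun_neg
        refine e0.congr_deriv ?_
        simp
      exact e2.exp
    have e3 : HasDerivAt (fun u : ℝ => ((Real.exp (-(u ^ 2 / t)) : ℝ) : ℂ))
        ((Real.exp (-(u ^ 2 / t)) * (-(2 * u / t)) : ℝ) : ℂ) u := e1.ofReal_comp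
    have e4 : HasDerivAt (fun u : ℝ => xi (s + u)) (deriv xi (s + u)) u := by
      have e5 : HasDerivAt (fun z : ℂ => xi (s + z)) (deriv xi (s + u)) (u : ℂ) := by
        have := (differentiable_xi (s + u)).hasDerivAt
        exact this.comp_const_add s (u : ℂ)
      exact e5.comp_ofReal
    have e6 := e3.mul e4
    refine e6.congr_deriv ?_
    rw [hf']
    push_cast
    ring
  have hint : IntegrableOn f' (Ioi (0 : ℝ)) := h1.sub (h2.const_mul _)
  have hlim : Tendsto f atTop (𝓝 0) := by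
    rw [tendsto_zero_iff_norm_tendsto_zero]
    have e1 : Tendsto (fun u : ℝ => C * Real.exp (‖s‖ ^ 2 / (2 * t)) *
        Real.exp (-(1 / (2 * t)) * u ^ 2)) atTop (𝓝 0) := by
      have e2 : Tendsto (fun u : ℝ => Real.exp (-(1 / (2 * t)) * u ^ 2)) atTop (𝓝 0) := by
        refine Real.tendsto_exp_atBot.comp ?_
        have e3 : Tendsto (fun u : ℝ => u ^ 2) atTop atTop := tendsto_pow_atTop two_ne_zero
        exact e3.const_mul_atTop_of_neg (by
          have : 0 < 1 / (2 * t) := by positivity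
          linarith)
      simpa using e2.const_mul (C * Real.exp (‖s‖ ^ 2 / (2 * t)))
    exact squeeze_zero (fun u => norm_nonneg _) (fun u => h s u) e1
  have hmain := integral_Ioi_of_hasDerivAt_of_tendsto (hder 0).continuousAt.continuousWithinAt
    (fun u _ => hder u) hint hlim
  have e1 : ∫ u in Ioi (0 : ℝ), f' u = (∫ u in Ioi (0 : ℝ),
      ((Real.exp (-(u ^ 2 / t)) : ℝ) : ℂ) * deriv xi (s + u)) - ((2 / t : ℝ) : ℂ) * V t s := by
    rw [hf']
    rw [integral_sub h1 (h2.const_mul _), integral_const_mul]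
    rfl
  rw [e1] at hmain
  have e2 : f 0 = xi s := by
    rw [hf]
    simp
  rw [e2] at hmain
  linear_combination hmain

end DER_

open DER_ in
theorem p_DER (h_IGR : T_IGR) : T_DER := by
  intro t s ht
  obtain ⟨h1, h2⟩ := part1 ht s
  have h3 := (h_IGR t s ht).2.1
  rw [part2 ht s h1 h3.integrableOn] at h2
  exact h2

end Pool.Agent.DBC
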