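import Pool.Agent.DBC.Targets2

/-!
# Project DBC2, target BCL: logarithms and Borel-Caratheodory
-/

set_option autoImplicit false

namespace Pool.Agent.DBC

open Complex MeasureTheory Set Filter Topology
open Pool.Agent.DBN

/-- BCL: logarithms and Borel-Caratheodory -/
theorem q_BCL : U_BCL := by
  intro g ρ M hρ hM hg hgv
  have hd : DifferentiableOn ℂ (deriv g) (Metric.ball 0 ρ) := hg.deriv Metric.isOpen_ball
  have hlog : DifferentiableOn ℂ (fun z => deriv g z / g z) (Metric.ball 0 ρ) :=
    hd.div hg fun z hz => (hgv z hz).1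
  obtain ⟨k, hk0, hk⟩ := (hlog.isExactOn_ball).with_val_at 0 0
  have hkd : DifferentiableOn ℂ k (Metric.ball 0 ρ) := fun z hz =>
    (hk z hz).differentiableAt.differentiableWithinAt
  have h0 : (0 : ℂ) ∈ Metric.ball (0 : ℂ) ρ := Metric.mem_ball_self hρ
  have hq : ∀ v ∈ Metric.ball (0 : ℂ) ρ, g v * exp (-k v) = g 0 := by
    intro v hv
    have hF : DifferentiableOn ℂ (fun z => g z * exp (-k z)) (Metric.ball 0 ρ) :=
      hg.mul (hkd.neg.cexp)
    have hder : Set.EqOn (deriv (fun z => g z * exp (-k z))) 0 (Metric.ball 0 ρ) := by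
      intro z hz
      have hgz : HasDerivAt g (deriv g z) z :=
        (hg.differentiableAt (Metric.isOpen_ball.mem_nhds hz)).hasDerivAt
      have hkz := hk z hz
      have := hgz.mul (hkz.neg.cexp)
      have h2 := this.deriv
      have hne := (hgv z hz).1
      simp only [Pi.zero_apply]
      refine h2.trans ?_
      simp only [Pi.neg_apply]
      field_simp
      ring
    have := Metric.isOpen_ball.is_const_of_deriv_eq_zero
      (convex_ball (0 : ℂ) ρ).isPreconnected hF hder hv h0
    simpa [hk0] using this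
  have hval : ∀ v ∈ Metric.ball (0 : ℂ) ρ, g v = g 0 * exp (k v) := by
    intro v hv
    rw [← hq v hv, mul_assoc, ← exp_add]
    simp
  refine ⟨k, ⟨hkd, hk0, hval⟩, fun v hv => ?_⟩
  refine borelCaratheodory_zero hM hkd (fun z hz => ?_) hρ hv hk0
  have h1 := (hgv z hz).2
  have hg0 : 0 < ‖g 0‖ := norm_pos_iff.2 (hgv 0 h0).1
  rw [hval z hz, norm_mul, norm_exp, mul_comm] at h1
  have h3 := le_of_mul_le_mul_right h1 hg0
  exact Real.exp_le_exp.1 h3

end Pool.Agent.DBC
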