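import Pool.Agent.DBC.Targets2

/-!
DBC, SD1: the saddle point.
-/

set_option autoImplicit false

namespace Pool.Agent.DBC

open Complex MeasureTheory Set Filter Topology
open Pool.Agent.DBN

namespace SD12_

/-- Cauchy's estimate on an open ball. -/
lemma cauchy {h : ℂ → ℂ} {c : ℂ} {r M : ℝ} (hr : 0 < r) (hM : 0 < M)
    (hd : DifferentiableOn ℂ h (Metric.ball c r))
    (hb : ∀ z ∈ Metric.ball c r, ‖h z‖ ≤ M) : ‖deriv h c‖ ≤ M / r := by
  have key : ∀ R : ℝ, 0 < R → R < r → ‖deriv h c‖ ≤ M / R := by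
    intro R hR hRr
    refine norm_deriv_le_of_forall_mem_sphere_norm_le hR
      (hd.diffContOnCl_ball (Metric.closedBall_subset_ball hRr)) fun z hz => ?_
    exact hb z (Metric.closedBall_subset_ball hRr (Metric.sphere_subset_closedBall hz))
  by_contra hcon
  rw [not_le] at hcon
  have hD : 0 < ‖deriv h c‖ := lt_trans (by positivity) hcon
  have h1 : M / ‖deriv h c‖ < r := by
    rw [div_lt_iff₀ hr] at hcon
    rw [div_lt_iff₀ hD]
    linarith
  have h0 : 0 < M / ‖deriv h c‖ := by positivity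
  have h2 := key ((M / ‖deriv h c‖ + r) / 2) (by linarith) (by linarith)
  rw [le_div_iff₀ (by linarith)] at h2
  have h3 : ‖deriv h c‖ * (M / ‖deriv h c‖) = M := by field_simp
  have h4 : ‖deriv h c‖ * (M / ‖deriv h c‖) < ‖deriv h c‖ * r :=
    mul_lt_mul_of_pos_left h1 hD
  nlinarith

end SD12_

open SD12_

theorem q_SD1 : U_SD1 := by
  intro h ρ η lam hρ hη h16 hlam hd hb
  have hρ2 : 0 < ρ ^ 2 := by positivity
  have hsub : ∀ {v : ℂ} {r s : ℝ}, ‖v‖ ≤ s → r + s ≤ ρ → Metric.ball v r ⊆ Metric.ball 0 ρ := by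
    intro v r s hv hrs z hz
    rw [mem_ball_zero_iff]
    rw [mem_ball_iff_norm] at hz
    have := norm_le_norm_add_norm_sub' z v
    linarith
  have hdd : DifferentiableOn ℂ (deriv h) (Metric.ball 0 ρ) := hd.deriv Metric.isOpen_ball
  have hat : ∀ v : ℂ, ‖v‖ < ρ → DifferentiableAt ℂ h v := fun v hv =>
    hd.differentiableAt (Metric.isOpen_ball.mem_nhds (by rwa [mem_ball_zero_iff]))
  have hdat : ∀ v : ℂ, ‖v‖ < ρ → DifferentiableAt ℂ (deriv h) v := fun v hv =>
    hdd.differentiableAt (Metric.isOpen_ball.mem_nhds (by rwa [mem_ball_zero_iff]))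
  have h1 : ∀ v : ℂ, ‖v‖ ≤ ρ / 2 → ‖deriv h v‖ ≤ 2 * η * lam / ρ := by
    intro v hv
    have hs : Metric.ball v (ρ / 2) ⊆ Metric.ball 0 ρ := hsub hv (by linarith)
    have := cauchy (c := v) (r := ρ / 2) (M := η * lam) (by linarith) (by positivity)
      (hd.mono hs) fun z hz => hb z (hs hz)
    refine this.trans (le_of_eq ?_)
    field_simp
  have h2 : ∀ v : ℂ, ‖v‖ ≤ ρ / 4 → ‖deriv (deriv h) v‖ ≤ 8 * η * lam / ρ ^ 2 := by
    intro v hv
    have hs : Metric.ball v (ρ / 4) ⊆ Metric.ball 0 ρ := hsub hv (by linarith)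
    have := cauchy (h := deriv h) (c := v) (r := ρ / 4) (M := 2 * η * lam / ρ) (by linarith)
      (by positivity) (hdd.mono hs) fun z hz => h1 z (by
        rw [mem_ball_iff_norm] at hz
        have := norm_le_norm_add_norm_sub' z v
        linarith)
    refine this.trans (le_of_eq ?_)
    field_simp
    ring
  have hL : ∀ x y : ℂ, ‖x‖ ≤ ρ / 4 → ‖y‖ ≤ ρ / 4 →
      ‖deriv h y - deriv h x‖ ≤ 8 * η * lam / ρ ^ 2 * ‖y - x‖ := by
    intro x y hx hy
    refine Convex.norm_image_sub_le_of_norm_deriv_le (s := Metric.closedBall (0 : ℂ) (ρ / 4))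
      (fun v hv => hdat v ?_) (fun v hv => h2 v ?_) (convex_closedBall _ _) ?_ ?_
    · rw [mem_closedBall_zero_iff] at hv
      linarith
    · rwa [mem_closedBall_zero_iff] at hv
    · rwa [mem_closedBall_zero_iff]
    · rwa [mem_closedBall_zero_iff]
  -- the fixed point
  set T : ℂ → ℂ := fun v => deriv h v / (2 * lam) with hT
  have hnl : ‖(2 * lam : ℂ)‖ = 2 * lam := by
    rw [norm_mul, norm_real, Real.norm_of_nonneg hlam.le]
    norm_num
  have hTb : ∀ v : ℂ, ‖v‖ ≤ ρ / 2 → ‖T v‖ ≤ η / ρ := by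
    intro v hv
    rw [hT]
    simp only [norm_div, hnl]
    rw [div_le_iff₀ (by positivity)]
    refine (h1 v hv).trans (le_of_eq ?_)
    field_simp
  have hηρ : η / ρ ≤ ρ / 16 := by
    rw [div_le_div_iff₀ hρ (by norm_num)]
    nlinarith
  have hmap : MapsTo T (Metric.closedBall (0 : ℂ) (ρ / 4)) (Metric.closedBall (0 : ℂ) (ρ / 4)) := by
    intro v hv
    rw [mem_closedBall_zero_iff] at hv ⊢
    have := hTb v (by linarith)
    linarith
  have hcon : ContractingWith (1 / 4) (hmap.restrict T _ _) := by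
    refine ⟨by
      rw [← NNReal.coe_lt_coe]
      norm_num, LipschitzWith.of_dist_le_mul fun x y => ?_⟩
    rw [Subtype.dist_eq, Subtype.dist_eq, MapsTo.val_restrict_apply, MapsTo.val_restrict_apply,
      dist_eq_norm, dist_eq_norm]
    have hx := x.2
    have hy := y.2
    rw [mem_closedBall_zero_iff] at hx hy
    have e : T x - T y = (deriv h x - deriv h y) / (2 * lam) := by
      rw [hT]
      ring
    rw [e, norm_div, hnl, div_le_iff₀ (by positivity)]
    have := hL y x hy hx
    refine this.trans ?_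
    have h3 : 8 * η * lam / ρ ^ 2 ≤ ((1 / 4 : NNReal) : ℝ) * (2 * lam) := by
      rw [div_le_iff₀ hρ2]
      push_cast
      nlinarith
    calc 8 * η * lam / ρ ^ 2 * ‖(x : ℂ) - y‖
        ≤ ((1 / 4 : NNReal) : ℝ) * (2 * lam) * ‖(x : ℂ) - y‖ :=
          mul_le_mul_of_nonneg_right h3 (norm_nonneg _)
      _ = _ := by ring
  obtain ⟨v₀, hv₀, hfix, -⟩ := ContractingWith.exists_fixedPoint'
    (Metric.isClosed_closedBall.isComplete) hmap hcon (x := 0)
    (by rw [mem_closedBall_zero_iff, norm_zero]; positivity) (edist_ne_top _ _)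
  rw [mem_closedBall_zero_iff] at hv₀
  have hfx : T v₀ = v₀ := hfix
  have hlc : (2 * lam : ℂ) ≠ 0 := by
    rw [← norm_ne_zero_iff, hnl]
    positivity
  refine ⟨v₀, ?_, ?_, fun w hw => ?_⟩
  · rw [← hfx]
    exact hTb v₀ (by linarith)
  · have := hfx
    rw [hT] at this
    simp only at this
    rw [div_eq_iff hlc] at this
    rw [this]
    ring
  · have hseg : ∀ z ∈ segment ℝ v₀ (v₀ + w), ‖z‖ ≤ ρ / 4 ∧ ‖z - v₀‖ ≤ |w| := by
      intro z hz
      constructor
      · have hc := (convex_closedBall (0 : ℂ) (ρ / 4)).segment_subset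
          (x := v₀) (y := v₀ + w) (by rwa [mem_closedBall_zero_iff])
          (by rwa [mem_closedBall_zero_iff]) hz
        rwa [mem_closedBall_zero_iff] at hc
      · have hc := (convex_closedBall v₀ |w|).segment_subset
          (x := v₀) (y := v₀ + w) (by simp) (by
            rw [mem_closedBall_iff_norm, add_sub_cancel_left, norm_real, Real.norm_eq_abs]) hz
        rwa [mem_closedBall_iff_norm] at hc
    have hG : ∀ z : ℂ, ‖z‖ ≤ ρ / 4 →
        HasDerivAt (fun z => h z - deriv h v₀ * z) (deriv h z - deriv h v₀) z := by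
      intro z hz
      have e1 := (hat z (by linarith)).hasDerivAt
      have e2 := (hasDerivAt_id z).const_mul (deriv h v₀)
      rw [mul_one] at e2
      exact e1.sub e2
    have hm := Convex.norm_image_sub_le_of_norm_deriv_le (𝕜 := ℂ)
      (f := fun z => h z - deriv h v₀ * z) (C := 8 * η * lam / ρ ^ 2 * |w|)
      (s := segment ℝ v₀ (v₀ + w)) (x := v₀) (y := v₀ + w)
      (fun z hz => (hG z (hseg z hz).1).differentiableAt)
      (fun z hz => by
        rw [(hG z (hseg z hz).1).deriv]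
        refine (hL v₀ z hv₀ (hseg z hz).1).trans ?_
        exact mul_le_mul_of_nonneg_left (hseg z hz).2 (by positivity))
      (convex_segment _ _) (left_mem_segment _ _ _) (right_mem_segment _ _ _)
    simp only [add_sub_cancel_left, norm_real, Real.norm_eq_abs] at hm
    have e3 : h (v₀ + w) - h v₀ - deriv h v₀ * w =
        h (v₀ + w) - deriv h v₀ * (v₀ + w) - (h v₀ - deriv h v₀ * v₀) := by ring
    rw [e3]
    refine hm.trans (le_of_eq ?_)
    rw [mul_assoc, abs_mul_abs_self]
    ring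

end Pool.Agent.DBC
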