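import Pool.Agent.DBC.Targets2

/-!
DBC, SD2: the contour shift.
-/

set_option autoImplicit false

namespace Pool.Agent.DBC

open Complex MeasureTheory Set Filter Topology
open Pool.Agent.DBN

namespace SD22_

lemma ioo_eq (f : ℝ → ℂ) {a : ℝ} (ha : 0 < a) :
    ∫ x in Ioo (-a) a, f x = ∫ x in (-a)..a, f x := by
  rw [intervalIntegral.integral_of_le (by linarith), integral_Ioc_eq_integral_Ioo]

lemma vert {F : ℂ → ℂ} {y₀ B c : ℝ} (h : ∀ y : ℝ, |y| ≤ |y₀| → ‖F (c + y * I)‖ ≤ B) :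
    ‖∫ y in (0 : ℝ)..y₀, F (c + y * I)‖ ≤ B * |y₀| := by
  have h1 := intervalIntegral.norm_integral_le_of_norm_le_const (a := (0 : ℝ)) (b := y₀)
    (C := B) (f := fun y : ℝ => F (c + y * I)) (fun y hy => h y (by
      rcases le_total 0 y₀ with h0 | h0
      · rw [uIoc_of_le h0] at hy
        rw [abs_of_pos hy.1, abs_of_nonneg h0]
        exact hy.2
      · rw [uIoc_of_ge h0] at hy
        rw [abs_of_nonpos hy.2, abs_of_nonpos h0]
        linarith [hy.1]))
  rwa [sub_zero] at h1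

end SD22_

open SD22_

theorem q_SD2 : U_SD2 := by
  intro F ρ a y₀ B ha hρ hF hB
  have H : DifferentiableOn ℂ F
      (uIcc (-(a : ℂ)).re ((a : ℂ) + y₀ * I).re ×ℂ
        uIcc (-(a : ℂ)).im ((a : ℂ) + y₀ * I).im) := by
    refine hF.mono fun z hz => ?_
    rw [mem_reProdIm] at hz
    obtain ⟨h1, h2⟩ := hz
    simp only [neg_re, ofReal_re, add_re, mul_re, I_re, mul_zero, ofReal_im, I_im, mul_one,
      sub_self, add_zero, neg_im, neg_zero, add_im, mul_im, zero_add] at h1 h2
    rw [mem_ball_zero_iff]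
    have h3 : |z.re| ≤ a := by
      rw [uIcc_of_le (by linarith)] at h1
      exact abs_le.2 h1
    have h4 : |z.im| ≤ |y₀| := by
      rcases le_total 0 y₀ with h0 | h0
      · rw [uIcc_of_le h0] at h2
        rw [abs_of_nonneg h2.1, abs_of_nonneg h0]
        exact h2.2
      · rw [uIcc_of_ge h0] at h2
        rw [abs_of_nonpos h2.2, abs_of_nonpos h0]
        linarith [h2.1]
    exact lt_of_le_of_lt ((norm_le_abs_re_add_abs_im z).trans (add_le_add h3 h4)) hρ
  have h := integral_boundary_rect_eq_zero_of_differentiableOn F (-(a : ℂ)) (a + y₀ * I) H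
  simp only [neg_re, ofReal_re, add_re, mul_re, I_re, mul_zero, ofReal_im, I_im, mul_one,
    sub_self, add_zero, neg_im, neg_zero, add_im, mul_im, zero_add, ofReal_zero, zero_mul,
    ofReal_neg, smul_eq_mul] at h
  have e1 := vert (c := a) (B := B) (y₀ := y₀) (F := F) fun y hy => (hB y hy).1
  have e2 := vert (c := -a) (B := B) (y₀ := y₀) (F := F) fun y hy => by
    have := (hB y hy).2
    rwa [ofReal_neg]
  rw [ioo_eq _ ha, ioo_eq _ ha]
  have e3 : (∫ x in (-a)..a, F x) - ∫ x in (-a)..a, F (x + y₀ * I) =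
      I * (∫ y in (0 : ℝ)..y₀, F ((-a : ℝ) + y * I)) - I * ∫ y in (0 : ℝ)..y₀, F (a + y * I) := by
    rw [ofReal_neg]
    linear_combination h
  rw [e3]
  refine (norm_sub_le _ _).trans ?_
  rw [norm_mul, norm_mul, norm_I, one_mul, one_mul]
  calc _ ≤ B * |y₀| + B * |y₀| := add_le_add e2 e1
    _ = 2 * |y₀| * B := by ring

end Pool.Agent.DBC
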