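import Pool.Agent.DBC.Targets2

/-!
# SD3: perturbed Gaussian integral (helper67)
-/

set_option autoImplicit false

namespace Pool.Agent.DBC

open Complex MeasureTheory Set Filter Topology
open Pool.Agent.DBN

namespace SD32_

theorem exp_sub_one (z : ℂ) : ‖exp z - 1‖ ≤ ‖z‖ * Real.exp ‖z‖ := by
  have h1 : HasDerivAt (fun t : ℝ => exp (t * z)) (exp ((0 : ℝ) * z) * z) 0 := by
    have h0 : HasDerivAt (fun t : ℝ => (t : ℂ) * z) z 0 := by
      simpa using (Complex.ofRealCLM.hasDerivAt (x := (0 : ℝ))).mul_const z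
    simpa using h0.cexp
  have h2 : ∀ t : ℝ, HasDerivAt (fun t : ℝ => exp (t * z)) (exp (t * z) * z) t := by
    intro t
    have h0 : HasDerivAt (fun t : ℝ => (t : ℂ) * z) z t := by
      simpa using (Complex.ofRealCLM.hasDerivAt (x := t)).mul_const z
    simpa using h0.cexp
  have h3 := norm_image_sub_le_of_norm_deriv_le_segment' (f := fun t : ℝ => exp (t * z))
    (f' := fun t : ℝ => exp (t * z) * z) (a := 0) (b := 1) (C := ‖z‖ * Real.exp ‖z‖)
    (fun t _ => (h2 t).hasDerivWithinAt) (fun t ht => by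
      rw [norm_mul, mul_comm]
      refine mul_le_mul_of_nonneg_left ?_ (norm_nonneg _)
      rw [Complex.norm_exp]
      refine Real.exp_le_exp.2 ?_
      calc ((t : ℂ) * z).re ≤ ‖(t : ℂ) * z‖ := Complex.re_le_norm _
        _ = t * ‖z‖ := by
            rw [norm_mul, Complex.norm_real, Real.norm_of_nonneg ht.1]
        _ ≤ 1 * ‖z‖ := mul_le_mul_of_nonneg_right ht.2.le (norm_nonneg _)
        _ = ‖z‖ := one_mul _) 1 ⟨zero_le_one, le_rfl⟩
  simpa using h3

theorem num {κ lam : ℝ} (hl : 0 < lam) (hκ : κ ≤ 1 / 10) :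
    1 / √lam ≤ √(Real.pi / lam) - (κ + Real.exp (-2)) * √(Real.pi / (lam / 2)) := by
  have hs : 0 < √lam := Real.sqrt_pos.2 hl
  have e1 : √(Real.pi / lam) = √Real.pi / √lam := Real.sqrt_div' _ hl.le
  have e2 : √(Real.pi / (lam / 2)) = √2 * √Real.pi / √lam := by
    rw [show Real.pi / (lam / 2) = 2 * Real.pi / lam by field_simp, Real.sqrt_div' _ hl.le,
      Real.sqrt_mul (by norm_num)]
  have h1 : (1.77 : ℝ) ≤ √Real.pi := by
    refine Real.le_sqrt_of_sq_le ?_
    have := Real.pi_gt_d2
    norm_num at this ⊢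
    linarith
  have h2 : √2 ≤ (1.415 : ℝ) := by
    rw [Real.sqrt_le_left (by norm_num)]
    norm_num
  have h3 : Real.exp (-2) ≤ 0.136 := by
    have h4 : Real.exp (-1) < 0.3678794412 := Real.exp_neg_one_lt_d9
    have h5 : Real.exp (-2) = Real.exp (-1) * Real.exp (-1) := by
      rw [← Real.exp_add]
      norm_num
    have h6 : 0 < Real.exp (-1) := Real.exp_pos _
    rw [h5]
    nlinarith
  rw [e1, e2, div_le_iff₀ hs]
  have e3 : (√Real.pi / √lam - (κ + Real.exp (-2)) * (√2 * √Real.pi / √lam)) * √lam =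
      √Real.pi * (1 - (κ + Real.exp (-2)) * √2) := by
    field_simp
  rw [e3]
  have h7 : 0 ≤ √2 := Real.sqrt_nonneg _
  have h8 : (κ + Real.exp (-2)) * √2 ≤ 0.236 * 1.415 := by
    calc (κ + Real.exp (-2)) * √2 ≤ 0.236 * √2 := by
          refine mul_le_mul_of_nonneg_right ?_ h7
          linarith
      _ ≤ _ := by linarith
  have h9 : (0.66 : ℝ) ≤ 1 - (κ + Real.exp (-2)) * √2 := by
    norm_num at h8 ⊢
    linarith
  calc (1 : ℝ) ≤ 1.77 * 0.66 := by norm_num
    _ ≤ √Real.pi * 0.66 := by linarith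
    _ ≤ _ := mul_le_mul_of_nonneg_left h9 (Real.sqrt_nonneg _)

end SD32_

open SD32_ in
theorem q_SD3 : U_SD3 := by
  intro R α β b κ lam hl hb hα hβ hκ0 hκ hlb hR hRb
  set G : ℝ → ℝ := fun w => Real.exp (-lam * w ^ 2) with hG
  set H : ℝ → ℝ := fun w => Real.exp (-(lam / 2) * w ^ 2) with hH
  have hGi : Integrable G := integrable_exp_neg_mul_sq hl
  have hHi : Integrable H := integrable_exp_neg_mul_sq (half_pos hl)
  have hG1 : ∫ w, G w = √(Real.pi / lam) := integral_gaussian lam
  have hH1 : ∫ w, H w = √(Real.pi / (lam / 2)) := integral_gaussian (lam / 2)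
  have hH0 : ∀ w, 0 ≤ H w := fun w => (Real.exp_pos _).le
  set S : Set ℝ := Ioo α β with hS
  have hSm : MeasurableSet S := measurableSet_Ioo
  set f : ℝ → ℂ := fun w => exp (-(lam * w ^ 2 : ℝ) + R w) with hf
  have hfc : ContinuousOn f (Icc α β) := by
    refine Complex.continuous_exp.comp_continuousOn (ContinuousOn.add ?_ hR)
    exact (by fun_prop : Continuous fun w : ℝ => (-((lam * w ^ 2 : ℝ) : ℂ))).continuousOn
  have hfi : IntegrableOn f S :=
    (hfc.integrableOn_compact isCompact_Icc).mono_set Ioo_subset_Icc_self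
  have hGc : IntegrableOn (fun w => (G w : ℂ)) S := hGi.ofReal.integrableOn
  have hdiff : ∀ w ∈ S, ‖f w - (G w : ℂ)‖ ≤ κ * H w := by
    intro w hw
    have hw' : w ∈ Icc α β := Ioo_subset_Icc_self hw
    have e1 : f w = (G w : ℂ) * exp (R w) := by
      simp only [hf, hG]
      rw [Complex.exp_add, Complex.ofReal_exp]
      push_cast
      ring_nf
    have e2 : f w - (G w : ℂ) = (G w : ℂ) * (exp (R w) - 1) := by
      rw [e1]
      ring
    set y : ℝ := lam * w ^ 2 with hy
    have hy0 : 0 ≤ y := by positivity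
    have hRy : ‖R w‖ ≤ κ * y := by
      refine (hRb w hw').trans (le_of_eq ?_)
      rw [hy]
      ring
    have hRy2 : ‖R w‖ ≤ y / 10 := hRy.trans (by nlinarith)
    rw [e2, norm_mul, Complex.norm_real, Real.norm_of_nonneg (Real.exp_pos _).le]
    have h1 : ‖exp (R w) - 1‖ ≤ κ * y * Real.exp (y / 10) :=
      (exp_sub_one _).trans (mul_le_mul hRy (Real.exp_le_exp.2 hRy2) (Real.exp_pos _).le
        (mul_nonneg hκ0 hy0))
    have h2 : y ≤ Real.exp (2 / 5 * y) := by
      have h3 := Real.add_one_le_exp (2 / 5 * y - 1)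
      have h4 : Real.exp (2 / 5 * y) = Real.exp 1 * Real.exp (2 / 5 * y - 1) := by
        rw [← Real.exp_add]
        ring_nf
      have h5 : (2.7182818283 : ℝ) < Real.exp 1 := Real.exp_one_gt_d9
      have h6 : 0 ≤ 2 / 5 * y := by positivity
      rw [h4]
      have h7 : 2 / 5 * y ≤ Real.exp (2 / 5 * y - 1) := by linarith
      calc y ≤ 2.7182818283 * (2 / 5 * y) := by
            norm_num
            nlinarith
        _ ≤ Real.exp 1 * (2 / 5 * y) := mul_le_mul_of_nonneg_right h5.le h6
        _ ≤ _ := mul_le_mul_of_nonneg_left h7 (Real.exp_pos _).le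
    calc G w * ‖exp (R w) - 1‖ ≤ G w * (κ * y * Real.exp (y / 10)) :=
          mul_le_mul_of_nonneg_left h1 (Real.exp_pos _).le
      _ ≤ G w * (κ * Real.exp (2 / 5 * y) * Real.exp (y / 10)) := by
          have h8 : 0 ≤ G w := (Real.exp_pos _).le
          gcongr
      _ = κ * H w := by
          simp only [hG, hH]
          rw [show -(lam / 2) * w ^ 2 = -lam * w ^ 2 + (2 / 5 * y + y / 10) by
            rw [hy]
            ring, Real.exp_add, Real.exp_add]
          ring
  have h1 : ‖∫ w in S, (f w - (G w : ℂ))‖ ≤ κ * √(Real.pi / (lam / 2)) := by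
    calc ‖∫ w in S, (f w - (G w : ℂ))‖ ≤ ∫ w in S, κ * H w := by
          refine norm_integral_le_of_norm_le (hHi.const_mul κ).integrableOn ?_
          exact (ae_restrict_iff' hSm).2 (Eventually.of_forall hdiff)
      _ ≤ ∫ w, κ * H w := setIntegral_le_integral (hHi.const_mul κ)
          (Eventually.of_forall fun w => mul_nonneg hκ0 (hH0 w))
      _ = _ := by rw [integral_const_mul, hH1]
  have h2 : √(Real.pi / lam) - Real.exp (-2) * √(Real.pi / (lam / 2)) ≤ ∫ w in S, G w := by
    have h3 : ∫ w in Sᶜ, G w ≤ Real.exp (-2) * √(Real.pi / (lam / 2)) := by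
      calc ∫ w in Sᶜ, G w ≤ ∫ w in Sᶜ, Real.exp (-2) * H w := by
            refine setIntegral_mono_on hGi.integrableOn (hHi.const_mul _).integrableOn
              hSm.compl fun w hw => ?_
            have hw2 : b ^ 2 ≤ w ^ 2 := by
              rw [hS, mem_compl_iff, mem_Ioo, not_and_or, not_lt, not_lt] at hw
              rcases hw with hw | hw
              · nlinarith
              · nlinarith
            simp only [hG, hH]
            rw [← Real.exp_add]
            refine Real.exp_le_exp.2 ?_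
            nlinarith [mul_le_mul_of_nonneg_left hw2 hl.le]
        _ ≤ ∫ w, Real.exp (-2) * H w := setIntegral_le_integral (hHi.const_mul _)
            (Eventually.of_forall fun w => mul_nonneg (Real.exp_pos _).le (hH0 w))
        _ = _ := by rw [integral_const_mul, hH1]
    have h4 := integral_add_compl hSm hGi
    rw [hG1] at h4
    linarith
  have h5 : ∫ w in S, f w = ((∫ w in S, G w : ℝ) : ℂ) + ∫ w in S, (f w - (G w : ℂ)) := by
    have h51 : ∫ w in S, (G w : ℂ) = ((∫ w in S, G w : ℝ) : ℂ) := integral_ofReal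
    rw [integral_sub hfi hGc, h51]
    ring
  have h6 := num hl hκ
  have h7 : (∫ w in S, G w) - κ * √(Real.pi / (lam / 2)) ≤ ‖∫ w in S, f w‖ := by
    rw [h5]
    have h8 := norm_sub_le_norm_add (((∫ w in S, G w : ℝ) : ℂ))
      (∫ w in S, (f w - (G w : ℂ)))
    have h9 : (∫ w in S, G w) ≤ ‖((∫ w in S, G w : ℝ) : ℂ)‖ := by
      rw [Complex.norm_real]
      exact Real.le_norm_self _
    linarith
  have h10 : (κ + Real.exp (-2)) * √(Real.pi / (lam / 2)) =
      κ * √(Real.pi / (lam / 2)) + Real.exp (-2) * √(Real.pi / (lam / 2)) := by ring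
  rw [h10] at h6
  exact (by linarith : 1 / √lam ≤ (∫ w in S, G w) - κ * √(Real.pi / (lam / 2))).trans h7

end Pool.Agent.DBC
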