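import Pool.Agent.DBC.Targets2

/-!
# DBC2.SDH: the saddle point lemma
-/

set_option autoImplicit false

namespace Pool.Agent.DBC

open Complex MeasureTheory Set Filter Topology
open Pool.Agent.DBN

namespace SDH2_

/-- the integrand as a holomorphic function -/
noncomputable def F (lam : ℝ) (h : ℂ → ℂ) (v : ℂ) : ℂ := exp (-(lam * v ^ 2) + h v)

lemma F_real (lam : ℝ) (h : ℂ → ℂ) (v : ℝ) :
    F lam h v = exp (-(lam * v ^ 2 : ℝ) + h v) := by
  unfold F
  push_cast
  rfl

lemma F_diff (lam ρ : ℝ) (h : ℂ → ℂ) (hd : DifferentiableOn ℂ h (Metric.ball 0 ρ)) :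
    DifferentiableOn ℂ (F lam h) (Metric.ball 0 ρ) := by
  unfold F
  apply DifferentiableOn.cexp
  apply DifferentiableOn.add _ hd
  fun_prop

lemma norm_F (lam : ℝ) (h : ℂ → ℂ) (v : ℂ) :
    ‖F lam h v‖ = Real.exp (-(lam * (v.re ^ 2 - v.im ^ 2)) + (h v).re) := by
  unfold F
  rw [Complex.norm_exp]
  congr 1
  have h1 : (v ^ 2).re = v.re ^ 2 - v.im ^ 2 := by
    rw [pow_two, Complex.mul_re]
    ring
  rw [Complex.add_re, Complex.neg_re, Complex.re_ofReal_mul, h1]

lemma norm_F_le (lam ρ η c : ℝ) (h : ℂ → ℂ) (v : ℂ) (hlam : 0 ≤ lam)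
    (hb : ∀ v ∈ Metric.ball (0 : ℂ) ρ, ‖h v‖ ≤ η * lam) (hv : v ∈ Metric.ball (0 : ℂ) ρ)
    (hc : c + η ≤ v.re ^ 2 - v.im ^ 2) : ‖F lam h v‖ ≤ Real.exp (-(lam * c)) := by
  rw [norm_F]
  apply Real.exp_le_exp.2
  have h1 : (h v).re ≤ η * lam := (Complex.re_le_norm _).trans (hb v hv)
  nlinarith [mul_le_mul_of_nonneg_left hc hlam]

end SDH2_

open SDH2_ in
theorem q_SDH (h1 : U_SD1) (h2 : U_SD2) (h3 : U_SD3) : U_SDH := by
  intro ρ hρ
  refine ⟨ρ ^ 2 / 4096, 10 ^ 6 / ρ ^ 2, by positivity, by positivity, ?_⟩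
  intro η lam h hη hη0 hlam hd hb
  have hρ2 : 0 < ρ ^ 2 := by positivity
  have hlam0 : 0 < lam := lt_of_lt_of_le (by positivity) hlam
  have hX : 10 ^ 6 ≤ lam * ρ ^ 2 := by rwa [div_le_iff₀ hρ2] at hlam
  obtain ⟨v₀, hv0, hder, hR⟩ := h1 h ρ η lam hρ hη (by linarith) hlam0 hd hb
  have hv1 : ‖v₀‖ ≤ ρ / 4096 := by
    refine hv0.trans ?_
    rw [div_le_iff₀ hρ]
    linarith [sq ρ]
  have hx0 : |v₀.re| ≤ ρ / 4096 := (Complex.abs_re_le_norm v₀).trans hv1
  have hy0 : |v₀.im| ≤ ρ / 4096 := (Complex.abs_im_le_norm v₀).trans hv1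
  have hx0' := abs_le.1 hx0
  have hy0' := abs_le.1 hy0
  set a : ℝ := ρ / 8 with ha
  set B : ℝ := Real.exp (-(lam * (ρ ^ 2 / 128))) with hB
  have hball : ∀ x y : ℝ, |x| ≤ a → |y| ≤ |v₀.im| → ((x : ℂ) + y * I) ∈ Metric.ball (0 : ℂ) ρ := by
    intro x y hx hy
    rw [mem_ball_zero_iff]
    calc ‖(x : ℂ) + y * I‖ ≤ ‖(x : ℂ)‖ + ‖(y : ℂ) * I‖ := norm_add_le _ _
      _ = |x| + |y| := by simp
      _ < ρ := by linarith
  -- the contour shift
  have hs2 := h2 (F lam h) ρ a v₀.im B (by positivity) (by linarith [abs_nonneg v₀.im])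
    (F_diff lam ρ h hd) (by
      intro y hy
      have hy2 : y ^ 2 ≤ (ρ / 4096) ^ 2 := by
        rw [← sq_abs y]
        have := abs_nonneg y
        gcongr
        exact hy.trans hy0
      have hc : ρ ^ 2 / 128 + η ≤ a ^ 2 - y ^ 2 := by
        rw [ha]
        nlinarith
      constructor
      · refine norm_F_le lam ρ η (ρ ^ 2 / 128) h _ hlam0.le hb
          (hball a y (by rw [abs_of_pos (by positivity)]) hy) ?_
        simpa using hc
      · have hm := hball (-a) y (by rw [abs_neg, abs_of_pos (by positivity)]) hy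
        push_cast at hm
        refine norm_F_le lam ρ η (ρ ^ 2 / 128) h _ hlam0.le hb hm ?_
        simpa using hc)
  -- the shifted integral
  set R : ℝ → ℂ := fun w => h (v₀ + w) - h v₀ - deriv h v₀ * w with hRdef
  have hshift : ∫ x in Ioo (-a) a, F lam h (x + v₀.im * I) =
      ∫ w in Ioo (-a - v₀.re) (a - v₀.re), F lam h (v₀ + w) := by
    have e1 : Ioo (-a - v₀.re) (a - v₀.re) = (fun w : ℝ => w + v₀.re) ⁻¹' Ioo (-a) a := by
      ext w
      simp only [mem_Ioo, mem_preimage]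
      constructor
      · rintro ⟨p1, p2⟩; constructor <;> linarith
      · rintro ⟨p1, p2⟩; constructor <;> linarith
    have e2 := (measurePreserving_add_right (volume : Measure ℝ) v₀.re).setIntegral_preimage_emb
      (measurableEmbedding_addRight v₀.re) (fun x : ℝ => F lam h (x + v₀.im * I)) (Ioo (-a) a)
    rw [e1, ← e2]
    refine integral_congr_ae (Eventually.of_forall fun w => ?_)
    simp only
    congr 1
    have := Complex.re_add_im v₀
    push_cast
    linear_combination this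
  have hFw : ∀ w : ℝ, F lam h (v₀ + w) =
      F lam h v₀ * exp (-(lam * w ^ 2 : ℝ) + R w) := by
    intro w
    unfold F
    rw [← Complex.exp_add, hRdef]
    simp only
    rw [hder]
    congr 1
    push_cast
    ring
  have hnw : ∀ w ∈ Icc (-a - v₀.re) (a - v₀.re), ‖v₀ + w‖ ≤ ρ / 4 := by
    intro w hw
    have e1 : v₀ + (w : ℂ) = ((v₀.re + w : ℝ) : ℂ) + (v₀.im : ℂ) * I := by
      have := Complex.re_add_im v₀
      push_cast
      linear_combination -this
    rw [e1]
    calc ‖((v₀.re + w : ℝ) : ℂ) + (v₀.im : ℂ) * I‖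
        ≤ ‖((v₀.re + w : ℝ) : ℂ)‖ + ‖(v₀.im : ℂ) * I‖ := norm_add_le _ _
      _ = |v₀.re + w| + |v₀.im| := by
          rw [norm_mul, Complex.norm_real, Complex.norm_real, Complex.norm_I, mul_one]
          rfl
      _ ≤ ρ / 4 := by
          have : |v₀.re + w| ≤ a := by
            rw [abs_le]; constructor <;> linarith [hw.1, hw.2]
          linarith
  have hRc : ContinuousOn R (Icc (-a - v₀.re) (a - v₀.re)) := by
    rw [hRdef]
    have hc1 : ContinuousOn (fun w : ℝ => h (v₀ + w)) (Icc (-a - v₀.re) (a - v₀.re)) := by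
      refine hd.continuousOn.comp (by fun_prop) ?_
      intro w hw
      rw [mem_ball_zero_iff]
      linarith [hnw w hw]
    refine (hc1.sub continuousOn_const).sub ?_
    fun_prop
  have hlb : 4 ≤ lam * (ρ / 16) ^ 2 := by nlinarith
  have hs3 := h3 R (-a - v₀.re) (a - v₀.re) (ρ / 16) (8 * η / ρ ^ 2) lam hlam0 (by positivity)
    (by linarith) (by linarith) (by positivity)
    (by rw [div_le_iff₀ hρ2]; linarith) hlb hRc
    (by
      intro w hw
      have := hR w (hnw w hw)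
      calc ‖R w‖ ≤ 8 * η * lam / ρ ^ 2 * w ^ 2 := this
        _ = 8 * η / ρ ^ 2 * lam * w ^ 2 := by ring)
  have hF0 : Real.exp (-(2 * η * lam)) ≤ ‖F lam h v₀‖ := by
    rw [norm_F]
    apply Real.exp_le_exp.2
    have g1 : |(h v₀).re| ≤ η * lam := (Complex.abs_re_le_norm _).trans
      (hb v₀ (by rw [mem_ball_zero_iff]; linarith))
    have g2 : v₀.re ^ 2 ≤ η := by
      have g3 : v₀.re ^ 2 ≤ (η / ρ) ^ 2 := by
        rw [← sq_abs v₀.re]
        have := abs_nonneg v₀.re
        gcongr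
        exact (Complex.abs_re_le_norm v₀).trans hv0
      refine g3.trans ?_
      rw [div_pow, div_le_iff₀ hρ2, sq η]
      exact mul_le_mul_of_nonneg_left (by linarith) hη.le
    have g4 := (abs_le.1 g1).1
    have g5 : lam * (v₀.re ^ 2 - v₀.im ^ 2) ≤ lam * η := by
      apply mul_le_mul_of_nonneg_left _ hlam0.le
      nlinarith [sq_nonneg v₀.im]
    linarith
  have hmain : 1 / √lam * Real.exp (-(2 * η * lam)) ≤
      ‖∫ x in Ioo (-a) a, F lam h (x + v₀.im * I)‖ := by
    rw [hshift]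
    have e1 : ∫ w in Ioo (-a - v₀.re) (a - v₀.re), F lam h (v₀ + w) =
        F lam h v₀ * ∫ w in Ioo (-a - v₀.re) (a - v₀.re), exp (-(lam * w ^ 2 : ℝ) + R w) := by
      rw [← integral_const_mul]
      exact integral_congr_ae (Eventually.of_forall fun w => hFw w)
    rw [e1, norm_mul, mul_comm (1 / √lam)]
    exact mul_le_mul hF0 hs3 (by positivity) (norm_nonneg _)
  -- the rest of the interval
  have hcont : ContinuousOn (fun v : ℝ => F lam h v) (Icc (-(ρ / 2)) (ρ / 2)) := by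
    refine (F_diff lam ρ h hd).continuousOn.comp (by fun_prop) ?_
    intro v hv
    rw [mem_ball_zero_iff, Complex.norm_real, Real.norm_eq_abs]
    have : |v| ≤ ρ / 2 := abs_le.2 hv
    linarith
  have hint : IntegrableOn (fun v : ℝ => F lam h v) (Ioo (-(ρ / 2)) (ρ / 2)) :=
    (hcont.integrableOn_compact isCompact_Icc).mono_set Ioo_subset_Icc_self
  have hsub : Ioo (-a) a ⊆ Ioo (-(ρ / 2)) (ρ / 2) := Ioo_subset_Ioo (by linarith) (by linarith)
  have hsplit := setIntegral_sdiff measurableSet_Ioo hint hsub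
  have hrest : ‖∫ v in Ioo (-(ρ / 2)) (ρ / 2) \ Ioo (-a) a, F lam h v‖ ≤ B * ρ := by
    have e1 := norm_setIntegral_le_of_norm_le_const (μ := volume)
      (s := Ioo (-(ρ / 2)) (ρ / 2) \ Ioo (-a) a) (f := fun v : ℝ => F lam h v) (C := B)
      (lt_of_le_of_lt (measure_mono sdiff_subset) (by simp)) (by
        intro v hv
        have hv1 : |v| < ρ / 2 := abs_lt.2 hv.1
        have hv2 : a ≤ |v| := by
          by_contra hcon
          exact hv.2 (abs_lt.1 (not_le.1 hcon))
        refine norm_F_le lam ρ η (ρ ^ 2 / 128) h _ hlam0.le hb ?_ ?_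
        · rw [mem_ball_zero_iff, Complex.norm_real, Real.norm_eq_abs]
          linarith
        · have hv3 : a ^ 2 ≤ v ^ 2 := by
            rw [← sq_abs v]
            have : 0 ≤ a := by positivity
            gcongr
          simp only [Complex.ofReal_re, Complex.ofReal_im]
          rw [ha] at hv3
          nlinarith)
    refine e1.trans ?_
    have hBn : 0 ≤ B := (Real.exp_pos _).le
    gcongr
    calc volume.real (Ioo (-(ρ / 2)) (ρ / 2) \ Ioo (-a) a)
        ≤ volume.real (Ioo (-(ρ / 2)) (ρ / 2)) :=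
          measureReal_mono sdiff_subset (by simp)
      _ = ρ := by
          rw [Real.volume_real_Ioo_of_le (by linarith)]
          ring
  have hfinal : 2 * ρ * B ≤ 1 / (2 * √lam) * Real.exp (-(2 * η * lam)) := by
    have hsq : 0 < √lam := Real.sqrt_pos.2 hlam0
    have hs : √lam ^ 2 = lam := Real.sq_sqrt hlam0.le
    have hY : (ρ * √lam) ^ 2 = lam * ρ ^ 2 := by rw [mul_pow, hs]; ring
    have hY0 : 0 < ρ * √lam := by positivity
    have hY1 : 1000 ≤ ρ * √lam := by
      by_contra hcon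
      push Not at hcon
      have : (ρ * √lam) ^ 2 < 1000 ^ 2 := by gcongr
      rw [hY] at this
      linarith
    have g1 : 4 * (ρ * √lam) ≤ Real.exp (15 / 2048 * (lam * ρ ^ 2)) := by
      have g2 := Real.add_one_le_exp (15 / 2048 * (lam * ρ ^ 2))
      rw [← hY] at g2 ⊢
      nlinarith
    have g3 : Real.exp (15 / 2048 * (lam * ρ ^ 2)) * B ≤ Real.exp (-(2 * η * lam)) := by
      rw [hB, ← Real.exp_add]
      apply Real.exp_le_exp.2
      nlinarith [mul_le_mul_of_nonneg_right hη0 hlam0.le]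
    have hBp : 0 < B := Real.exp_pos _
    calc 2 * ρ * B = 1 / (2 * √lam) * (4 * (ρ * √lam) * B) := by
          field_simp
          ring
      _ ≤ 1 / (2 * √lam) * (Real.exp (15 / 2048 * (lam * ρ ^ 2)) * B) := by gcongr
      _ ≤ 1 / (2 * √lam) * Real.exp (-(2 * η * lam)) := by gcongr
  -- conclusion
  have hI : (∫ v in Ioo (-(ρ / 2)) (ρ / 2), exp (-(lam * v ^ 2 : ℝ) + h v)) =
      ∫ v in Ioo (-(ρ / 2)) (ρ / 2), F lam h v :=
    integral_congr_ae (Eventually.of_forall fun v => (F_real lam h v).symm)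
  rw [hI]
  have hBn : 0 ≤ B := (Real.exp_pos _).le
  have n1 : ‖∫ x in Ioo (-a) a, F lam h (x + v₀.im * I)‖ ≤
      ‖∫ v in Ioo (-(ρ / 2)) (ρ / 2), F lam h v‖ + B * ρ + 2 * |v₀.im| * B := by
    have e1 : (∫ x in Ioo (-a) a, F lam h (x + v₀.im * I)) =
        (∫ v in Ioo (-(ρ / 2)) (ρ / 2), F lam h v) -
        (∫ v in Ioo (-(ρ / 2)) (ρ / 2) \ Ioo (-a) a, F lam h v) -
        ((∫ x in Ioo (-a) a, F lam h x) - ∫ x in Ioo (-a) a, F lam h (x + v₀.im * I)) := by
      rw [hsplit]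
      ring
    rw [e1]
    exact (norm_sub_le _ _).trans (add_le_add ((norm_sub_le _ _).trans
      (add_le_add le_rfl hrest)) hs2)
  have n2 : 2 * |v₀.im| * B ≤ ρ * B := by
    gcongr
    linarith
  have n3 : 1 / √lam * Real.exp (-(2 * η * lam)) =
      1 / (2 * √lam) * Real.exp (-(2 * η * lam)) + 1 / (2 * √lam) * Real.exp (-(2 * η * lam)) := by
    field_simp
    ring
  linarith

end Pool.Agent.DBC
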