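import Pool.Agent.DBC.Targets6
import Pool.Agent.DBN.FlowReg
import Pool.Agent.DBN.PhiC

/-!
# Many real simple zeros of `H_t`: the assembly
-/

set_option autoImplicit false

namespace Pool.Agent.DBC

open Complex MeasureTheory Set Filter Topology
open Pool.Agent.DBN

namespace GC5_

theorem differentiable_H (t : ℝ) : Differentiable ℂ (H t) := by
  have h : H t = fun z : ℂ => flow t (1 / 2 + I * z / 2) / 8 := by
    funext z
    exact H_eq_flow t z
  rw [h]
  refine Differentiable.div_const ?_ _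
  exact (differentiable_flow t).comp
    ((differentiable_const _).add ((differentiable_id.const_mul I).div_const 2))

/-- the real simple zeros in a compact interval form a finite set -/
theorem finite_zeros (t a b : ℝ) :
    {x : ℝ | a ≤ x ∧ x ≤ b ∧ H t x = 0 ∧ deriv (H t) x ≠ 0}.Finite := by
  by_contra hinf
  set Z : Set ℝ := {x : ℝ | a ≤ x ∧ x ≤ b ∧ H t x = 0 ∧ deriv (H t) x ≠ 0} with hZ
  have hinf' : Z.Infinite := hinf
  obtain ⟨x₁, hx₁⟩ := hinf'.nonempty
  have himg : ((fun x : ℝ => (x : ℂ)) '' Z).Infinite :=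
    hinf'.image (fun x _ y _ h => Complex.ofReal_injective h)
  have hK : IsCompact ((fun x : ℝ => (x : ℂ)) '' Icc a b) :=
    isCompact_Icc.image Complex.continuous_ofReal
  obtain ⟨z₀, -, hacc⟩ := himg.exists_accPt_of_subset_isCompact hK
    (image_mono fun x hx => ⟨hx.1, hx.2.1⟩)
  have hfr : ∃ᶠ z in 𝓝[≠] z₀, H t z = (fun _ : ℂ => (0 : ℂ)) z := by
    refine (accPt_iff_frequently_nhdsNE.1 hacc).mono ?_
    rintro z ⟨x, hx, rfl⟩
    exact hx.2.2.1
  have h0 : H t = fun _ : ℂ => (0 : ℂ) :=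
    AnalyticOnNhd.eq_of_frequently_eq
      ((differentiable_H t).differentiableOn.analyticOnNhd isOpen_univ)
      ((differentiable_const (0 : ℂ)).differentiableOn.analyticOnNhd isOpen_univ) hfr
  refine hx₁.2.2.2 ?_
  rw [h0]
  simp

/-- the final inequality, `A = log X / (2 π)` -/
theorem final_ineq {e X V A m : ℝ} (he : 0 < e) (he1 : e ≤ 1) (hX : 0 ≤ X) (hA : 0 ≤ A)
    (h2 : 2 ≤ e / 16 * X) (hV : V ≤ e / 16 * X) (hm : (1 - e / 2) * A - 1 ≤ m)
    (h1 : 1 ≤ e / 8 * A) : (1 - e) * (X * A) ≤ m * (X - 2 - V) := by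
  have hm2 : (1 - 5 * e / 8) * A ≤ m := by linarith
  have hx2 : (1 - e / 8) * X ≤ X - 2 - V := by linarith
  calc (1 - e) * (X * A) ≤ ((1 - 5 * e / 8) * A) * ((1 - e / 8) * X) := by
        have h3 : 0 ≤ X * A := mul_nonneg hX hA
        have h4 : (1 - e) ≤ (1 - 5 * e / 8) * (1 - e / 8) := by nlinarith
        calc (1 - e) * (X * A) ≤ ((1 - 5 * e / 8) * (1 - e / 8)) * (X * A) :=
              mul_le_mul_of_nonneg_right h4 h3
          _ = _ := by ring
    _ ≤ m * (X - 2 - V) := by
        refine mul_le_mul hm2 hx2 (mul_nonneg (by linarith) hX) ?_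
        exact le_trans (mul_nonneg (by linarith) hA) hm2

theorem m_low {e L : ℝ} (he : 0 < e) (hL : 0 ≤ L) :
    (1 - e / 2) * (L / (2 * Real.pi)) - 1 ≤ 2 * L / (4 * Real.pi + 2 * e) - 1 := by
  have hpi := Real.pi_gt_three
  have h1 : (1 - e / 2) * (L / (2 * Real.pi)) = ((1 - e / 2) * L) / (2 * Real.pi) := by ring
  rw [h1]
  refine sub_le_sub_right ?_ 1
  rw [div_le_div_iff₀ (by positivity) (by positivity)]
  have h2 : (1 - e / 2) * (4 * Real.pi + 2 * e) ≤ 2 * (2 * Real.pi) := by nlinarith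
  nlinarith

end GC5_

open GC5_ in
theorem n_GC (h1 : N_FG) (h2 : N_GS) : N_GC := by
  intro c₁ c₂ hc₁ hc hAA ε hε
  set e : ℝ := min ε 1 with he
  have he0 : 0 < e := lt_min hε one_pos
  have he1 : e ≤ 1 := min_le_right _ _
  have heε : e ≤ ε := min_le_left _ _
  have hpi := Real.pi_gt_three
  obtain ⟨δ, X₁, hδ, hV⟩ := hAA 3 e (by norm_num) he0
  have E1 : ∀ᶠ X : ℝ in atTop, X ^ (-δ) ≤ e / 16 :=
    (tendsto_rpow_neg_atTop hδ).eventually_le_const (by positivity)
  have E3 : ∀ᶠ X : ℝ in atTop, max (16 * Real.pi / e) (4 * Real.pi + 2) ≤ Real.log X :=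
    Real.tendsto_log_atTop.eventually_ge_atTop _
  obtain ⟨X₂, hX₂⟩ := eventually_atTop.1
    (E1.and (E3.and (eventually_ge_atTop (max X₁ (max (32 / e) 2)))))
  refine ⟨X₂, ?_⟩
  intro t X hX ht1 ht2
  obtain ⟨f1, f3, f4⟩ := hX₂ X hX
  have f5 : X₁ ≤ X := (le_max_left _ _).trans f4
  have f6 : 32 / e ≤ X := (le_max_left _ _).trans ((le_max_right _ _).trans f4)
  have f7 : 2 ≤ X := (le_max_right _ _).trans ((le_max_right _ _).trans f4)
  have g1 : 16 * Real.pi / e ≤ Real.log X := (le_max_left _ _).trans f3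
  have g2 : 4 * Real.pi + 2 ≤ Real.log X := (le_max_right _ _).trans f3
  have hX0 : 0 < X := by linarith
  have hL : 0 < Real.log X := by linarith
  have ht0 : 0 < t := by
    by_contra h
    have h3 : t * Real.log X ≤ 0 := mul_nonpos_of_nonpos_of_nonneg (not_lt.1 h) hL.le
    linarith
  have hZ := finite_zeros t (2 * X) (4 * X)
  set Z : Set ℝ := {x : ℝ | 2 * X ≤ x ∧ x ≤ 4 * X ∧ H t x = 0 ∧ deriv (H t) x ≠ 0} with hZdef
  refine ⟨hZ.toFinset, ?_, ?_⟩
  · intro x hx
    rw [Set.Finite.mem_toFinset] at hx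
    exact ⟨hx.2.2.1, hx.2.2.2, hx.1, hx.2.1⟩
  · have hm : 0 ≤ 2 * Real.log X / (4 * Real.pi + 2 * e) - 1 := by
      rw [sub_nonneg, one_le_div (by positivity)]
      linarith
    have hVX : X ^ (1 - δ) ≤ e / 16 * X := by
      rw [sub_eq_add_neg, Real.rpow_add hX0, Real.rpow_one, mul_comm]
      exact mul_le_mul_of_nonneg_right f1 hX0.le
    have hFG := h1 Z {T : ℝ | X ≤ T ∧ T ≤ 2 * X ∧ ∃ t : ℝ, c₁ / 2 ≤ t * Real.log T ∧
      t * Real.log T ≤ 2 * c₂ ∧ ¬ CrysAt 3 e t T} X (X ^ (1 - δ))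
      (2 * Real.log X / (4 * Real.pi + 2 * e) - 1) (by linarith) (by positivity) hm hZ
      (hV X f5) ?_
    · rw [← Set.ncard_eq_toFinset_card Z hZ]
      refine le_trans ?_ hFG
      have hA : 0 ≤ Real.log X / (2 * Real.pi) := by positivity
      have h3 : (1 - ε) * (X * Real.log X / (2 * Real.pi)) ≤
          (1 - e) * (X * (Real.log X / (2 * Real.pi))) := by
        rw [mul_div_assoc]
        exact mul_le_mul_of_nonneg_right (by linarith) (by positivity)
      refine h3.trans (final_ineq he0 he1 hX0.le hA ?_ hVX (m_low he0 hL.le) ?_)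
      · rw [div_le_iff₀ he0] at f6
        linarith
      · rw [div_le_iff₀ he0] at g1
        rw [← mul_div_assoc, le_div_iff₀ (by positivity)]
        linarith
    · intro T hT1 hT2 hTE
      have hT0 : 0 < T := by linarith
      have hlog : Real.log X ≤ Real.log T := Real.log_le_log hX0 (by linarith)
      have hlog2 : Real.log T ≤ 2 * Real.log X := by
        calc Real.log T ≤ Real.log (X * X) :=
              Real.log_le_log hT0 (by nlinarith)
          _ = 2 * Real.log X := by rw [Real.log_mul hX0.ne' hX0.ne']; ring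
      have hcr : CrysAt 3 e t T := by
        by_contra hn
        refine hTE ⟨by linarith, by linarith, t, ?_, ?_, hn⟩
        · nlinarith
        · nlinarith
      have hgs := h2 e t T he0 he1 (by linarith) hcr Z hZ ?_
      · refine le_trans ?_ hgs
        refine sub_le_sub_right ?_ 1
        exact div_le_div_of_nonneg_right (by linarith) (by positivity)
      · intro x hx hHx hdx
        rw [abs_le] at hx
        exact ⟨by linarith [hx.1], by linarith [hx.2], hHx, hdx⟩

end Pool.Agent.DBC
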