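import Pool.Agent.DBC.Targets4
import Pool.Agent.NBL.Adm

/-!
# Real zeros of the flow at almost all heights: targets, part B

Project DBC4 (owner helper11), addition to `MP_4e5e8a_nt.DBNFlow`. One file per target,
`Pool/Agent/DBC/S_X.lean`, `theorem Pool.Agent.DBC.s_X (other targets) : Y_X`, helper lemmas in the
namespace `Pool.Agent.DBC.X4_`. The docstrings contain the proofs. `Mo Y` is the mollifier,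
`F = ζ Mo Y - 1`, `h = 1/(3 X)`.
-/

set_option autoImplicit false

namespace Pool.Agent.DBC

open Complex MeasureTheory Set Filter Topology
open Pool.Agent.DBN
open scoped ENNReal

/-! ### from bounds for `ζ` on a set `G` of heights to the theorem -/

/-- XU. Upper bound for `xi`. Proof: `|x|/2 ≤ mm l x` (square), `mm l x ≥ 0`. For `|Re w| ≥ 1/2` use
`xi_quarter_le` (DBN/ZA.lean; there `max (|x|/2) (1/4) = |x|/2`). For `0 ≤ Re w ≤ 1/2` and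
`s = 1/2 + T I + w`: `xi_two` (`R = 1`), `UpZ (ε/2) (R + 1) T` and the comparison of `Im s` with `T`
as in Q_XBD.lean (`rpow_shift_le`, `size_shift_le`). For `Re w < 0` use `norm_xi_symm`. -/
def Y_XU : Prop := ∀ (G : Set ℝ) (l : ℝ), 0 < l →
  (∀ ε R : ℝ, 0 < ε → 0 < R → ∃ T₀ : ℝ, ∀ T : ℝ, T ∈ G → T₀ ≤ T → UpZ ε R T) → XiG G (mm l)

/-- XL. Two-sided bounds for `xi`. Proof: copy of Q_XBD.lean, the bounds of LZE with `ε/2` are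
`UpZ (ε/2) K T` and `LoZ (l/4) (ε/2) K T`. -/
def Y_XL : Prop := ∀ (G : Set ℝ) (l : ℝ), 0 < l →
  (∀ ε R : ℝ, 0 < ε → 0 < R → ∃ T₀ : ℝ, ∀ T : ℝ, T ∈ G → T₀ ≤ T → UpZ ε R T) →
  (∀ ε R : ℝ, 0 < ε → 0 < R → ∃ T₀ : ℝ, ∀ T : ℝ, T ∈ G → T₀ ≤ T → LoZ (l / 4) ε R T) → XbG G l

/-- DG (from HT, XU, XL). Diagonal argument. Proof: `l = c₁/2`. If the claim is false, then for
every `n` there are `T n ≥ n` in `Gd (c₁/8) n` and `t n` with `¬ CrysAt K ε (t n) (T n)` (and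
`c₁ ≤ t n * log (T n) ≤ c₂`). Let `G = range T`. For `ε', R > 0` take `N` with `1/(N + 1) ≤ ε'`,
`R ≤ N + 1`, and `T₀ > T n` for all `n ≤ N` (and `T₀ ≥ 1`): for `T n ≥ T₀` we have `n > N`, so
`UpZ ε' R (T n)` and `LoZ (c₁/8) ε' R (T n)` (monotone in `ε`, `R`). XU, XL, HT for `G` give a
contradiction for large `n`. -/
def Y_DG : Prop := ∀ c₁ c₂ K ε : ℝ, 0 < c₁ → c₁ ≤ c₂ → 0 < K → 0 < ε → ∃ (n : ℕ) (T₀ : ℝ),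
  ∀ t T : ℝ, T ∈ Gd (c₁ / 8) n → T₀ ≤ T → c₁ ≤ t * Real.log T → t * Real.log T ≤ c₂ →
    CrysAt K ε t T

/-! ### measure estimates -/

/-- CH. Chebyshev. Proof: `T ↦ ∫⁻ u in Icc (T - R) (T + R), φ u` is measurable (it is
`∫⁻ u, g (T, u)` with `g (T, u) = φ u` for `|u - T| ≤ R` and `0` otherwise), Markov
(`mul_meas_ge_le_lintegral`) on `Icc X (2 X)` and Tonelli (`lintegral_lintegral_swap`): for fixed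
`u` the set of `T` in `[X, 2 X]` with `|u - T| ≤ R` has measure at most `2 R` and is empty unless
`u ∈ Icc (X - R) (2 X + R)`. -/
def Y_CH : Prop := ∀ φ : ℝ → ℝ≥0∞, Measurable φ → ∀ R lam X : ℝ, 0 < R → 0 < lam →
  volume {T : ℝ | X ≤ T ∧ T ≤ 2 * X ∧
    ENNReal.ofReal lam ≤ ∫⁻ u in Icc (T - R) (T + R), φ u} ≤
      ENNReal.ofReal (2 * R / lam) * ∫⁻ u in Icc (X - R) (2 * X + R), φ u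

/-- SM. Functions with small mean square on the line. Proof: `κ' = κ/16`, `L ≥ 4 (R + 2)/κ'`,
`K = L (1 + 2/κ') + R`. `NBL.jen` (NBL/Half.lean) with `a = 1` gives `x₀ < 1` and, with
`Λ = log M₀ - log P₀`, `m = (1/π) ∫_{-L}^L P (x + x₀) 0 t`, `1 - κ' ≤ m ≤ 1` (`IP_ge`,
`integral_P_le`, see NBL/Point.lean, line 200):
`log ‖f x‖ ≤ (1 - m) log M₀ + (1/π) ∫ log (max ‖f (t I)‖ P₀) P (x + x₀) 0 t + κ' Λ`. `NBL.jensen_w`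
(NBL/Point.lean) with `w t = (max ‖f (t I)‖ P₀)^2`, `w₀ = P₀^2`:
`log ‖f x‖^2 ≤ 4 κ' Λ + log 2 + log ((1/π) ∫ (max ..)^2 P)`, `(max ..)^2 ≤ P₀^2 + ‖f (t I)‖^2`,
`(1/π) ∫ P ≤ 1`, `P (x + x₀) 0 t ≤ 1/x`, `1/π ≤ 1`. (If `f x = 0` nothing to prove.) The proof of
the main lemma in NBL/Point.lean is a model. -/
def Y_SM : Prop := ∀ κ R : ℝ, 0 < κ → κ ≤ 1 → 0 < R → ∃ L K : ℝ, 1 ≤ L ∧ L ≤ K ∧ R < K ∧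
  ∀ (f : ℂ → ℂ) (M₀ P₀ : ℝ), 0 < P₀ → P₀ < M₀ → (Continuous fun t : ℝ => f (t * I)) →
    (∀ z : ℂ, 0 ≤ z.re → z.re ≤ K → |z.im| ≤ K → DifferentiableAt ℂ f z ∧ ‖f z‖ ≤ M₀) →
    ∀ x : ℝ, 0 < x → x ≤ R → ‖f x‖ ^ 2 ≤
      2 * (M₀ / P₀) ^ κ * (P₀ ^ 2 + 1 / x * ∫ t in (-L)..L, ‖f (t * I)‖ ^ 2)

/-- U1 (from SM). Proof: `r = ε/16`, SM with `κ = ε/32` and `R + 2`, `R' = R + 2 L + 2`. Step 1: for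
`|u - T| ≤ R + L` apply SM to `f z = ζ (1/2 + z + u I)` at `x = r`, `P₀ = 1`, `M₀ = T^2`
(`Lib.ZetaCrude.norm_zeta_le_crude`, `T` large): `‖ζ (1/2 + r + u I)‖^2 ≤
2 T^(ε/16) (1 + (1/r) ∫_{-L}^L ‖ζ (1/2 + (t + u) I)‖^2) ≤ C T^(ε/16) T^(ε/4)`. Step 2: for
`s = 1/2 + y + τ I`, `0 ≤ y ≤ R`, `|τ - T| ≤ R`, apply SM to `f z = ζ (1/2 - r + z + τ I)` at
`x = r + y`: `‖ζ s‖^2 ≤ 2 T^(ε/16) (1 + (1/r) ∫_{-L}^L ‖ζ (1/2 - r + (t + τ) I)‖^2)`, and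
`‖ζ (1/2 - r + u I)‖ ≤ 3 (2 T)^r ‖ζ (1/2 + r + u I)‖` (`Lib.ZetaConv.zeta_left`), so
`‖ζ s‖^2 ≤ C T^(ε/16 + ε/8 + ε/16 + ε/4) ≤ T^(2 ε)` for large `T`. -/
def Y_U1 : Prop := ∀ ε R : ℝ, 0 < ε → ε ≤ 1 → 0 < R → ∃ R' T₀ : ℝ, 0 < R' ∧ ∀ T : ℝ, T₀ ≤ T →
  ∫⁻ u in Icc (T - R') (T + R'), ‖riemannZeta (1 / 2 + u * I)‖ₑ ^ 2 ≤
    ENNReal.ofReal (T ^ (ε / 4)) → UpZ ε R T

/-- MU (from CH, U1). Proof: we may assume `ε ≤ 1` (monotone). By U1 the set is contained in the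
set of CH with `lam = X^(ε/4)` for `X` large, and the integral over
`Icc (X - R') (2 X + R') ⊆ Icc (-N) N`, `N = ⌈3 X⌉₊`, is at most `480 π N (1 + log N)`
(`NBL.mean_sq`, NBL/Ms.lean). `δ = ε/8`. -/
def Y_MU : Prop := ∀ ε R : ℝ, 0 < ε → 0 < R → ∃ δ X₀ : ℝ, 0 < δ ∧ ∀ X : ℝ, X₀ ≤ X →
  volume {T : ℝ | X ≤ T ∧ T ≤ 2 * X ∧ ¬ UpZ ε R T} ≤ ENNReal.ofReal (X ^ (1 - δ))

/-- L1 (from SM). Proof: SM with `κ = δ/16` and `R`, `R' = R + L`. For `|τ - T| ≤ R` let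
`f z = F (1/2 + η/2 + z + τ I)`, `M₀ = T^3` (`norm_zeta_le_crude`, `‖Mo Y s‖ ≤ Y ≤ T` for
`Re s ≥ 0`, `T` large), `P₀ = T^(-δ)`, so `(M₀/P₀)^κ ≤ T^(δ/4)`; for `x = Re s - 1/2 - η/2 ≥ η/2`:
`‖F s‖^2 ≤ 2 T^(δ/4) (T^(-2 δ) + (2/η) T^(-δ)) ≤ 1/4` for large `T`. So `1/2 ≤ ‖ζ s‖ ‖Mo Y s‖ ≤
‖ζ s‖ Y` and `‖ζ s‖ ≥ T^(-ε/2)/2 ≥ T^(-ε)`. -/
def Y_L1 : Prop := ∀ η ε δ R : ℝ, 0 < η → η ≤ 1 / 2 → 0 < ε → ε ≤ 1 → 0 < δ → δ ≤ 1 → 0 < R →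
  ∃ R' T₀ : ℝ, 0 < R' ∧ ∀ T : ℝ, T₀ ≤ T → ∀ Y : ℕ, 1 ≤ Y → (Y : ℝ) ≤ T ^ (ε / 2) →
    ∫⁻ u in Icc (T - R') (T + R'), ‖riemannZeta ((1 / 2 + η / 2 : ℝ) + u * I) *
      Mo Y ((1 / 2 + η / 2 : ℝ) + u * I) - 1‖ₑ ^ 2 ≤ ENNReal.ofReal (T ^ (-δ)) → LoZ η ε R T

/-! ### the mollified mean square -/

/-- PL. Plancherel on the line `Re s = σ`. Proof: as in NBL/Adm.lean (`phi_int`, `phi_memLp`,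
`lint_phi`, `plancherel`), with `phi g u = exp (-σ u) • g (exp (-u))`: it is at most
`M exp (-min σ (1 - σ) |u|)`, and `‖phi g u‖^2 du` becomes `t^(2 σ - 1) ‖g t‖^2 dt`. -/
def Y_PL : Prop := ∀ σ : ℝ, 0 < σ → σ < 1 → ∀ g : ℝ → ℂ, NBL.Adm g →
  ∫⁻ τ : ℝ, ‖mellin g (σ + τ * I)‖ₑ ^ 2 = ENNReal.ofReal (2 * Real.pi) *
    ∫⁻ t in Ioi (0 : ℝ), ENNReal.ofReal (t ^ (2 * σ - 1)) * ‖g t‖ₑ ^ 2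

/-- MF. Mellin transform of the difference. Proof: `GG Y t = -∑ μ(k) nb k t - ch 1 t` (NBL/Mel.lean),
so it is admissible (`adm_nb`, `adm_ch`, `Adm.mul`, `Adm.sum`), and so is `t ↦ GG Y (a t)`,
`a = exp (-h)`; `nb_mellin`, `ch_mellin`, `mellin_sum`: the Mellin transform of `GG Y` is
`(ζ Mo Y - 1)/s`; `mellin_comp_mul_left`, `a^(-s) = exp (h s)`; `hasMellin_sub`. -/
def Y_MF : Prop := ∀ (Y : ℕ) (h : ℝ), 0 < h →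
  NBL.Adm (fun t : ℝ => ((GG Y (Real.exp (-h) * t) - GG Y t : ℝ) : ℂ)) ∧
  ∀ s : ℂ, 0 < s.re → s.re < 1 →
    mellin (fun t : ℝ => ((GG Y (Real.exp (-h) * t) - GG Y t : ℝ) : ℂ)) s =
      (exp (h * s) - 1) * ((riemannZeta s * Mo Y s - 1) / s)

/-- GT. The difference at `t = 1/x`, `x ≤ X`. Proof: `x = 1/t`, `x' = x e^h`. Since
`{x/k} = x/k - ⌊x/k⌋` and `∑_{k ≤ Y} μ(k) ⌊x/k⌋ = ∑_{1 ≤ n ≤ x} am Y n` (count the pairs), and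
`am Y 1 = 1`: `GG Y (1/x) = -c x + ∑_{2 ≤ n ≤ x} am Y n`, `c = ∑_{k ≤ Y} μ(k)/k`, `|c| ≤ Y`. So the
difference is `-c (x' - x) + ∑_{n ≥ 2, x < n ≤ x'} am Y n`, `x' - x ≤ 2 h x ≤ 2 h X < 1`: at most one
`n`, and `n ≤ x' ≤ 2 X`. `(a + b)^2 ≤ 2 a^2 + 2 b^2`; `x < n ≤ x'` is `1/n < t ≤ e^h/n`. -/
def Y_GT : Prop := ∀ (Y : ℕ) (X h t : ℝ), 1 ≤ Y → 1 ≤ X → h = 1 / (3 * X) → 1 / X ≤ t →
  (GG Y (Real.exp (-h) * t) - GG Y t) ^ 2 ≤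
    2 * ∑ n ∈ Finset.Icc 2 ⌊2 * X⌋₊, am Y n ^ 2 *
      (if 1 / (n : ℝ) < t ∧ t ≤ Real.exp h / n then 1 else 0) + 2 * (2 * Y * h / t) ^ 2

/-- LT (from GT). The `L²` norm of the difference. Proof: `t ≤ 1/X`: `|GG Y| ≤ Y + 1`, so this part
is at most `4 (Y+1)² X^(-2 σ)/(2 σ)`. `t ≥ 1/X`: GT; `∫_{1/n}^{e^h/n} t^(2 σ - 1) dt ≤
(e^h/n)^(2 σ - 1) (e^h - 1)/n ≤ 4 h n^(-2 σ)` (`h ≤ 1/3`), and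
`8 Y² h² ∫_{1/X}^∞ t^(2 σ - 3) dt = 8 Y² h² X^(2 - 2 σ)/(2 - 2 σ)`. -/
def Y_LT : Prop := ∀ σ : ℝ, 1 / 2 < σ → σ < 1 → ∃ C : ℝ, 0 ≤ C ∧ ∀ (Y : ℕ) (X h : ℝ), 1 ≤ Y →
  1 ≤ X → h = 1 / (3 * X) →
  ∫⁻ t in Ioi (0 : ℝ), ENNReal.ofReal (t ^ (2 * σ - 1)) *
    ‖((GG Y (Real.exp (-h) * t) - GG Y t : ℝ) : ℂ)‖ₑ ^ 2 ≤
    ENNReal.ofReal (C * (((Y : ℝ) + 1) ^ 2 * X ^ (-(2 * σ)) +
      X⁻¹ * ∑ n ∈ Finset.Icc 2 ⌊2 * X⌋₊, am Y n ^ 2 * (n : ℝ) ^ (-(2 * σ))))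

/-- AR. The coefficients. Proof: for `2 ≤ n ≤ Y` the sum runs over all divisors and is `0`
(`ArithmeticFunction.coe_mul_zeta_apply`, `moebius_mul_coe_zeta`); always `|am Y n| ≤ d(n)`, and
`d(n) ≤ C n^ε` (Ben/P_MGF.lean line 43 or PertQ/GK.lean line 47), `ε = (σ - 1/2)/4`. So the sum is at
most `Y^(-(σ - 1/2)) ∑_{n ≥ 1} C² n^(2 ε) n^(-(σ + 1/2))`, a convergent series. -/
def Y_AR : Prop := ∀ σ : ℝ, 1 / 2 < σ → σ < 1 → ∃ C : ℝ, 0 ≤ C ∧ ∀ Y N : ℕ, 1 ≤ Y →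
  ∑ n ∈ Finset.Icc 2 N, am Y n ^ 2 * (n : ℝ) ^ (-(2 * σ)) ≤ C * (Y : ℝ) ^ (-(σ - 1 / 2))

/-- MM (from PL, MF, LT, AR). The mollified mean square. Proof: `h = 1/(3 X)`, `s = σ + t I`,
`X/2 ≤ t ≤ 3 X`: `1/6 ≤ h t ≤ 1`, `‖exp (h s) - 1‖ ≥ |Im| = e^(h σ) sin (h t) ≥ sin (1/6) ≥ 1/10`,
`‖s‖ ≤ 4 X`, so `‖F s‖ ≤ 40 X ‖mellin (..) s‖` (MF); PL, LT, AR. -/
def Y_MM : Prop := ∀ σ : ℝ, 1 / 2 < σ → σ < 1 → ∃ C : ℝ, 0 ≤ C ∧ ∀ (X : ℝ) (Y : ℕ), 1 ≤ X →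
  1 ≤ Y → ∫⁻ t in Icc (X / 2) (3 * X), ‖riemannZeta (σ + t * I) * Mo Y (σ + t * I) - 1‖ₑ ^ 2 ≤
    ENNReal.ofReal (C * (((Y : ℝ) + 1) ^ 2 * X ^ (2 - 2 * σ) + X * (Y : ℝ) ^ (-(σ - 1 / 2))))

/-- ML (from CH, L1, MM). Proof: we may assume `η ≤ 1/2`, `ε ≤ 1` (monotone). `σ = 1/2 + η/2`,
`θ = min (ε/4) (η/8)`, `Y = ⌊X^θ⌋₊`, `X^θ/2 ≤ Y ≤ X^θ`: MM gives at most `C' X^(1 - δ₁)`,
`δ₁ = θ η/2` (`1 - η + 2 θ ≤ 1 - δ₁`). L1 with `δ = δ₁/2` (`Y ≤ T^(ε/2)` as `X ≤ T`): the set is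
contained in the set of CH with `lam = (2 X)^(-δ₁/2)` (`T ≤ 2 X`), of measure at most
`2 R' (2 X)^(δ₁/2) C' X^(1 - δ₁) ≤ X^(1 - δ₁/4)`; `Icc (X - R') (2 X + R') ⊆ Icc (X/2) (3 X)`. -/
def Y_ML : Prop := ∀ η ε R : ℝ, 0 < η → 0 < ε → 0 < R → ∃ δ X₀ : ℝ, 0 < δ ∧ ∀ X : ℝ, X₀ ≤ X →
  volume {T : ℝ | X ≤ T ∧ T ≤ 2 * X ∧ ¬ LoZ η ε R T} ≤ ENNReal.ofReal (X ^ (1 - δ))

/-- AA (from DG, MU, ML). The theorem. Proof: `n`, `T₀` from DG; for `X ≥ T₀` the set is contained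
in the union of the sets of MU and ML (`η = c₁/8`, `ε = 1/(n + 1)`, `R = n + 1`), and
`X^(1 - δ₁) + X^(1 - δ₂) ≤ X^(1 - δ)` for `δ = min δ₁ δ₂ / 2`, `X` large. -/
def Y_AA : Prop := ∀ c₁ c₂ : ℝ, 0 < c₁ → c₁ ≤ c₂ → AlmostAll c₁ c₂

end Pool.Agent.DBC
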