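import Pool.Agent.DBC.Targets5

/-!
DBC4, AA: real zeros of the flow at almost all heights, assembly.
-/

set_option autoImplicit false

namespace Pool.Agent.DBC

open Complex MeasureTheory Set Filter Topology
open Pool.Agent.DBN
open scoped ENNReal

namespace AA4_

lemma sum_le {δ₁ δ₂ X : ℝ} (h1 : 0 < δ₁) (h2 : 0 < δ₂) (hX1 : 1 ≤ X)
    (hX : (2 : ℝ) ^ (2 / min δ₁ δ₂) ≤ X) :
    X ^ (1 - δ₁) + X ^ (1 - δ₂) ≤ X ^ (1 - min δ₁ δ₂ / 2) := by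
  have hm : 0 < min δ₁ δ₂ := lt_min h1 h2
  have hX0 : 0 < X := by linarith
  have e1 : X ^ (1 - δ₁) ≤ X ^ (1 - min δ₁ δ₂) :=
    Real.rpow_le_rpow_of_exponent_le hX1 (by linarith [min_le_left δ₁ δ₂])
  have e2 : X ^ (1 - δ₂) ≤ X ^ (1 - min δ₁ δ₂) :=
    Real.rpow_le_rpow_of_exponent_le hX1 (by linarith [min_le_right δ₁ δ₂])
  have e3 : (2 : ℝ) ≤ X ^ (min δ₁ δ₂ / 2) := by
    have h3 := Real.rpow_le_rpow (by positivity) hX (show 0 ≤ min δ₁ δ₂ / 2 by positivity)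
    rw [← Real.rpow_mul (by norm_num)] at h3
    have h4 : 2 / min δ₁ δ₂ * (min δ₁ δ₂ / 2) = 1 := by
      field_simp
    rwa [h4, Real.rpow_one] at h3
  have e4 : X ^ (1 - min δ₁ δ₂ / 2) = X ^ (min δ₁ δ₂ / 2) * X ^ (1 - min δ₁ δ₂) := by
    rw [← Real.rpow_add hX0]
    congr 1
    ring
  have e5 : 0 < X ^ (1 - min δ₁ δ₂) := Real.rpow_pos_of_pos hX0 _
  rw [e4]
  nlinarith

end AA4_

theorem s_AA (h1 : Y_DG) (h2 : Y_MU) (h3 : Y_ML) : Y_AA := by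
  intro c₁ c₂ hc hcc K ε hK hε
  obtain ⟨n, T₀, hD⟩ := h1 c₁ c₂ K ε hc hcc hK hε
  obtain ⟨δ₁, X₁, hδ₁, hU⟩ := h2 (1 / (n + 1 : ℝ)) (n + 1) (by positivity) (by positivity)
  obtain ⟨δ₂, X₂, hδ₂, hL⟩ := h3 (c₁ / 8) (1 / (n + 1 : ℝ)) (n + 1) (by positivity)
    (by positivity) (by positivity)
  refine ⟨min δ₁ δ₂ / 2, max (max T₀ (max X₁ X₂)) (max 1 ((2 : ℝ) ^ (2 / min δ₁ δ₂))),
    half_pos (lt_min hδ₁ hδ₂), fun X hX => ?_⟩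
  have hXa : T₀ ≤ X := ((le_max_left _ _).trans (le_max_left _ _)).trans hX
  have hXb : X₁ ≤ X :=
    ((le_max_left _ _).trans ((le_max_right _ _).trans (le_max_left _ _))).trans hX
  have hXc : X₂ ≤ X :=
    ((le_max_right _ _).trans ((le_max_right _ _).trans (le_max_left _ _))).trans hX
  have hXd : 1 ≤ X := ((le_max_left _ _).trans (le_max_right _ _)).trans hX
  have hXe : (2 : ℝ) ^ (2 / min δ₁ δ₂) ≤ X :=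
    ((le_max_right _ _).trans (le_max_right _ _)).trans hX
  have hX0 : 0 ≤ X := by linarith
  have hsub : {T : ℝ | X ≤ T ∧ T ≤ 2 * X ∧ ∃ t : ℝ, c₁ ≤ t * Real.log T ∧
      t * Real.log T ≤ c₂ ∧ ¬ CrysAt K ε t T} ⊆
      {T : ℝ | X ≤ T ∧ T ≤ 2 * X ∧ ¬ UpZ (1 / (n + 1 : ℝ)) (n + 1) T} ∪
      {T : ℝ | X ≤ T ∧ T ≤ 2 * X ∧ ¬ LoZ (c₁ / 8) (1 / (n + 1 : ℝ)) (n + 1) T} := by
    rintro T ⟨k1, k2, t, k3, k4, k5⟩
    by_cases hu : UpZ (1 / (n + 1 : ℝ)) (n + 1) T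
    · right
      refine ⟨k1, k2, fun hl => k5 ?_⟩
      exact hD t T ⟨hu, hl⟩ (hXa.trans k1) k3 k4
    · left
      exact ⟨k1, k2, hu⟩
  calc volume {T : ℝ | X ≤ T ∧ T ≤ 2 * X ∧ ∃ t : ℝ, c₁ ≤ t * Real.log T ∧
      t * Real.log T ≤ c₂ ∧ ¬ CrysAt K ε t T}
      ≤ volume {T : ℝ | X ≤ T ∧ T ≤ 2 * X ∧ ¬ UpZ (1 / (n + 1 : ℝ)) (n + 1) T} +
        volume {T : ℝ | X ≤ T ∧ T ≤ 2 * X ∧ ¬ LoZ (c₁ / 8) (1 / (n + 1 : ℝ)) (n + 1) T} :=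
        (measure_mono hsub).trans (measure_union_le _ _)
    _ ≤ ENNReal.ofReal (X ^ (1 - δ₁)) + ENNReal.ofReal (X ^ (1 - δ₂)) :=
        add_le_add (hU X hXb) (hL X hXc)
    _ = ENNReal.ofReal (X ^ (1 - δ₁) + X ^ (1 - δ₂)) :=
        (ENNReal.ofReal_add (Real.rpow_nonneg hX0 _) (Real.rpow_nonneg hX0 _)).symm
    _ ≤ ENNReal.ofReal (X ^ (1 - min δ₁ δ₂ / 2)) :=
        ENNReal.ofReal_le_ofReal (AA4_.sum_le hδ₁ hδ₂ hXd hXe)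

end Pool.Agent.DBC
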