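import Pool.Agent.DBC.Targets5
import Pool.Agent.PertQ.GK

/-!
# AR: the coefficients of the mollified series

Project DBC4 (owner helper11), `MP_4e5e8a_nt.DBNFlow`; block by helper21.
-/

set_option autoImplicit false

namespace Pool.Agent.DBC

namespace AR4_

theorem am_zero (Y n : ℕ) (h2 : 2 ≤ n) (hY : n ≤ Y) : am Y n = 0 := by
  have h1 : (Finset.Icc 1 Y).filter (fun d => d ∣ n) = n.divisors := by
    ext d
    simp only [Finset.mem_filter, Finset.mem_Icc, Nat.mem_divisors]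
    constructor
    · rintro ⟨_, h⟩
      exact ⟨h, by omega⟩
    · rintro ⟨h, _⟩
      exact ⟨⟨Nat.pos_of_dvd_of_pos h (by omega), (Nat.le_of_dvd (by omega) h).trans hY⟩, h⟩
  have h3 : ∑ d ∈ n.divisors, ArithmeticFunction.moebius d = 0 := by
    rw [← ArithmeticFunction.coe_mul_zeta_apply, ArithmeticFunction.moebius_mul_coe_zeta,
      ArithmeticFunction.one_apply_ne (by omega)]
  unfold am
  rw [h1]
  exact_mod_cast h3

theorem am_abs (Y n : ℕ) (h1 : 1 ≤ n) : |am Y n| ≤ (n.divisors.card : ℝ) := by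
  unfold am
  refine (Finset.abs_sum_le_sum_abs _ _).trans ?_
  have h2 : (Finset.Icc 1 Y).filter (fun d => d ∣ n) ⊆ n.divisors := by
    intro d hd
    simp only [Finset.mem_filter, Finset.mem_Icc] at hd
    exact Nat.mem_divisors.2 ⟨hd.2, by omega⟩
  calc ∑ d ∈ (Finset.Icc 1 Y).filter (fun d => d ∣ n),
        |((ArithmeticFunction.moebius d : ℤ) : ℝ)|
      ≤ ∑ _d ∈ (Finset.Icc 1 Y).filter (fun d => d ∣ n), (1 : ℝ) := by
        refine Finset.sum_le_sum fun d _ => ?_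
        exact_mod_cast ArithmeticFunction.abs_moebius_le_one
    _ ≤ (n.divisors.card : ℝ) := by
        rw [Finset.sum_const, nsmul_eq_mul, mul_one]
        exact_mod_cast Finset.card_le_card h2

end AR4_

open AR4_ in
theorem s_AR : Y_AR := by
  intro σ h1 h2
  obtain ⟨C, hC, hd⟩ := PertQ.GK_.tau ((σ - 1 / 2) / 4) (by linarith)
  have hs : Summable (fun n : ℕ => (n : ℝ) ^ (-(σ / 2 + 3 / 4))) :=
    Real.summable_nat_rpow.2 (by linarith)
  refine ⟨C ^ 2 * ∑' n : ℕ, (n : ℝ) ^ (-(σ / 2 + 3 / 4)),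
    mul_nonneg (sq_nonneg _) (tsum_nonneg fun n => by positivity), fun Y N hY => ?_⟩
  have hYp : (0 : ℝ) < Y := by exact_mod_cast hY
  have key : ∀ n ∈ Finset.Icc 2 N, am Y n ^ 2 * (n : ℝ) ^ (-(2 * σ)) ≤
      C ^ 2 * (Y : ℝ) ^ (-(σ - 1 / 2)) * (n : ℝ) ^ (-(σ / 2 + 3 / 4)) := by
    intro n hn
    have hn2 : 2 ≤ n := (Finset.mem_Icc.1 hn).1
    have hnp : (0 : ℝ) < n := by
      have : 0 < n := by omega
      exact_mod_cast this
    rcases le_or_gt n Y with h | h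
    · rw [am_zero Y n hn2 h]
      have : 0 ≤ C ^ 2 * (Y : ℝ) ^ (-(σ - 1 / 2)) * (n : ℝ) ^ (-(σ / 2 + 3 / 4)) := by
        positivity
      simpa using this
    · have h3 : am Y n ^ 2 ≤ C ^ 2 * (n : ℝ) ^ ((σ - 1 / 2) / 2) := by
        have h4 := (am_abs Y n (by omega)).trans (hd n (by omega))
        calc am Y n ^ 2 = |am Y n| ^ 2 := (sq_abs _).symm
          _ ≤ (C * (n : ℝ) ^ ((σ - 1 / 2) / 4)) ^ 2 :=
            pow_le_pow_left₀ (abs_nonneg _) h4 2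
          _ = _ := by
            rw [mul_pow, ← Real.rpow_natCast ((n : ℝ) ^ ((σ - 1 / 2) / 4)),
              ← Real.rpow_mul hnp.le]
            congr 2
            push_cast
            ring
      have h5 : (n : ℝ) ^ (-(σ - 1 / 2)) ≤ (Y : ℝ) ^ (-(σ - 1 / 2)) :=
        Real.rpow_le_rpow_of_nonpos hYp (by exact_mod_cast h.le) (by linarith)
      calc am Y n ^ 2 * (n : ℝ) ^ (-(2 * σ))
          ≤ C ^ 2 * (n : ℝ) ^ ((σ - 1 / 2) / 2) * (n : ℝ) ^ (-(2 * σ)) := by gcongr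
        _ = C ^ 2 * (n : ℝ) ^ (-(σ - 1 / 2)) * (n : ℝ) ^ (-(σ / 2 + 3 / 4)) := by
            rw [mul_assoc, mul_assoc, ← Real.rpow_add hnp, ← Real.rpow_add hnp]
            congr 2
            ring
        _ ≤ _ := by gcongr
  calc ∑ n ∈ Finset.Icc 2 N, am Y n ^ 2 * (n : ℝ) ^ (-(2 * σ))
      ≤ ∑ n ∈ Finset.Icc 2 N,
        C ^ 2 * (Y : ℝ) ^ (-(σ - 1 / 2)) * (n : ℝ) ^ (-(σ / 2 + 3 / 4)) :=
        Finset.sum_le_sum key
    _ = C ^ 2 * (Y : ℝ) ^ (-(σ - 1 / 2)) *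
        ∑ n ∈ Finset.Icc 2 N, (n : ℝ) ^ (-(σ / 2 + 3 / 4)) := by rw [Finset.mul_sum]
    _ ≤ C ^ 2 * (Y : ℝ) ^ (-(σ - 1 / 2)) * ∑' n : ℕ, (n : ℝ) ^ (-(σ / 2 + 3 / 4)) := by
        gcongr
        exact hs.sum_le_tsum _ (fun n _ => by positivity)
    _ = _ := by ring

end Pool.Agent.DBC
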