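import Pool.Agent.DBC.Targets4

/-!
# DBC, target `Y_BD`: the pointwise bound on a set of heights
-/

set_option autoImplicit false

namespace Pool.Agent.DBC

open Complex MeasureTheory Set Filter Topology
open Pool.Agent.DBN

namespace BD4_

theorem log_ge {T : ℝ} (hT : 2 ≤ T) : 1 / 2 ≤ Real.log T := by
  have h1 : Real.log 2 ≤ Real.log T := Real.log_le_log (by norm_num) hT
  have h2 := Real.log_two_gt_d9
  linarith

theorem size_nonneg' {T : ℝ} (hT : 2 ≤ T) : 0 ≤ size T := by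
  unfold size
  have : 0 ≤ T := by linarith
  positivity

end BD4_

open BD4_ in
theorem s_BD : Y_BD := by
  intro G l κ₀ g₀ K hxl hκ hg hK
  obtain ⟨κ', hκ'⟩ : ∃ κ', κ' = min (κ₀ / 4) (g₀ / (12 * K ^ 2 + 12)) := ⟨_, rfl⟩
  have hκ0 : 0 < κ' := by
    rw [hκ']
    exact lt_min (by positivity) (by positivity)
  have hκ1 : κ' ≤ κ₀ / 4 := by
    rw [hκ']
    exact min_le_left _ _
  have hκ2 : κ' * (3 * K ^ 2) ≤ g₀ / 4 := by
    have h1 : κ' ≤ g₀ / (12 * K ^ 2 + 12) := by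
      rw [hκ']
      exact min_le_right _ _
    calc κ' * (3 * K ^ 2) ≤ g₀ / (12 * K ^ 2 + 12) * (3 * K ^ 2) := by gcongr
      _ ≤ g₀ / (12 * K ^ 2 + 12) * (3 * K ^ 2 + 3) := by
          gcongr
          linarith
      _ = g₀ / 4 := by
          field_simp
          ring
  obtain ⟨C, T₀, hC, hT₀, h⟩ := hxl (g₀ / 4) κ' K (by positivity) hκ0 hK
  refine ⟨C, T₀, hC, hT₀, ?_⟩
  intro t T y τ u B hTG hTT ht hy hτ hm
  have hT : 2 ≤ T := hT₀.trans hTT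
  have hL := log_ge hT
  have hT0 : 0 < T := by linarith
  obtain ⟨w, hw⟩ : ∃ w : ℂ, w = ((y + u : ℝ) : ℂ) + ((τ - T : ℝ) : ℂ) * I := ⟨_, rfl⟩
  have e1 : pt y τ + u = 1 / 2 + T * I + w := by
    rw [hw, pt]
    push_cast
    ring
  have e2 : w.re = y + u := by
    rw [hw]
    simp
  have e3 : ‖w‖ ^ 2 ≤ 2 * u ^ 2 + 3 * K ^ 2 := by
    have e4 : ‖w‖ ^ 2 = (y + u) ^ 2 + (τ - T) ^ 2 := by
      rw [Complex.sq_norm, Complex.normSq_apply, hw]
      simp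
      ring
    have e5 : y ^ 2 ≤ K ^ 2 := by
      rw [← sq_abs y]
      gcongr
    have e6 : (τ - T) ^ 2 ≤ K ^ 2 := by
      rw [← sq_abs (τ - T)]
      gcongr
    rw [e4]
    nlinarith [sq_nonneg (y - u)]
  have e7 : w.im = τ - T := by
    rw [hw]
    simp
  have h1 := h T w hTG hTT (by rw [e7]; exact hτ)
  rw [← e1, e2] at h1
  have h2 : u ^ 2 / t = Real.log T * (u ^ 2 / (t * Real.log T)) := by
    have : Real.log T ≠ 0 := by linarith
    field_simp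
  have h3 : Real.log T * (mm l (y + u) + g₀ / 4) - u ^ 2 / t + κ' * ‖w‖ ^ 2 * Real.log T ≤
      Real.log T * (B - g₀ / 2) - κ₀ / 4 * u ^ 2 := by
    have h4 : κ' * ‖w‖ ^ 2 ≤ κ₀ / 2 * u ^ 2 + g₀ / 4 := by
      calc κ' * ‖w‖ ^ 2 ≤ κ' * (2 * u ^ 2 + 3 * K ^ 2) := by gcongr
        _ = κ' * (2 * u ^ 2) + κ' * (3 * K ^ 2) := by ring
        _ ≤ κ₀ / 4 * (2 * u ^ 2) + g₀ / 4 := by gcongr
        _ = κ₀ / 2 * u ^ 2 + g₀ / 4 := by ring
    have h5 : mm l (y + u) + g₀ / 4 - u ^ 2 / (t * Real.log T) + κ' * ‖w‖ ^ 2 ≤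
        B - g₀ / 2 - κ₀ / 2 * u ^ 2 := by linarith
    have h6 : Real.log T * (mm l (y + u) + g₀ / 4 - u ^ 2 / (t * Real.log T) + κ' * ‖w‖ ^ 2) ≤
        Real.log T * (B - g₀ / 2 - κ₀ / 2 * u ^ 2) :=
      mul_le_mul_of_nonneg_left h5 (by linarith)
    have h7 : κ₀ / 4 * u ^ 2 ≤ Real.log T * (κ₀ / 2 * u ^ 2) := by
      have : 0 ≤ κ₀ / 2 * u ^ 2 := by positivity
      nlinarith
    rw [h2]
    linarith
  calc Real.exp (-(u ^ 2 / t)) * ‖xi (pt y τ + u)‖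
      ≤ Real.exp (-(u ^ 2 / t)) * (C * size T * T ^ (mm l (y + u) + g₀ / 4) *
        Real.exp (κ' * ‖w‖ ^ 2 * Real.log T)) := by gcongr
    _ = C * size T * Real.exp (Real.log T * (mm l (y + u) + g₀ / 4) - u ^ 2 / t +
        κ' * ‖w‖ ^ 2 * Real.log T) := by
        rw [Real.rpow_def_of_pos hT0, Real.exp_add, Real.exp_sub, Real.exp_neg]
        ring
    _ ≤ C * size T * Real.exp (Real.log T * (B - g₀ / 2) - κ₀ / 4 * u ^ 2) := by
        have := size_nonneg' hT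
        gcongr
    _ = C * (size T * T ^ (B - g₀ / 2)) * Real.exp (-(κ₀ / 4) * u ^ 2) := by
        rw [Real.rpow_def_of_pos hT0, sub_eq_add_neg, Real.exp_add]
        ring_nf

end Pool.Agent.DBC
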