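import Pool.Agent.DBC.Targets5

/-!
# DBC4-CH: Chebyshev for window integrals
-/

set_option autoImplicit false

namespace Pool.Agent.DBC

open Complex MeasureTheory Set Filter Topology
open Pool.Agent.DBN
open scoped ENNReal

namespace CH4_

/-- the kernel of the window -/
noncomputable def g (φ : ℝ → ℝ≥0∞) (R : ℝ) (p : ℝ × ℝ) : ℝ≥0∞ :=
  {p : ℝ × ℝ | p.1 - R ≤ p.2 ∧ p.2 ≤ p.1 + R}.indicator (fun p => φ p.2) p

theorem g_meas (φ : ℝ → ℝ≥0∞) (hφ : Measurable φ) (R : ℝ) : Measurable (g φ R) := by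
  refine (hφ.comp measurable_snd).indicator ?_
  refine MeasurableSet.inter ?_ ?_
  · exact measurableSet_le (measurable_fst.sub_const R) measurable_snd
  · exact measurableSet_le measurable_snd (measurable_fst.add_const R)

theorem window (φ : ℝ → ℝ≥0∞) (R T : ℝ) :
    ∫⁻ u in Icc (T - R) (T + R), φ u = ∫⁻ u, g φ R (T, u) := by
  rw [← lintegral_indicator measurableSet_Icc]
  refine lintegral_congr fun u => ?_
  unfold g
  by_cases h : u ∈ Icc (T - R) (T + R)
  · rw [indicator_of_mem h, indicator_of_mem]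
    exact h
  · rw [indicator_of_notMem h, indicator_of_notMem]
    exact h

theorem fix_u (φ : ℝ → ℝ≥0∞) (R X u : ℝ) :
    ∫⁻ T in Icc X (2 * X), g φ R (T, u) ≤
      (Icc (X - R) (2 * X + R)).indicator (fun u => ENNReal.ofReal (2 * R) * φ u) u := by
  by_cases h : u ∈ Icc (X - R) (2 * X + R)
  · rw [indicator_of_mem h]
    calc ∫⁻ T in Icc X (2 * X), g φ R (T, u) ≤ ∫⁻ T, g φ R (T, u) :=
          setLIntegral_le_lintegral _ _
      _ ≤ ∫⁻ T, (Icc (u - R) (u + R)).indicator (fun _ => φ u) T := by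
          refine lintegral_mono fun T => ?_
          unfold g
          by_cases h1 : (T, u) ∈ {p : ℝ × ℝ | p.1 - R ≤ p.2 ∧ p.2 ≤ p.1 + R}
          · have h2 : T ∈ Icc (u - R) (u + R) := by
              obtain ⟨h3, h4⟩ := h1
              simp only at h3 h4
              exact ⟨by linarith, by linarith⟩
            rw [indicator_of_mem h1, indicator_of_mem h2]
          · rw [indicator_of_notMem h1]
            exact zero_le
      _ = ENNReal.ofReal (2 * R) * φ u := by
          rw [lintegral_indicator measurableSet_Icc, setLIntegral_const, Real.volume_Icc, mul_comm]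
          congr 2
          ring
  · rw [indicator_of_notMem h]
    refine le_of_eq ?_
    rw [← lintegral_indicator measurableSet_Icc]
    refine (lintegral_congr fun T => ?_).trans lintegral_zero
    by_cases h1 : T ∈ Icc X (2 * X)
    · rw [indicator_of_mem h1]
      unfold g
      rw [indicator_of_notMem]
      rintro ⟨h3, h4⟩
      simp only at h3 h4
      exact h ⟨by linarith [h1.1], by linarith [h1.2]⟩
    · rw [indicator_of_notMem h1]

end CH4_

open CH4_ in
theorem s_CH : Y_CH := by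
  intro φ hφ R lam X _ hlam
  have hg := g_meas φ hφ R
  have hF : Measurable (fun T : ℝ => ∫⁻ u, g φ R (T, u)) := hg.lintegral_prod_right'
  have h1 := mul_meas_ge_le_lintegral (μ := volume.restrict (Icc X (2 * X))) hF
    (ENNReal.ofReal lam)
  rw [Measure.restrict_apply' measurableSet_Icc] at h1
  have h2 : {T : ℝ | X ≤ T ∧ T ≤ 2 * X ∧
      ENNReal.ofReal lam ≤ ∫⁻ u in Icc (T - R) (T + R), φ u} =
      {T : ℝ | ENNReal.ofReal lam ≤ ∫⁻ u, g φ R (T, u)} ∩ Icc X (2 * X) := by
    ext T
    simp only [mem_ofPred_eq, mem_inter_iff, mem_Icc, window]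
    tauto
  rw [h2]
  have h3 : ∫⁻ T in Icc X (2 * X), ∫⁻ u, g φ R (T, u) ≤
      ENNReal.ofReal (2 * R) * ∫⁻ u in Icc (X - R) (2 * X + R), φ u := by
    rw [lintegral_lintegral_swap (f := fun T u => g φ R (T, u)) hg.aemeasurable]
    calc ∫⁻ u, ∫⁻ T in Icc X (2 * X), g φ R (T, u) ≤
        ∫⁻ u, (Icc (X - R) (2 * X + R)).indicator (fun u => ENNReal.ofReal (2 * R) * φ u) u :=
          lintegral_mono fun u => fix_u φ R X u
      _ = ENNReal.ofReal (2 * R) * ∫⁻ u in Icc (X - R) (2 * X + R), φ u := by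
          rw [lintegral_indicator measurableSet_Icc, lintegral_const_mul _ hφ]
  have h4 := h1.trans h3
  have hl : ENNReal.ofReal lam ≠ 0 := (ENNReal.ofReal_pos.mpr hlam).ne'
  rw [ENNReal.ofReal_div_of_pos hlam]
  have h5 : ENNReal.ofReal (2 * R) / ENNReal.ofReal lam *
      ∫⁻ u in Icc (X - R) (2 * X + R), φ u =
      (ENNReal.ofReal (2 * R) * ∫⁻ u in Icc (X - R) (2 * X + R), φ u) / ENNReal.ofReal lam := by
    rw [div_eq_mul_inv, div_eq_mul_inv]
    ring
  rw [h5, ENNReal.le_div_iff_mul_le (Or.inl hl) (Or.inl ENNReal.ofReal_ne_top), mul_comm]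
  exact h4

end Pool.Agent.DBC
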