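import Pool.Agent.DBC.Targets4

/-!
# DBC4, target CM: comparison of both sides on a set of heights (adapted from Q_CM2)
-/

set_option autoImplicit false

namespace Pool.Agent.DBC

open Complex MeasureTheory Set Filter Topology
open Pool.Agent.DBN

namespace CM4_

/-- the derivative of `pt` -/
theorem hasDerivAt_pt (x τ : ℝ) : HasDerivAt (fun y : ℝ => pt y τ) 1 x := by
  unfold pt
  have h1 : HasDerivAt (fun y : ℝ => (1 / 2 + y : ℝ)) 1 x := (hasDerivAt_id x).const_add _
  have h2 : HasDerivAt (fun y : ℝ => ((1 / 2 + y : ℝ) : ℂ)) ((1 : ℝ) : ℂ) x := h1.ofReal_comp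
  have h3 := h2.add_const ((τ : ℂ) * I)
  rwa [ofReal_one] at h3

/-- growth when the derivative is nearly a positive multiple of the function -/
theorem inner_pos {w w' : ℂ} {L : ℝ} (hL : 0 < L) (hw : w ≠ 0)
    (h : ‖w' - (L / 2 : ℝ) * w‖ ≤ 1 / 4 * L * ‖w‖) : 0 < inner ℝ w w' := by
  have h1 : inner ℝ w w' = L / 2 * ‖w‖ ^ 2 + inner ℝ w (w' - (L / 2 : ℝ) * w) := by
    have h2 : (L / 2 : ℝ) * w = (L / 2 : ℝ) • w := by rw [Complex.real_smul]
    rw [h2, inner_sub_right, real_inner_smul_right, real_inner_self_eq_norm_sq]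
    ring
  have h3 : |inner ℝ w (w' - (L / 2 : ℝ) * w)| ≤ ‖w‖ * (1 / 4 * L * ‖w‖) :=
    (abs_real_inner_le_norm _ _).trans (mul_le_mul_of_nonneg_left h (norm_nonneg _))
  have h4 := (abs_le.1 h3).1
  have h5 : 0 < ‖w‖ := norm_pos_iff.2 hw
  have h6 : 0 < L * ‖w‖ ^ 2 := by positivity
  rw [h1]
  nlinarith

end CM4_

open CM4_ in
theorem s_CM (h1 : T_DER) (h2 : Y_GD) (h3 : Y_OB) : Y_CM := by
  intro G l c₁ c₂ K hyp
  obtain ⟨δ, hδ, hL⟩ := h2 G l c₁ c₂ K hyp
  obtain ⟨T₁, hT₁, H1⟩ := hL (1 / 4) (by norm_num)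
  obtain ⟨g, C, hg, hC, T₂, hT₂, H2⟩ := h3 G l c₁ c₂ K δ hyp hδ
  obtain ⟨T₃, hT₃, H3⟩ := hL (g / 2) (by linarith)
  have hlim : Tendsto (fun T : ℝ => T ^ (g / 2)) atTop atTop := tendsto_rpow_atTop (by linarith)
  obtain ⟨T₄, hT₄⟩ := (hlim.eventually_gt_atTop (2 * C)).exists_forall_of_atTop
  refine ⟨max (max T₁ T₂) (max T₃ T₄), ?_, ?_⟩
  · exact hT₁.trans (le_max_of_le_left (le_max_left _ _))
  intro t T x τ hG hT hc1 hc2 hx hxK hτ
  have hTa : T₁ ≤ T := (le_max_of_le_left (le_max_left _ _)).trans hT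
  have hTb : T₂ ≤ T := (le_max_of_le_left (le_max_right _ _)).trans hT
  have hTc : T₃ ≤ T := (le_max_of_le_right (le_max_left _ _)).trans hT
  have hTd : T₄ ≤ T := (le_max_of_le_right (le_max_right _ _)).trans hT
  have hT2 : 2 ≤ T := hT₁.trans hTa
  have hLpos : 0 < Real.log T := Real.log_pos (by linarith)
  have ht : 0 < t := by
    by_contra h
    have : t * Real.log T ≤ 0 := mul_nonpos_of_nonpos_of_nonneg (not_lt.1 h) hLpos.le
    linarith [hyp.l0, hyp.lc]
  by_cases hxd : x ≤ δ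
  · -- close to the critical line
    have hw : ∀ y : ℝ, HasDerivAt (fun y : ℝ => W t (pt y τ)) (deriv (W t) (pt y τ)) y := by
      intro y
      have e1 : HasDerivAt (W t) (deriv (W t) (pt y τ)) (pt y τ) :=
        (h1 t (pt y τ) ht).differentiableAt.hasDerivAt
      have e2 := e1.scomp y (hasDerivAt_pt y τ)
      rw [one_smul] at e2
      exact e2
    have hn : ∀ y : ℝ, HasDerivAt (fun y : ℝ => ‖W t (pt y τ)‖ ^ 2)
        (2 * inner ℝ (W t (pt y τ)) (deriv (W t) (pt y τ))) y := fun y => (hw y).norm_sq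
    have hmono : StrictMonoOn (fun y : ℝ => ‖W t (pt y τ)‖ ^ 2) (Icc (-x) x) := by
      refine strictMonoOn_of_deriv_pos (convex_Icc _ _)
        (fun y _ => (hn y).continuousAt.continuousWithinAt) ?_
      intro y hy
      rw [interior_Icc] at hy
      rw [(hn y).deriv]
      obtain ⟨e1, e2, -⟩ := H1 t T y τ hG hTa hc1 hc2 (by linarith [hy.1]) (by linarith [hy.2]) hτ
      have := inner_pos hLpos e1 e2
      linarith
    have hlt := hmono (left_mem_Icc.2 (by linarith)) (right_mem_Icc.2 (by linarith))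
      (show -x < x by linarith)
    exact lt_of_pow_lt_pow_left₀ 2 (norm_nonneg _) hlt
  · -- far from the critical line
    have e1 := H2 t T x τ hG hTb hc1 hc2 (not_le.1 hxd).le hxK hτ
    obtain ⟨-, -, e3⟩ := H3 t T x τ hG hTc hc1 hc2 (by linarith) hxK hτ
    have hT0 : 0 < T := by linarith
    have hsz : 0 < size T := by unfold size; positivity
    set E : ℝ := t * Real.log T / 16 + x / 2 with hE
    have f4 : 2 * C < T ^ (g / 2) := hT₄ T hTd
    have f5 : T ^ (E - g / 2) = T ^ (E - g) * T ^ (g / 2) := by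
      rw [← Real.rpow_add hT0]
      congr 1
      ring
    have f7 : 0 < T ^ (E - g) := Real.rpow_pos_of_pos hT0 _
    have f9 : 0 < size T * T ^ (E - g) := mul_pos hsz f7
    have f8 : C * (size T * T ^ (E - g)) < size T * T ^ (E - g / 2) := by
      rw [f5]
      have : (size T * T ^ (E - g)) * (2 * C) < (size T * T ^ (E - g)) * T ^ (g / 2) :=
        mul_lt_mul_of_pos_left f4 f9
      nlinarith [mul_nonneg hC f9.le]
    linarith

end Pool.Agent.DBC
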