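import Pool.Agent.DBC.Targets5

/-!
# Real zeros of the flow at almost all heights: the diagonal argument
-/

set_option autoImplicit false

namespace Pool.Agent.DBC

open Complex MeasureTheory Set Filter Topology
open Pool.Agent.DBN

namespace DG4_

theorem upz_mono {ε ε' R R' T : ℝ} (hε : ε ≤ ε') (hR : R' ≤ R) (hT : 1 ≤ T) (h : UpZ ε R T) :
    UpZ ε' R' T := fun s h1 h2 h3 =>
  (h s h1 (h2.trans hR) (h3.trans hR)).trans (Real.rpow_le_rpow_of_exponent_le hT hε)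

theorem loz_mono {η ε ε' R R' T : ℝ} (hε : ε ≤ ε') (hR : R' ≤ R) (hT : 1 ≤ T)
    (h : LoZ η ε R T) : LoZ η ε' R' T := fun s h1 h2 h3 =>
  (Real.rpow_le_rpow_of_exponent_le hT (neg_le_neg hε)).trans
    (h s h1 (h2.trans hR) (h3.trans hR))

theorem key {η : ℝ} {T : ℕ → ℝ} (hT : ∀ n : ℕ, T n ∈ Gd η n) (ε R : ℝ) (hε : 0 < ε) :
    ∃ T₀ : ℝ, ∀ S : ℝ, S ∈ range T → T₀ ≤ S → UpZ ε R S ∧ LoZ η ε R S := by
  obtain ⟨N₁, hN₁⟩ := exists_nat_one_div_lt hε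
  obtain ⟨N₂, hN₂⟩ := exists_nat_ge R
  set N := max N₁ N₂ with hN
  refine ⟨1 + ∑ n ∈ Finset.range (N + 1), |T n|, ?_⟩
  rintro S ⟨n, rfl⟩ hS
  have hpos : 0 ≤ ∑ n ∈ Finset.range (N + 1), |T n| :=
    Finset.sum_nonneg fun _ _ => abs_nonneg _
  have h1 : 1 ≤ T n := by linarith
  have hn : N < n := by
    by_contra hc
    have hmem : n ∈ Finset.range (N + 1) := Finset.mem_range.mpr (by omega)
    have h2 : |T n| ≤ ∑ n ∈ Finset.range (N + 1), |T n| :=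
      Finset.single_le_sum (f := fun n => |T n|) (fun _ _ => abs_nonneg _) hmem
    have h3 := le_abs_self (T n)
    linarith
  have hN1 : (N₁ : ℝ) ≤ n := by
    exact_mod_cast ((le_max_left N₁ N₂).trans hn.le)
  have hN2 : (N₂ : ℝ) ≤ n := by
    exact_mod_cast ((le_max_right N₁ N₂).trans hn.le)
  have he : 1 / ((n : ℝ) + 1) ≤ ε := by
    refine le_trans ?_ hN₁.le
    exact one_div_le_one_div_of_le (by positivity) (by linarith)
  have hR : R ≤ (n : ℝ) + 1 := by linarith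
  obtain ⟨hu, hl⟩ := hT n
  exact ⟨upz_mono he hR h1 hu, loz_mono he hR h1 hl⟩

end DG4_

theorem s_DG (h1 : Y_HT) (h2 : Y_XU) (h3 : Y_XL) : Y_DG := by
  intro c₁ c₂ K ε hc hcc hK hε
  by_contra hcon
  push Not at hcon
  have hex : ∀ n : ℕ, ∃ T t : ℝ, T ∈ Gd (c₁ / 8) n ∧ (n : ℝ) ≤ T ∧ c₁ ≤ t * Real.log T ∧
      t * Real.log T ≤ c₂ ∧ ¬ CrysAt K ε t T := by
    intro n
    obtain ⟨t, T, ha, hb, hd, he, hf⟩ := hcon n n
    exact ⟨T, t, ha, hb, hd, he, hf⟩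
  choose T t hG hn hlo hup hno using hex
  have hl : 0 < c₁ / 2 := by positivity
  have hup' : ∀ ε R : ℝ, 0 < ε → 0 < R → ∃ T₀ : ℝ, ∀ S : ℝ, S ∈ range T → T₀ ≤ S →
      UpZ ε R S := by
    intro ε R hε _
    obtain ⟨T₀, h⟩ := DG4_.key hG ε R hε
    exact ⟨T₀, fun S hS hT => (h S hS hT).1⟩
  have hlo' : ∀ ε R : ℝ, 0 < ε → 0 < R → ∃ T₀ : ℝ, ∀ S : ℝ, S ∈ range T → T₀ ≤ S →
      LoZ (c₁ / 2 / 4) ε R S := by
    intro ε R hε _
    obtain ⟨T₀, h⟩ := DG4_.key hG ε R hε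
    refine ⟨T₀, fun S hS hT => ?_⟩
    have h' := (h S hS hT).2
    rwa [show c₁ / 2 / 4 = c₁ / 8 by ring]
  obtain ⟨T₀, -, h⟩ := h1 (range T) (c₁ / 2) c₁ c₂ hl (by linarith) hcc
    (h2 _ _ hl hup') (h3 _ _ hl hup' hlo') K ε hK hε
  obtain ⟨n, hnn⟩ := exists_nat_ge T₀
  exact hno n (h (t n) (T n) ⟨n, rfl⟩ (hnn.trans (hn n)) (hlo n) (hup n))

end Pool.Agent.DBC
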