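import Pool.Agent.DBC.Targets4
import Pool.Agent.DBC.Q_GD2

/-!
# The logarithmic derivative of `W` at the heights in a set `G`
-/

set_option autoImplicit false

namespace Pool.Agent.DBC

open Complex MeasureTheory Set Filter Topology
open Pool.Agent.DBN

theorem s_GD (h1 : U_BCL) (h2 : T_DER) (h3 : Y_UP) (h4 : Y_LO) : Y_GD := by
  intro G l c₁ c₂ K h
  have hK1 : HypG G l c₁ c₂ (K + 1) :=
    ⟨h.l0, h.lc, h.cc, by linarith [h.K0], h.xl, h.xb⟩
  obtain ⟨δ₁, hδ₁, hU⟩ := h3 G l c₁ c₂ (K + 1) hK1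
  obtain ⟨δ₂, hδ₂, hLo⟩ := h4 G l c₁ c₂ (K + 1) hK1
  set δ := min (min δ₁ δ₂ / 2) 1 with hδdef
  have hδ0 : 0 < δ := lt_min (by have := lt_min hδ₁ hδ₂; linarith) one_pos
  have hδa : δ ≤ δ₁ / 2 := (min_le_left _ _).trans (by have := min_le_left δ₁ δ₂; linarith)
  have hδb : δ ≤ δ₂ / 2 := (min_le_left _ _).trans (by have := min_le_right δ₁ δ₂; linarith)
  have hδc : δ ≤ 1 := min_le_right _ _
  refine ⟨δ, hδ0, fun ε hε => ?_⟩
  set e := min ε (ε * δ / 8) with he
  have he0 : 0 < e := lt_min hε (by positivity)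
  have he1 : e ≤ ε := min_le_left _ _
  have he2 : e ≤ ε * δ / 8 := min_le_right _ _
  obtain ⟨T₁, hT₁, hE1⟩ := hU e he0
  obtain ⟨T₂, hT₂, hE2⟩ := hLo e he0
  refine ⟨max (max T₁ T₂) 3, le_max_of_le_left (le_max_of_le_left hT₁),
    fun t T x τ hG hT hc1 hc2 hx1 hx2 hτ => ?_⟩
  have hTa : T₁ ≤ T := ((le_max_left _ _).trans (le_max_left _ _)).trans hT
  have hTb : T₂ ≤ T := ((le_max_right _ _).trans (le_max_left _ _)).trans hT
  have hT3 : 3 ≤ T := (le_max_right _ _).trans hT
  have hT0 : 0 < T := by linarith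
  have hL : 1 ≤ Real.log T := by
    rw [Real.le_log_iff_exp_le (by linarith)]
    have := Real.exp_one_lt_d9
    linarith
  have hL0 : 0 < Real.log T := by linarith
  have ht : 0 < t := by
    have h5 : 0 < t * Real.log T := by linarith [h.lc, h.l0]
    exact (mul_pos_iff_of_pos_right hL0).mp h5
  have hsz : 0 < size T := by unfold size; positivity
  have hlow : size T * T ^ (t * Real.log T / 16 + x / 2 - e) ≤ ‖W t (pt x τ)‖ :=
    hE2 t T x τ hG hTb hc1 hc2 (by linarith) (by linarith) (by linarith)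
  have hWpos : 0 < ‖W t (pt x τ)‖ :=
    lt_of_lt_of_le (mul_pos hsz (Real.rpow_pos_of_pos hT0 _)) hlow
  have hdW : Differentiable ℂ (W t) := fun s => (h2 t s ht).differentiableAt
  have hball : ∀ v ∈ Metric.ball (0 : ℂ) δ, W t (pt x τ + v) ≠ 0 ∧
      ‖W t (pt x τ + v)‖ ≤ Real.exp (v.re * (Real.log T / 2)) *
        (Real.exp (2 * e * Real.log T) * ‖W t (pt x τ)‖) := by
    intro v hv
    rw [mem_ball_zero_iff] at hv
    have hre : |v.re| < δ := (Complex.abs_re_le_norm v).trans_lt hv
    have him : |v.im| < δ := (Complex.abs_im_le_norm v).trans_lt hv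
    obtain ⟨hr1, hr2⟩ := abs_lt.1 hre
    have hτ' : |τ + v.im - T| ≤ K + 1 := by
      have : τ + v.im - T = (τ - T) + v.im := by ring
      rw [this]
      exact (abs_add_le _ _).trans (by linarith)
    rw [GD22_.pt_add]
    have hlo := hE2 t T (x + v.re) (τ + v.im) hG hTb hc1 hc2 (by linarith) (by linarith) hτ'
    have hup := hE1 t T (x + v.re) (τ + v.im) hG hTa hc1 hc2 (by linarith) (by linarith) hτ'
    beta_reduce at hlo hup
    refine ⟨?_, ?_⟩
    · intro h0
      rw [h0, norm_zero] at hlo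
      have := mul_pos hsz (Real.rpow_pos_of_pos hT0
        (t * Real.log T / 16 + (x + v.re) / 2 - e))
      linarith
    · have hsplit := GD22_.rpow_split T (t * Real.log T / 16 + x / 2) v.re e hT0
      have hex : t * Real.log T / 16 + (x + v.re) / 2 + e =
          t * Real.log T / 16 + x / 2 + v.re / 2 + e := by ring
      rw [hex, hsplit] at hup
      refine hup.trans ?_
      calc size T * (Real.exp (v.re * (Real.log T / 2)) * (Real.exp (2 * e * Real.log T) *
            T ^ (t * Real.log T / 16 + x / 2 - e))) =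
            Real.exp (v.re * (Real.log T / 2)) * (Real.exp (2 * e * Real.log T) *
            (size T * T ^ (t * Real.log T / 16 + x / 2 - e))) := by ring
        _ ≤ _ := by
            refine mul_le_mul_of_nonneg_left ?_ (Real.exp_pos _).le
            exact mul_le_mul_of_nonneg_left hlow (Real.exp_pos _).le
  have hmain := GD22_.logd h1 (W t) (pt x τ) (Real.log T) δ (2 * e * Real.log T) hδ0
    (by positivity) hdW hball
  refine ⟨norm_pos_iff.1 hWpos, ?_, ?_⟩
  · refine hmain.trans ?_
    refine mul_le_mul_of_nonneg_right ?_ hWpos.le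
    rw [div_le_iff₀ hδ0]
    have h8 : 8 * e ≤ ε * δ := by linarith
    nlinarith
  · refine le_trans ?_ hlow
    refine mul_le_mul_of_nonneg_left ?_ hsz.le
    exact Real.rpow_le_rpow_of_exponent_le (by linarith) (by linarith)

end Pool.Agent.DBC
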