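import Pool.Agent.DBC.Targets5
import Pool.Agent.Lib.ZetaCrude

/-!
# Real zeros of the flow at almost all heights: L1, the pointwise lower bound for `ζ`
-/

set_option autoImplicit false

namespace Pool.Agent.DBC

open Complex MeasureTheory Set Filter Topology
open Pool.Agent.DBN
open scoped ENNReal

namespace L14_

/-- the function `ζ Mo Y - 1` -/
noncomputable def F (Y : ℕ) (s : ℂ) : ℂ := riemannZeta s * Mo Y s - 1

theorem Mo_diff (Y : ℕ) (s : ℂ) : DifferentiableAt ℂ (Mo Y) s := by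
  unfold Mo
  refine DifferentiableAt.fun_sum fun n hn => ?_
  have hn1 : (n : ℂ) ≠ 0 := by
    have := (Finset.mem_Icc.1 hn).1
    exact_mod_cast (show n ≠ 0 by omega)
  exact (differentiableAt_const _).mul
    ((differentiableAt_id.neg).const_cpow (Or.inl hn1))

theorem Mo_le (Y : ℕ) (s : ℂ) (hs : 0 ≤ s.re) : ‖Mo Y s‖ ≤ Y := by
  unfold Mo
  have h1 : ∀ n ∈ Finset.Icc 1 Y,
      ‖((ArithmeticFunction.moebius n : ℤ) : ℂ) * (n : ℂ) ^ (-s)‖ ≤ 1 := by
    intro n hn
    have hn1 := (Finset.mem_Icc.1 hn).1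
    rw [norm_mul]
    have h2 : ‖((ArithmeticFunction.moebius n : ℤ) : ℂ)‖ ≤ 1 := by
      rw [Complex.norm_intCast]
      exact_mod_cast ArithmeticFunction.abs_moebius_le_one
    have h3 : ‖(n : ℂ) ^ (-s)‖ ≤ 1 := by
      rw [Complex.norm_natCast_cpow_of_pos (by omega)]
      have h4 : (1 : ℝ) ≤ n := by exact_mod_cast hn1
      exact Real.rpow_le_one_of_one_le_of_nonpos h4 (by simpa using hs)
    calc _ ≤ (1 : ℝ) * 1 := mul_le_mul h2 h3 (norm_nonneg _) (by norm_num)
      _ = 1 := one_mul 1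
  refine (norm_sum_le _ _).trans ((Finset.sum_le_sum h1).trans ?_)
  simp

theorem F_diff (Y : ℕ) (s : ℂ) (hs : s ≠ 1) : DifferentiableAt ℂ (F Y) s := by
  unfold F
  exact ((differentiableAt_riemannZeta hs).mul (Mo_diff Y s)).sub (differentiableAt_const _)

theorem F_line (Y : ℕ) (a : ℝ) (ha : a ≠ 1) :
    Continuous fun u : ℝ => F Y ((a : ℂ) + u * I) := by
  rw [continuous_iff_continuousAt]
  intro u
  have h1 : ((a : ℂ) + u * I) ≠ 1 := by
    intro h
    apply ha
    have := congrArg Complex.re h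
    simpa using this
  exact ContinuousAt.comp (f := fun u : ℝ => (a : ℂ) + u * I) (F_diff Y _ h1).continuousAt
    (by fun_prop)

/-- the integral over a short interval is bounded by the one over a longer interval -/
theorem int_le (Y : ℕ) (a : ℝ) (ha : a ≠ 1) (T τ L R E : ℝ) (hL : 0 ≤ L) (hE : 0 ≤ E)
    (hτ : |τ - T| ≤ R)
    (h : ∫⁻ u in Icc (T - (R + L)) (T + (R + L)), ‖riemannZeta ((a : ℂ) + u * I) *
      Mo Y ((a : ℂ) + u * I) - 1‖ₑ ^ 2 ≤ ENNReal.ofReal E) :
    ∫ t in (-L)..L, ‖F Y ((a : ℂ) + t * I + τ * I)‖ ^ 2 ≤ E := by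
  have hc := F_line Y a ha
  have h1 : ∀ t : ℝ, ‖F Y ((a : ℂ) + t * I + τ * I)‖ ^ 2 =
      (fun u : ℝ => ‖F Y ((a : ℂ) + u * I)‖ ^ 2) (t + τ) := by
    intro t
    simp only
    congr 3
    push_cast
    ring
  rw [intervalIntegral.integral_congr (g := fun t => (fun u : ℝ => ‖F Y ((a : ℂ) + u * I)‖ ^ 2)
    (t + τ)) (fun t _ => h1 t)]
  rw [intervalIntegral.integral_comp_add_right (fun u : ℝ => ‖F Y ((a : ℂ) + u * I)‖ ^ 2) τ]
  rw [← ENNReal.ofReal_le_ofReal_iff hE]
  refine le_trans ?_ h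
  rw [intervalIntegral.integral_of_le (by linarith),
    ofReal_integral_eq_lintegral_ofReal (by
      have : Continuous fun u : ℝ => ‖F Y ((a : ℂ) + u * I)‖ ^ 2 := by fun_prop
      exact (this.integrableOn_Icc (a := -L + τ) (b := L + τ)).mono_set Ioc_subset_Icc_self)
      (Filter.Eventually.of_forall fun u => by positivity)]
  have hsub : Ioc (-L + τ) (L + τ) ⊆ Icc (T - (R + L)) (T + (R + L)) := by
    intro u hu
    rw [abs_le] at hτ
    exact ⟨by linarith [hu.1, hτ.1], by linarith [hu.2, hτ.2]⟩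
  refine le_trans (le_of_eq ?_) (lintegral_mono_set hsub)
  refine lintegral_congr fun u => ?_
  rw [ENNReal.ofReal_pow (norm_nonneg _), ofReal_norm]
  rfl

theorem thr (C K R η ε δ : ℝ) (hε : 0 < ε) (hδ : 0 < δ) :
    ∃ T₀ : ℝ, ∀ T : ℝ, T₀ ≤ T → 2 ≤ T ∧ 2 + 2 * K + R ≤ T ∧ 2 * C + 1 ≤ T ∧
      2 * (1 + 2 / η) * T ^ (-(3 * δ / 4)) ≤ 1 / 4 ∧ 2 ≤ T ^ (ε / 2) := by
  have h1 : Tendsto (fun T : ℝ => 2 * (1 + 2 / η) * T ^ (-(3 * δ / 4))) atTop (𝓝 0) := by
    have := (tendsto_rpow_neg_atTop (show 0 < 3 * δ / 4 by positivity)).const_mul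
      (2 * (1 + 2 / η))
    simpa using this
  have h2 : Tendsto (fun T : ℝ => T ^ (ε / 2)) atTop atTop := tendsto_rpow_atTop (by positivity)
  have h3 := (((eventually_ge_atTop (2 : ℝ)).and ((eventually_ge_atTop (2 + 2 * K + R)).and
    ((eventually_ge_atTop (2 * C + 1)).and ((h1.eventually_le_const
      (show (0 : ℝ) < 1 / 4 by norm_num)).and (h2.eventually_ge_atTop 2))))))
  exact Filter.eventually_atTop.1 h3

end L14_

open L14_ in
theorem s_L1 (h1 : Y_SM) : Y_L1 := by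
  intro η ε δ R hη hη2 hε hε1 hδ hδ1 hR
  obtain ⟨L, K, hL1, hLK, hRK, hSM⟩ := h1 (δ / 16) R (by positivity) (by linarith) hR
  obtain ⟨C, hC1, hC⟩ := Pool.Agent.Lib.ZetaCrude.norm_zeta_le_crude
  obtain ⟨T₀, hT₀⟩ := thr C K R η ε δ hε hδ
  refine ⟨R + L, T₀, by linarith, fun T hT Y hY1 hYT hint => ?_⟩
  obtain ⟨hT2, hTK, hTC, hTδ, hTε⟩ := hT₀ T hT
  intro s hs1 hs2 hs3
  have hTpos : 0 < T := by linarith
  set a : ℝ := 1 / 2 + η / 2 with ha
  have ha1 : a ≠ 1 := by
    rw [ha]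
    intro h
    linarith
  have hYT1 : (Y : ℝ) ≤ T := by
    refine hYT.trans ?_
    calc T ^ (ε / 2) ≤ T ^ (1 : ℝ) :=
          Real.rpow_le_rpow_of_exponent_le (by linarith) (by linarith)
      _ = T := Real.rpow_one T
  set τ := s.im with hτ
  have hτ1 := abs_le.1 hs3
  -- the bound for `f`
  have hf : ∀ z : ℂ, 0 ≤ z.re → z.re ≤ K → |z.im| ≤ K →
      DifferentiableAt ℂ (fun z : ℂ => F Y ((a : ℂ) + z + τ * I)) z ∧
      ‖F Y ((a : ℂ) + z + τ * I)‖ ≤ T ^ 3 := by
    intro z hz1 hz2 hz3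
    have hz4 := abs_le.1 hz3
    set w : ℂ := (a : ℂ) + z + τ * I with hw
    have hwre : w.re = a + z.re := by simp [hw]
    have hwim : w.im = z.im + τ := by simp [hw]
    have him1 : 1 ≤ w.im := by
      rw [hwim]
      linarith
    have hw1 : w ≠ 1 := by
      intro h
      rw [h] at him1
      simp at him1
      linarith
    refine ⟨?_, ?_⟩
    · have h2 := F_diff Y w hw1
      exact DifferentiableAt.comp (f := fun z : ℂ => (a : ℂ) + z + τ * I) z h2 (by fun_prop)
    · have h2 : 1 ≤ ‖w - 1‖ := by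
        have h3 := Complex.abs_im_le_norm (w - 1)
        have h4 : (w - 1).im = w.im := by simp
        rw [h4, abs_of_pos (by linarith)] at h3
        linarith
      have h3 : ‖w‖ ≤ 1 + K + (T + R + K) := by
        refine (Complex.norm_le_abs_re_add_abs_im w).trans (add_le_add ?_ ?_)
        · rw [hwre, abs_of_nonneg (by linarith)]
          linarith
        · rw [abs_of_pos (by linarith), hwim]
          linarith
      have h4 := hC w (by rw [hwre]; linarith) h2
      have h5 : ‖riemannZeta w‖ ≤ 2 * C * T := by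
        refine h4.trans ?_
        have h6 : 1 + ‖w‖ ≤ 2 * T := by linarith
        calc C * (1 + ‖w‖) ≤ C * (2 * T) := mul_le_mul_of_nonneg_left h6 (by linarith)
          _ = 2 * C * T := by ring
      have h6 : ‖Mo Y w‖ ≤ T := (Mo_le Y w (by rw [hwre]; linarith)).trans hYT1
      have h7 : ‖F Y w‖ ≤ 2 * C * T * T + 1 := by
        unfold F
        refine (norm_sub_le _ _).trans ?_
        rw [norm_mul, norm_one]
        have := mul_le_mul h5 h6 (norm_nonneg _) (by positivity)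
        linarith
      refine h7.trans ?_
      have h8 : (2 * C + 1) * (T * T) ≤ T * (T * T) :=
        mul_le_mul_of_nonneg_right hTC (by positivity)
      have h9 : 1 ≤ T * T := by nlinarith
      nlinarith
  have hcont : Continuous fun t : ℝ => F Y ((a : ℂ) + t * I + τ * I) := by
    have h2 : Continuous fun t : ℝ => F Y ((a : ℂ) + ((t + τ : ℝ) : ℂ) * I) :=
      (F_line Y a ha1).comp (continuous_id.add continuous_const)
    refine h2.congr fun t => ?_
    congr 1
    push_cast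
    ring
  have hP : T ^ (-δ) < T ^ 3 := by
    have h2 : T ^ (-δ) ≤ 1 := Real.rpow_le_one_of_one_le_of_nonpos (by linarith) (by linarith)
    have h3 : 1 < T ^ 3 := one_lt_pow₀ (by linarith) (by norm_num)
    linarith
  have hmain := hSM (fun z : ℂ => F Y ((a : ℂ) + z + τ * I)) (T ^ 3) (T ^ (-δ))
    (by positivity) hP hcont hf (s.re - a) (by rw [ha]; linarith) (by rw [ha]; linarith)
  have hI := int_le Y a ha1 T τ L R (T ^ (-δ)) (by linarith) (by positivity) hs3 hint
  have hseq : (a : ℂ) + ((s.re - a : ℝ) : ℂ) + τ * I = s := by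
    apply Complex.ext
    · simp
    · simp [hτ]
  rw [hseq] at hmain
  have hx : η / 2 ≤ s.re - a := by
    rw [ha]
    linarith
  have hinv : 1 / (s.re - a) ≤ 2 / η := by
    rw [div_le_div_iff₀ (by linarith) hη]
    linarith
  have hI0 : 0 ≤ ∫ t in (-L)..L, ‖F Y ((a : ℂ) + t * I + τ * I)‖ ^ 2 :=
    intervalIntegral.integral_nonneg (by linarith) fun t _ => by positivity
  have hpw : (T ^ 3 / T ^ (-δ)) ^ (δ / 16) ≤ T ^ (δ / 4) := by
    have h2 : T ^ 3 / T ^ (-δ) = T ^ (3 + δ) := by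
      rw [← Real.rpow_natCast, ← Real.rpow_sub hTpos]
      congr 1
      push_cast
      ring
    rw [h2, ← Real.rpow_mul hTpos.le]
    apply Real.rpow_le_rpow_of_exponent_le (by linarith)
    nlinarith
  have hTδ0 : 0 < T ^ (-δ) := by positivity
  have hsq : (T ^ (-δ)) ^ 2 ≤ T ^ (-δ) := by
    have h2 : T ^ (-δ) ≤ 1 := Real.rpow_le_one_of_one_le_of_nonpos (by linarith) (by linarith)
    nlinarith
  have hF : ‖F Y s‖ ^ 2 ≤ 1 / 4 := by
    refine hmain.trans ?_
    have h2 : (T ^ (-δ)) ^ 2 + 1 / (s.re - a) *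
        ∫ t in (-L)..L, ‖F Y ((a : ℂ) + t * I + τ * I)‖ ^ 2 ≤
        (1 + 2 / η) * T ^ (-δ) := by
      have h3 := mul_le_mul hinv hI hI0 (by positivity)
      linarith
    have h4 : 0 ≤ (T ^ (-δ)) ^ 2 + 1 / (s.re - a) *
        ∫ t in (-L)..L, ‖F Y ((a : ℂ) + t * I + τ * I)‖ ^ 2 := by
      have : 0 ≤ 1 / (s.re - a) := by
        apply div_nonneg (by norm_num)
        linarith
      positivity
    have h5 : T ^ (δ / 4) * T ^ (-δ) = T ^ (-(3 * δ / 4)) := by
      rw [← Real.rpow_add hTpos]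
      congr 1
      ring
    calc 2 * (T ^ 3 / T ^ (-δ)) ^ (δ / 16) * ((T ^ (-δ)) ^ 2 + 1 / (s.re - a) *
          ∫ t in (-L)..L, ‖F Y ((a : ℂ) + t * I + τ * I)‖ ^ 2)
        ≤ 2 * T ^ (δ / 4) * ((1 + 2 / η) * T ^ (-δ)) :=
          mul_le_mul (mul_le_mul_of_nonneg_left hpw (by norm_num)) h2 h4 (by positivity)
      _ = 2 * (1 + 2 / η) * (T ^ (δ / 4) * T ^ (-δ)) := by ring
      _ ≤ 1 / 4 := by
          rw [h5]
          exact hTδ
  have hF2 : ‖F Y s‖ ≤ 1 / 2 := by
    have h2 : ‖F Y s‖ ^ 2 ≤ (1 / 2) ^ 2 := by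
      refine hF.trans (le_of_eq ?_)
      norm_num
    exact (pow_le_pow_iff_left₀ (norm_nonneg _) (by norm_num) (by norm_num)).1 h2
  have hprod : 1 / 2 ≤ ‖riemannZeta s‖ * Y := by
    have h2 : (1 : ℂ) = riemannZeta s * Mo Y s - F Y s := by
      unfold F
      ring
    have h3 : (1 : ℝ) ≤ ‖riemannZeta s * Mo Y s‖ + ‖F Y s‖ := by
      have := norm_sub_le (riemannZeta s * Mo Y s) (F Y s)
      rw [← h2, norm_one] at this
      exact this
    rw [norm_mul] at h3
    have h4 := mul_le_mul_of_nonneg_left (Mo_le Y s (by linarith)) (norm_nonneg (riemannZeta s))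
    linarith
  have h6 : 1 / 2 ≤ ‖riemannZeta s‖ * T ^ (ε / 2) :=
    hprod.trans (mul_le_mul_of_nonneg_left hYT (norm_nonneg _))
  have h7 : T ^ (-ε) * T ^ (ε / 2) ≤ 1 / 2 := by
    rw [← Real.rpow_add hTpos, show -ε + ε / 2 = -(ε / 2) by ring, Real.rpow_neg hTpos.le]
    rw [inv_le_comm₀ (by positivity) (by norm_num)]
    linarith
  exact le_of_mul_le_mul_right (h7.trans h6) (by positivity)

end Pool.Agent.DBC
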