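import Pool.Agent.DBC.Targets4
import Pool.Agent.DBC.P_SAD

/-!
DBC4, LO: lower bound for `W`, heights in a set `G`.
-/

set_option autoImplicit false

namespace Pool.Agent.DBC

open Complex MeasureTheory Set Filter Topology
open Pool.Agent.DBN

theorem s_LO (h1 : T_IGR) (h2 : Y_NE) (h3 : Y_OA) : Y_LO := by
  intro G l c₁ c₂ K hy
  obtain ⟨r, δ₁, hr, hr4, hδ₁, hN⟩ := h2 G l c₁ c₂ K hy
  obtain ⟨δ₂, g, C, hδ₂, hg, hC, T₂, hT₂, hO⟩ := h3 G l c₁ c₂ K r hy hr
  refine ⟨min δ₁ δ₂, lt_min hδ₁ hδ₂, fun ε hε => ?_⟩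
  obtain ⟨T₁, hT₁, hN1⟩ := hN (min (ε / 2) (g / 2)) (lt_min (by linarith) (by linarith))
  obtain ⟨T₃, hT₃, hA⟩ := SAD_.absorb C (g / 2) (1 / 2) (by linarith) (by norm_num)
  obtain ⟨T₄, hT₄, hB⟩ := SAD_.absorb 1 (ε / 2) (1 / 2) (by linarith) (by norm_num)
  refine ⟨max (max T₁ T₂) (max T₃ T₄),
    (hT₁.trans (le_max_left _ _)).trans (le_max_left _ _), ?_⟩
  intro t T x τ hTG hT hc1 hc2 hx1 hx2 hτ
  have hTa : T₁ ≤ T := ((le_max_left _ _).trans (le_max_left _ _)).trans hT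
  have hTb : T₂ ≤ T := ((le_max_right _ _).trans (le_max_left _ _)).trans hT
  have hTc : T₃ ≤ T := ((le_max_left _ _).trans (le_max_right _ _)).trans hT
  have hTd : T₄ ≤ T := ((le_max_right _ _).trans (le_max_right _ _)).trans hT
  have hT2 : 2 ≤ T := hT₁.trans hTa
  have hTpos : 0 < T := by linarith
  have n1 := hN1 t T x τ hTG hTa hc1 hc2 (le_trans (neg_le_neg (min_le_left _ _)) hx1) hx2 hτ
  have o1 := hO t T x τ hTG hTb hc1 hc2 (le_trans (neg_le_neg (min_le_right _ _)) hx1) hx2 hτ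
  have hlog : 0 < Real.log T := Real.log_pos (by linarith)
  have hc1pos : 0 < c₁ := hy.l0.trans hy.lc
  have ht : 0 < t := by
    by_contra hn
    have h0 : t * Real.log T ≤ 0 := mul_nonpos_of_nonpos_of_nonneg (not_lt.1 hn) hlog.le
    linarith
  have hsd : r < sd t T := by
    unfold sd
    linarith
  have hs : 0 < size T := by
    unfold size
    positivity
  set A : ℝ := t * Real.log T / 16 + x / 2 with hAdef
  set e : ℝ := min (ε / 2) (g / 2) with he
  obtain ⟨i1, -, -⟩ := h1 t (pt x τ) ht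
  have hsub : Ioo (sd t T - r) (sd t T + r) ⊆ Ioi (0 : ℝ) := fun u hu => by
    have := hu.1
    show 0 < u
    linarith
  have hnorm : ∀ u : ℝ, ‖((Real.exp (-(u ^ 2 / t)) : ℝ) : ℂ) * xi (pt x τ + u)‖ =
      Real.exp (-(u ^ 2 / t)) * ‖xi (pt x τ + u)‖ := fun u => by
    rw [norm_mul, norm_real, Real.norm_eq_abs, abs_of_pos (Real.exp_pos _)]
  have hG : IntegrableOn (fun u : ℝ => Real.exp (-(u ^ 2 / t)) * ‖xi (pt x τ + u)‖)
      (Ioi (0 : ℝ) \ Ioo (sd t T - r) (sd t T + r)) :=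
    ((i1.norm).congr (Eventually.of_forall hnorm)).integrableOn
  have s1 := SAD_.split
    (P := ∫ u in Ioo (sd t T - r) (sd t T + r),
      ((Real.exp (-(u ^ 2 / t)) : ℝ) : ℂ) * xi (pt x τ + u)) (a := 0)
    measurableSet_Ioo hsub i1 hG (fun u _ => (hnorm u).le) (by simp) o1
  have s2 : ‖∫ u in Ioo (sd t T - r) (sd t T + r),
      ((Real.exp (-(u ^ 2 / t)) : ℝ) : ℂ) * xi (pt x τ + u)‖ ≤
      ‖W t (pt x τ)‖ + C * (size T * T ^ (A - g)) := by
    rw [zero_add] at s1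
    have s3 := norm_sub_rev (W t (pt x τ)) (∫ u in Ioo (sd t T - r) (sd t T + r),
      ((Real.exp (-(u ^ 2 / t)) : ℝ) : ℂ) * xi (pt x τ + u))
    have s4 := norm_sub_norm_le (∫ u in Ioo (sd t T - r) (sd t T + r),
      ((Real.exp (-(u ^ 2 / t)) : ℝ) : ℂ) * xi (pt x τ + u)) (W t (pt x τ))
    have s5 : ‖W t (pt x τ) - ∫ u in Ioo (sd t T - r) (sd t T + r),
      ((Real.exp (-(u ^ 2 / t)) : ℝ) : ℂ) * xi (pt x τ + u)‖ ≤ C * (size T * T ^ (A - g)) := s1
    linarith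
  -- the tail is small
  have hpow : T ^ (A - g) = T ^ (-(g / 2)) * T ^ (A - g / 2) := by
    rw [← Real.rpow_add hTpos]
    congr 1
    ring
  have hmono : T ^ (A - g / 2) ≤ T ^ (A - e) :=
    Real.rpow_le_rpow_of_exponent_le (by linarith) (by linarith [min_le_right (ε / 2) (g / 2)])
  have hmono2 : T ^ (A - ε / 2) ≤ T ^ (A - e) :=
    Real.rpow_le_rpow_of_exponent_le (by linarith) (by linarith [min_le_left (ε / 2) (g / 2)])
  have htail : C * (size T * T ^ (A - g)) ≤ 1 / 2 * (size T * T ^ (A - e)) := by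
    have e1 : C * (size T * T ^ (A - g)) =
        (C * T ^ (-(g / 2))) * (size T * T ^ (A - g / 2)) := by
      rw [hpow]
      ring
    rw [e1]
    exact mul_le_mul (hA T hTc) (mul_le_mul_of_nonneg_left hmono hs.le) (by positivity)
      (by norm_num)
  have hlow : size T * T ^ (A - ε) ≤ 1 / 2 * (size T * T ^ (A - e)) := by
    have e1 : size T * T ^ (A - ε) = (1 * T ^ (-(ε / 2))) * (size T * T ^ (A - ε / 2)) := by
      have : T ^ (A - ε) = T ^ (-(ε / 2)) * T ^ (A - ε / 2) := by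
        rw [← Real.rpow_add hTpos]
        congr 1
        ring
      rw [this]
      ring
    rw [e1]
    exact mul_le_mul (hB T hTd) (mul_le_mul_of_nonneg_left hmono2 hs.le) (by positivity)
      (by norm_num)
  show size T * T ^ (A - ε) ≤ ‖W t (pt x τ)‖
  linarith

end Pool.Agent.DBC
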