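import Pool.Agent.DBC.Targets5

/-!
# Target ML: the measure of the heights without the lower bound
-/

set_option autoImplicit false

namespace Pool.Agent.DBC

open Complex MeasureTheory Set Filter Topology
open Pool.Agent.DBN
open scoped ENNReal

namespace ML4_

lemma continuous_Mo (Y : ℕ) : Continuous (Mo Y) := by
  unfold Mo
  refine continuous_finsetSum _ fun n hn => ?_
  have hn1 : 1 ≤ n := (Finset.mem_Icc.mp hn).1
  refine continuous_const.mul ?_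
  have hn0 : (n : ℂ) ≠ 0 := by exact_mod_cast (by omega : n ≠ 0)
  exact continuous_neg.const_cpow (Or.inl hn0)

lemma measurable_phi (Y : ℕ) (σ : ℝ) (hσ : σ ≠ 1) :
    Measurable (fun u : ℝ => ‖riemannZeta (σ + u * I) * Mo Y (σ + u * I) - 1‖ₑ ^ 2) := by
  have h1 : Continuous (fun u : ℝ => (σ : ℂ) + u * I) := by fun_prop
  have h2 : Continuous (fun u : ℝ => riemannZeta (σ + u * I)) := by
    rw [continuous_iff_continuousAt]
    intro u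
    have hne : (σ : ℂ) + u * I ≠ 1 := by
      intro h
      have h4 := congrArg Complex.re h
      simp at h4
      exact hσ h4
    exact ContinuousAt.comp (f := fun u : ℝ => (σ : ℂ) + u * I)
      (differentiableAt_riemannZeta hne).continuousAt h1.continuousAt
  have h3 : Continuous (fun u : ℝ => riemannZeta (σ + u * I) * Mo Y (σ + u * I) - 1) :=
    (h2.mul ((continuous_Mo Y).comp h1)).sub continuous_const
  exact h3.enorm.measurable.pow_const 2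

lemma LoZ_mono {η η' ε ε' R T : ℝ} (hη : η' ≤ η) (hε : ε' ≤ ε) (hT : 1 ≤ T)
    (h : LoZ η' ε' R T) : LoZ η ε R T := by
  intro s h1 h2 h3
  refine le_trans ?_ (h s (by linarith) h2 h3)
  exact Real.rpow_le_rpow_of_exponent_le hT (by linarith)

/-- the bound for the mean square with `Y = ⌊X ^ θ⌋` -/
lemma bound {C η θ X : ℝ} {Y : ℕ} (hC : 0 ≤ C) (hη : 0 < η) (hη2 : η ≤ 1 / 2) (hθ0 : 0 < θ)
    (hθ2 : θ ≤ η / 8) (hX : 1 ≤ X) (hYle : (Y : ℝ) ≤ X ^ θ) (hYge : X ^ θ / 2 ≤ Y) :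
    C * (((Y : ℝ) + 1) ^ 2 * X ^ (2 - 2 * (1 / 2 + η / 2)) +
      X * (Y : ℝ) ^ (-((1 / 2 + η / 2) - 1 / 2))) ≤ 6 * C * X ^ (1 - θ * η / 2) := by
  have hX0 : 0 < X := by linarith
  have hx1 : 1 ≤ X ^ θ := Real.one_le_rpow hX hθ0.le
  have hδ : θ * η / 2 ≤ η / 8 := by nlinarith
  have e1 : ((Y : ℝ) + 1) ^ 2 * X ^ (2 - 2 * (1 / 2 + η / 2)) ≤ 4 * X ^ (1 - θ * η / 2) := by
    have h1 : ((Y : ℝ) + 1) ^ 2 ≤ (2 * X ^ θ) ^ 2 := by gcongr; linarith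
    have h2 : (2 * X ^ θ) ^ 2 = 4 * X ^ (2 * θ) := by
      rw [mul_pow, ← Real.rpow_natCast (X ^ θ) 2, ← Real.rpow_mul hX0.le]
      norm_num
      ring_nf
    calc ((Y : ℝ) + 1) ^ 2 * X ^ (2 - 2 * (1 / 2 + η / 2))
        ≤ 4 * X ^ (2 * θ) * X ^ (2 - 2 * (1 / 2 + η / 2)) := by
          rw [← h2]
          gcongr
      _ = 4 * X ^ (2 * θ + (2 - 2 * (1 / 2 + η / 2))) := by
          rw [mul_assoc, ← Real.rpow_add hX0]
      _ ≤ 4 * X ^ (1 - θ * η / 2) := by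
          have h3 : X ^ (2 * θ + (2 - 2 * (1 / 2 + η / 2))) ≤ X ^ (1 - θ * η / 2) :=
            Real.rpow_le_rpow_of_exponent_le hX (by linarith)
          linarith
  have e2 : X * (Y : ℝ) ^ (-((1 / 2 + η / 2) - 1 / 2)) ≤ 2 * X ^ (1 - θ * η / 2) := by
    have h1 : (Y : ℝ) ^ (-((1 / 2 + η / 2) - 1 / 2)) ≤
        (X ^ θ / 2) ^ (-((1 / 2 + η / 2) - 1 / 2)) :=
      Real.rpow_le_rpow_of_nonpos (by positivity) hYge (by linarith)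
    have h2 : (X ^ θ / 2) ^ (-((1 / 2 + η / 2) - 1 / 2)) ≤ 2 * X ^ (-(θ * η / 2)) := by
      rw [Real.div_rpow (by positivity) (by norm_num), ← Real.rpow_mul hX0.le,
        show θ * (-((1 / 2 + η / 2) - 1 / 2)) = -(θ * η / 2) by ring,
        show (-((1 / 2 + η / 2) - 1 / 2)) = -(η / 2) by ring,
        Real.rpow_neg (show (0 : ℝ) ≤ 2 by norm_num) (η / 2), div_inv_eq_mul, mul_comm]
      have h3 : (2 : ℝ) ^ (η / 2) ≤ 2 := by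
        calc (2 : ℝ) ^ (η / 2) ≤ 2 ^ (1 : ℝ) :=
              Real.rpow_le_rpow_of_exponent_le (by norm_num) (by linarith)
          _ = 2 := Real.rpow_one 2
      gcongr
    calc X * (Y : ℝ) ^ (-((1 / 2 + η / 2) - 1 / 2)) ≤ X * (2 * X ^ (-(θ * η / 2))) := by
          gcongr
          exact h1.trans h2
      _ = 2 * (X ^ (1 : ℝ) * X ^ (-(θ * η / 2))) := by rw [Real.rpow_one]; ring
      _ = 2 * X ^ (1 - θ * η / 2) := by rw [← Real.rpow_add hX0]; ring_nf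
  calc C * (((Y : ℝ) + 1) ^ 2 * X ^ (2 - 2 * (1 / 2 + η / 2)) +
        X * (Y : ℝ) ^ (-((1 / 2 + η / 2) - 1 / 2)))
      ≤ C * (4 * X ^ (1 - θ * η / 2) + 2 * X ^ (1 - θ * η / 2)) := by gcongr
    _ = 6 * C * X ^ (1 - θ * η / 2) := by ring

lemma main (h1 : Y_CH) (h2 : Y_L1) (h3 : Y_MM) (η ε R : ℝ) (hη : 0 < η) (hη2 : η ≤ 1 / 2)
    (hε : 0 < ε) (hε1 : ε ≤ 1) (hR : 0 < R) : ∃ δ X₀ : ℝ, 0 < δ ∧ 1 ≤ X₀ ∧ ∀ X : ℝ, X₀ ≤ X →
      volume {T : ℝ | X ≤ T ∧ T ≤ 2 * X ∧ ¬ LoZ η ε R T} ≤ ENNReal.ofReal (X ^ (1 - δ)) := by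
  obtain ⟨C, hC, hMM⟩ := h3 (1 / 2 + η / 2) (by linarith) (by linarith)
  obtain ⟨θ, hθ0, hθ1, hθ2⟩ : ∃ θ : ℝ, 0 < θ ∧ θ ≤ ε / 4 ∧ θ ≤ η / 8 :=
    ⟨min (ε / 4) (η / 8), lt_min (by linarith) (by linarith), min_le_left _ _, min_le_right _ _⟩
  obtain ⟨δ₁, hδ₁⟩ : ∃ δ₁ : ℝ, δ₁ = θ * η / 2 := ⟨_, rfl⟩
  have hδ0 : 0 < δ₁ := by rw [hδ₁]; positivity
  have hδ1 : δ₁ ≤ 1 := by rw [hδ₁]; nlinarith
  obtain ⟨R', T₀, hR', hL⟩ := h2 η ε (δ₁ / 2) R hη hη2 hε hε1 (by linarith) (by linarith) hR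
  refine ⟨δ₁ / 4, max (max 1 T₀) (max (2 * R') ((24 * R' * C) ^ (4 / δ₁))), by linarith,
    (le_max_left _ _).trans (le_max_left _ _), fun X hX => ?_⟩
  have hX1 : 1 ≤ X := ((le_max_left _ _).trans (le_max_left _ _)).trans hX
  have hXT : T₀ ≤ X := ((le_max_right _ _).trans (le_max_left _ _)).trans hX
  have hXR : 2 * R' ≤ X := ((le_max_left _ _).trans (le_max_right _ _)).trans hX
  have hXC : (24 * R' * C) ^ (4 / δ₁) ≤ X :=
    ((le_max_right _ _).trans (le_max_right _ _)).trans hX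
  have hX0 : 0 < X := by linarith
  have hx1 : 1 ≤ X ^ θ := Real.one_le_rpow hX1 hθ0.le
  obtain ⟨Y, hY⟩ : ∃ Y : ℕ, Y = ⌊X ^ θ⌋₊ := ⟨_, rfl⟩
  have hY1 : 1 ≤ Y := by
    rw [hY]
    exact Nat.le_floor (by simpa using hx1)
  have hYle : (Y : ℝ) ≤ X ^ θ := by
    rw [hY]
    exact Nat.floor_le (by positivity)
  have hYge : X ^ θ / 2 ≤ Y := by
    have h4 := Nat.lt_floor_add_one (X ^ θ)
    rw [← hY] at h4
    have h5 : (1 : ℝ) ≤ Y := by exact_mod_cast hY1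
    linarith
  have hms := (hMM X Y hX1 hY1).trans (ENNReal.ofReal_le_ofReal
    (bound hC hη hη2 hθ0 hθ2 hX1 hYle hYge))
  rw [← hδ₁] at hms
  have hlam : 0 < (2 * X) ^ (-(δ₁ / 2)) := by positivity
  have hsub : {T : ℝ | X ≤ T ∧ T ≤ 2 * X ∧ ¬ LoZ η ε R T} ⊆
      {T : ℝ | X ≤ T ∧ T ≤ 2 * X ∧ ENNReal.ofReal ((2 * X) ^ (-(δ₁ / 2))) ≤
        ∫⁻ u in Icc (T - R') (T + R'), ‖riemannZeta ((1 / 2 + η / 2 : ℝ) + u * I) *
          Mo Y ((1 / 2 + η / 2 : ℝ) + u * I) - 1‖ₑ ^ 2} := by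
    rintro T ⟨hT1, hT2, hT3⟩
    refine ⟨hT1, hT2, ?_⟩
    have hT0 : 0 < T := by linarith
    have hYT : (Y : ℝ) ≤ T ^ (ε / 2) := by
      calc (Y : ℝ) ≤ X ^ θ := hYle
        _ ≤ X ^ (ε / 2) := Real.rpow_le_rpow_of_exponent_le hX1 (by linarith)
        _ ≤ T ^ (ε / 2) := Real.rpow_le_rpow hX0.le hT1 (by linarith)
    have h4 : ¬ (∫⁻ u in Icc (T - R') (T + R'), ‖riemannZeta ((1 / 2 + η / 2 : ℝ) + u * I) *
        Mo Y ((1 / 2 + η / 2 : ℝ) + u * I) - 1‖ₑ ^ 2 ≤ ENNReal.ofReal (T ^ (-(δ₁ / 2)))) :=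
      fun h => hT3 (hL T (hXT.trans hT1) Y hY1 hYT h)
    push Not at h4
    refine le_trans (ENNReal.ofReal_le_ofReal ?_) h4.le
    exact Real.rpow_le_rpow_of_nonpos hT0 hT2 (by linarith)
  have hIcc : Icc (X - R') (2 * X + R') ⊆ Icc (X / 2) (3 * X) :=
    Icc_subset_Icc (by linarith) (by linarith)
  have hfin : 2 * R' / (2 * X) ^ (-(δ₁ / 2)) * (6 * C * X ^ (1 - δ₁)) ≤ X ^ (1 - δ₁ / 4) := by
    have h4 : (2 * X) ^ (δ₁ / 2) ≤ 2 * X ^ (δ₁ / 2) := by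
      rw [Real.mul_rpow (by norm_num) hX0.le]
      have h5 : (2 : ℝ) ^ (δ₁ / 2) ≤ 2 := by
        calc (2 : ℝ) ^ (δ₁ / 2) ≤ 2 ^ (1 : ℝ) :=
              Real.rpow_le_rpow_of_exponent_le (by norm_num) (by linarith)
          _ = 2 := Real.rpow_one 2
      gcongr
    have h6 : 24 * R' * C ≤ X ^ (δ₁ / 4) := by
      calc 24 * R' * C = ((24 * R' * C) ^ (4 / δ₁)) ^ (δ₁ / 4) := by
            rw [← Real.rpow_mul (by positivity),
              show 4 / δ₁ * (δ₁ / 4) = 1 by field_simp, Real.rpow_one]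
        _ ≤ X ^ (δ₁ / 4) := Real.rpow_le_rpow (by positivity) hXC (by linarith)
    rw [Real.rpow_neg (by positivity), div_inv_eq_mul]
    calc 2 * R' * (2 * X) ^ (δ₁ / 2) * (6 * C * X ^ (1 - δ₁))
        ≤ 2 * R' * (2 * X ^ (δ₁ / 2)) * (6 * C * X ^ (1 - δ₁)) := by gcongr
      _ = 24 * R' * C * (X ^ (δ₁ / 2) * X ^ (1 - δ₁)) := by ring
      _ = 24 * R' * C * X ^ (1 - δ₁ / 2) := by
          rw [← Real.rpow_add hX0]
          ring_nf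
      _ ≤ X ^ (δ₁ / 4) * X ^ (1 - δ₁ / 2) := by gcongr
      _ = X ^ (1 - δ₁ / 4) := by
          rw [← Real.rpow_add hX0]
          ring_nf
  calc volume {T : ℝ | X ≤ T ∧ T ≤ 2 * X ∧ ¬ LoZ η ε R T}
      ≤ volume {T : ℝ | X ≤ T ∧ T ≤ 2 * X ∧ ENNReal.ofReal ((2 * X) ^ (-(δ₁ / 2))) ≤
        ∫⁻ u in Icc (T - R') (T + R'), ‖riemannZeta ((1 / 2 + η / 2 : ℝ) + u * I) *
          Mo Y ((1 / 2 + η / 2 : ℝ) + u * I) - 1‖ₑ ^ 2} := measure_mono hsub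
    _ ≤ ENNReal.ofReal (2 * R' / (2 * X) ^ (-(δ₁ / 2))) *
        ∫⁻ u in Icc (X - R') (2 * X + R'), ‖riemannZeta ((1 / 2 + η / 2 : ℝ) + u * I) *
          Mo Y ((1 / 2 + η / 2 : ℝ) + u * I) - 1‖ₑ ^ 2 :=
        h1 _ (measurable_phi Y (1 / 2 + η / 2) (by linarith)) R' _ X hR' hlam
    _ ≤ ENNReal.ofReal (2 * R' / (2 * X) ^ (-(δ₁ / 2))) *
        ENNReal.ofReal (6 * C * X ^ (1 - δ₁)) := by
        gcongr
        exact (lintegral_mono_set hIcc).trans hms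
    _ = ENNReal.ofReal (2 * R' / (2 * X) ^ (-(δ₁ / 2)) * (6 * C * X ^ (1 - δ₁))) :=
        (ENNReal.ofReal_mul (by positivity)).symm
    _ ≤ ENNReal.ofReal (X ^ (1 - δ₁ / 4)) := ENNReal.ofReal_le_ofReal hfin

end ML4_

theorem s_ML (h1 : Y_CH) (h2 : Y_L1) (h3 : Y_MM) : Y_ML := by
  intro η ε R hη hε hR
  obtain ⟨δ, X₀, hδ, hX₀, h⟩ := ML4_.main h1 h2 h3 (min η (1 / 2)) (min ε 1) R
    (lt_min hη (by norm_num)) (min_le_right _ _) (lt_min hε (by norm_num)) (min_le_right _ _) hR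
  refine ⟨δ, X₀, hδ, fun X hX => le_trans (measure_mono ?_) (h X hX)⟩
  rintro T ⟨hT1, hT2, hT3⟩
  exact ⟨hT1, hT2, fun h4 => hT3 (ML4_.LoZ_mono (min_le_left _ _) (min_le_left _ _)
    (by linarith) h4)⟩

end Pool.Agent.DBC
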