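import Pool.Agent.DBC.Targets5

/-!
# The mollified mean square
-/

set_option autoImplicit false

namespace Pool.Agent.DBC

open Complex MeasureTheory Set Filter Topology
open Pool.Agent.DBN
open scoped ENNReal

namespace MM4_

/-- `‖exp (h s) - 1‖ ≥ 1/10` for `1/6 ≤ h t ≤ 1` -/
theorem exp_low {h σ t : ℝ} (h0 : 0 ≤ h) (hσ : 0 ≤ σ) (h1 : 1 / 6 ≤ h * t) (h2 : h * t ≤ 1) :
    1 / 10 ≤ ‖exp ((h : ℂ) * (σ + t * I)) - 1‖ := by
  have him : (exp ((h : ℂ) * (σ + t * I)) - 1).im = Real.exp (h * σ) * Real.sin (h * t) := by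
    rw [sub_im, one_im, sub_zero, Complex.exp_im]
    simp
  have hpi := Real.pi_lt_d2
  have hpi3 := Real.pi_gt_three
  have hs : 2 / Real.pi * (h * t) ≤ Real.sin (h * t) :=
    Real.mul_le_sin (by linarith) (by linarith)
  have hs2 : 1 / 10 ≤ Real.sin (h * t) := by
    refine le_trans ?_ hs
    rw [div_mul_eq_mul_div, div_le_div_iff₀ (by norm_num) Real.pi_pos]
    nlinarith
  have he : 1 ≤ Real.exp (h * σ) := Real.one_le_exp (mul_nonneg h0 hσ)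
  calc 1 / 10 ≤ Real.exp (h * σ) * Real.sin (h * t) := by nlinarith
    _ ≤ |(exp ((h : ℂ) * (σ + t * I)) - 1).im| := by rw [him]; exact le_abs_self _
    _ ≤ _ := abs_im_le_norm _

theorem norm_s_le {σ t X : ℝ} (hX : 1 ≤ X) (hσ : 0 ≤ σ) (hσ1 : σ ≤ 1) (ht : 0 ≤ t)
    (ht2 : t ≤ 3 * X) : ‖((σ : ℂ) + t * I)‖ ≤ 4 * X := by
  refine (norm_add_le _ _).trans ?_
  rw [norm_mul, norm_I, mul_one, norm_real, norm_real, Real.norm_of_nonneg hσ,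
    Real.norm_of_nonneg ht]
  linarith

/-- the pointwise inequality -/
theorem point (h2 : Y_MF) {σ X : ℝ} {Y : ℕ} (hσ : 1 / 2 < σ) (hσ1 : σ < 1) (hX : 1 ≤ X)
    {t : ℝ} (ht1 : X / 2 ≤ t) (ht2 : t ≤ 3 * X) :
    ‖riemannZeta (σ + t * I) * Mo Y (σ + t * I) - 1‖ₑ ^ 2 ≤ ENNReal.ofReal (1600 * X ^ 2) *
      ‖mellin (fun t : ℝ => ((GG Y (Real.exp (-(1 / (3 * X))) * t) - GG Y t : ℝ) : ℂ))
        (σ + t * I)‖ₑ ^ 2 := by
  have hX0 : 0 < X := by linarith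
  obtain ⟨-, hm⟩ := h2 Y (1 / (3 * X)) (by positivity)
  have hre : ((σ : ℂ) + t * I).re = σ := by simp
  have hm1 := hm (σ + t * I) (by rw [hre]; linarith) (by rw [hre]; exact hσ1)
  rw [hm1]
  have ht0 : 0 < t := by linarith
  have hne : ((σ : ℂ) + t * I) ≠ 0 := by
    intro h
    have := congrArg Complex.re h
    rw [hre] at this
    simp at this
    linarith
  have hlow : 1 / 10 ≤ ‖exp (((1 / (3 * X) : ℝ) : ℂ) * (σ + t * I)) - 1‖ := by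
    refine exp_low (by positivity) (by linarith) ?_ ?_
    · rw [div_mul_eq_mul_div, one_mul, div_le_div_iff₀ (by norm_num) (by positivity)]
      linarith
    · rw [div_mul_eq_mul_div, one_mul, div_le_one (by positivity)]
      linarith
  have hs := norm_s_le hX (by linarith) hσ1.le ht0.le ht2
  set F : ℂ := riemannZeta (σ + t * I) * Mo Y (σ + t * I) - 1 with hF
  set E : ℂ := exp (((1 / (3 * X) : ℝ) : ℂ) * (σ + t * I)) - 1 with hE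
  have hsn : 0 < ‖((σ : ℂ) + t * I)‖ := norm_pos_iff.2 hne
  have hkey : ‖F‖ ≤ 40 * X * ‖E * (F / (σ + t * I))‖ := by
    rw [norm_mul, norm_div]
    have h3 : ‖F‖ = 10 * ‖((σ : ℂ) + t * I)‖ * (1 / 10 * (‖F‖ / ‖((σ : ℂ) + t * I)‖)) := by
      field_simp
    have h4 : 1 / 10 * (‖F‖ / ‖((σ : ℂ) + t * I)‖) ≤ ‖E‖ * (‖F‖ / ‖((σ : ℂ) + t * I)‖) :=
      mul_le_mul_of_nonneg_right hlow (by positivity)
    calc ‖F‖ = 10 * ‖((σ : ℂ) + t * I)‖ * (1 / 10 * (‖F‖ / ‖((σ : ℂ) + t * I)‖)) := h3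
      _ ≤ 40 * X * (‖E‖ * (‖F‖ / ‖((σ : ℂ) + t * I)‖)) := by
          refine mul_le_mul (by linarith) h4 (by positivity) (by positivity)
  have h5 : ‖F‖ ^ 2 ≤ 1600 * X ^ 2 * ‖E * (F / (σ + t * I))‖ ^ 2 := by
    calc ‖F‖ ^ 2 ≤ (40 * X * ‖E * (F / (σ + t * I))‖) ^ 2 :=
          pow_le_pow_left₀ (norm_nonneg _) hkey 2
      _ = _ := by ring
  rw [← ofReal_norm, ← ofReal_norm, ← ENNReal.ofReal_pow (norm_nonneg _),
    ← ENNReal.ofReal_pow (norm_nonneg _), ← ENNReal.ofReal_mul (by positivity)]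
  exact ENNReal.ofReal_le_ofReal h5

end MM4_

theorem s_MM (h1 : Y_PL) (h2 : Y_MF) (h3 : Y_LT) (h4 : Y_AR) : Y_MM := by
  intro σ hσ hσ1
  obtain ⟨C₁, hC₁, hL⟩ := h3 σ hσ hσ1
  obtain ⟨C₂, hC₂, hA⟩ := h4 σ hσ hσ1
  have hpi := Real.pi_pos
  refine ⟨3200 * Real.pi * C₁ * (1 + C₂), by positivity, ?_⟩
  intro X Y hX hY
  have hX0 : 0 < X := by linarith
  have hY0 : (0 : ℝ) < Y := by exact_mod_cast hY
  obtain ⟨hadm, -⟩ := h2 Y (1 / (3 * X)) (by positivity)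
  have hP := h1 σ (by linarith) hσ1 _ hadm
  have hL1 := hL Y X (1 / (3 * X)) hY hX rfl
  have hA1 := hA Y ⌊2 * X⌋₊ hY
  set S : ℝ := ∑ n ∈ Finset.Icc 2 ⌊2 * X⌋₊, am Y n ^ 2 * (n : ℝ) ^ (-(2 * σ)) with hS
  have hpow : X ^ 2 * X ^ (-(2 * σ)) = X ^ (2 - 2 * σ) := by
    rw [← Real.rpow_natCast X 2, ← Real.rpow_add hX0]
    norm_num
    rw [← sub_eq_add_neg]
  calc ∫⁻ t in Icc (X / 2) (3 * X), ‖riemannZeta (σ + t * I) * Mo Y (σ + t * I) - 1‖ₑ ^ 2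
      ≤ ∫⁻ t in Icc (X / 2) (3 * X), ENNReal.ofReal (1600 * X ^ 2) *
        ‖mellin (fun t : ℝ => ((GG Y (Real.exp (-(1 / (3 * X))) * t) - GG Y t : ℝ) : ℂ))
          (σ + t * I)‖ₑ ^ 2 :=
        setLIntegral_mono' measurableSet_Icc fun t ht => MM4_.point h2 hσ hσ1 hX ht.1 ht.2
    _ ≤ ∫⁻ t : ℝ, ENNReal.ofReal (1600 * X ^ 2) *
        ‖mellin (fun t : ℝ => ((GG Y (Real.exp (-(1 / (3 * X))) * t) - GG Y t : ℝ) : ℂ))
          (σ + t * I)‖ₑ ^ 2 := setLIntegral_le_lintegral _ _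
    _ = ENNReal.ofReal (1600 * X ^ 2) * ∫⁻ t : ℝ,
        ‖mellin (fun t : ℝ => ((GG Y (Real.exp (-(1 / (3 * X))) * t) - GG Y t : ℝ) : ℂ))
          (σ + t * I)‖ₑ ^ 2 := lintegral_const_mul' _ _ ENNReal.ofReal_ne_top
    _ ≤ ENNReal.ofReal (1600 * X ^ 2) * (ENNReal.ofReal (2 * Real.pi) *
        ENNReal.ofReal (C₁ * (((Y : ℝ) + 1) ^ 2 * X ^ (-(2 * σ)) + X⁻¹ * S))) := by
        rw [hP]
        gcongr
    _ = ENNReal.ofReal (1600 * X ^ 2 * (2 * Real.pi *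
        (C₁ * (((Y : ℝ) + 1) ^ 2 * X ^ (-(2 * σ)) + X⁻¹ * S)))) := by
        rw [← ENNReal.ofReal_mul (by positivity), ← ENNReal.ofReal_mul (by positivity)]
    _ ≤ _ := by
        refine ENNReal.ofReal_le_ofReal ?_
        have h6 : 1600 * X ^ 2 * (2 * Real.pi *
            (C₁ * (((Y : ℝ) + 1) ^ 2 * X ^ (-(2 * σ)) + X⁻¹ * S))) =
            3200 * Real.pi * C₁ * (((Y : ℝ) + 1) ^ 2 * (X ^ 2 * X ^ (-(2 * σ))) + X * S) := by
          field_simp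
          ring
        rw [h6, hpow, mul_assoc (3200 * Real.pi * C₁) (1 + C₂)]
        refine mul_le_mul_of_nonneg_left ?_ (by positivity)
        have h7 : 0 ≤ ((Y : ℝ) + 1) ^ 2 * X ^ (2 - 2 * σ) := by positivity
        have h8 : 0 ≤ X * (Y : ℝ) ^ (-(σ - 1 / 2)) := by positivity
        have h9 : X * S ≤ C₂ * (X * (Y : ℝ) ^ (-(σ - 1 / 2))) := by
          calc X * S ≤ X * (C₂ * (Y : ℝ) ^ (-(σ - 1 / 2))) :=
                mul_le_mul_of_nonneg_left hA1 hX0.le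
            _ = _ := by ring
        have h10 : 0 ≤ C₂ * (((Y : ℝ) + 1) ^ 2 * X ^ (2 - 2 * σ)) := mul_nonneg hC₂ h7
        nlinarith

end Pool.Agent.DBC
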