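import Pool.Agent.DBC.Targets5
import Pool.Agent.NBL.Ms
import Pool.Agent.Lib.ThickFailure

/-!
# Real zeros of the flow at almost all heights: target MU

The upper bound for `ζ` holds off a set of small measure (from CH, U1 and the mean square).
-/

set_option autoImplicit false

namespace Pool.Agent.DBC

open Complex MeasureTheory Set Filter Topology
open Pool.Agent.DBN
open scoped ENNReal

namespace MU4_

/-- the square of zeta on the critical line is measurable -/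
theorem meas : Measurable fun u : ℝ => ‖riemannZeta (1 / 2 + u * I)‖ₑ ^ 2 :=
  (Pool.Agent.Lib.ThickFailure.continuous_zeta_line.measurable.enorm).pow_const 2

/-- logarithms against powers -/
theorem log_rpow (C a : ℝ) (ha : 0 < a) : ∃ X₀ : ℝ, ∀ X : ℝ, X₀ ≤ X →
    C * (3 + Real.log X) ≤ X ^ a := by
  have h1 : Tendsto (fun X : ℝ => Real.log X / X ^ a) atTop (𝓝 0) :=
    (isLittleO_log_rpow_atTop ha).tendsto_div_nhds_zero
  have h2 : Tendsto (fun X : ℝ => 3 / X ^ a) atTop (𝓝 0) :=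
    tendsto_const_nhds.div_atTop (tendsto_rpow_atTop ha)
  have h3 : Tendsto (fun X : ℝ => C * (3 / X ^ a + Real.log X / X ^ a)) atTop (𝓝 0) := by
    have h4 := (h2.add h1).const_mul C
    simpa using h4
  have h5 : ∀ᶠ X : ℝ in atTop, C * (3 / X ^ a + Real.log X / X ^ a) < 1 :=
    h3.eventually (gt_mem_nhds one_pos)
  obtain ⟨X₀, hX₀⟩ := (h5.and (eventually_gt_atTop (0 : ℝ))).exists_forall_of_atTop
  refine ⟨X₀, fun X hX => ?_⟩
  obtain ⟨h6, h7⟩ := hX₀ X hX
  have h8 : 0 < X ^ a := Real.rpow_pos_of_pos h7 a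
  have e : C * (3 / X ^ a + Real.log X / X ^ a) = C * (3 + Real.log X) / X ^ a := by
    field_simp
  rw [e, div_lt_one h8] at h6
  exact h6.le

/-- the integral of the square of zeta near `[X, 2 X]` -/
theorem int_le {X R : ℝ} (hX : 1 ≤ X) (hR : R ≤ X) :
    ∫⁻ u in Icc (X - R) (2 * X + R), ‖riemannZeta (1 / 2 + u * I)‖ₑ ^ 2 ≤
      ENNReal.ofReal (1920 * Real.pi * X * (3 + Real.log X)) := by
  have hN : 1 ≤ ⌈3 * X⌉₊ := Nat.one_le_ceil_iff.2 (by linarith)
  have h1 : 3 * X ≤ (⌈3 * X⌉₊ : ℝ) := Nat.le_ceil _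
  have h2 : (⌈3 * X⌉₊ : ℝ) < 3 * X + 1 := Nat.ceil_lt_add_one (by linarith)
  have hN0 : (0 : ℝ) < (⌈3 * X⌉₊ : ℝ) := by linarith
  have h3 : Icc (X - R) (2 * X + R) ⊆ Icc (-(⌈3 * X⌉₊ : ℝ)) (⌈3 * X⌉₊ : ℝ) :=
    Icc_subset_Icc (by linarith) (by linarith)
  refine (lintegral_mono_set h3).trans ((NBL.mean_sq hN).trans (ENNReal.ofReal_le_ofReal ?_))
  have h4 : (⌈3 * X⌉₊ : ℝ) ≤ 4 * X := by linarith
  have h5 : Real.log (⌈3 * X⌉₊ : ℝ) ≤ 2 + Real.log X := by
    have h6 := Real.log_le_log hN0 h4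
    rw [Real.log_mul (by norm_num) (by linarith)] at h6
    have h7 : Real.log 4 ≤ 2 := by
      have h8 : Real.log 4 = 2 * Real.log 2 := by
        rw [show (4 : ℝ) = 2 ^ 2 by norm_num, Real.log_pow]
        norm_num
      have h9 := Real.log_le_sub_one_of_pos (show (0 : ℝ) < 2 by norm_num)
      linarith
    linarith
  have hlog : 0 ≤ Real.log (⌈3 * X⌉₊ : ℝ) := Real.log_nonneg (by linarith)
  have hpi := Real.pi_pos
  calc 480 * Real.pi * (⌈3 * X⌉₊ : ℝ) * (1 + Real.log (⌈3 * X⌉₊ : ℝ))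
      ≤ 480 * Real.pi * (4 * X) * (1 + (2 + Real.log X)) := by gcongr
    _ = 1920 * Real.pi * X * (3 + Real.log X) := by ring

end MU4_

open MU4_

/-- Target MU. -/
theorem s_MU (h1 : Y_CH) (h2 : Y_U1) : Y_MU := by
  intro ε R hε hR
  set e : ℝ := min ε 1 with he
  have he0 : 0 < e := lt_min hε one_pos
  have he1 : e ≤ 1 := min_le_right _ _
  have hee : e ≤ ε := min_le_left _ _
  obtain ⟨R', T₀, hR', hU⟩ := h2 e R he0 he1 hR
  obtain ⟨X₁, hX₁⟩ := log_rpow (2 * R' * (1920 * Real.pi)) (e / 8) (by linarith)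
  refine ⟨e / 8, max (max 1 R') (max T₀ X₁), by linarith, fun X hX => ?_⟩
  have hX1 : 1 ≤ X := (le_max_left _ _).trans ((le_max_left _ _).trans hX)
  have hXR : R' ≤ X := (le_max_right _ _).trans ((le_max_left _ _).trans hX)
  have hXT : T₀ ≤ X := (le_max_left _ _).trans ((le_max_right _ _).trans hX)
  have hXX : X₁ ≤ X := (le_max_right _ _).trans ((le_max_right _ _).trans hX)
  have hX0 : 0 < X := by linarith
  have hlam : 0 < X ^ (e / 4) := Real.rpow_pos_of_pos hX0 _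
  have hsub : {T : ℝ | X ≤ T ∧ T ≤ 2 * X ∧ ¬ UpZ ε R T} ⊆
      {T : ℝ | X ≤ T ∧ T ≤ 2 * X ∧ ENNReal.ofReal (X ^ (e / 4)) ≤
        ∫⁻ u in Icc (T - R') (T + R'), ‖riemannZeta (1 / 2 + u * I)‖ₑ ^ 2} := by
    rintro T ⟨hT1, hT2, hT3⟩
    refine ⟨hT1, hT2, ?_⟩
    by_contra hcon
    push Not at hcon
    apply hT3
    have hT : 1 ≤ T := hX1.trans hT1
    have h3 : UpZ e R T := by
      refine hU T (hXT.trans hT1) (hcon.le.trans (ENNReal.ofReal_le_ofReal ?_))
      exact Real.rpow_le_rpow hX0.le hT1 (by linarith)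
    exact fun s hs1 hs2 hs3 => (h3 s hs1 hs2 hs3).trans (Real.rpow_le_rpow_of_exponent_le hT hee)
  refine (measure_mono hsub).trans ((h1 _ meas R' (X ^ (e / 4)) X hR' hlam).trans ?_)
  refine (mul_le_mul_right (int_le hX1 hXR) _).trans ?_
  rw [← ENNReal.ofReal_mul (by positivity)]
  apply ENNReal.ofReal_le_ofReal
  have h4 := hX₁ X hXX
  have h5 : X ^ (1 - e / 8) = X ^ (e / 8) * (X / X ^ (e / 4)) := by
    rw [Real.rpow_sub hX0, Real.rpow_one]
    have h6 : X ^ (e / 4) = X ^ (e / 8) * X ^ (e / 8) := by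
      rw [← Real.rpow_add hX0]
      congr 1
      ring
    have h7 : 0 < X ^ (e / 8) := Real.rpow_pos_of_pos hX0 _
    rw [h6]
    field_simp
  rw [h5]
  calc 2 * R' / X ^ (e / 4) * (1920 * Real.pi * X * (3 + Real.log X))
      = 2 * R' * (1920 * Real.pi) * (3 + Real.log X) * (X / X ^ (e / 4)) := by ring
    _ ≤ X ^ (e / 8) * (X / X ^ (e / 4)) := by gcongr

end Pool.Agent.DBC
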