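import Pool.Agent.DBC.Targets4
import Pool.Agent.DBC.P_OFA

/-!
# DBC4, target `Y_OB`: the other side, heights in a set `G`
-/

set_option autoImplicit false

namespace Pool.Agent.DBC

open Complex MeasureTheory Set Filter Topology
open Pool.Agent.DBN

open OFA_ in
theorem s_OB (h1 : Y_BD) (h2 : T_INB) : Y_OB := by
  intro G l c₁ c₂ K δ hH hδ
  obtain ⟨hl, hlc, hcc, hK, hxl, -⟩ := hH
  obtain ⟨g, κ, hg, hκ, h⟩ := h2 l c₁ c₂ K δ hl hlc hcc hK hδ
  obtain ⟨C, T₀, hC, hT₀, hb⟩ := h1 G l κ g K hxl hκ hg hK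
  obtain ⟨J, hJ⟩ : ∃ J, J = ∫ u : ℝ, (1 + |u|) * Real.exp (-(κ / 4) * u ^ 2) := ⟨_, rfl⟩
  have hJ0 : 0 ≤ J := by
    rw [hJ]
    exact integral_nonneg fun u => by positivity
  refine ⟨g / 2, C * J, by positivity, by positivity, T₀, hT₀, ?_⟩
  intro t T x τ hTG hT3 h1 h2 h3 h4 h5
  have hT : 2 ≤ T := hT₀.trans hT3
  have hL := log_ge hT
  have hc : 0 < t * Real.log T := by linarith
  have ht : 0 < t := by
    by_contra h6
    have : t * Real.log T ≤ 0 := mul_nonpos_of_nonpos_of_nonneg (by linarith) (by linarith)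
    linarith
  have hx2 : |-x| ≤ K := by
    rw [abs_neg]
    exact abs_le.2 ⟨by linarith, h4⟩
  obtain ⟨A, hAe⟩ : ∃ A, A = size T * T ^ (t * Real.log T / 16 + x / 2 - g / 2) := ⟨_, rfl⟩
  have hA : 0 ≤ A := by
    rw [hAe]
    have := size_nonneg' hT
    have : 0 ≤ T := by linarith
    positivity
  have hp : ∀ u : ℝ, 0 ≤ u → Real.exp (-(u ^ 2 / t)) * ‖xi (pt (-x) τ + u)‖ ≤
        C * A * Real.exp (-(κ / 4) * u ^ 2) := by
    intro u hu
    rw [hAe]
    refine hb t T (-x) τ u (t * Real.log T / 16 + x / 2) hTG hT3 ht hx2 h5 ?_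
    have h6 := h (t * Real.log T) x u h1 h2 h3 h4 hu
    have h7 : -x + u = u - x := by ring
    rw [h7]
    exact h6
  rw [← hAe]
  have hg1 := (gauss_int (κ := κ / 4) (by positivity)).const_mul (C * A)
  calc ‖W t (pt (-x) τ)‖ ≤ ∫ u in Ioi (0 : ℝ), ‖((Real.exp (-(u ^ 2 / t)) : ℝ) : ℂ) *
        xi (pt (-x) τ + u)‖ := norm_integral_le_integral_norm _
    _ ≤ ∫ u in Ioi (0 : ℝ), C * A * ((1 + |u|) * Real.exp (-(κ / 4) * u ^ 2)) := by
        refine integral_mono_of_nonneg ?_ hg1.integrableOn ?_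
        · filter_upwards with u
          exact norm_nonneg _
        · filter_upwards [ae_restrict_mem measurableSet_Ioi] with u hu
          have h3 := hp u (le_of_lt hu)
          show ‖((Real.exp (-(u ^ 2 / t)) : ℝ) : ℂ) * xi (pt (-x) τ + u)‖ ≤
            C * A * ((1 + |u|) * Real.exp (-(κ / 4) * u ^ 2))
          rw [norm_mul, Complex.norm_real, Real.norm_of_nonneg (Real.exp_pos _).le]
          refine h3.trans ?_
          have h8 : (1 : ℝ) ≤ 1 + |u| := by linarith [abs_nonneg u]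
          have h9 := Real.exp_pos (-(κ / 4) * u ^ 2)
          calc C * A * Real.exp (-(κ / 4) * u ^ 2)
              = C * A * (1 * Real.exp (-(κ / 4) * u ^ 2)) := by ring
            _ ≤ C * A * ((1 + |u|) * Real.exp (-(κ / 4) * u ^ 2)) := by gcongr
    _ ≤ ∫ u : ℝ, C * A * ((1 + |u|) * Real.exp (-(κ / 4) * u ^ 2)) := by
        refine setIntegral_le_integral hg1 ?_
        filter_upwards with u
        show (0 : ℝ) ≤ C * A * ((1 + |u|) * Real.exp (-(κ / 4) * u ^ 2))
        positivity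
    _ = C * J * A := by
        rw [integral_const_mul, hJ]
        ring

end Pool.Agent.DBC
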