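import Pool.Agent.DBC.Targets5
import Pool.Agent.Lib.ZetaConv
import Pool.Agent.Lib.ZetaCrude

/-!
# Real zeros of the flow at almost all heights: pointwise upper bound for zeta (U1)
-/

set_option autoImplicit false

namespace Pool.Agent.DBC

open Complex MeasureTheory Set Filter Topology
open Pool.Agent.DBN
open scoped ENNReal

namespace U14_

theorem cont_line (c : ℝ) (hc : c ≠ 1) :
    Continuous (fun v : ℝ => riemannZeta ((c : ℂ) + v * I)) := by
  refine continuous_iff_continuousAt.2 fun v => ?_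
  have h : ((c : ℂ) + v * I) ≠ 1 := by
    intro h
    have := congrArg Complex.re h
    simp at this
    exact hc this
  exact (differentiableAt_riemannZeta h).continuousAt.comp
    (f := fun v : ℝ => (c : ℂ) + v * I) (by fun_prop)

theorem win {T R' A a b : ℝ} (hA : 0 ≤ A)
    (h : ∫⁻ u in Icc (T - R') (T + R'), ‖riemannZeta (1 / 2 + u * I)‖ₑ ^ 2 ≤
      ENNReal.ofReal A) (hab : a ≤ b) (ha : T - R' ≤ a) (hb : b ≤ T + R') :
    ∫ v in a..b, ‖riemannZeta (1 / 2 + v * I)‖ ^ 2 ≤ A := by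
  have hc : Continuous (fun v : ℝ => ‖riemannZeta (1 / 2 + v * I)‖ ^ 2) := by
    have := cont_line (1 / 2) (by norm_num)
    push_cast at this
    exact (this.norm).pow 2
  have hi : IntegrableOn (fun v : ℝ => ‖riemannZeta (1 / 2 + v * I)‖ ^ 2) (Ioc a b) :=
    (hc.integrableOn_Icc (a := a) (b := b)).mono_set Ioc_subset_Icc_self
  rw [intervalIntegral.integral_of_le hab, ← ENNReal.ofReal_le_ofReal_iff hA,
    ofReal_integral_eq_lintegral_ofReal hi (Eventually.of_forall fun v => by positivity)]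
  refine le_trans ?_ h
  refine le_trans (lintegral_mono_set (Ioc_subset_Icc_self.trans (Icc_subset_Icc ha hb))) ?_
  refine le_of_eq (lintegral_congr fun v => ?_)
  rw [ENNReal.ofReal_pow (norm_nonneg _), ofReal_norm]

end U14_

open U14_ in
/-- U1 -/
theorem s_U1 (h1 : Y_SM) : Y_U1 := by
  intro ε R hε hε1 hR
  obtain ⟨Cz, hCz1, hCz⟩ := Pool.Agent.Lib.ZetaCrude.norm_zeta_le_crude
  set r : ℝ := ε / 16 with hr
  have hr0 : 0 < r := by positivity
  have hr1 : r ≤ 1 / 16 := by rw [hr]; linarith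
  obtain ⟨L, K, hL1, hLK, hRK, hSM⟩ := h1 (ε / 32) (R + 2) (by positivity) (by linarith)
    (by linarith)
  set B : ℝ := 2 * (1 + 1 / r * (72 * L * (1 + 1 / r))) with hB
  obtain ⟨T₁, hT₁⟩ : ∃ T₁ : ℝ, ∀ T : ℝ, T₁ ≤ T → B ≤ T ^ (3 * ε / 2) :=
    Filter.eventually_atTop.1 ((tendsto_rpow_atTop (by positivity : (0 : ℝ) < 3 * ε / 2)
      |>.eventually_ge_atTop B))
  refine ⟨R + 2 * L + 2, max T₁ (2 * Cz + 2 * K + R + L + 25), by linarith, ?_⟩
  intro T hT hint s hs1 hs2 hs3
  have hTa : T₁ ≤ T := (le_max_left _ _).trans hT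
  have hTb : 2 * Cz + 2 * K + R + L + 25 ≤ T := (le_max_right _ _).trans hT
  have hT1 : 1 ≤ T := by linarith
  have hT0 : 0 < T := by linarith
  -- the bound in the box
  have box : ∀ c u : ℝ, 1 / 4 ≤ c → c ≤ 1 / 2 → |u - T| ≤ R + L → ∀ z : ℂ, 0 ≤ z.re →
      z.re ≤ K → |z.im| ≤ K →
      DifferentiableAt ℂ (fun z : ℂ => riemannZeta (c + z + u * I)) z ∧
        ‖riemannZeta (c + z + u * I)‖ ≤ T ^ 2 := by
    intro c u hc1 hc2 hu z hz1 hz2 hz3
    have hre : ((c : ℂ) + z + u * I).re = c + z.re := by simp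
    have him : ((c : ℂ) + z + u * I).im = z.im + u := by simp
    obtain ⟨hu1, hu2⟩ := abs_le.1 hu
    obtain ⟨hz4, hz5⟩ := abs_le.1 hz3
    have him1 : 1 ≤ ((c : ℂ) + z + u * I).im := by
      rw [him]
      linarith
    have hne : 1 ≤ ‖(c : ℂ) + z + u * I - 1‖ := by
      refine le_trans ?_ (Complex.abs_im_le_norm _)
      rw [Complex.sub_im, Complex.one_im, sub_zero]
      exact him1.trans (le_abs_self _)
    have hne1 : (c : ℂ) + z + u * I ≠ 1 := by
      intro h
      rw [h, sub_self, norm_zero] at hne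
      linarith
    refine ⟨?_, ?_⟩
    · exact (differentiableAt_riemannZeta hne1).comp z
        (f := fun z : ℂ => (c : ℂ) + z + u * I) (by fun_prop)
    · have h2 := hCz ((c : ℂ) + z + u * I) (by rw [hre]; linarith) hne
      have h3 : ‖(c : ℂ) + z + u * I‖ ≤ |((c : ℂ) + z + u * I).re| +
          |((c : ℂ) + z + u * I).im| := Complex.norm_le_abs_re_add_abs_im _
      rw [hre, him, abs_of_nonneg (by linarith : 0 ≤ c + z.re),
        abs_of_nonneg (by linarith : 0 ≤ z.im + u)] at h3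
      have h4 : 1 + ‖(c : ℂ) + z + u * I‖ ≤ 2 * T := by linarith
      calc ‖riemannZeta (c + z + u * I)‖ ≤ Cz * (1 + ‖(c : ℂ) + z + u * I‖) := h2
        _ ≤ Cz * (2 * T) := mul_le_mul_of_nonneg_left h4 (by linarith)
        _ = (2 * Cz) * T := by ring
        _ ≤ T * T := mul_le_mul_of_nonneg_right (by linarith) hT0.le
        _ = T ^ 2 := by ring
  -- the mean square bound
  have sm : ∀ c u x : ℝ, 1 / 4 ≤ c → c ≤ 1 / 2 → |u - T| ≤ R + L → r ≤ x → x ≤ R + 2 →
      ‖riemannZeta (((c + x : ℝ) : ℂ) + u * I)‖ ^ 2 ≤ 2 * T ^ (ε / 16) *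
        (1 + 1 / r * ∫ v in (u - L)..(u + L), ‖riemannZeta ((c : ℂ) + v * I)‖ ^ 2) := by
    intro c u x hc1 hc2 hu hx1 hx2
    have hcont : Continuous (fun t : ℝ => riemannZeta ((c : ℂ) + t * I + u * I)) := by
      have h2 := (cont_line c (by linarith)).comp (continuous_add_const u)
      refine h2.congr fun t => ?_
      simp only [Function.comp]
      congr 1
      push_cast
      ring
    have h2 := hSM (fun z : ℂ => riemannZeta (c + z + u * I)) (T ^ 2) 1 one_pos
      (by nlinarith) hcont (box c u hc1 hc2 hu) x (by linarith) hx2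
    have e1 : (c : ℂ) + (x : ℂ) + u * I = ((c + x : ℝ) : ℂ) + u * I := by push_cast; ring
    have e2 : ∫ t in (-L)..L, ‖riemannZeta ((c : ℂ) + t * I + u * I)‖ ^ 2 =
        ∫ v in (u - L)..(u + L), ‖riemannZeta ((c : ℂ) + v * I)‖ ^ 2 := by
      have h3 := intervalIntegral.integral_comp_add_right (a := -L) (b := L)
        (fun v : ℝ => ‖riemannZeta ((c : ℂ) + v * I)‖ ^ 2) u
      have e3 : -L + u = u - L := by ring
      have e4 : L + u = u + L := by ring
      rw [e3, e4] at h3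
      rw [← h3]
      refine intervalIntegral.integral_congr fun t _ => ?_
      have e5 : (c : ℂ) + t * I + u * I = (c : ℂ) + ((t + u : ℝ) : ℂ) * I := by
        push_cast
        ring
      simp only [e5]
    have e3 : (T ^ 2 / 1) ^ (ε / 32) = T ^ (ε / 16) := by
      rw [div_one, ← Real.rpow_natCast, ← Real.rpow_mul hT0.le]
      congr 1
      push_cast
      ring
    simp only [e1, e2, e3, one_pow] at h2
    refine h2.trans ?_
    have hI : 0 ≤ ∫ v in (u - L)..(u + L), ‖riemannZeta ((c : ℂ) + v * I)‖ ^ 2 :=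
      intervalIntegral.integral_nonneg (by linarith) fun v _ => by positivity
    have h4 : 1 / x ≤ 1 / r := one_div_le_one_div_of_le hr0 hx1
    have h5 : 0 ≤ 2 * T ^ (ε / 16) := by positivity
    refine mul_le_mul_of_nonneg_left ?_ h5
    have := mul_le_mul_of_nonneg_right h4 hI
    linarith
  have hTe : ∀ a : ℝ, 0 ≤ a → 1 ≤ T ^ a := fun a ha => Real.one_le_rpow hT1 ha
  -- step 1
  have step1 : ∀ u : ℝ, |u - T| ≤ R + L →
      ‖riemannZeta (((1 / 2 + r : ℝ) : ℂ) + u * I)‖ ^ 2 ≤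
        2 * (1 + 1 / r) * T ^ (5 * ε / 16) := by
    intro u hu
    obtain ⟨hu1, hu2⟩ := abs_le.1 hu
    have h2 := sm (1 / 2) u r (by norm_num) le_rfl hu le_rfl (by linarith)
    have h3 : ∫ v in (u - L)..(u + L), ‖riemannZeta (((1 / 2 : ℝ) : ℂ) + v * I)‖ ^ 2 ≤
        T ^ (ε / 4) := by
      have := win (A := T ^ (ε / 4)) (by positivity) hint (a := u - L) (b := u + L)
        (by linarith) (by linarith) (by linarith)
      simpa using this
    have h4 := hTe (ε / 4) (by positivity)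
    calc ‖riemannZeta (((1 / 2 + r : ℝ) : ℂ) + u * I)‖ ^ 2
        ≤ 2 * T ^ (ε / 16) * (1 + 1 / r * T ^ (ε / 4)) := by
          refine h2.trans ?_
          gcongr
      _ ≤ 2 * T ^ (ε / 16) * (T ^ (ε / 4) + 1 / r * T ^ (ε / 4)) := by gcongr
      _ = 2 * (1 + 1 / r) * (T ^ (ε / 16) * T ^ (ε / 4)) := by ring
      _ = 2 * (1 + 1 / r) * T ^ (5 * ε / 16) := by
          rw [← Real.rpow_add hT0]
          congr 2
          ring
  -- step 2
  have step2 : ∀ v : ℝ, |v - T| ≤ R + L →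
      ‖riemannZeta (((1 / 2 - r : ℝ) : ℂ) + v * I)‖ ^ 2 ≤
        36 * (1 + 1 / r) * T ^ (7 * ε / 16) := by
    intro v hv
    obtain ⟨hv1, hv2⟩ := abs_le.1 hv
    have h2 := Pool.Agent.Lib.ZetaConv.zeta_left (x := r) (t := v) hr0.le (by linarith)
      (by linarith)
    have h3 := step1 v hv
    have h4 : v ^ r ≤ (2 * T) ^ r := Real.rpow_le_rpow (by linarith) (by linarith) hr0.le
    have h5 : ((2 * T) ^ r) ^ 2 ≤ 2 * T ^ (ε / 8) := by
      rw [← Real.rpow_natCast, ← Real.rpow_mul (by linarith), Real.mul_rpow (by norm_num) hT0.le]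
      have e1 : r * ((2 : ℕ) : ℝ) = ε / 8 := by
        rw [hr]
        push_cast
        ring
      rw [e1]
      have : (2 : ℝ) ^ (ε / 8) ≤ 2 ^ (1 : ℝ) :=
        Real.rpow_le_rpow_of_exponent_le (by norm_num) (by linarith)
      rw [Real.rpow_one] at this
      gcongr
    have h6 : 0 ≤ v ^ r := Real.rpow_nonneg (by linarith) _
    calc ‖riemannZeta (((1 / 2 - r : ℝ) : ℂ) + v * I)‖ ^ 2
        ≤ (3 * v ^ r * ‖riemannZeta (((1 / 2 + r : ℝ) : ℂ) + v * I)‖) ^ 2 := by
          gcongr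
      _ = 9 * (v ^ r) ^ 2 * ‖riemannZeta (((1 / 2 + r : ℝ) : ℂ) + v * I)‖ ^ 2 := by ring
      _ ≤ 9 * ((2 * T) ^ r) ^ 2 * (2 * (1 + 1 / r) * T ^ (5 * ε / 16)) := by gcongr
      _ ≤ 9 * (2 * T ^ (ε / 8)) * (2 * (1 + 1 / r) * T ^ (5 * ε / 16)) := by gcongr
      _ = 36 * (1 + 1 / r) * (T ^ (ε / 8) * T ^ (5 * ε / 16)) := by ring
      _ = 36 * (1 + 1 / r) * T ^ (7 * ε / 16) := by
          rw [← Real.rpow_add hT0]
          congr 2
          ring
  -- the end
  have hs4 : |s.im - T| ≤ R + L := hs3.trans (by linarith)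
  obtain ⟨hs5, hs6⟩ := abs_le.1 hs3
  have h2 := sm (1 / 2 - r) s.im (s.re - (1 / 2 - r)) (by linarith) (by linarith) hs4
    (by linarith) (by linarith)
  have e1 : (((1 / 2 - r) + (s.re - (1 / 2 - r)) : ℝ) : ℂ) + s.im * I = s := by
    have : (1 / 2 - r) + (s.re - (1 / 2 - r)) = s.re := by ring
    rw [this]
    exact Complex.re_add_im s
  rw [e1] at h2
  have h3 : ∫ v in (s.im - L)..(s.im + L),
      ‖riemannZeta (((1 / 2 - r : ℝ) : ℂ) + v * I)‖ ^ 2 ≤
        72 * L * (1 + 1 / r) * T ^ (7 * ε / 16) := by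
    have hc : Continuous (fun v : ℝ => ‖riemannZeta (((1 / 2 - r : ℝ) : ℂ) + v * I)‖ ^ 2) :=
      ((cont_line (1 / 2 - r) (by linarith)).norm).pow 2
    have hk : Continuous (fun _ : ℝ => 36 * (1 + 1 / r) * T ^ (7 * ε / 16)) :=
      continuous_const
    have h4 := intervalIntegral.integral_mono_on (μ := volume) (a := s.im - L)
      (b := s.im + L) (by linarith) (hc.intervalIntegrable _ _) (hk.intervalIntegrable _ _)
      (fun v hv => step2 v (abs_le.2 ⟨by linarith [hv.1], by linarith [hv.2]⟩))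
    rw [intervalIntegral.integral_const, smul_eq_mul] at h4
    calc _ ≤ _ := h4
      _ = 72 * L * (1 + 1 / r) * T ^ (7 * ε / 16) := by ring
  have h4 := hTe (7 * ε / 16) (by positivity)
  have h5 : ‖riemannZeta s‖ ^ 2 ≤ (T ^ ε) ^ 2 := by
    calc ‖riemannZeta s‖ ^ 2
        ≤ 2 * T ^ (ε / 16) * (1 + 1 / r * (72 * L * (1 + 1 / r) * T ^ (7 * ε / 16))) := by
          refine h2.trans ?_
          gcongr
      _ ≤ 2 * T ^ (ε / 16) * (T ^ (7 * ε / 16) +
          1 / r * (72 * L * (1 + 1 / r) * T ^ (7 * ε / 16))) := by gcongr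
      _ = B * (T ^ (ε / 16) * T ^ (7 * ε / 16)) := by
          rw [hB]
          ring
      _ = B * T ^ (ε / 2) := by
          rw [← Real.rpow_add hT0]
          congr 2
          ring
      _ ≤ T ^ (3 * ε / 2) * T ^ (ε / 2) := by
          gcongr
          exact hT₁ T hTa
      _ = (T ^ ε) ^ 2 := by
          rw [← Real.rpow_add hT0, ← Real.rpow_natCast, ← Real.rpow_mul hT0.le]
          congr 1
          push_cast
          ring
  exact (pow_le_pow_iff_left₀ (norm_nonneg _) (by positivity) (by norm_num)).1 h5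

end Pool.Agent.DBC
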