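import Pool.Agent.DBC.Targets5
import Pool.Agent.DBN.Down2
import Pool.Agent.DBN.ZA

/-!
# DBC, target `Y_XU`: upper bound for `xi` on a set of heights
-/

set_option autoImplicit false

namespace Pool.Agent.DBC

open Complex MeasureTheory Set Filter Topology
open Pool.Agent.DBN

namespace XU4_

theorem half_le_mm {l : ℝ} (hl : 0 < l) (x : ℝ) : |x| / 2 ≤ mm l x := by
  unfold mm
  split_ifs with h
  · have h1 : l / 16 + x ^ 2 / l - |x| / 2 = (|x| - l / 4) ^ 2 / l := by
      rw [← sq_abs x]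
      field_simp
      ring
    have h2 : 0 ≤ (|x| - l / 4) ^ 2 / l := by positivity
    linarith
  · exact le_rfl

theorem norm_xi_abs (T : ℝ) (w : ℂ) : ‖xi (1 / 2 + T * I + w)‖ =
    ‖xi (((1 / 2 + |w.re| : ℝ) : ℂ) + ((T + w.im : ℝ) : ℂ) * I)‖ := by
  rcases le_total 0 w.re with h | h
  · rw [abs_of_nonneg h]
    congr 2
    apply Complex.ext <;> simp
  · rw [abs_of_nonpos h, ← norm_xi_symm]
    congr 2
    apply Complex.ext
    · simp
      ring
    · simp

end XU4_

open XU4_ in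
theorem s_XU : Y_XU := by
  intro G l hl hU ε κ R hε hκ hR
  obtain ⟨C₁, hC₁, h1⟩ := xi_quarter_le ε κ hε hκ
  obtain ⟨T₁, h2⟩ := hU (ε / 2) (R + 1) (half_pos hε) (by linarith)
  obtain ⟨C₂, hC21, h3⟩ := xi_two 1
  have hC₂ : 0 < C₂ := by linarith
  set E : ℝ := 2 ^ (7 / 4 : ℝ) * Real.exp (Real.pi * R / 4) with hE
  have hE0 : 0 < E := by positivity
  refine ⟨C₁ + C₂ * (2 * E), max T₁ (2 * R + 4), by positivity,
    (by linarith : (2 : ℝ) ≤ 2 * R + 4).trans (le_max_right _ _), fun T w hG hT hw => ?_⟩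
  have hTa : T₁ ≤ T := (le_max_left _ _).trans hT
  have hTb : 2 * R + 4 ≤ T := (le_max_right _ _).trans hT
  have hT2 : 2 ≤ T := by linarith
  have hT0 : 0 < T := by linarith
  have hT1 : 1 ≤ T := by linarith
  have hs := size_pos hT0
  have hlog : 0 ≤ Real.log T := Real.log_nonneg hT1
  have hexp : 1 ≤ Real.exp (κ * ‖w‖ ^ 2 * Real.log T) := Real.one_le_exp (by positivity)
  have hm := half_le_mm hl w.re
  rcases le_total (1 / 2) |w.re| with hx | hx
  · refine (h1 T w hT2).trans ?_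
    simp only
    rw [max_eq_left (by linarith)]
    gcongr
    · linarith [show 0 ≤ C₂ * (2 * E) by positivity]
  · obtain ⟨hw1, hw2⟩ := abs_le.mp hw
    set T' : ℝ := T + w.im with hT'
    set x : ℝ := 1 / 2 + |w.re| with hxd
    have hx0 : 0 ≤ |w.re| := abs_nonneg _
    have hT'2 : 2 ≤ T' := by linarith
    have hT'0 : 0 < T' := by linarith
    have hs' := size_pos hT'0
    obtain ⟨h4, -⟩ := h3 x T' (by rw [abs_of_pos (by linarith)]; linarith) hT'2
    have h5 : ‖riemannZeta ((x : ℂ) + (T' : ℂ) * I)‖ ≤ T ^ (ε / 2) := by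
      apply h2 T hG hTa
      · simp
        linarith
      · simp
        linarith
      · simp only [add_im, ofReal_im, mul_im, ofReal_re, I_im, mul_one, I_re, mul_zero,
          add_zero, zero_add]
        rw [hT', add_sub_cancel_left]
        linarith
    have he : (x - 1 / 2) / 2 = |w.re| / 2 := by rw [hxd]; ring
    rw [he] at h4
    have h6 : T' ^ (|w.re| / 2) ≤ 2 * T ^ (|w.re| / 2) := by
      refine (rpow_shift_le hT0 (by linarith) (by linarith) _).trans ?_
      gcongr
      rw [abs_of_nonneg (by linarith)]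
      calc (2 : ℝ) ^ (|w.re| / 2) ≤ 2 ^ (1 : ℝ) :=
            Real.rpow_le_rpow_of_exponent_le (by norm_num) (by linarith)
        _ = 2 := Real.rpow_one _
    have h7 : size T' ≤ E * size T := by
      refine size_shift_le hT0 (by linarith) (by linarith) ?_
      rw [hT', add_sub_cancel_left]
      exact hw
    have h8 : T ^ (|w.re| / 2) * T ^ (ε / 2) ≤ T ^ (mm l w.re + ε) := by
      rw [← Real.rpow_add hT0]
      exact Real.rpow_le_rpow_of_exponent_le hT1 (by linarith)
    rw [norm_xi_abs]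
    calc ‖xi ((x : ℂ) + (T' : ℂ) * I)‖
        ≤ C₂ * (T' ^ (|w.re| / 2) * size T' * ‖riemannZeta ((x : ℂ) + (T' : ℂ) * I)‖) := h4
      _ ≤ C₂ * ((2 * T ^ (|w.re| / 2)) * (E * size T) * T ^ (ε / 2)) := by gcongr
      _ = C₂ * (2 * E) * size T * (T ^ (|w.re| / 2) * T ^ (ε / 2)) * 1 := by ring
      _ ≤ (C₁ + C₂ * (2 * E)) * size T * T ^ (mm l w.re + ε) *
          Real.exp (κ * ‖w‖ ^ 2 * Real.log T) := by
        gcongr
        linarith

end Pool.Agent.DBC
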