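import Pool.Agent.DBC.Final3
import Pool.Agent.DBC.S_BD
import Pool.Agent.DBC.S_NE
import Pool.Agent.DBC.S_OA
import Pool.Agent.DBC.S_OB
import Pool.Agent.DBC.S_UP
import Pool.Agent.DBC.S_LO
import Pool.Agent.DBC.S_GD
import Pool.Agent.DBC.S_CM
import Pool.Agent.DBC.S_ZE
import Pool.Agent.DBC.S_SP
import Pool.Agent.DBC.S_HT
import Pool.Agent.DBC.S_XU
import Pool.Agent.DBC.S_XL
import Pool.Agent.DBC.S_DG
import Pool.Agent.DBC.S_CH
import Pool.Agent.DBC.S_SM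
import Pool.Agent.DBC.S_U1
import Pool.Agent.DBC.S_MU
import Pool.Agent.DBC.S_L1
import Pool.Agent.DBC.S_PL
import Pool.Agent.DBC.S_MF
import Pool.Agent.DBC.S_GT
import Pool.Agent.DBC.S_LT
import Pool.Agent.DBC.S_AR
import Pool.Agent.DBC.S_MM
import Pool.Agent.DBC.S_ML
import Pool.Agent.DBC.S_AA

/-!
# Real zeros of the flow at almost all heights: the theorem
-/

set_option autoImplicit false

namespace Pool.Agent.DBC

open Complex MeasureTheory Set Filter Topology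
open Pool.Agent.DBN

lemma ht4 : Y_HT :=
  have hder := p_DER p_IGR
  have hgd := s_GD q_BCL hder (s_UP s_BD q_INC) (s_LO p_IGR (s_NE q_BCL sdh3) (s_OA s_BD p_INA))
  s_HT (s_ZE p_SPL p_CNJ hder hgd (s_CM hder hgd (s_OB s_BD p_INB)))
    (s_SP p_SPL p_CNJ hder hgd p_ANG)

/-- the theorem -/
theorem almostAll : Y_AA :=
  s_AA (s_DG ht4 s_XU s_XL) (s_MU s_CH (s_U1 s_SM))
    (s_ML s_CH (s_L1 s_SM) (s_MM s_PL s_MF (s_LT s_GT) s_AR))

end Pool.Agent.DBC
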