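import Pool.Agent.DBC.Targets
import Pool.Agent.DBN.Final

/-!
# Reality of the zeros of `H_t` beyond `exp (c / t)` and the Lindelof hypothesis: assembly
-/

set_option autoImplicit false

namespace Pool.Agent.DBC

open Complex MeasureTheory Set Filter Topology
open Pool.Agent.DBN

lemma realZ_of_regular {c₁ c₂ : ℝ} (h : Regular c₁ c₂) : RealZ c₁ c₂ := by
  intro K hK
  obtain ⟨t₀, h0, h1⟩ := h K 1 hK one_pos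
  exact ⟨t₀, h0, fun t ht ht' z hz h2 h3 h4 => ((h1 t ht ht').1 z hz h2 h3 h4).1⟩

/-- the positive part -/
lemma regular_of (hH : T_HTR) (hC : T_CLS) {Λ : ℝ} (hΛ : ∀ c : ℝ, GrowthLe c (c / 16) ↔ Λ ≤ c)
    {c₁ c₂ : ℝ} (h1 : Λ < c₁) (h2 : 2 < c₁) (h3 : c₁ ≤ c₂) : Regular c₁ c₂ := by
  refine hC c₁ c₂ (by linarith) (hH (max Λ 2) c₁ c₂ ?_ ?_ ?_ h2 h3)
  · exact lt_of_lt_of_le two_pos (le_max_right _ _)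
  · exact (hΛ _).mpr (le_max_left _ _)
  · exact max_lt h1 h2

/-- the converse -/
lemma le_of_realZ (hV : T_CVR) {Λ : ℝ} (hΛ : ∀ c : ℝ, GrowthLe c (c / 16) ↔ Λ ≤ c)
    {c₁ c₂ : ℝ} (h0 : 0 ≤ c₁) (h1 : c₁ < c₂) (h : RealZ c₁ c₂) : Λ ≤ c₁ := by
  by_contra hc
  push Not at hc
  have hm : c₁ < min Λ c₂ := lt_min hc h1
  have h4 := (hΛ _).mp (hV c₁ c₂ ((c₁ + min Λ c₂) / 2) h (by linarith) (by linarith)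
    (by have := min_le_right Λ c₂; linarith))
  have := min_le_left Λ c₂
  linarith

/-- the theorem -/
theorem main_of (hH : T_HTR) (hC : T_CLS) (hV : T_CVR) :
    (∃ Λ : ℝ, 0 ≤ Λ ∧ Λ ≤ 27 / 10 ∧ (∀ c : ℝ, FewZeros c ↔ Λ ≤ c) ∧
      (∀ c : ℝ, Growth c (c / 16) ↔ Λ ≤ c) ∧ (LH ↔ Λ = 0) ∧
      (∀ c₁ c₂ : ℝ, Λ < c₁ → 2 < c₁ → c₁ ≤ c₂ → Regular c₁ c₂) ∧
      (∀ c₁ c₂ : ℝ, 0 ≤ c₁ → c₁ < c₂ → RealZ c₁ c₂ → Λ ≤ c₁) ∧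
      MuLe (1 / 2) (Λ / 16) ∧ MuLe (1 / 2 + Λ / 4) 0 ∧
      (∀ a : ℝ, 0 < a → a ≤ 1 / 4 → MuLe (1 / 2) a → Λ ≤ 2 / (1 - 2 * a)) ∧
      (∀ τ : ℝ, 0 ≤ τ → MuLe (1 / 2 + τ) 0 → Λ ≤ 8 * τ)) ∧
    (∀ c A : ℝ, Growth c A ↔
      ∀ α : ℝ, 0 ≤ α → α ≤ 1 → SumLe α (A - c * (α - 1 / 2) ^ 2 / 4)) ∧
    (∀ c A : ℝ, 0 < c → (Growth c A ↔ ∀ σ : ℝ, MuLe (1 / 2 + σ) (A + σ ^ 2 / c - σ / 2))) ∧
    (∀ c A : ℝ, Growth c A → max 0 (c / 16) ≤ A) ∧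
    (LH ↔ ∀ c : ℝ, Growth c (max 0 (c / 16))) ∧
    (LH ↔ ∀ c : ℝ, c < 0 → Growth c 0) := by
  obtain ⟨⟨Λ, h1, h2, h3, h4, h5, h6, h7, h8, h9⟩, h10⟩ := main
  have hΛ : ∀ c : ℝ, GrowthLe c (c / 16) ↔ Λ ≤ c := by
    intro c
    rw [← growth_iff]
    exact h4 c
  exact ⟨⟨Λ, h1, h2, h3, h4, h5, fun c₁ c₂ a b d => regular_of hH hC hΛ a b d,
    fun c₁ c₂ a b d => le_of_realZ hV hΛ a b d, h6, h7, h8, h9⟩, h10⟩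

end Pool.Agent.DBC
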