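import Pool.Agent.DBC.Targets2
import Pool.Agent.DBC.Asm

/-!
# The exact reality threshold of the flow: assembly
-/

set_option autoImplicit false

namespace Pool.Agent.DBC

open Complex MeasureTheory Set Filter Topology
open Pool.Agent.DBN

/-- the positive part -/
lemma regular_of2 (hH : U_HT2) (hC : T_CLS) {Λ : ℝ} (hΛ : ∀ c : ℝ, GrowthLe c (c / 16) ↔ Λ ≤ c)
    {c c₁ c₂ : ℝ} (h0 : 0 ≤ c) (h1 : Λ ≤ c) (hz : ZeroFree c) (h2 : c < c₁) (h3 : c₁ ≤ c₂) :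
    Regular c₁ c₂ := by
  set l : ℝ := (c + c₁) / 2 with hl
  refine hC c₁ c₂ (by linarith) (hH l c₁ c₂ (by linarith) ((hΛ l).mpr (by linarith)) ?_
    (by linarith) h3)
  obtain ⟨T₀, h4⟩ := hz ((c₁ - c) / 8) (by linarith)
  exact ⟨T₀, fun s h5 h6 => h4 s (by linarith) h6⟩

/-- the converse -/
lemma zeroFree_of (hV : U_CV2) {c : ℝ} (h0 : 0 ≤ c)
    (h : ∀ c₁ c₂ : ℝ, c < c₁ → c₁ < c₂ → RealZ c₁ c₂) : ZeroFree c := by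
  intro δ hδ
  obtain ⟨T₀, h1⟩ := hV (c + δ / 2) (c + 2 * δ) (c + δ) (h _ _ (by linarith) (by linarith))
    (by linarith) (by linarith) (by linarith) (δ / 2) (by linarith)
  exact ⟨T₀, fun s h5 h6 => h1 s (by linarith) h6⟩

/-- beyond `c = 2` the zero-free condition is void -/
lemma zeroFree_two {c : ℝ} (hc : 2 ≤ c) : ZeroFree c := by
  intro δ hδ
  refine ⟨0, fun s h1 _ => riemannZeta_ne_zero_of_one_le_re (by linarith)⟩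

/-- the exact reality threshold -/
lemma threshold_of (hH : U_HT2) (hC : T_CLS) (hV : T_CVR) (hV2 : U_CV2) {Λ : ℝ}
    (hΛ : ∀ c : ℝ, GrowthLe c (c / 16) ↔ Λ ≤ c) {c : ℝ} (h0 : 0 ≤ c) :
    ((Λ ≤ c ∧ ZeroFree c) ↔ ∀ c₁ c₂ : ℝ, c < c₁ → c₁ < c₂ → RealZ c₁ c₂) ∧
    ((Λ ≤ c ∧ ZeroFree c) ↔ ∀ c₁ c₂ : ℝ, c < c₁ → c₁ < c₂ → Regular c₁ c₂) := by
  have k1 : (Λ ≤ c ∧ ZeroFree c) → ∀ c₁ c₂ : ℝ, c < c₁ → c₁ < c₂ → Regular c₁ c₂ :=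
    fun h c₁ c₂ h1 h2 => regular_of2 hH hC hΛ h0 h.1 h.2 h1 h2.le
  have k2 : (∀ c₁ c₂ : ℝ, c < c₁ → c₁ < c₂ → RealZ c₁ c₂) → Λ ≤ c ∧ ZeroFree c := by
    intro h
    refine ⟨?_, zeroFree_of hV2 h0 h⟩
    refine le_of_forall_pos_le_add fun ε hε => ?_
    exact le_of_realZ hV hΛ (by linarith) (by linarith : c + ε < c + ε + 1)
      (h (c + ε) (c + ε + 1) (by linarith) (by linarith))
  exact ⟨⟨fun h c₁ c₂ h1 h2 => realZ_of_regular (k1 h c₁ c₂ h1 h2), k2⟩,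
    ⟨k1, fun h => k2 fun c₁ c₂ h1 h2 => realZ_of_regular (h c₁ c₂ h1 h2)⟩⟩

end Pool.Agent.DBC
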