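import Pool.Agent.DBC.Targets3
import Pool.Agent.DBC.Asm2

/-!
# The motion of the zeros off the real line: assembly
-/

set_option autoImplicit false

namespace Pool.Agent.DBC

open Complex MeasureTheory Set Filter Topology
open Pool.Agent.DBN

lemma motion_of (hF : V_FMO) (hH : V_HMO) {Λ : ℝ} (h0 : 0 ≤ Λ)
    (hΛ : ∀ c : ℝ, GrowthLe c (c / 16) ↔ Λ ≤ c) {c : ℝ} (hc : Λ < c) : Motion c := by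
  refine hH c (by linarith) (hF ((Λ + c) / 2) c (by linarith) ((hΛ _).mpr (by linarith))
    (by linarith) ((hΛ _).mpr hc.le))

/-- the theorem -/
theorem main_of3 (hH : U_HT2) (hC : T_CLS) (hV : T_CVR) (hV2 : U_CV2) (hF : V_FMO)
    (hM : V_HMO) :
    (∃ Λ : ℝ, 0 ≤ Λ ∧ Λ ≤ 27 / 10 ∧ (∀ c : ℝ, FewZeros c ↔ Λ ≤ c) ∧
      (∀ c : ℝ, Growth c (c / 16) ↔ Λ ≤ c) ∧ (LH ↔ Λ = 0) ∧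
      (∀ c : ℝ, 0 ≤ c →
        ((Λ ≤ c ∧ ZeroFree c) ↔ ∀ c₁ c₂ : ℝ, c < c₁ → c₁ < c₂ → RealZ c₁ c₂) ∧
        ((Λ ≤ c ∧ ZeroFree c) ↔ ∀ c₁ c₂ : ℝ, c < c₁ → c₁ < c₂ → Regular c₁ c₂)) ∧
      (∀ c : ℝ, 2 ≤ c → ZeroFree c) ∧ (∀ c : ℝ, Λ < c → Motion c) ∧
      MuLe (1 / 2) (Λ / 16) ∧ MuLe (1 / 2 + Λ / 4) 0 ∧
      (∀ a : ℝ, 0 < a → a ≤ 1 / 4 → MuLe (1 / 2) a → Λ ≤ 2 / (1 - 2 * a)) ∧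
      (∀ τ : ℝ, 0 ≤ τ → MuLe (1 / 2 + τ) 0 → Λ ≤ 8 * τ)) ∧
    (∀ c A : ℝ, Growth c A ↔
      ∀ α : ℝ, 0 ≤ α → α ≤ 1 → SumLe α (A - c * (α - 1 / 2) ^ 2 / 4)) ∧
    (∀ c A : ℝ, 0 < c → (Growth c A ↔ ∀ σ : ℝ, MuLe (1 / 2 + σ) (A + σ ^ 2 / c - σ / 2))) ∧
    (∀ c A : ℝ, Growth c A → max 0 (c / 16) ≤ A) ∧
    (LH ↔ ∀ c : ℝ, Growth c (max 0 (c / 16))) ∧
    (LH ↔ ∀ c : ℝ, c < 0 → Growth c 0) := by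
  obtain ⟨⟨Λ, h1, h2, h3, h4, h5, h6, h7, h8, h9⟩, h10⟩ := Pool.Agent.DBN.main
  have hΛ : ∀ c : ℝ, GrowthLe c (c / 16) ↔ Λ ≤ c := by
    intro c
    rw [← growth_iff]
    exact h4 c
  exact ⟨⟨Λ, h1, h2, h3, h4, h5, fun c hc => threshold_of hH hC hV hV2 hΛ hc,
    fun c hc => zeroFree_two hc, fun c hc => motion_of hF hM h1 hΛ hc, h6, h7, h8, h9⟩, h10⟩

/-- the theorem, one statement about the constant `Λ` -/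
theorem main_of4 (hH : U_HT2) (hC : T_CLS) (hV : T_CVR) (hV2 : U_CV2) (hF : V_FMO)
    (hM : V_HMO) :
    ∃ Λ : ℝ, 0 ≤ Λ ∧ Λ ≤ 27 / 10 ∧
      (∀ c : ℝ, 0 ≤ c →
        ((Λ ≤ c ∧ ZeroFree c) ↔ ∀ c₁ c₂ : ℝ, c < c₁ → c₁ < c₂ → RealZ c₁ c₂) ∧
        ((Λ ≤ c ∧ ZeroFree c) ↔ ∀ c₁ c₂ : ℝ, c < c₁ → c₁ < c₂ → Regular c₁ c₂)) ∧
      (∀ c : ℝ, 2 ≤ c → ZeroFree c) ∧ (∀ c : ℝ, Λ < c → Motion c) ∧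
      (∀ c : ℝ, Λ ≤ c ↔ FewZeros c) ∧ (∀ c : ℝ, Λ ≤ c ↔ Growth c (c / 16)) ∧
      (∀ c : ℝ, 0 < c → (Λ ≤ c ↔ ∀ σ : ℝ, MuLe (1 / 2 + σ) (c / 16 + σ ^ 2 / c - σ / 2))) ∧
      (LH ↔ Λ = 0) ∧ MuLe (1 / 2) (Λ / 16) ∧ MuLe (1 / 2 + Λ / 4) 0 ∧
      (∀ a : ℝ, 0 < a → a ≤ 1 / 4 → MuLe (1 / 2) a → Λ ≤ 2 / (1 - 2 * a)) ∧
      (∀ τ : ℝ, 0 ≤ τ → MuLe (1 / 2 + τ) 0 → Λ ≤ 8 * τ) := by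
  obtain ⟨⟨Λ, h1, h2, h3, h4, h5, k1, k2, k3, h6, h7, h8, h9⟩, -, h11, -⟩ :=
    main_of3 hH hC hV hV2 hF hM
  exact ⟨Λ, h1, h2, k1, k2, k3, fun c => (h3 c).symm, fun c => (h4 c).symm,
    fun c hc => (h4 c).symm.trans (h11 c _ hc), h5, h6, h7, h8, h9⟩

end Pool.Agent.DBC
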