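import Pool.Agent.DBN.ZFlow

/-!
# All zeros of `H_t` beyond `exp (c / t)` are real and regularly spaced: definitions

Addition to `MP_4e5e8a_nt.DBNFlow`. `xi`, `flow t`, `size`, `H t`, `XiLe` are those of
`Pool.Agent.DBN`; `H t z = flow t (1 / 2 + I * z / 2) / 8` (`H_eq_flow`).
-/

set_option autoImplicit false

namespace Pool.Agent.DBC

open Complex MeasureTheory Set Filter Topology
open Pool.Agent.DBN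

/-- the point `1 / 2 + x + i τ` -/
noncomputable def pt (x τ : ℝ) : ℂ := ((1 / 2 + x : ℝ) : ℂ) + (τ : ℂ) * I

/-- `∫_0^∞ e^(-u²/t) xi(s + u) du` -/
noncomputable def W (t : ℝ) (s : ℂ) : ℂ :=
  ∫ u in Ioi (0 : ℝ), ((Real.exp (-(u ^ 2 / t)) : ℝ) : ℂ) * xi (s + u)

/-- `∫_0^∞ u e^(-u²/t) xi(s + u) du` -/
noncomputable def V (t : ℝ) (s : ℂ) : ℂ :=
  ∫ u in Ioi (0 : ℝ), ((u * Real.exp (-(u ^ 2 / t)) : ℝ) : ℂ) * xi (s + u)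

/-- the saddle point `t log T / 4` -/
noncomputable def sd (t T : ℝ) : ℝ := t * Real.log T / 4

/-- the main term of `W t s` -/
noncomputable def PP (t T : ℝ) (s : ℂ) : ℂ :=
  ((Real.exp (-(sd t T ^ 2 / t)) * √(Real.pi * t) : ℝ) : ℂ) * xi (s + sd t T)

/-- the exponent function of `xi` for the time `l` -/
noncomputable def mm (l y : ℝ) : ℝ := if |y| ≤ l / 4 then l / 16 + y ^ 2 / l else |y| / 2

/-- the hypotheses of the main part -/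
structure Hyp (l c₁ c₂ K : ℝ) : Prop where
  l0 : 0 < l
  lc : l < c₁
  c2 : 2 < c₁
  cc : c₁ ≤ c₂
  K0 : 0 < K
  xl : XiLe (mm l)

/-- `Q t T x τ` for all large `T`, `c₁ ≤ t log T ≤ c₂`, `-δ ≤ x ≤ K`, `|τ - T| ≤ K` -/
def Ev (c₁ c₂ K δ : ℝ) (Q : ℝ → ℝ → ℝ → ℝ → Prop) : Prop :=
  ∃ T₀ : ℝ, 2 ≤ T₀ ∧ ∀ t T x τ : ℝ, T₀ ≤ T → c₁ ≤ t * Real.log T → t * Real.log T ≤ c₂ →
    -δ ≤ x → x ≤ K → |τ - T| ≤ K → Q t T x τ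

/-- the zeros of `H_t` near `2 T`, `c₁ ≤ t log T ≤ c₂`: real, simple, regularly spaced -/
def Crys (c₁ c₂ : ℝ) : Prop :=
  ∀ K ε : ℝ, 0 < K → 0 < ε → ∃ T₀ : ℝ, 2 ≤ T₀ ∧ ∀ t T : ℝ, T₀ ≤ T →
    c₁ ≤ t * Real.log T → t * Real.log T ≤ c₂ →
    (∀ z : ℂ, ‖z - 2 * T‖ ≤ K → H t z = 0 → z.im = 0 ∧ deriv (H t) z ≠ 0) ∧
    (∀ x y : ℝ, |x - 2 * T| ≤ K → |y - 2 * T| ≤ K → x < y → H t x = 0 → H t y = 0 →
      4 * Real.pi - ε ≤ (y - x) * Real.log T) ∧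
    (∀ x : ℝ, |x - 2 * T| ≤ K → ∃ y : ℝ, x ≤ y ∧ (y - x) * Real.log T ≤ 4 * Real.pi + ε ∧
      H t y = 0)

/-- for small `t > 0` all zeros `z` of `H_t` with `exp (c₁ / t) ≤ Re z / 2 ≤ exp (c₂ / t)` and
`|Im z| ≤ K` are real -/
def RealZ (c₁ c₂ : ℝ) : Prop :=
  ∀ K : ℝ, 0 < K → ∃ t₀ : ℝ, 0 < t₀ ∧ ∀ t : ℝ, 0 < t → t ≤ t₀ → ∀ z : ℂ, |z.im| ≤ K →
    Real.exp (c₁ / t) ≤ z.re / 2 → z.re / 2 ≤ Real.exp (c₂ / t) → H t z = 0 → z.im = 0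

/-- for small `t > 0` all zeros `z` of `H_t` with `exp (c₁ / t) ≤ Re z / 2 ≤ exp (c₂ / t)` and
`|Im z| ≤ K` are real and simple, and consecutive ones have the distance
`(4 π + o(1)) / log (Re z)` -/
def Regular (c₁ c₂ : ℝ) : Prop :=
  ∀ K ε : ℝ, 0 < K → 0 < ε → ∃ t₀ : ℝ, 0 < t₀ ∧ ∀ t : ℝ, 0 < t → t ≤ t₀ →
    (∀ z : ℂ, |z.im| ≤ K → Real.exp (c₁ / t) ≤ z.re / 2 → z.re / 2 ≤ Real.exp (c₂ / t) →
      H t z = 0 → z.im = 0 ∧ deriv (H t) z ≠ 0) ∧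
    (∀ x y : ℝ, Real.exp (c₁ / t) ≤ x / 2 → x / 2 ≤ Real.exp (c₂ / t) → x < y → H t x = 0 →
      H t y = 0 → 4 * Real.pi - ε ≤ (y - x) * Real.log x) ∧
    (∀ x : ℝ, Real.exp (c₁ / t) ≤ x / 2 → x / 2 ≤ Real.exp (c₂ / t) →
      ∃ y : ℝ, x < y ∧ (y - x) * Real.log x ≤ 4 * Real.pi + ε ∧ H t y = 0)

end Pool.Agent.DBC
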