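import Pool.Agent.DBC.Defs

/-!
# The exact reality threshold of the flow: definitions
-/

set_option autoImplicit false

namespace Pool.Agent.DBC

open Complex MeasureTheory Set Filter Topology
open Pool.Agent.DBN

/-- `ζ` has no zeros with `Re s ≥ 1/2 + l/4` and large imaginary part -/
def ZF (l : ℝ) : Prop :=
  ∃ T₀ : ℝ, ∀ s : ℂ, 1 / 2 + l / 4 ≤ s.re → T₀ ≤ s.im → riemannZeta s ≠ 0

/-- for every `δ > 0` the function `ζ` has no zeros with `Re s ≥ 1/2 + c/4 + δ` and large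
imaginary part -/
def ZeroFree (c : ℝ) : Prop :=
  ∀ δ : ℝ, 0 < δ → ∃ T₀ : ℝ, ∀ s : ℂ, 1 / 2 + c / 4 + δ ≤ s.re → T₀ ≤ s.im →
    riemannZeta s ≠ 0

/-- the hypotheses of the main part -/
structure Hyp2 (l c₁ c₂ K : ℝ) : Prop where
  l0 : 0 < l
  lc : l < c₁
  cc : c₁ ≤ c₂
  K0 : 0 < K
  xl : XiLe (mm l)
  ml : MuLe (1 / 2 + l / 4) 0
  zf : ZF l

/-- the flow at the time `c / log T` has no zeros to the right of the critical line near `i T` -/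
def NZ (c : ℝ) : Prop :=
  ∀ K : ℝ, 0 < K → ∃ T₀ : ℝ, 2 ≤ T₀ ∧ ∀ (T : ℝ) (w : ℂ), T₀ ≤ T → 0 < w.re → ‖w‖ ≤ K →
    flow (c / Real.log T) (1 / 2 + T * I + w) ≠ 0

/-- a lower bound for the flow at the time `c / log T` to the right of the critical line -/
def LowAll (c : ℝ) : Prop :=
  ∀ δ K ε : ℝ, 0 < δ → 0 < K → 0 < ε → ∃ T₀ : ℝ, 2 ≤ T₀ ∧ ∀ T x v : ℝ, T₀ ≤ T → δ ≤ x →
    x ≤ K → |v| ≤ 1 → size T * T ^ (x / 2 + c / 16 - ε) ≤
      ‖flow (c / Real.log T) (1 / 2 + T * I + (x + v * I))‖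

/-- `f` and `g` are comparable: `g = g 0 * exp h` -/
def LogOn (g h : ℂ → ℂ) (ρ : ℝ) : Prop :=
  DifferentiableOn ℂ h (Metric.ball 0 ρ) ∧ h 0 = 0 ∧
    ∀ v ∈ Metric.ball (0 : ℂ) ρ, g v = g 0 * exp (h v)

end Pool.Agent.DBC
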