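import Pool.Agent.DBC.Defs2

/-!
# The motion of the zeros off the real line: definitions
-/

set_option autoImplicit false

namespace Pool.Agent.DBC

open Complex MeasureTheory Set Filter Topology
open Pool.Agent.DBN

/-- `Hyp2` without the zero-free region -/
structure Hyp3 (l c₁ c₂ K : ℝ) : Prop where
  l0 : 0 < l
  lc : l < c₁
  cc : c₁ ≤ c₂
  K0 : 0 < K
  xl : XiLe (mm l)
  ml : MuLe (1 / 2 + l / 4) 0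

/-- `ζ` has no zeros in the open disc with centre `s` and radius `r` -/
def NoZ (s : ℂ) (r : ℝ) : Prop := ∀ ρ : ℂ, ‖ρ - s‖ < r → riemannZeta ρ ≠ 0

/-- the zeros of the flow at the time `c / log T` near `i T`, to the right of the critical line,
are the zeros of `ζ` shifted by `-c/4`, up to `o(1)` -/
def FlowMotion (c : ℝ) : Prop :=
  ∀ δ r K : ℝ, 0 < δ → 0 < r → 0 < K → ∃ T₀ : ℝ, 2 ≤ T₀ ∧ ∀ T x v : ℝ, T₀ ≤ T → δ ≤ x →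
    x ≤ K → |v| ≤ 1 / 2 →
    (flow (c / Real.log T) (1 / 2 + T * I + (x + v * I)) = 0 →
      ∃ ρ : ℂ, riemannZeta ρ = 0 ∧ ‖ρ - (1 / 2 + T * I + (x + v * I) + (c / 4 : ℝ))‖ ≤ r) ∧
    (riemannZeta (1 / 2 + T * I + (x + v * I) + (c / 4 : ℝ)) = 0 →
      ∃ w : ℂ, flow (c / Real.log T) (1 / 2 + T * I + w) = 0 ∧ ‖w - (x + v * I)‖ ≤ r)

/-- `t = c / log T`, `T → ∞`: the zeros `z` of `H_t` with `|Re z - 2 T| ≤ 1`, `δ ≤ |Im z| ≤ K`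
are the points `2 γ ± 2 i (β - 1/2 - c/4)`, `ζ(β + i γ) = 0`, up to `o(1)` -/
def Motion (c : ℝ) : Prop :=
  ∀ δ r K : ℝ, 0 < δ → 0 < r → 0 < K → ∃ T₀ : ℝ, 2 ≤ T₀ ∧ ∀ T : ℝ, T₀ ≤ T →
    (∀ z : ℂ, |z.re - 2 * T| ≤ 1 → δ ≤ |z.im| → |z.im| ≤ K → H (c / Real.log T) z = 0 →
      ∃ ρ : ℂ, riemannZeta ρ = 0 ∧ |2 * ρ.im - z.re| ≤ r ∧
        |2 * (ρ.re - 1 / 2 - c / 4) - abs z.im| ≤ r) ∧
    (∀ ρ : ℂ, |ρ.im - T| ≤ 1 / 2 → 1 / 2 + c / 4 + δ ≤ ρ.re → riemannZeta ρ = 0 →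
      ∃ z : ℂ, H (c / Real.log T) z = 0 ∧ |z.re - 2 * ρ.im| ≤ r ∧
        |z.im - 2 * (ρ.re - 1 / 2 - c / 4)| ≤ r)

end Pool.Agent.DBC
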