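import Pool.Agent.DBC.Defs4

/-!
# Many real simple zeros of `H_t`: definitions
-/

set_option autoImplicit false

namespace Pool.Agent.DBC

open Complex MeasureTheory Set Filter Topology
open Pool.Agent.DBN

/-- for `c₁ ≤ t log X ≤ c₂` the function `H_t` has at least `(1 - ε) X log X / (2 π)` real simple
zeros in `[2 X, 4 X]` -/
def ManyReal (c₁ c₂ : ℝ) : Prop :=
  ∀ ε : ℝ, 0 < ε → ∃ X₀ : ℝ, ∀ t X : ℝ, X₀ ≤ X → c₁ ≤ t * Real.log X → t * Real.log X ≤ c₂ →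
    ∃ F : Finset ℝ, (∀ x ∈ F, H t x = 0 ∧ deriv (H t) x ≠ 0 ∧ 2 * X ≤ x ∧ x ≤ 4 * X) ∧
      (1 - ε) * (X * Real.log X / (2 * Real.pi)) ≤ (F.card : ℝ)

end Pool.Agent.DBC
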