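import Pool.Agent.DBC.Targets

/-!
# CLS: the classical form
-/

set_option autoImplicit false

namespace Pool.Agent.DBC

open Complex MeasureTheory Set Filter Topology
open Pool.Agent.DBN

namespace CLS_

theorem range {c₁ c₂ t T : ℝ} (ht : 0 < t) (h1 : Real.exp (c₁ / t) ≤ T)
    (h2 : T ≤ Real.exp (c₂ / t)) : c₁ ≤ t * Real.log T ∧ t * Real.log T ≤ c₂ := by
  have hT : 0 < T := lt_of_lt_of_le (Real.exp_pos _) h1
  have e1 : c₁ / t ≤ Real.log T := (Real.le_log_iff_exp_le hT).2 h1
  have e2 : Real.log T ≤ c₂ / t := (Real.log_le_iff_le_exp hT).2 h2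
  rw [div_le_iff₀ ht] at e1
  rw [le_div_iff₀ ht] at e2
  constructor
  · linarith
  · linarith

end CLS_

theorem p_CLS : T_CLS := by
  intro c₁ c₂ hc₁ hC K ε hK hε
  obtain ⟨T₁, -, hT₁⟩ := hC K ε hK hε
  obtain ⟨T₂, -, hT₂⟩ := hC 1 (ε / 4) one_pos (by positivity)
  set A : ℝ := 1 + 4 * Real.pi + ε / 4 + (8 * Real.pi + ε) / ε with hA
  have hpi := Real.pi_pos
  have hq : 0 < (8 * Real.pi + ε) / ε := by positivity
  have hA1 : 1 ≤ A := by rw [hA]; linarith [hpi, hε, hq]
  have hA2 : 4 * Real.pi ≤ A := by rw [hA]; linarith [hpi, hε, hq]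
  have hA3 : ε / 4 ≤ A := by rw [hA]; linarith [hpi, hε, hq]
  have hA4 : (8 * Real.pi + ε) / ε ≤ A := by rw [hA]; linarith [hpi, hε, hq]
  set B : ℝ := |T₁| + |T₂| + A with hB
  have hB0 : 0 < B := by
    have := abs_nonneg T₁
    have := abs_nonneg T₂
    rw [hB]; linarith
  have hBT₁ : T₁ ≤ Real.exp B := by
    have := Real.add_one_le_exp B
    have := le_abs_self T₁
    have := abs_nonneg T₂
    rw [hB] at *
    linarith
  have hBT₂ : T₂ ≤ Real.exp B := by
    have := Real.add_one_le_exp B
    have := le_abs_self T₂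
    have := abs_nonneg T₁
    rw [hB] at *
    linarith
  have hAB : A ≤ B := by
    have := abs_nonneg T₁
    have := abs_nonneg T₂
    rw [hB]; linarith
  refine ⟨c₁ / B, by positivity, fun t ht htt => ?_⟩
  have hexp : Real.exp B ≤ Real.exp (c₁ / t) := by
    apply Real.exp_le_exp.2
    rw [le_div_iff₀ ht]
    rw [le_div_iff₀ hB0] at htt
    linarith
  -- facts on `T` in the range
  have key : ∀ T : ℝ, Real.exp (c₁ / t) ≤ T → T ≤ Real.exp (c₂ / t) →
      T₁ ≤ T ∧ T₂ ≤ T ∧ c₁ ≤ t * Real.log T ∧ t * Real.log T ≤ c₂ ∧ 0 < T ∧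
        A ≤ Real.log T := by
    intro T h1 h2
    have h3 := CLS_.range ht h1 h2
    have hT : 0 < T := lt_of_lt_of_le (Real.exp_pos _) h1
    refine ⟨hBT₁.trans (hexp.trans h1), hBT₂.trans (hexp.trans h1), h3.1, h3.2, hT, ?_⟩
    exact hAB.trans ((Real.le_log_iff_exp_le hT).2 (hexp.trans h1))
  refine ⟨fun z hz h1 h2 h0 => ?_, fun x y h1 h2 hxy hx hy => ?_, fun x h1 h2 => ?_⟩
  · obtain ⟨k1, -, k3, k4, k5, k6⟩ := key _ h1 h2
    refine (hT₁ t (z.re / 2) k1 k3 k4).1 z ?_ h0
    have e : z - 2 * ((z.re / 2 : ℝ) : ℂ) = (z.im : ℂ) * I := by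
      apply Complex.ext <;> simp
      ring
    rw [e, norm_mul, Complex.norm_I, mul_one, Complex.norm_real, Real.norm_eq_abs]
    exact hz
  · obtain ⟨-, k2, k3, k4, k5, k6⟩ := key _ h1 h2
    have hlog : Real.log x = Real.log (x / 2) + Real.log 2 := by
      rw [← Real.log_mul k5.ne' two_ne_zero]
      congr 1
      ring
    have hl2 : 0 < Real.log 2 := Real.log_pos one_lt_two
    by_cases hd : y - x ≤ 1
    · have h3 := (hT₂ t (x / 2) k2 k3 k4).2.1 x y (by
        rw [abs_le]; constructor <;> linarith) (by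
        rw [abs_le]; constructor <;> linarith) hxy hx hy
      have h4 : (y - x) * Real.log (x / 2) ≤ (y - x) * Real.log x := by
        apply mul_le_mul_of_nonneg_left _ (by linarith)
        linarith
      linarith
    · push Not at hd
      have h5 : Real.log x ≤ (y - x) * Real.log x := by
        have : 0 ≤ Real.log x := by linarith
        nlinarith
      linarith
  · obtain ⟨-, k2, k3, k4, k5, k6⟩ := key _ h1 h2
    have hlog : Real.log x = Real.log (x / 2) + Real.log 2 := by
      rw [← Real.log_mul k5.ne' two_ne_zero]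
      congr 1
      ring
    have hl2 : 0 < Real.log 2 := Real.log_pos one_lt_two
    have hl2' : Real.log 2 ≤ 1 := by
      have := Real.log_two_lt_d9
      linarith
    set L := Real.log (x / 2) with hL
    have hL0 : 0 < L := by linarith
    have hs : ε / 4 / L ≤ 1 := by
      rw [div_le_one hL0]
      linarith
    have hs0 : 0 < ε / 4 / L := by positivity
    obtain ⟨y, hy1, hy2, hy3⟩ := (hT₂ t (x / 2) k2 k3 k4).2.2 (x + ε / 4 / L) (by
      rw [abs_le]; constructor <;> linarith)
    refine ⟨y, by linarith, ?_, hy3⟩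
    have e1 : (y - x) * L ≤ 4 * Real.pi + ε / 2 := by
      have : (y - x) * L = (y - (x + ε / 4 / L)) * L + ε / 4 := by
        field_simp
        ring
      rw [this, hL]
      linarith
    have e2 : (y - x) * Real.log 2 ≤ ε / 2 := by
      have h6 : (8 * Real.pi + ε) ≤ ε * L := by
        have := hA4.trans k6
        rw [div_le_iff₀ hε] at this
        linarith
      have h7 : (y - x) * Real.log 2 ≤ y - x := by
        have : 0 ≤ y - x := by linarith
        nlinarith
      have h8 : y - x ≤ ε / 2 := by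
        by_contra hcon
        push Not at hcon
        have : ε / 2 * L < (y - x) * L := mul_lt_mul_of_pos_right hcon hL0
        linarith
      linarith
    rw [hlog, mul_add]
    linarith

end Pool.Agent.DBC
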