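import Pool.Agent.DBC.Targets
import Pool.Agent.DBN.ZMain

/-!
# CVR: the converse
-/

set_option autoImplicit false

namespace Pool.Agent.DBC

open Complex MeasureTheory Set Filter Topology
open Pool.Agent.DBN

namespace CVR_

theorem diff_H (t : ℝ) : Differentiable ℂ (H t) := by
  have h1 : H t = fun z => flow t (1 / 2 + I * z / 2) / 8 := by
    funext z
    rw [H_eq_flow]
  rw [h1]
  refine Differentiable.div_const ?_ 8
  exact (differentiable_flow t).comp (by fun_prop)

theorem count_zero (t : ℝ) (s : ℂ) (r : ℝ)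
    (h : ∀ z : ℂ, z ∈ Metric.closedBall s r → H t z ≠ 0) : zeroCount (H t) s r = 0 := by
  unfold zeroCount
  refine finsum_eq_zero_of_forall_eq_zero fun u => ?_
  rw [MeromorphicOn.divisor_def]
  split_ifs with hu
  · have ha : AnalyticAt ℂ (H t) u := (diff_H t).analyticAt u
    have h1 : meromorphicOrderAt (H t) u = 0 := by
      rw [ha.meromorphicOrderAt_eq, ha.analyticOrderAt_eq_zero.2 (h u hu.2)]
      rfl
    rw [h1]
    rfl
  · rfl

theorem exp_low {a : ℝ} (ha : a < 1) (K : ℝ) :
    ∀ᶠ T : ℝ in atTop, Real.exp (a * Real.log T) ≤ T - K := by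
  have e1 : ∀ᶠ T : ℝ in atTop, Real.log 2 / (1 - a) ≤ Real.log T :=
    Real.tendsto_log_atTop.eventually_ge_atTop _
  filter_upwards [e1, eventually_gt_atTop (0 : ℝ), eventually_ge_atTop (2 * K)] with T h1 h2 h3
  have ha' : 0 < 1 - a := by linarith
  rw [div_le_iff₀ ha'] at h1
  have h4 : a * Real.log T ≤ Real.log (T / 2) := by
    rw [Real.log_div h2.ne' two_ne_zero]
    linarith
  have h5 : Real.exp (a * Real.log T) ≤ T / 2 := by
    calc Real.exp (a * Real.log T) ≤ Real.exp (Real.log (T / 2)) := Real.exp_le_exp.2 h4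
      _ = T / 2 := Real.exp_log (by linarith)
  linarith

theorem exp_high {b : ℝ} (hb : 1 < b) (K : ℝ) :
    ∀ᶠ T : ℝ in atTop, T + K ≤ Real.exp (b * Real.log T) := by
  have e1 : ∀ᶠ T : ℝ in atTop, Real.log 2 / (b - 1) ≤ Real.log T :=
    Real.tendsto_log_atTop.eventually_ge_atTop _
  filter_upwards [e1, eventually_gt_atTop (0 : ℝ), eventually_ge_atTop K] with T h1 h2 h3
  have hb' : 0 < b - 1 := by linarith
  rw [div_le_iff₀ hb'] at h1
  have h4 : Real.log (2 * T) ≤ b * Real.log T := by
    rw [Real.log_mul two_ne_zero h2.ne']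
    linarith
  have h5 : 2 * T ≤ Real.exp (b * Real.log T) := by
    calc 2 * T = Real.exp (Real.log (2 * T)) := (Real.exp_log (by linarith)).symm
      _ ≤ Real.exp (b * Real.log T) := Real.exp_le_exp.2 h4
  linarith

end CVR_

open CVR_

theorem p_CVR : T_CVR := by
  intro c₁ c₂ c hR hc h1 h2
  rw [← few_growth]
  intro w r hr hrw η hη
  have hK : 0 < ‖w‖ + r := by positivity
  obtain ⟨t₀, ht₀, hz⟩ := hR (‖w‖ + r) hK
  have ha : c₁ / c < 1 := (div_lt_one hc).2 h1
  have hb : 1 < c₂ / c := (one_lt_div hc).2 h2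
  have e1 : ∀ᶠ T : ℝ in atTop, c / t₀ ≤ Real.log T :=
    Real.tendsto_log_atTop.eventually_ge_atTop _
  have e2 : ∀ᶠ T : ℝ in atTop, (zeroCount (H (c / Real.log T)) (2 * T + w) r : ℝ) ≤
      η * Real.log T := by
    filter_upwards [e1, eventually_gt_atTop (1 : ℝ), exp_low ha (‖w‖ + r),
      exp_high hb (‖w‖ + r)] with T g1 g2 g3 g4
    have hL : 0 < Real.log T := Real.log_pos g2
    rw [count_zero]
    · rw [Int.cast_zero]
      positivity
    · intro z hzb h0
      have hzb' : ‖z - (2 * T + w)‖ ≤ r := by
        rw [← dist_eq_norm]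
        exact hzb
      set d : ℂ := z - (2 * T + w) with hd
      have him : z.im = w.im + d.im := by
        rw [hd]
        simp
      have hre : z.re = 2 * T + w.re + d.re := by
        rw [hd]
        simp
      have hdi : |d.im| ≤ r := (abs_im_le_norm d).trans hzb'
      have hdr : |d.re| ≤ r := (abs_re_le_norm d).trans hzb'
      have hwi : |w.im| ≤ ‖w‖ := abs_im_le_norm w
      have hwr : |w.re| ≤ ‖w‖ := abs_re_le_norm w
      have k1 : |z.im| ≤ ‖w‖ + r := by
        rw [him]
        exact (abs_add_le _ _).trans (add_le_add hwi hdi)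
      have k2 : z.im ≠ 0 := by
        intro h
        rw [him] at h
        have : w.im = -d.im := by linarith
        rw [this, abs_neg] at hrw
        linarith
      have k3 : |z.re / 2 - T| ≤ ‖w‖ + r := by
        have e : z.re / 2 - T = (w.re + d.re) / 2 := by
          rw [hre]
          ring
        rw [e, abs_div, abs_two]
        have := abs_add_le w.re d.re
        have := norm_nonneg w
        linarith
      have k4 := abs_le.1 k3
      have ht : 0 < c / Real.log T := by positivity
      have q1 : c₁ / (c / Real.log T) = c₁ / c * Real.log T := by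
        field_simp
      have q2 : c₂ / (c / Real.log T) = c₂ / c * Real.log T := by
        field_simp
      have q3 : c / Real.log T ≤ t₀ := by
        rw [div_le_iff₀ ht₀] at g1
        rw [div_le_iff₀ hL]
        linarith
      refine k2 (hz (c / Real.log T) ht q3 z k1 ?_ ?_ h0)
      · rw [q1]
        linarith [k4.1]
      · rw [q2]
        linarith [k4.2]
  exact eventually_atTop.1 e2

end Pool.Agent.DBC
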