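import Pool.Agent.DBC.Targets

/-!
# DBC, target `T_INA`
-/

set_option autoImplicit false

namespace Pool.Agent.DBC

namespace INA_

/-- the inequality without `κ u²` -/
theorem step {l c₁ c₂ δ r c x u : ℝ} (hl : 0 < l) (h1 : l < c₁) (hc1 : c₁ ≤ c) (hc2 : c ≤ c₂)
    (hδ0 : 0 ≤ δ) (hδ : δ ≤ l / 4) (hr : 0 < r) (hx : -δ ≤ x) (hu : 0 ≤ u)
    (hru : r ≤ |u - c / 4|) :
    mm l (x + u) - u ^ 2 / c ≤
      c / 16 + x / 2 - min ((c₁ - l) ^ 2 / (16 * c₂)) (r ^ 2 / c₂) + δ := by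
  have hc0 : 0 < c := by linarith
  have hc20 : 0 < c₂ := by linarith
  unfold mm
  split_ifs with h
  · have h2 : min ((c₁ - l) ^ 2 / (16 * c₂)) (r ^ 2 / c₂) ≤ (c - l) ^ 2 / (16 * c) := by
      refine (min_le_left _ _).trans ?_
      gcongr
    obtain ⟨y, hy⟩ : ∃ y, y = x + u := ⟨_, rfl⟩
    have hu' : u = y - x := by linarith
    rw [← hy] at h
    rw [← hy, hu']
    have h3 : y ^ 2 ≤ (l / 4) ^ 2 := sq_le_sq' (by linarith [neg_abs_le y]) (by
      linarith [le_abs_self y])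
    have h4 : 0 ≤ 1 / l - 1 / c := by
      have : 1 / c ≤ 1 / l := one_div_le_one_div_of_le hl (by linarith)
      linarith
    have h5 : y ^ 2 * (1 / l - 1 / c) ≤ (l / 4) ^ 2 * (1 / l - 1 / c) := by gcongr
    have h6 : x * y ≤ |x| * (l / 4) := by
      calc x * y ≤ |x * y| := le_abs_self _
        _ = |x| * |y| := abs_mul _ _
        _ ≤ |x| * (l / 4) := by gcongr
    have h7 : 2 * (x * y) / c ≤ |x| / 2 := by
      rw [div_le_iff₀ hc0]
      have : |x| * l ≤ |x| * c := by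
        gcongr
        linarith
      linarith
    have h8 : |x| / 2 ≤ x / 2 + δ := by
      rcases abs_cases x with ⟨h9, h10⟩ | ⟨h9, h10⟩ <;> rw [h9] <;> linarith
    have h9 : y ^ 2 / l - (y - x) ^ 2 / c =
        y ^ 2 * (1 / l - 1 / c) + 2 * (x * y) / c - x ^ 2 / c := by
      field_simp
      ring
    have h10 : l / 16 + (l / 4) ^ 2 * (1 / l - 1 / c) = c / 16 - (c - l) ^ 2 / (16 * c) := by
      field_simp
      ring
    have h11 : 0 ≤ x ^ 2 / c := by positivity
    linarith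
  · have h2 : min ((c₁ - l) ^ 2 / (16 * c₂)) (r ^ 2 / c₂) ≤ (u - c / 4) ^ 2 / c := by
      refine (min_le_right _ _).trans ?_
      rw [← sq_abs (u - c / 4)]
      gcongr
    have h3 : 0 < x + u := by
      by_contra h4
      have h5 : |x + u| = -(x + u) := abs_of_nonpos (by linarith)
      rw [h5] at h
      linarith
    rw [abs_of_pos h3]
    have h4 : (x + u) / 2 - u ^ 2 / c = c / 16 + x / 2 - (u - c / 4) ^ 2 / c := by
      field_simp
      ring
    linarith

end INA_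

open INA_ in
theorem p_INA : T_INA := by
  intro l c₁ c₂ K r hl h1 h2 hK hr
  have hc1 : 0 < c₁ := by linarith
  have hc2 : 0 < c₂ := by linarith
  obtain ⟨g, hg⟩ : ∃ g, g = min ((c₁ - l) ^ 2 / (16 * (c₂ + 1))) ((r / 2) ^ 2 / (c₂ + 1)) :=
    ⟨_, rfl⟩
  have hg0 : 0 < g := by
    rw [hg]
    have : 0 < c₁ - l := by linarith
    exact lt_min (by positivity) (by positivity)
  obtain ⟨δ, hδ⟩ : ∃ δ, δ = min (l / 4) (g / 4) := ⟨_, rfl⟩
  have hδ0 : 0 < δ := by
    rw [hδ]
    exact lt_min (by positivity) (by positivity)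
  have hδ1 : δ ≤ l / 4 := by
    rw [hδ]
    exact min_le_left _ _
  have hδ2 : δ ≤ g / 4 := by
    rw [hδ]
    exact min_le_right _ _
  obtain ⟨η, hη⟩ : ∃ η, η = min (min 1 (2 * r)) (8 * g) := ⟨_, rfl⟩
  have hη0 : 0 < η := by
    rw [hη]
    exact lt_min (lt_min one_pos (by positivity)) (by positivity)
  have hη1 : η ≤ 1 := by
    rw [hη]
    exact (min_le_left _ _).trans (min_le_left _ _)
  have hη2 : η ≤ 2 * r := by
    rw [hη]
    exact (min_le_left _ _).trans (min_le_right _ _)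
  have hη3 : η ≤ 8 * g := by
    rw [hη]
    exact min_le_right _ _
  refine ⟨δ, g / 4, η / (c₂ * (c₂ + 1)), hδ0, by positivity, by positivity, ?_⟩
  intro c x u h3 h4 h5 h6 h7 h8
  have hc0 : 0 < c := by linarith
  have h9 : r / 2 ≤ |u - (c + η) / 4| := by
    have e1 : |u - c / 4| ≤ |u - (c + η) / 4| + |η / 4| := by
      have e2 : u - c / 4 = (u - (c + η) / 4) + η / 4 := by ring
      rw [e2]
      exact abs_add_le _ _
    have e3 : |η / 4| = η / 4 := abs_of_pos (by positivity)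
    rw [e3] at e1
    linarith
  have h10 := step (c₁ := c₁) (c₂ := c₂ + 1) (δ := δ) (r := r / 2) (c := c + η) (x := x) (u := u)
    hl h1 (by linarith) (by linarith) hδ0.le hδ1 (by positivity) h5 h7 h9
  rw [← hg] at h10
  have h11 : u ^ 2 / c = u ^ 2 / (c + η) + η / (c * (c + η)) * u ^ 2 := by
    field_simp
  have h12 : η / (c₂ * (c₂ + 1)) * u ^ 2 ≤ η / (c * (c + η)) * u ^ 2 := by
    gcongr
  rw [h11]
  linarith

end Pool.Agent.DBC
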