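import Pool.Agent.DBC.Targets

/-!
# DBC, target `T_INB`
-/

set_option autoImplicit false

namespace Pool.Agent.DBC

namespace INB_

/-- the inequality without `κ u²` -/
theorem step {l c₁ c₂ δ c x u : ℝ} (hl : 0 < l) (h1 : l < c₁) (hc1 : c₁ ≤ c) (hc2 : c ≤ c₂)
    (hδ : 0 < δ) (hx : δ ≤ x) (hu : 0 ≤ u) :
    mm l (u - x) - u ^ 2 / c ≤
      c / 16 + x / 2 - min ((c₁ - l) ^ 2 / (16 * c₂)) (min (δ / 4) (c₁ / 16)) := by
  have hc0 : 0 < c := by linarith
  have hc20 : 0 < c₂ := by linarith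
  have hx0 : 0 < x := by linarith
  have m1 : min ((c₁ - l) ^ 2 / (16 * c₂)) (min (δ / 4) (c₁ / 16)) ≤
      (c - l) ^ 2 / (16 * c) := by
    refine (min_le_left _ _).trans ?_
    gcongr
  have m2 : min ((c₁ - l) ^ 2 / (16 * c₂)) (min (δ / 4) (c₁ / 16)) ≤ δ / 4 :=
    (min_le_right _ _).trans (min_le_left _ _)
  have m3 : min ((c₁ - l) ^ 2 / (16 * c₂)) (min (δ / 4) (c₁ / 16)) ≤ c₁ / 16 :=
    (min_le_right _ _).trans (min_le_right _ _)
  have hu2 : 0 ≤ u ^ 2 / c := by positivity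
  unfold mm
  split_ifs with h
  · obtain ⟨y, hy⟩ : ∃ y, y = u - x := ⟨_, rfl⟩
    rw [← hy] at h
    rw [← hy]
    rcases le_or_gt 0 y with hy0 | hy0
    · have h3 : y ^ 2 ≤ (l / 4) ^ 2 := sq_le_sq' (by linarith [neg_abs_le y]) (by
        linarith [le_abs_self y])
      have h4 : 0 ≤ 1 / l - 1 / c := by
        have : 1 / c ≤ 1 / l := one_div_le_one_div_of_le hl (by linarith)
        linarith
      have h5 : y ^ 2 * (1 / l - 1 / c) ≤ (l / 4) ^ 2 * (1 / l - 1 / c) := by gcongr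
      have h6 : y ^ 2 / c ≤ u ^ 2 / c := by
        have : y ≤ u := by linarith
        gcongr
      have h9 : y ^ 2 / l = y ^ 2 * (1 / l - 1 / c) + y ^ 2 / c := by
        field_simp
        ring
      have h10 : l / 16 + (l / 4) ^ 2 * (1 / l - 1 / c) = c / 16 - (c - l) ^ 2 / (16 * c) := by
        field_simp
        ring
      linarith
    · have h3 : y ^ 2 / l ≤ x / 4 := by
        rw [div_le_iff₀ hl]
        have e1 : |y| = -y := abs_of_neg hy0
        rw [e1] at h
        have e2 : -y ≤ x := by linarith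
        nlinarith
      linarith
  · rcases le_or_gt 0 (u - x) with hy0 | hy0
    · rw [abs_of_nonneg hy0]
      have h4 : (u - x) / 2 - u ^ 2 / c = c / 16 - x / 2 - (u - c / 4) ^ 2 / c := by
        field_simp
        ring
      have h5 : 0 ≤ (u - c / 4) ^ 2 / c := by positivity
      linarith
    · rw [abs_of_neg hy0]
      linarith

end INB_

open INB_ in
theorem p_INB : T_INB := by
  intro l c₁ c₂ K δ hl h1 h2 hK hδ
  have hc1 : 0 < c₁ := by linarith
  have hc2 : 0 < c₂ := by linarith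
  obtain ⟨g, hg⟩ : ∃ g, g = min ((c₁ - l) ^ 2 / (16 * (c₂ + 1))) (min (δ / 4) (c₁ / 16)) :=
    ⟨_, rfl⟩
  have hg0 : 0 < g := by
    rw [hg]
    have : 0 < c₁ - l := by linarith
    exact lt_min (by positivity) (lt_min (by positivity) (by positivity))
  obtain ⟨η, hη⟩ : ∃ η, η = min 1 (8 * g) := ⟨_, rfl⟩
  have hη0 : 0 < η := by
    rw [hη]
    exact lt_min one_pos (by positivity)
  have hη1 : η ≤ 1 := by
    rw [hη]
    exact min_le_left _ _
  have hη3 : η ≤ 8 * g := by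
    rw [hη]
    exact min_le_right _ _
  refine ⟨g / 2, η / (c₂ * (c₂ + 1)), by positivity, by positivity, ?_⟩
  intro c x u h3 h4 h5 h6 h7
  have hc0 : 0 < c := by linarith
  have h10 := step (c₁ := c₁) (c₂ := c₂ + 1) (δ := δ) (c := c + η) (x := x) (u := u)
    hl h1 (by linarith) (by linarith) hδ h5 h7
  rw [← hg] at h10
  have h11 : u ^ 2 / c = u ^ 2 / (c + η) + η / (c * (c + η)) * u ^ 2 := by
    field_simp
  have h12 : η / (c₂ * (c₂ + 1)) * u ^ 2 ≤ η / (c * (c + η)) * u ^ 2 := by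
    gcongr
  rw [h11]
  linarith

end Pool.Agent.DBC
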