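import Pool.Agent.DBC.Targets
import Pool.Agent.DBN.Good
import Pool.Agent.DBN.Mu2
import Pool.Agent.DBN.ZX

/-!
# XIL: the bound for `xi` with the exponent `mm l`
-/

set_option autoImplicit false

namespace Pool.Agent.DBC

open Complex MeasureTheory Set Filter Topology
open Pool.Agent.DBN

namespace XIL_

theorem mm_eq {l : ℝ} (hl : 0 < l) :
    mm l = fun x => |x| / 2 + (max 0 (l / 4 - |x|)) ^ 2 / l := by
  funext x
  unfold mm
  split_ifs with h
  · rw [max_eq_right (by linarith), ← sq_abs x]
    field_simp
    ring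
  · rw [max_eq_left (by linarith)]
    simp

theorem mm_out {l x : ℝ} (hl : 0 < l) (h : l / 4 ≤ |x|) : mm l x = |x| / 2 := by
  rw [mm_eq hl]
  simp only
  rw [max_eq_left (by linarith)]
  simp

theorem mm_in {l x : ℝ} (h : |x| ≤ l / 4) : mm l x = l / 16 + x ^ 2 / l := by
  unfold mm
  rw [if_pos h]

end XIL_

open XIL_ in
theorem p_XIL : T_XIL := by
  intro l hl h
  refine xi_le ?_ ?_ ?_
  · rw [mm_eq hl]
    fun_prop
  · intro x
    rw [mm_eq hl]
    positivity
  · intro σ
    rcases le_total |σ| (l / 4) with h1 | h1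
    · rw [mm_in h1]
      exact mu_of_growth hl h σ
    · rw [mm_out hl h1]
      have h2 := mu_of_good hl.le h
      rcases le_total 0 σ with h3 | h3
      · rw [abs_of_nonneg h3] at h1 ⊢
        rw [sub_self]
        exact mu_outside h2 h1
      · rw [abs_of_nonpos h3] at h1 ⊢
        have e : -σ / 2 - σ / 2 = -σ := by ring
        rw [e]
        have h5 := mu_outside h2 h1
        have h6 := mu_symm_imp h5
        rw [zero_add, sub_neg_eq_add] at h6
        exact h6

end Pool.Agent.DBC
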