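import Pool.Agent.DBC.Asm
import Pool.Agent.DBC.P_SPL
import Pool.Agent.DBC.P_IGR
import Pool.Agent.DBC.P_DER
import Pool.Agent.DBC.P_CNJ
import Pool.Agent.DBC.P_XIL
import Pool.Agent.DBC.P_INA
import Pool.Agent.DBC.P_INB
import Pool.Agent.DBC.P_OFA
import Pool.Agent.DBC.P_OFB
import Pool.Agent.DBC.P_LOC
import Pool.Agent.DBC.P_GAU
import Pool.Agent.DBC.P_NEA
import Pool.Agent.DBC.P_SAD
import Pool.Agent.DBC.P_LGD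
import Pool.Agent.DBC.P_CMP
import Pool.Agent.DBC.P_ZER
import Pool.Agent.DBC.P_ANG
import Pool.Agent.DBC.P_SPC
import Pool.Agent.DBC.P_HTR
import Pool.Agent.DBC.P_CLS
import Pool.Agent.DBC.P_CVR

/-!
# Reality of the zeros of `H_t` beyond `exp (c / t)` and the Lindelof hypothesis: the theorem
-/

set_option autoImplicit false

namespace Pool.Agent.DBC

open Complex MeasureTheory Set Filter Topology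
open Pool.Agent.DBN

lemma htr : T_HTR :=
  have hofb := p_OFB p_INB
  have hsad := p_SAD p_IGR (p_OFA p_INA) (p_NEA p_LOC p_GAU)
  have hder := p_DER p_IGR
  have hlgd := p_LGD hder hsad
  p_HTR p_XIL (p_ZER p_SPL p_CNJ hder hlgd (p_CMP hder hlgd hofb hsad))
    (p_SPC p_SPL p_CNJ hder hlgd p_ANG)

/-- the theorem -/
theorem main :
    (∃ Λ : ℝ, 0 ≤ Λ ∧ Λ ≤ 27 / 10 ∧ (∀ c : ℝ, FewZeros c ↔ Λ ≤ c) ∧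
      (∀ c : ℝ, Growth c (c / 16) ↔ Λ ≤ c) ∧ (LH ↔ Λ = 0) ∧
      (∀ c₁ c₂ : ℝ, Λ < c₁ → 2 < c₁ → c₁ ≤ c₂ → Regular c₁ c₂) ∧
      (∀ c₁ c₂ : ℝ, 0 ≤ c₁ → c₁ < c₂ → RealZ c₁ c₂ → Λ ≤ c₁) ∧
      MuLe (1 / 2) (Λ / 16) ∧ MuLe (1 / 2 + Λ / 4) 0 ∧
      (∀ a : ℝ, 0 < a → a ≤ 1 / 4 → MuLe (1 / 2) a → Λ ≤ 2 / (1 - 2 * a)) ∧
      (∀ τ : ℝ, 0 ≤ τ → MuLe (1 / 2 + τ) 0 → Λ ≤ 8 * τ)) ∧
    (∀ c A : ℝ, Growth c A ↔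
      ∀ α : ℝ, 0 ≤ α → α ≤ 1 → SumLe α (A - c * (α - 1 / 2) ^ 2 / 4)) ∧
    (∀ c A : ℝ, 0 < c → (Growth c A ↔ ∀ σ : ℝ, MuLe (1 / 2 + σ) (A + σ ^ 2 / c - σ / 2))) ∧
    (∀ c A : ℝ, Growth c A → max 0 (c / 16) ≤ A) ∧
    (LH ↔ ∀ c : ℝ, Growth c (max 0 (c / 16))) ∧
    (LH ↔ ∀ c : ℝ, c < 0 → Growth c 0) :=
  main_of htr p_CLS p_CVR

end Pool.Agent.DBC
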