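import Pool.Agent.DBC.Targets2
import Pool.Agent.DBN.Gauss
import Pool.Agent.DBN.Far
import Pool.Agent.DBN.Up

/-!
# Inverse flow with a shifted contour

Target IVF of the project DBC2: the inversion formula of the Gaussian flow, evaluated at the
horizontal distance `c / 4`.
-/

set_option autoImplicit false

namespace Pool.Agent.DBC

open Complex MeasureTheory Set Filter Topology
open Pool.Agent.DBN

namespace IVF2_

/-- the inner integral of `inv_flow` is a multiple of the flow -/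
theorem inner {t : ℝ} (ht : 0 < t) (s : ℂ) (y : ℝ) :
    (∫ x : ℝ, (Real.exp (-x ^ 2) : ℂ) * xi (s + (√t : ℝ) * (x + y * I))) =
      (√Real.pi : ℝ) * flow t (s + ((√t * y : ℝ) : ℂ) * I) := by
  rw [flow_pos ht]
  have hp : ((√Real.pi : ℝ) : ℂ) ≠ 0 := by
    exact_mod_cast (Real.sqrt_pos.mpr Real.pi_pos).ne'
  rw [← mul_assoc, mul_inv_cancel₀ hp, one_mul]
  refine integral_congr_ae (Eventually.of_forall fun x => ?_)
  simp only
  congr 2
  push_cast
  ring

/-- the Gaussian factor in the new variable -/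
theorem gauss {c L r : ℝ} (hL : 0 < L) (hc : 0 < c) (hr : 0 < r) (hr2 : r ^ 2 = c / L)
    (y : ℝ) :
    exp (-((y : ℂ) + ((c / 4 / r : ℝ) : ℂ) * I) ^ 2) =
      ((Real.exp (L * (c / 16)) : ℝ) : ℂ) *
        exp (-(((r * y) ^ 2 / (c / L) : ℝ) : ℂ) - (((r * y) * L / 2 : ℝ) : ℂ) * I) := by
  have h1 : (r * y) ^ 2 / (c / L) = y ^ 2 := by
    rw [mul_pow, hr2]
    field_simp
  have h2 : (r * y) * L / 2 = 2 * (c / 4 / r) * y := by
    have h3 : r ^ 2 * L = c := by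
      rw [hr2]
      field_simp
    have h4 : c / 4 / r = r * L / 4 := by
      rw [← h3]
      field_simp
    rw [h4]
    ring
  have h5 : L * (c / 16) = (c / 4 / r) ^ 2 := by
    rw [div_pow, hr2]
    field_simp
    ring
  rw [h1, h2, h5, Complex.ofReal_exp, ← Complex.exp_add]
  congr 1
  push_cast
  linear_combination (-((c : ℂ) / 4 / r) ^ 2) * Complex.I_sq

end IVF2_

/-- inverse flow with a shifted contour -/
theorem q_IVF : U_IVF := by
  intro c T s hc hT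
  have hL : 0 < Real.log T := Real.log_pos hT
  have hT0 : 0 < T := by linarith
  set L := Real.log T with hLd
  have ht : 0 < c / L := by positivity
  set r := √(c / L) with hr
  have hπ := Real.pi_pos
  have hr2 : r ^ 2 = c / L := Real.sq_sqrt ht.le
  have hr0 : 0 < r := Real.sqrt_pos.mpr ht
  have h4 := inv_flow differentiable_xi subG_xi r (c / 4 / r) s
  have e1 : (r : ℂ) * ((c / 4 / r : ℝ) : ℂ) = ((c / 4 : ℝ) : ℂ) := by
    rw [← Complex.ofReal_mul]
    congr 1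
    field_simp
  rw [e1] at h4
  set G : ℝ → ℂ := fun y =>
    exp (-((y ^ 2 / (c / L) : ℝ) : ℂ) - ((y * L / 2 : ℝ) : ℂ) * I) *
      flow (c / L) (s + y * I) with hG
  have e2 : T ^ (c / 16) = Real.exp (L * (c / 16)) := by
    rw [Real.rpow_def_of_pos hT0]
  have h5 : ∀ y : ℝ, exp (-((y : ℂ) + ((c / 4 / r : ℝ) : ℂ) * I) ^ 2) *
      (∫ x : ℝ, (Real.exp (-x ^ 2) : ℂ) * xi (s + r * (x + y * I))) =
      (((T ^ (c / 16) : ℝ) : ℂ) * ((√Real.pi : ℝ) : ℂ)) * G (r * y) := by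
    intro y
    rw [hr, IVF2_.inner ht s y, ← hr, IVF2_.gauss hL hc hr0 hr2 y, e2, hG]
    simp only
    ring
  have h6 : (∫ y : ℝ, G (r * y)) = ((r⁻¹ : ℝ) : ℂ) * ∫ y : ℝ, G y := by
    rw [Measure.integral_comp_mul_left G r, abs_of_pos (inv_pos.mpr hr0), Complex.real_smul]
  rw [integral_congr_ae (Eventually.of_forall h5), integral_const_mul, h6] at h4
  have hs : √(Real.pi * (c / L)) = √Real.pi * r := Real.sqrt_mul hπ.le _
  have hsp : ((√Real.pi : ℝ) : ℂ) * ((√Real.pi : ℝ) : ℂ) = ((Real.pi : ℝ) : ℂ) := by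
    rw [← Complex.ofReal_mul, Real.mul_self_sqrt hπ.le]
  have hs0 : ((√Real.pi : ℝ) : ℂ) ≠ 0 := by
    exact_mod_cast (Real.sqrt_pos.mpr hπ).ne'
  have hrc : (r : ℂ) * ((r⁻¹ : ℝ) : ℂ) = 1 := by
    rw [← Complex.ofReal_mul, mul_inv_cancel₀ hr0.ne', Complex.ofReal_one]
  change ((√(Real.pi * (c / L)) : ℝ) : ℂ) * xi (s + (c / 4 : ℝ)) =
    ((T ^ (c / 16) : ℝ) : ℂ) * ∫ y : ℝ, G y
  rw [hs]
  apply mul_left_cancel₀ hs0
  rw [← hsp] at h4
  push_cast at h4 hrc ⊢
  linear_combination (-(r : ℂ)) * h4 + ((T ^ (c / 16) : ℝ) : ℂ) *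
    ((√Real.pi : ℝ) : ℂ) * (∫ y : ℝ, G y) * hrc

end Pool.Agent.DBC
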