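import Pool.Agent.DBC.Targets2
import Pool.Agent.DBN.Mu
import Pool.Agent.SPZ.S4

/-!
# Project DBC2, target LZE: bounds for zeta in the zero-free region
-/

set_option autoImplicit false

namespace Pool.Agent.DBC

open Complex MeasureTheory Set Filter Topology
open Pool.Agent.DBN

/-- LZE: bounds for zeta in the zero-free region -/
theorem q_LZE (hB : U_BCL) : U_LZE := by
  intro l δ K ε hl hδ hK hε hmu hzf
  by_cases hKδ : K < 1 / 2 + l / 4 + δ
  · refine ⟨2, le_rfl, fun T s _ h1 h2 _ => ?_⟩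
    exfalso
    linarith
  push Not at hKδ
  obtain ⟨Tz, hTz⟩ := hzf
  set σ0 : ℝ := 1 / 2 + l / 4 with hσ0
  set ρ : ℝ := K + 3 - (σ0 + δ / 2) with hρ
  have hρ0 : 0 < ρ := by linarith
  set e : ℝ := min (ε / 2) (ε * δ / (16 * ρ)) with he
  have he0 : 0 < e := lt_min (by linarith) (by positivity)
  have he1 : 2 * e ≤ ε := by
    have : e ≤ ε / 2 := min_le_left _ _
    linarith
  have he2 : 8 * e * ρ / δ ≤ ε / 2 := by
    have h : e ≤ ε * δ / (16 * ρ) := min_le_right _ _
    rw [le_div_iff₀ (by positivity)] at h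
    rw [div_le_iff₀ hδ]
    linarith
  obtain ⟨C, hC⟩ := mu_interp (σ₁ := σ0) (σ₂ := 2 * K + 7) (by linarith) hmu
    (mu_zero (by linarith)) he0
  obtain ⟨c₀, hc₀, hlow⟩ := (Pool.Agent.SPZ.s4).2 1 one_pos
  have hC' : ∀ z : ℂ, σ0 ≤ z.re → z.re ≤ 2 * K + 7 → 2 ≤ z.im →
      ‖riemannZeta z‖ ≤ |C| * z.im ^ e := by
    intro z h1 h2 h3
    have h4 := hC z.re z.im h1 h2 h3
    rw [re_add_im, zero_mul, zero_mul, add_zero, zero_div, zero_add] at h4
    refine h4.trans ?_
    have : 0 ≤ z.im := by linarith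
    gcongr
    exact le_abs_self C
  have hev : ∀ᶠ T : ℝ in atTop, (|C| * 2 ^ e / c₀ ≤ T ^ e ∧ |C| * 2 ^ e ≤ T ^ e) ∧
      (1 / c₀ ≤ T ^ (ε / 2) ∧ K + ρ + |Tz| + 2 ≤ T) :=
    (((tendsto_rpow_atTop he0).eventually_ge_atTop _).and
      ((tendsto_rpow_atTop he0).eventually_ge_atTop _)).and
    (((tendsto_rpow_atTop (by linarith : (0 : ℝ) < ε / 2)).eventually_ge_atTop _).and
      (eventually_ge_atTop _))
  obtain ⟨T₁, hT₁⟩ := eventually_atTop.1 hev
  refine ⟨max T₁ 2, le_max_right _ _, fun T s hT h1 h2 h3 => ?_⟩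
  obtain ⟨⟨hA, hA'⟩, hCc, hD⟩ := hT₁ T ((le_max_left _ _).trans hT)
  have hT2 : 2 ≤ T := (le_max_right _ _).trans hT
  have hT0 : 0 < T := by linarith
  have hT1 : 1 ≤ T := by linarith
  obtain ⟨h4, h5⟩ := abs_le.mp h3
  have hTz1 := le_abs_self Tz
  have hTz2 := abs_nonneg Tz
  have hup : ∀ z : ℂ, σ0 ≤ z.re → z.re ≤ 2 * K + 7 → |z.im - s.im| ≤ ρ →
      ‖riemannZeta z‖ ≤ |C| * 2 ^ e * T ^ e := by
    intro z g1 g2 g3
    obtain ⟨g4, g5⟩ := abs_le.mp g3
    refine (hC' z g1 g2 (by linarith)).trans ?_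
    rw [mul_assoc, ← Real.mul_rpow (by norm_num) hT0.le]
    have g6 : z.im ≤ 2 * T := by linarith
    have g7 : 0 ≤ z.im := by linarith
    gcongr
  have hTe : 0 < T ^ e := Real.rpow_pos_of_pos hT0 _
  constructor
  · -- the lower bound
    set s₁ : ℂ := ((K + 3 : ℝ) : ℂ) + s.im * I with hs₁
    have hs₁re : s₁.re = K + 3 := by simp [hs₁]
    have hs₁im : s₁.im = s.im := by simp [hs₁]
    have hbre : ∀ v ∈ Metric.ball (0 : ℂ) ρ, σ0 + δ / 2 ≤ (s₁ + v).re ∧ (s₁ + v).re ≤ 2 * K + 7 ∧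
        |(s₁ + v).im - s.im| ≤ ρ := by
      intro v hv
      rw [mem_ball_zero_iff] at hv
      have g1 := abs_le.mp ((Complex.abs_re_le_norm v).trans hv.le)
      have g2 := (Complex.abs_im_le_norm v).trans hv.le
      rw [add_re, hs₁re, add_im, hs₁im]
      refine ⟨by linarith [g1.1], by linarith [g1.2], ?_⟩
      rw [add_sub_cancel_left]
      exact g2
    have himT : ∀ v ∈ Metric.ball (0 : ℂ) ρ, max Tz 2 ≤ (s₁ + v).im := by
      intro v hv
      obtain ⟨g1, g2⟩ := abs_le.mp (hbre v hv).2.2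
      refine max_le ?_ ?_ <;> linarith
    set L : ℝ := Real.log T with hL
    have hL0 : 0 < L := Real.log_pos (by linarith)
    have hexp : ∀ a : ℝ, Real.exp (a * L) = T ^ a := by
      intro a
      rw [Real.rpow_def_of_pos hT0, mul_comm]
    have hdiff : DifferentiableOn ℂ (fun v => riemannZeta (s₁ + v)) (Metric.ball 0 ρ) := by
      intro v hv
      have hne : s₁ + v ≠ 1 := by
        intro hc
        have g1 := (le_max_right Tz 2).trans (himT v hv)
        rw [hc] at g1
        norm_num at g1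
      have g2 : DifferentiableAt ℂ (fun v => riemannZeta (s₁ + v)) v :=
        DifferentiableAt.comp v (differentiableAt_riemannZeta hne)
          ((differentiableAt_const _).add differentiableAt_id)
      exact g2.differentiableWithinAt
    have hg0 : c₀ ≤ ‖riemannZeta (s₁ + 0)‖ := by
      refine hlow _ ?_
      rw [add_zero, hs₁re]
      linarith
    have hval : ∀ v ∈ Metric.ball (0 : ℂ) ρ, riemannZeta (s₁ + v) ≠ 0 ∧
        ‖riemannZeta (s₁ + v)‖ ≤ Real.exp (2 * e * L) * ‖riemannZeta (s₁ + 0)‖ := by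
      intro v hv
      obtain ⟨g1, g2, g3⟩ := hbre v hv
      refine ⟨hTz _ (by linarith) ((le_max_left _ _).trans (himT v hv)), ?_⟩
      refine (hup _ (by linarith) g2 g3).trans ?_
      rw [hexp]
      have g4 : |C| * 2 ^ e ≤ T ^ e * c₀ := by
        rwa [div_le_iff₀ hc₀] at hA
      have g5 : T ^ (2 * e) = T ^ e * T ^ e := by
        rw [← Real.rpow_add hT0]
        congr 1
        ring
      calc |C| * 2 ^ e * T ^ e ≤ T ^ e * c₀ * T ^ e := by gcongr
        _ = T ^ (2 * e) * c₀ := by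
          rw [g5]
          ring
        _ ≤ _ := by gcongr
    obtain ⟨h, ⟨-, -, hh3⟩, hh4⟩ := hB (fun v => riemannZeta (s₁ + v)) ρ (2 * e * L) hρ0
      (by positivity) hdiff hval
    set v : ℂ := s - s₁ with hv
    have hvr : v = ((s.re - (K + 3) : ℝ) : ℂ) := by
      apply Complex.ext
      · rw [hv, sub_re, hs₁re, ofReal_re]
      · rw [hv, sub_im, hs₁im, ofReal_im, sub_self]
    have hvn : ‖v‖ = K + 3 - s.re := by
      rw [hvr, Complex.norm_real, Real.norm_eq_abs, abs_of_neg (by linarith)]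
      ring
    have hvb : v ∈ Metric.ball (0 : ℂ) ρ := by
      rw [mem_ball_zero_iff, hvn]
      linarith
    have g1 : riemannZeta s = riemannZeta (s₁ + 0) * exp (h v) := by
      have := hh3 v hvb
      simp only at this
      rw [← this]
      congr 1
      rw [hv]
      ring
    have g2 : ‖h v‖ ≤ ε / 2 * L := by
      refine (hh4 v hvb).trans ?_
      have g3 : δ / 2 ≤ ρ - ‖v‖ := by
        rw [hvn]
        linarith
      have g4 : ‖v‖ ≤ ρ := by linarith
      calc 2 * (2 * e * L) * ‖v‖ / (ρ - ‖v‖) ≤ 2 * (2 * e * L) * ρ / (δ / 2) := by gcongr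
        _ = 8 * e * ρ / δ * L := by
          field_simp
          ring
        _ ≤ ε / 2 * L := by gcongr
    have g3 : -(ε / 2 * L) ≤ (h v).re := by
      have := (abs_le.mp (Complex.abs_re_le_norm (h v))).1
      linarith
    have g4 : T ^ (-(ε / 2)) ≤ c₀ := by
      rw [Real.rpow_neg hT0.le]
      rw [one_div] at hCc
      exact inv_le_of_inv_le₀ hc₀ hCc
    rw [g1, norm_mul, Complex.norm_exp]
    calc T ^ (-ε) = T ^ (-(ε / 2)) * T ^ (-(ε / 2)) := by
          rw [← Real.rpow_add hT0]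
          congr 1
          ring
      _ ≤ ‖riemannZeta (s₁ + 0)‖ * Real.exp (h v).re := by
          refine mul_le_mul (g4.trans hg0) ?_ (by positivity) (norm_nonneg _)
          rw [← hexp]
          refine Real.exp_le_exp.mpr ?_
          linarith
  · have g1 : ‖riemannZeta s‖ ≤ |C| * 2 ^ e * T ^ e :=
      hup s (by linarith) (by linarith) (by
        rw [sub_self, abs_zero]
        exact hρ0.le)
    calc ‖riemannZeta s‖ ≤ |C| * 2 ^ e * T ^ e := g1
      _ ≤ T ^ e * T ^ e := by gcongr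
      _ = T ^ (2 * e) := by
        rw [← Real.rpow_add hT0]
        congr 1
        ring
      _ ≤ T ^ ε := Real.rpow_le_rpow_of_exponent_le hT1 he1

end Pool.Agent.DBC
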