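import Pool.Agent.DBC.Targets2
import Pool.Agent.DBN.Down2

/-!
# Target XBD: bounds for the function `xi` in the zero-free region
-/

set_option autoImplicit false

namespace Pool.Agent.DBC

open Complex MeasureTheory Set Filter Topology
open Pool.Agent.DBN

theorem q_XBD (h : U_LZE) : U_XBD := by
  intro l δ K ε hl hδ hK hε hm hz
  obtain ⟨T₁, hT₁, hL⟩ := h l δ K (ε / 2) hl hδ hK (half_pos hε) hm hz
  obtain ⟨C, hC1, hC⟩ := xi_two K
  set E : ℝ := 2 ^ (7 / 4 : ℝ) * Real.exp (Real.pi * K / 4) with hE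
  have hE0 : 0 < E := by positivity
  set P : ℝ := 2 ^ K with hP
  have hP0 : 0 < P := by positivity
  have hC0 : 0 < C := by linarith
  set D : ℝ := C * E * P with hD
  have hD0 : 0 < D := by positivity
  have hev : ∀ᶠ T : ℝ in atTop, D ≤ T ^ (ε / 2) :=
    (tendsto_rpow_atTop (half_pos hε)).eventually_ge_atTop D
  obtain ⟨T₂, hT₂⟩ := eventually_atTop.mp hev
  refine ⟨max (max T₁ T₂) (2 * K + 4), ?_, fun T s hT h1 h2 h3 => ?_⟩
  · exact (by linarith : (2 : ℝ) ≤ 2 * K + 4).trans (le_max_right _ _)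
  have hTa : T₁ ≤ T := ((le_max_left _ _).trans (le_max_left _ _)).trans hT
  have hTb : T₂ ≤ T := ((le_max_right _ _).trans (le_max_left _ _)).trans hT
  have hTc : 2 * K + 4 ≤ T := (le_max_right _ _).trans hT
  obtain ⟨h4, h5⟩ := abs_le.mp h3
  obtain ⟨h9, h8⟩ := hL T s hTa h1 h2 h3
  have hDT := hT₂ T hTb
  set T' := s.im with hT'
  set x := s.re with hx
  have hT0 : 0 < T := by linarith
  have hT'2 : 2 ≤ T' := by linarith
  have hT'0 : 0 < T' := by linarith
  have hs := size_pos hT0
  have hs' := size_pos hT'0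
  have es : s = (x : ℂ) + T' * I := by rw [hx, hT']; exact (re_add_im s).symm
  obtain ⟨h6, h7⟩ := hC x T' (by rw [abs_of_pos (by linarith)]; exact h2) hT'2
  rw [← es] at h6 h7
  set e := (x - 1 / 2) / 2 with he
  have he0 : 0 < e := by rw [he]; linarith
  have heK : e ≤ K := by rw [he]; linarith
  have h2e : (2 : ℝ) ^ |e| ≤ P := by
    rw [abs_of_pos he0]
    exact Real.rpow_le_rpow_of_exponent_le (by norm_num) heK
  have h10 : T' ^ e ≤ P * T ^ e := by
    refine (rpow_shift_le hT0 (by linarith) (by linarith) e).trans ?_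
    gcongr
  have h11 : T ^ e ≤ P * T' ^ e := by
    refine (rpow_shift_le hT'0 (by linarith) (by linarith) e).trans ?_
    gcongr
  have h12 : size T' ≤ E * size T := size_shift_le hT0 (by linarith) (by linarith) h3
  have h13 : size T ≤ E * size T' := by
    refine size_shift_le hT'0 (by linarith) (by linarith) ?_
    rw [abs_sub_comm]
    exact h3
  have hp : 0 < T' ^ e := by positivity
  have hp' : 0 < T ^ e := by positivity
  set q := T ^ (ε / 2) with hq
  have hq0 : 0 < q := by positivity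
  have hqq : T ^ ε = q * q := by
    rw [hq, ← Real.rpow_add hT0]
    congr 1
    ring
  have hqi : T ^ (-(ε / 2)) * q = 1 := by
    rw [hq, ← Real.rpow_add hT0]
    simp
  constructor
  · have h14 : T' ^ e * size T' * T ^ (-(ε / 2)) ≤ C * ‖xi s‖ :=
      (mul_le_mul_of_nonneg_left h9 (by positivity)).trans h7
    have h15 : size T * T ^ e ≤ q * q * ‖xi s‖ := by
      calc size T * T ^ e ≤ (E * size T') * (P * T' ^ e) := by gcongr
        _ = E * P * (T' ^ e * size T' * (T ^ (-(ε / 2)) * q)) := by rw [hqi]; ring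
        _ = E * P * q * (T' ^ e * size T' * T ^ (-(ε / 2))) := by ring
        _ ≤ E * P * q * (C * ‖xi s‖) := by gcongr
        _ = D * (q * ‖xi s‖) := by rw [hD]; ring
        _ ≤ q * (q * ‖xi s‖) := by gcongr
        _ = _ := by ring
    rw [Real.rpow_sub hT0, hqq, mul_div_assoc', div_le_iff₀ (by positivity)]
    linarith
  · rw [Real.rpow_add hT0, hqq]
    calc ‖xi s‖ ≤ C * (T' ^ e * size T' * ‖riemannZeta s‖) := h6
      _ ≤ C * ((P * T ^ e) * (E * size T) * q) := by gcongr
      _ = D * (q * (size T * T ^ e)) := by rw [hD]; ring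
      _ ≤ q * (q * (size T * T ^ e)) := by gcongr
      _ = _ := by ring

end Pool.Agent.DBC
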