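import Pool.Agent.DBC.Targets3
import Pool.Agent.LHW.J2
import Pool.Agent.LHW.J3

/-!
# Project DBC3, target CAR: lower bound away from the zeros
-/

set_option autoImplicit false

namespace Pool.Agent.DBC

open Complex MeasureTheory Set Filter Topology
open Pool.Agent.DBN

namespace CAR3_

open Pool.Agent.LHW (Fac CountLe)
open Pool.Agent.LHW.J3 (norm_prod prod_mono)

/-- one factor -/
noncomputable def b (ρ : ℝ) (a z : ℂ) : ℂ := ((ρ : ℂ) ^ 2 - (starRingEnd ℂ) a * z) / ρ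

/-- the outer part -/
noncomputable def bG (ρ : ℝ) (g : ℂ → ℂ) (s : Multiset ℂ) (z : ℂ) : ℂ :=
  g z * (s.map fun a => b ρ a z).prod

lemma norm_circ {ρ : ℝ} (hρ : 0 < ρ) {z : ℂ} (a : ℂ) (hz : ‖z‖ = ρ) : ‖b ρ a z‖ = ‖z - a‖ := by
  have h1 : (starRingEnd ℂ) z * z = (ρ : ℂ) ^ 2 := by
    rw [mul_comm, Complex.mul_conj, Complex.normSq_eq_norm_sq, hz]
    norm_num
  have h2 : (ρ : ℂ) ^ 2 - (starRingEnd ℂ) a * z = (starRingEnd ℂ) (z - a) * z := by
    rw [map_sub, sub_mul, h1]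
  rw [b, h2, norm_div, norm_mul, hz, RCLike.norm_conj, Complex.norm_real, Real.norm_eq_abs,
    abs_of_pos hρ]
  field_simp

lemma norm_b_zero {ρ : ℝ} (hρ : 0 < ρ) (a : ℂ) : ‖b ρ a 0‖ = ρ := by
  have h : b ρ a 0 = ρ := by
    have h0 : (ρ : ℂ) ≠ 0 := by exact_mod_cast hρ.ne'
    rw [b, mul_zero, sub_zero]
    field_simp
  rw [h, Complex.norm_real, Real.norm_eq_abs, abs_of_pos hρ]

lemma norm_b_le {ρ : ℝ} (hρ : 0 < ρ) {a z : ℂ} (ha : ‖a‖ ≤ ρ) (hz : ‖z‖ ≤ ρ) :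
    ‖b ρ a z‖ ≤ 2 * ρ := by
  rw [b, norm_div, Complex.norm_real, Real.norm_eq_abs, abs_of_pos hρ, div_le_iff₀ hρ]
  have h1 := norm_sub_le ((ρ : ℂ) ^ 2) ((starRingEnd ℂ) a * z)
  rw [norm_mul, RCLike.norm_conj, norm_pow, Complex.norm_real, Real.norm_eq_abs,
    abs_of_pos hρ] at h1
  have h2 := mul_le_mul ha hz (norm_nonneg _) hρ.le
  nlinarith

lemma b_ne {ρ : ℝ} (hρ : 0 < ρ) {a z : ℂ} (ha : ‖a‖ < ρ) (hz : ‖z‖ ≤ ρ) : b ρ a z ≠ 0 := by
  have h0 : (ρ : ℂ) ≠ 0 := by exact_mod_cast hρ.ne'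
  refine div_ne_zero (fun h => ?_) h0
  have h1 : ‖(ρ : ℂ) ^ 2‖ = ‖(starRingEnd ℂ) a * z‖ := by rw [sub_eq_zero.1 h]
  rw [norm_mul, RCLike.norm_conj, norm_pow, Complex.norm_real, Real.norm_eq_abs,
    abs_of_pos hρ] at h1
  have h2 : ‖a‖ * ‖z‖ ≤ ‖a‖ * ρ := mul_le_mul_of_nonneg_left hz (norm_nonneg _)
  nlinarith

lemma diff_b (ρ : ℝ) (s : Multiset ℂ) :
    Differentiable ℂ (fun z : ℂ => (s.map fun a => b ρ a z).prod) := by
  induction s using Multiset.induction_on with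
  | empty => simp
  | cons a s ih =>
    simp only [Multiset.map_cons, Multiset.prod_cons]
    refine Differentiable.mul ?_ ih
    unfold b
    exact ((differentiable_const _).sub
      ((differentiable_const _).mul differentiable_id)).div_const _

section

variable {F g : ℂ → ℂ} {s : Multiset ℂ} {R R₂ ρ M : ℝ}

lemma bG_diff (hρR : ρ < R) (hg : DifferentiableOn ℂ g (Metric.ball 0 R)) :
    DifferentiableOn ℂ (bG ρ g s) (Metric.closedBall (0 : ℂ) ρ) :=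
  (hg.mono (Metric.closedBall_subset_ball hρR)).mul (diff_b ρ s).differentiableOn

lemma bG_le (hρ : 0 < ρ) (hρR : ρ < R) (hg : Fac F g (Metric.ball 0 R) s) {A : ℝ}
    (hF : ∀ z ∈ Metric.ball (0 : ℂ) R, ‖F z‖ ≤ A) {z : ℂ} (hz : ‖z‖ ≤ ρ) : ‖bG ρ g s z‖ ≤ A := by
  have hd := bG_diff (s := s) hρR hg.1
  have hdc : DiffContOnCl ℂ (bG ρ g s) (Metric.ball (0 : ℂ) ρ) := by
    apply DifferentiableOn.diffContOnCl
    rw [closure_ball (0 : ℂ) hρ.ne']
    exact hd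
  refine Complex.norm_le_of_forall_mem_frontier_norm_le Metric.isBounded_ball hdc ?_ ?_
  · intro w hw
    rw [frontier_ball (0 : ℂ) hρ.ne', mem_sphere_zero_iff_norm] at hw
    have hwU : w ∈ Metric.ball (0 : ℂ) R := by
      rw [mem_ball_zero_iff]
      linarith
    have h1 : ‖bG ρ g s w‖ = ‖F w‖ := by
      rw [bG, hg.2 w hwU, norm_mul, norm_mul, norm_prod, norm_prod, mul_comm]
      congr 2
      apply Multiset.map_congr rfl
      intro a _
      exact norm_circ hρ a hw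
    rw [h1]
    exact hF w hwU
  · rw [closure_ball (0 : ℂ) hρ.ne', mem_closedBall_zero_iff]
    exact hz

lemma F_zero_le (hρ : 0 < ρ) (hR₂ : 0 < R₂) (hR : 0 < R)
    (hg : Fac F g (Metric.ball 0 R) s) (hs : ∀ a ∈ s, a ∈ Metric.closedBall (0 : ℂ) R₂) :
    ‖F 0‖ * (ρ / R₂) ^ s.card ≤ ‖bG ρ g s 0‖ := by
  have h0 : (0 : ℂ) ∈ Metric.ball (0 : ℂ) R := Metric.mem_ball_self hR
  rw [hg.2 0 h0, bG, norm_mul, norm_mul, norm_prod, norm_prod]
  have h1 : (s.map fun a => ‖(0 : ℂ) - a‖).prod ≤ (s.map fun _ => R₂).prod := by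
    refine (prod_mono s _ _ (fun _ _ => norm_nonneg _) ?_).1
    intro a ha
    have := hs a ha
    rw [mem_closedBall_zero_iff] at this
    simpa using this
  have h2 : (s.map fun a => ‖b ρ a 0‖).prod = ρ ^ s.card := by
    have : (s.map fun a => ‖b ρ a 0‖) = s.map fun _ => ρ :=
      Multiset.map_congr rfl fun a _ => norm_b_zero hρ a
    rw [this]
    simp
  simp only [Multiset.map_const', Multiset.prod_replicate] at h1
  rw [h2]
  have h3 : 0 ≤ (ρ / R₂) ^ s.card := by positivity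
  calc (s.map fun a => ‖(0 : ℂ) - a‖).prod * ‖g 0‖ * (ρ / R₂) ^ s.card
      ≤ R₂ ^ s.card * ‖g 0‖ * (ρ / R₂) ^ s.card :=
        mul_le_mul_of_nonneg_right (mul_le_mul_of_nonneg_right h1 (norm_nonneg _)) h3
    _ = ‖g 0‖ * ρ ^ s.card := by
        rw [div_pow]
        field_simp

lemma card_le (hR₂ : 0 < R₂) (hRρ : R₂ < ρ) (hρR : ρ < R)
    (hg : Fac F g (Metric.ball 0 R) s) (hs : ∀ a ∈ s, a ∈ Metric.closedBall (0 : ℂ) R₂)
    (hF0 : F 0 ≠ 0) (hF : ∀ z ∈ Metric.ball (0 : ℂ) R, ‖F z‖ ≤ Real.exp M * ‖F 0‖) :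
    (s.card : ℝ) * Real.log (ρ / R₂) ≤ M := by
  have hρ : 0 < ρ := by linarith
  have h1 := F_zero_le hρ hR₂ (by linarith) hg hs
  have h2 := bG_le hρ hρR hg hF (z := 0) (by simpa using hρ.le)
  have hF0' : 0 < ‖F 0‖ := norm_pos_iff.2 hF0
  have h3 : (ρ / R₂) ^ s.card ≤ Real.exp M := by
    have h4 : (ρ / R₂) ^ s.card * ‖F 0‖ ≤ Real.exp M * ‖F 0‖ := by linarith
    exact le_of_mul_le_mul_right h4 hF0'
  have h5 := Real.log_le_log (by positivity) h3
  rwa [Real.log_exp, Real.log_pow] at h5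

lemma F_ge {r : ℝ} {z : ℂ} (hr : 0 < r) (hR₂ : 0 < R₂) (hRρ : R₂ < ρ) (hρR : ρ < R)
    (hg : Fac F g (Metric.ball 0 R) s) (hs : ∀ a ∈ s, a ∈ Metric.closedBall (0 : ℂ) R₂)
    (hz : ‖z‖ ≤ R₂) (hd : ∀ a ∈ s, r ≤ ‖z - a‖) :
    (min 1 (r / (2 * ρ))) ^ s.card * ‖bG ρ g s z‖ ≤ ‖F z‖ := by
  have hρ : 0 < ρ := by linarith
  have hzU : z ∈ Metric.ball (0 : ℂ) R := by
    rw [mem_ball_zero_iff]
    linarith
  rw [hg.2 z hzU, bG, norm_mul, norm_mul, norm_prod, norm_prod]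
  have hq0 : 0 ≤ min 1 (r / (2 * ρ)) := le_min zero_le_one (by positivity)
  have h1 : (s.map fun a => min 1 (r / (2 * ρ)) * ‖b ρ a z‖).prod ≤
      (s.map fun a => ‖z - a‖).prod := by
    refine (prod_mono s _ _ (fun _ _ => mul_nonneg hq0 (norm_nonneg _)) ?_).1
    intro a ha
    have ha' : ‖a‖ ≤ ρ := by
      have := hs a ha
      rw [mem_closedBall_zero_iff] at this
      linarith
    calc min 1 (r / (2 * ρ)) * ‖b ρ a z‖ ≤ r / (2 * ρ) * (2 * ρ) :=
          mul_le_mul (min_le_right _ _) (norm_b_le hρ ha' (by linarith)) (norm_nonneg _)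
            (by positivity)
      _ = r := by field_simp
      _ ≤ ‖z - a‖ := hd a ha
  rw [Multiset.prod_map_mul] at h1
  simp only [Multiset.map_const', Multiset.prod_replicate] at h1
  calc (min 1 (r / (2 * ρ))) ^ s.card * (‖g z‖ * (s.map fun a => ‖b ρ a z‖).prod)
      = ((min 1 (r / (2 * ρ))) ^ s.card * (s.map fun a => ‖b ρ a z‖).prod) * ‖g z‖ := by ring
    _ ≤ _ := mul_le_mul_of_nonneg_right h1 (norm_nonneg _)

end

end CAR3_

open CAR3_ in
/-- CAR: lower bound away from the zeros -/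
theorem r_CAR (h : U_BCL) : V_CAR := by
  intro R₃ R₂ R r hR₃ h32 h2R hr
  obtain ⟨ρ, hρd⟩ : ∃ ρ : ℝ, ρ = (R₂ + R) / 2 := ⟨_, rfl⟩
  have hR₂ : 0 < R₂ := by linarith
  have hRρ : R₂ < ρ := by linarith
  have hρR : ρ < R := by linarith
  have hρ : 0 < ρ := by linarith
  have hR : 0 < R := by linarith
  obtain ⟨l, hl⟩ : ∃ l : ℝ, l = Real.log (ρ / R₂) := ⟨_, rfl⟩
  have hl0 : 0 < l := by
    rw [hl]
    exact Real.log_pos ((one_lt_div hR₂).2 hRρ)
  obtain ⟨q, hq⟩ : ∃ q : ℝ, q = min 1 (r / (2 * ρ)) := ⟨_, rfl⟩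
  have hq0 : 0 < q := by
    rw [hq]
    exact lt_min zero_lt_one (by positivity)
  have hq1 : q ≤ 1 := by
    rw [hq]
    exact min_le_left _ _
  have hlq : Real.log q ≤ 0 := Real.log_nonpos hq0.le hq1
  have hc1 : 0 ≤ 2 * R₃ / (R₂ - R₃) := div_nonneg (by linarith) (by linarith)
  have hc2 : 0 ≤ -Real.log q / l := div_nonneg (by linarith) hl0.le
  refine ⟨2 * R₃ / (R₂ - R₃) + -Real.log q / l + 1, by linarith, ?_⟩
  intro F M hM hFd hF0 hF z hz hza
  have hF0' : 0 < ‖F 0‖ := norm_pos_iff.2 hF0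
  have hcount : LHW.CountLe F (Metric.ball 0 R) (Metric.closedBall 0 R₂) ⌊M / l⌋₊ := by
    intro s g hg hs
    refine Nat.le_floor ?_
    rw [le_div_iff₀ hl0, hl]
    exact card_le hR₂ hRρ hρR hg hs hF0 hF
  obtain ⟨s, g, hg, hs, hg0⟩ := LHW.t2 F (Metric.ball 0 R) (Metric.closedBall 0 R₂) _
    Metric.isOpen_ball (Metric.closedBall_subset_ball h2R) hFd hcount
  have hn : (s.card : ℝ) * l ≤ M := by
    rw [hl]
    exact card_le hR₂ hRρ hρR hg hs hF0 hF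
  have hG0 : ‖F 0‖ ≤ ‖bG ρ g s 0‖ := by
    have h1 := F_zero_le hρ hR₂ hR hg hs
    have h2 : 1 ≤ (ρ / R₂) ^ s.card := one_le_pow₀ ((one_le_div hR₂).2 hRρ.le)
    have h3 := mul_le_mul_of_nonneg_left h2 hF0'.le
    linarith
  have hGd : DifferentiableOn ℂ (bG ρ g s) (Metric.ball 0 R₂) :=
    (bG_diff (s := s) hρR hg.1).mono
      ((Metric.ball_subset_ball hRρ.le).trans Metric.ball_subset_closedBall)
  have hGv : ∀ v ∈ Metric.ball (0 : ℂ) R₂, bG ρ g s v ≠ 0 ∧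
      ‖bG ρ g s v‖ ≤ Real.exp M * ‖bG ρ g s 0‖ := by
    intro v hv
    rw [mem_ball_zero_iff] at hv
    refine ⟨mul_ne_zero (hg0 v ?_) ?_, ?_⟩
    · rw [mem_closedBall_zero_iff]
      exact hv.le
    · refine Multiset.prod_ne_zero fun h0 => ?_
      obtain ⟨a, ha, h1⟩ := Multiset.mem_map.1 h0
      have ha' := hs a ha
      rw [mem_closedBall_zero_iff] at ha'
      exact b_ne hρ (by linarith) (by linarith) h1
    · refine (bG_le hρ hρR hg hF (by linarith)).trans ?_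
      exact mul_le_mul_of_nonneg_left hG0 (Real.exp_pos _).le
  obtain ⟨k, ⟨hk1, hk2, hk3⟩, hk4⟩ := h (bG ρ g s) R₂ M hR₂ hM hGd hGv
  have hzb : z ∈ Metric.ball (0 : ℂ) R₂ := by
    rw [mem_ball_zero_iff]
    linarith
  have h5 : ‖k z‖ ≤ 2 * R₃ / (R₂ - R₃) * M := by
    refine (hk4 z hzb).trans ?_
    have e : 2 * R₃ / (R₂ - R₃) * M = 2 * M * R₃ / (R₂ - R₃) := by ring
    rw [e]
    refine div_le_div₀ (by positivity) (mul_le_mul_of_nonneg_left hz (by positivity))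
      (by linarith) (by linarith)
  have h6 : Real.exp (-(2 * R₃ / (R₂ - R₃) * M)) * ‖F 0‖ ≤ ‖bG ρ g s z‖ := by
    rw [hk3 z hzb, norm_mul, Complex.norm_exp, mul_comm]
    refine mul_le_mul hG0 ?_ (Real.exp_pos _).le (norm_nonneg _)
    apply Real.exp_le_exp.2
    have h7 := Complex.abs_re_le_norm (k z)
    have h8 := neg_abs_le (k z).re
    linarith
  have h9 := F_ge hr hR₂ hRρ hρR hg hs (z := z) (by linarith) fun a ha => by
    by_contra hcon
    push Not at hcon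
    have ha' := hs a ha
    rw [mem_closedBall_zero_iff] at ha'
    have haR : a ∈ Metric.ball (0 : ℂ) R := by
      rw [mem_ball_zero_iff]
      linarith
    refine hza a haR ?_ ?_
    · rw [norm_sub_rev]
      exact hcon
    · rw [hg.2 a haR]
      have h0 : (s.map fun b => a - b).prod = 0 := by
        refine Multiset.prod_eq_zero ?_
        exact Multiset.mem_map.2 ⟨a, ha, sub_self a⟩
      rw [h0, zero_mul]
  rw [← hq] at h9
  have h10 : Real.exp (Real.log q / l * M) ≤ q ^ s.card := by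
    have e : q ^ s.card = Real.exp (s.card * Real.log q) := by
      rw [Real.exp_nat_mul, Real.exp_log hq0]
    rw [e]
    apply Real.exp_le_exp.2
    have h11 : Real.log q / l * M = M / l * Real.log q := by ring
    have h12 : (s.card : ℝ) ≤ M / l := by
      rw [le_div_iff₀ hl0]
      exact hn
    rw [h11]
    nlinarith
  calc Real.exp (-((2 * R₃ / (R₂ - R₃) + -Real.log q / l + 1) * M)) * ‖F 0‖
      ≤ Real.exp (Real.log q / l * M + -(2 * R₃ / (R₂ - R₃) * M)) * ‖F 0‖ := by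
        refine mul_le_mul_of_nonneg_right (Real.exp_le_exp.2 ?_) hF0'.le
        have e : -((2 * R₃ / (R₂ - R₃) + -Real.log q / l + 1) * M) =
            Real.log q / l * M + -(2 * R₃ / (R₂ - R₃) * M) - M := by ring
        rw [e]
        linarith
    _ = Real.exp (Real.log q / l * M) *
        (Real.exp (-(2 * R₃ / (R₂ - R₃) * M)) * ‖F 0‖) := by
        rw [Real.exp_add]
        ring
    _ ≤ q ^ s.card * ‖bG ρ g s z‖ :=
        mul_le_mul h10 h6 (by positivity) (by positivity)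
    _ ≤ ‖F z‖ := h9

end Pool.Agent.DBC

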