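import Pool.Agent.DBC.R_FL3
import Pool.Agent.DBC.Q_NE2

/-!
# CL3: the converse, local version
-/

set_option autoImplicit false

namespace Pool.Agent.DBC

open Complex MeasureTheory Set Filter Topology
open Pool.Agent.DBN

namespace CL33_

lemma exists_rad {r δ : ℝ} (h1 : 0 < r) (h2 : 0 < δ) :
    ∃ ρ : ℝ, 0 < ρ ∧ 16 * ρ ≤ r ∧ 8 * ρ ≤ δ ∧ 16 * ρ ≤ 1 := by
  refine ⟨min (r / 16) (min (δ / 8) (1 / 16)), by positivity, ?_, ?_, ?_⟩
  · have := min_le_left (r / 16) (min (δ / 8) (1 / 16))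
    linarith
  · have := (min_le_right (r / 16) (min (δ / 8) (1 / 16))).trans (min_le_left _ _)
    linarith
  · have := (min_le_right (r / 16) (min (δ / 8) (1 / 16))).trans (min_le_right _ _)
    linarith

lemma exists_small {a b c d : ℝ} (ha : 0 < a) (hb : 0 < b) (hc : 0 < c) (hd : 0 < d) :
    ∃ e : ℝ, 0 < e ∧ a * e ≤ b ∧ c * e ≤ d := by
  refine ⟨min (b / a) (d / c), by positivity, ?_, ?_⟩
  · have := min_le_left (b / a) (d / c)
    rw [le_div_iff₀ ha] at this
    linarith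
  · have := min_le_right (b / a) (d / c)
    rw [le_div_iff₀ hc] at this
    linarith

lemma expo {c L y ρ : ℝ} (hc : 0 < c) (hL : 1 / 2 ≤ L) (hy : ρ ^ 2 ≤ y ^ 2) :
    -(3 / 4 * (y ^ 2 * L / c)) ≤ -(ρ ^ 2 * L / (2 * c)) + -(1 / (8 * c)) * y ^ 2 := by
  have h1 : ρ ^ 2 * L / (2 * c) ≤ y ^ 2 * L / (2 * c) := by gcongr
  have h2 : 1 / (8 * c) * y ^ 2 ≤ y ^ 2 * L / (4 * c) := by
    rw [div_mul_eq_mul_div, div_le_div_iff₀ (by positivity) (by positivity)]
    nlinarith [mul_nonneg (sq_nonneg y) hc.le, mul_nonneg (mul_nonneg (sq_nonneg y) hc.le)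
      (by linarith : 0 ≤ L - 1 / 2)]
  have h3 : 3 / 4 * (y ^ 2 * L / c) = y ^ 2 * L / (2 * c) + y ^ 2 * L / (4 * c) := by
    field_simp
    ring
  rw [h3]
  linarith

lemma far_bound {c L A ρ : ℝ} {G : ℝ → ℂ} (hG : Continuous G) (hc : 0 < c) (hL : 1 / 2 ≤ L)
    (hA : 0 ≤ A) (hρ : 0 < ρ)
    (hb : ∀ y, ‖G y‖ ≤ A * Real.exp (-(3 / 4 * (y ^ 2 * L / c)))) :
    Integrable G ∧ ‖∫ y in (Ioo (-ρ) ρ)ᶜ, G y‖ ≤
      A * Real.exp (-(ρ ^ 2 * L / (2 * c))) * √(Real.pi / (1 / (8 * c))) := by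
  have hgi : Integrable fun y : ℝ => Real.exp (-(1 / (8 * c)) * y ^ 2) :=
    integrable_exp_neg_mul_sq (by positivity)
  constructor
  · refine (hgi.const_mul A).mono' hG.aestronglyMeasurable (Eventually.of_forall fun y => ?_)
    refine (hb y).trans ?_
    gcongr
    have := expo (ρ := 0) hc hL (by simpa using sq_nonneg y)
    simpa using this
  · have h1 : Integrable fun y : ℝ => A * Real.exp (-(ρ ^ 2 * L / (2 * c))) *
        Real.exp (-(1 / (8 * c)) * y ^ 2) := hgi.const_mul _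
    have h2 : ‖∫ y in (Ioo (-ρ) ρ)ᶜ, G y‖ ≤ ∫ y in (Ioo (-ρ) ρ)ᶜ,
        A * Real.exp (-(ρ ^ 2 * L / (2 * c))) * Real.exp (-(1 / (8 * c)) * y ^ 2) := by
      refine norm_integral_le_of_norm_le h1.integrableOn ?_
      refine (ae_restrict_iff' measurableSet_Ioo.compl).mpr (Eventually.of_forall fun y hy => ?_)
      refine (hb y).trans ?_
      rw [mul_assoc, ← Real.exp_add]
      gcongr
      refine expo hc hL ?_
      have h3 : ρ ≤ |y| := by
        by_contra hcon
        push Not at hcon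
        exact hy (abs_lt.mp hcon)
      rw [← sq_abs y]
      gcongr
    refine h2.trans ?_
    refine (setIntegral_le_integral h1 (Eventually.of_forall fun y => ?_)).trans ?_
    · positivity
    · rw [integral_const_mul, integral_gaussian]

lemma near_eq {lam ρ : ℝ} {G : ℝ → ℂ} {g h : ℂ → ℂ} (hρ : 0 < ρ)
    (hG : ∀ y : ℝ, G y = exp (-((lam * y ^ 2 : ℝ) : ℂ)) * g (I * y))
    (hh : ∀ z ∈ Metric.ball (0 : ℂ) (4 * ρ), g z = g 0 * exp (h z)) :
    ∫ y in Ioo (-ρ) ρ, G y =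
      g 0 * ∫ v in Ioo (-ρ) ρ, exp (-(lam * v ^ 2 : ℝ) + h (I * v)) := by
  rw [← integral_const_mul]
  refine setIntegral_congr_fun measurableSet_Ioo fun y hy => ?_
  have h1 : (I * y : ℂ) ∈ Metric.ball (0 : ℂ) (4 * ρ) := by
    rw [mem_ball_zero_iff, norm_mul, Complex.norm_I, one_mul, Complex.norm_real,
      Real.norm_eq_abs]
    have := abs_lt.mpr ⟨hy.1, hy.2⟩
    linarith
  rw [hG, hh _ h1, Complex.exp_add]
  push_cast
  ring

end CL33_

open CL33_ in
theorem r_CL3 (h1 : U_BCL) (h2 : U_SDH) (h3 : U_IVF) (h4 : V_FL3) : V_CL3 := by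
  intro c δ K r hc hδ hK hr hF hLow
  obtain ⟨ρ, hρ, hρ1, hρ2, hρ3⟩ := exists_rad hr hδ
  obtain ⟨η₀, lam₀, hη₀, hlam₀, hsdh⟩ := h2 (2 * ρ) (by linarith)
  obtain ⟨e, he0, he1, he2⟩ := exists_small (a := 64 * c) (b := ρ ^ 2) (c := 8 * c) (d := η₀)
    (by positivity) (by positivity) (by positivity) hη₀
  obtain ⟨Q, hQ⟩ : ∃ Q : ℝ, Q = (K + 2) ^ 2 := ⟨_, rfl⟩
  have hQ0 : 0 < Q := by
    rw [hQ]
    positivity
  obtain ⟨κ, hκ0, hκ1, hκ2⟩ := exists_small (a := Q) (b := e) (c := 8 * c) (d := 1)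
    hQ0 he0 (by positivity) one_pos
  obtain ⟨C₁, T₁, hC₁, hT₁, hup⟩ := hF e κ he0 hκ0
  obtain ⟨T₂, hT₂, hlow⟩ := h4 c hc hF hLow δ K r e hδ hK hr he0
  obtain ⟨T₃, hT₃⟩ := eventually_atTop.mp ((tendsto_rpow_atTop he0).eventually_ge_atTop C₁)
  obtain ⟨T₄, hT₄⟩ := eventually_atTop.mp ((tendsto_rpow_atTop he0).eventually_ge_atTop
    √(Real.pi / (1 / (8 * c))))
  obtain ⟨T₅, hT₅⟩ := NE22_.log_bound (C := 4 / c) (e := 2 * e) (by positivity) (by positivity)
  refine ⟨max (max (max T₁ T₂) (max T₃ T₄)) (max T₅ (Real.exp (max 1 (lam₀ * c)))),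
    hT₁.trans ((le_max_left _ _).trans ((le_max_left _ _).trans (le_max_left _ _))),
    fun T x v hT hx1 hx2 hv hnz => ?_⟩
  simp only [max_le_iff] at hT
  obtain ⟨⟨⟨hTa, hTb⟩, hTc, hTd⟩, hTe, hTf⟩ := hT
  have hT2 : 2 ≤ T := hT₁.trans hTa
  have hT0 : 0 < T := by linarith
  have hT1 : 1 ≤ T := by linarith
  have hs := size_pos hT0
  have hLf : max 1 (lam₀ * c) ≤ Real.log T := by
    rwa [Real.le_log_iff_exp_le hT0]
  have hL1 : 1 ≤ Real.log T := (le_max_left _ _).trans hLf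
  have hL2 : lam₀ * c ≤ Real.log T := (le_max_right _ _).trans hLf
  have hL : 0 < Real.log T := by linarith
  have hC₁T := hT₃ T hTc
  have hBT := hT₄ T hTd
  have hlb := hlow T x v hTb hx1 hx2 (hv.trans (by norm_num)) hnz
  have hivf := h3 c T (1 / 2 + T * I + (x + v * I)) hc (by linarith)
  obtain ⟨t, ht⟩ : ∃ t : ℝ, t = c / Real.log T := ⟨_, rfl⟩
  have hupT : ∀ w : ℂ, ‖flow t (1 / 2 + T * I + w)‖ ≤
      C₁ * size T * T ^ (|w.re| / 2 + c / 16 + e) *
        Real.exp (κ * ‖w‖ ^ 2 * Real.log T) := by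
    intro w
    rw [ht]
    exact hup T w hTa (mem_univ _)
  rw [← ht] at hlb hnz hivf
  have ht0 : 0 < t := by
    rw [ht]
    positivity
  have hexpM : ∀ k : ℝ, Real.exp (k * Real.log T) = T ^ k := by
    intro k
    rw [Real.rpow_def_of_pos hT0, mul_comm]
  -- the function `g`
  obtain ⟨s, hsd⟩ : ∃ s : ℂ, s = 1 / 2 + T * I + (x + v * I) := ⟨_, rfl⟩
  rw [← hsd] at hlb hivf ⊢
  obtain ⟨g, hgd⟩ : ∃ g : ℂ → ℂ, g = fun z => exp (-(z / 2) * (Real.log T : ℝ)) *
    flow t (s + z) := ⟨_, rfl⟩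
  have hdiff : Differentiable ℂ g := by
    rw [hgd]
    have h5 : Differentiable ℂ (fun z : ℂ => flow t (s + z)) :=
      (differentiable_flow t).comp (by fun_prop)
    have h6 : Differentiable ℂ (fun z : ℂ => exp (-(z / 2) * (Real.log T : ℝ))) := by
      fun_prop
    exact h6.mul h5
  have hgn : ∀ z : ℂ, ‖g z‖ = T ^ (-(z.re / 2)) * ‖flow t (s + z)‖ := by
    intro z
    rw [hgd]
    simp only
    rw [norm_mul, FL33_.norm_fac hT0]
  have hg0 : g 0 = flow t s := by
    rw [hgd]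
    simp
  have hg0low : size T * T ^ (x / 2 + c / 16 - e) ≤ ‖g 0‖ := by
    rw [hg0]
    exact hlb
  have hg0pos : 0 < ‖g 0‖ := lt_of_lt_of_le (by positivity) hg0low
  have hball : ∀ z ∈ Metric.ball (0 : ℂ) (4 * ρ), g z ≠ 0 ∧ ‖g z‖ ≤
      Real.exp (4 * e * Real.log T) * ‖g 0‖ := by
    intro z hz
    rw [mem_ball_zero_iff] at hz
    have hzr := abs_le.mp ((abs_re_le_norm z).trans hz.le)
    have hsz : s + z = 1 / 2 + T * I + ((x + v * I) + z) := by
      rw [hsd]
      ring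
    constructor
    · rw [hgd]
      simp only
      refine mul_ne_zero (exp_ne_zero _) ?_
      rw [hsz]
      apply hnz
      rw [show (x + v * I + z) - (x + v * I : ℂ) = z by ring]
      linarith
    · have hre : ((x + v * I) + z : ℂ).re = x + z.re := by simp
      have hrepos : 0 < x + z.re := by linarith [hzr.1]
      have hnw : ‖((x + v * I) + z : ℂ)‖ ≤ K + 2 := by
        have h5 : ‖(x : ℂ) + v * I‖ ≤ x + |v| := by
          refine (norm_add_le _ _).trans ?_
          rw [norm_mul, Complex.norm_real, Complex.norm_real, Complex.norm_I, mul_one,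
            Real.norm_of_nonneg (by linarith), Real.norm_eq_abs]
        refine (norm_add_le _ _).trans ?_
        linarith
      have hk : κ * ‖((x + v * I) + z : ℂ)‖ ^ 2 ≤ e := by
        have h5 : ‖((x + v * I) + z : ℂ)‖ ^ 2 ≤ Q := by
          rw [hQ]
          gcongr
        calc κ * ‖((x + v * I) + z : ℂ)‖ ^ 2 ≤ κ * Q := by gcongr
          _ ≤ e := by linarith
      have h6 := hupT ((x + v * I) + z)
      rw [← hsz, hre, abs_of_pos hrepos] at h6
      rw [hgn]
      calc T ^ (-(z.re / 2)) * ‖flow t (s + z)‖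
          ≤ T ^ (-(z.re / 2)) * (C₁ * size T * T ^ ((x + z.re) / 2 + c / 16 + e) *
            Real.exp (κ * ‖((x + v * I) + z : ℂ)‖ ^ 2 * Real.log T)) := by gcongr
        _ ≤ size T * T ^ (x / 2 + c / 16 + 3 * e) := FL33_.upper hT1 hs.le hC₁T hk
        _ = T ^ (4 * e) * (size T * T ^ (x / 2 + c / 16 - e)) := by
            have e1 : T ^ (x / 2 + c / 16 + 3 * e) =
                T ^ (4 * e) * T ^ (x / 2 + c / 16 - e) := by
              rw [← Real.rpow_add hT0]
              congr 1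
              ring
            rw [e1]
            ring
        _ ≤ T ^ (4 * e) * ‖g 0‖ := by gcongr
        _ = _ := by rw [hexpM]
  obtain ⟨h, ⟨hh1, hh2, hh3⟩, hh4⟩ := h1 g (4 * ρ) (4 * e * Real.log T) (by linarith)
    (by positivity) hdiff.differentiableOn hball
  -- the near part
  obtain ⟨lam, hlam⟩ : ∃ lam : ℝ, lam = Real.log T / c := ⟨_, rfl⟩
  have hlam0 : lam₀ ≤ lam := by
    rw [hlam, le_div_iff₀ hc]
    exact hL2
  have hlampos : 0 < lam := by
    rw [hlam]
    positivity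
  have hsub : Metric.ball (0 : ℂ) (2 * ρ) ⊆ Metric.ball 0 (4 * ρ) :=
    Metric.ball_subset_ball (by linarith)
  have hrot : ∀ z ∈ Metric.ball (0 : ℂ) (2 * ρ), I * z ∈ Metric.ball (0 : ℂ) (2 * ρ) := by
    intro z hz
    rw [mem_ball_zero_iff] at hz ⊢
    rw [norm_mul, Complex.norm_I, one_mul]
    exact hz
  have hkey := hsdh (8 * c * e) lam (fun z => h (I * z)) (by positivity) he2 hlam0 (by
    refine (hh1.mono hsub).comp ?_ hrot
    fun_prop) (by
    intro z hz
    have h5 : ‖I * z‖ < 2 * ρ := by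
      have := hrot z hz
      rwa [mem_ball_zero_iff] at this
    calc ‖h (I * z)‖ ≤ 2 * (4 * e * Real.log T) * ‖I * z‖ / (4 * ρ - ‖I * z‖) :=
          hh4 _ (hsub (hrot z hz))
      _ ≤ 2 * (4 * e * Real.log T) := by
          rw [div_le_iff₀ (by linarith)]
          gcongr
          linarith
      _ = 8 * c * e * lam := by
          rw [hlam]
          field_simp
          ring)
  rw [show 2 * ρ / 2 = ρ by ring] at hkey
  obtain ⟨G, hGd⟩ : ∃ G : ℝ → ℂ, G = fun y : ℝ =>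
    exp (-((y ^ 2 / t : ℝ) : ℂ) - ((y * Real.log T / 2 : ℝ) : ℂ) * I) *
        flow t (s + y * I) := ⟨_, rfl⟩
  have hGg : ∀ y : ℝ, G y = exp (-((lam * y ^ 2 : ℝ) : ℂ)) * g (I * y) := by
    intro y
    rw [hGd, hgd]
    simp only
    rw [← mul_assoc, ← Complex.exp_add, mul_comm I (y : ℂ)]
    congr 2
    rw [ht, hlam]
    push_cast
    field_simp
    ring
  have hnear := near_eq (g := g) (h := h) hρ hGg hh3
  have hGc : Continuous G := by
    have h5 : Continuous fun y : ℝ => flow t (s + y * I) :=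
      (differentiable_flow t).continuous.comp (by fun_prop)
    rw [hGd]
    refine Continuous.mul ?_ h5
    fun_prop
  -- the far part
  have hGb : ∀ y : ℝ, ‖G y‖ ≤ (C₁ * size T * T ^ (x / 2 + c / 16 + 2 * e)) *
      Real.exp (-(3 / 4 * (y ^ 2 * Real.log T / c))) := by
    intro y
    have h5 : ‖G y‖ = Real.exp (-(y ^ 2 * Real.log T / c)) * ‖flow t (s + y * I)‖ := by
      rw [hGd]
      simp only
      rw [norm_mul, norm_exp]
      congr 2
      have h6 : (-((y ^ 2 / t : ℝ) : ℂ) - ((y * Real.log T / 2 : ℝ) : ℂ) * I).re =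
          -(y ^ 2 / t) := by
        rw [sub_re, neg_re, ofReal_re, re_ofReal_mul, I_re, mul_zero, sub_zero]
      rw [h6, ht]
      field_simp
    have h6 := hupT ((x + v * I) + y * I)
    rw [← add_assoc, ← hsd] at h6
    have h7 : (x + v * I + y * I : ℂ).re = x := by simp
    rw [h7, abs_of_pos (by linarith)] at h6
    have h8 : ‖(x + v * I + y * I : ℂ)‖ ^ 2 ≤ Q + 2 * y ^ 2 := by
      have h9 : (x + v * I + y * I : ℂ).im = v + y := by simp
      rw [← Complex.normSq_eq_norm_sq, Complex.normSq_apply, h7, h9, hQ]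
      have hv2 : v ^ 2 ≤ 1 / 4 := by
        have := abs_le.mp hv
        nlinarith
      have hx0 : 0 ≤ x := by linarith
      have hx2' : x ^ 2 ≤ K ^ 2 := by gcongr
      nlinarith [sq_nonneg (v - y)]
    have h10 : κ * ‖(x + v * I + y * I : ℂ)‖ ^ 2 * Real.log T ≤
        e * Real.log T + 1 / 4 * (y ^ 2 * Real.log T / c) := by
      have h11 : κ * ‖(x + v * I + y * I : ℂ)‖ ^ 2 ≤ e + 1 / 4 * (y ^ 2 / c) := by
        have h12 : κ ≤ 1 / (8 * c) := by
          rw [le_div_iff₀ (by positivity)]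
          linarith
        calc κ * ‖(x + v * I + y * I : ℂ)‖ ^ 2 ≤ κ * (Q + 2 * y ^ 2) := by gcongr
          _ = Q * κ + κ * (2 * y ^ 2) := by ring
          _ ≤ e + 1 / (8 * c) * (2 * y ^ 2) := by gcongr
          _ = _ := by
              field_simp
              ring
      calc κ * ‖(x + v * I + y * I : ℂ)‖ ^ 2 * Real.log T
          ≤ (e + 1 / 4 * (y ^ 2 / c)) * Real.log T := by gcongr
        _ = _ := by ring
    rw [h5]
    calc Real.exp (-(y ^ 2 * Real.log T / c)) * ‖flow t (s + y * I)‖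
        ≤ Real.exp (-(y ^ 2 * Real.log T / c)) * (C₁ * size T * T ^ (x / 2 + c / 16 + e) *
          Real.exp (e * Real.log T + 1 / 4 * (y ^ 2 * Real.log T / c))) := by
          gcongr
          exact h6.trans (by gcongr)
      _ = C₁ * size T * (T ^ (x / 2 + c / 16 + e) * Real.exp (e * Real.log T)) *
          (Real.exp (-(y ^ 2 * Real.log T / c)) *
            Real.exp (1 / 4 * (y ^ 2 * Real.log T / c))) := by
          rw [Real.exp_add]
          ring
      _ = _ := by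
          have e1 : T ^ (x / 2 + c / 16 + e) * Real.exp (e * Real.log T) =
              T ^ (x / 2 + c / 16 + 2 * e) := by
            rw [hexpM, ← Real.rpow_add hT0]
            congr 1
            ring
          have e2 : Real.exp (-(y ^ 2 * Real.log T / c)) *
              Real.exp (1 / 4 * (y ^ 2 * Real.log T / c)) =
              Real.exp (-(3 / 4 * (y ^ 2 * Real.log T / c))) := by
            rw [← Real.exp_add]
            congr 1
            ring
          rw [e1, e2]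
  obtain ⟨hGi, hfar⟩ := far_bound hGc hc (by linarith) (by positivity) hρ hGb
  have hfar2 : ‖∫ y in (Ioo (-ρ) ρ)ᶜ, G y‖ ≤
      size T * T ^ (x / 2 + c / 16 + 4 * e - ρ ^ 2 / (2 * c)) := by
    refine hfar.trans ?_
    have e1 : Real.exp (-(ρ ^ 2 * Real.log T / (2 * c))) = T ^ (-(ρ ^ 2 / (2 * c))) := by
      rw [← hexpM]
      congr 1
      ring
    rw [e1]
    calc C₁ * size T * T ^ (x / 2 + c / 16 + 2 * e) * T ^ (-(ρ ^ 2 / (2 * c))) *
          √(Real.pi / (1 / (8 * c)))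
        ≤ T ^ e * size T * T ^ (x / 2 + c / 16 + 2 * e) * T ^ (-(ρ ^ 2 / (2 * c))) *
          T ^ e := by gcongr
      _ = size T * (T ^ e * T ^ (x / 2 + c / 16 + 2 * e) * T ^ (-(ρ ^ 2 / (2 * c))) *
          T ^ e) := by ring
      _ = _ := by
          rw [← Real.rpow_add hT0, ← Real.rpow_add hT0, ← Real.rpow_add hT0]
          congr 2
          ring
  have hnear2 : size T * T ^ (x / 2 + c / 16 - 18 * e) ≤ ‖∫ y in Ioo (-ρ) ρ, G y‖ := by
    rw [hnear, norm_mul]
    have h5 : T ^ (-e) ≤ 1 / (2 * √lam) := by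
      have h6 := hT₅ T hTe
      have h7 : 4 * lam ≤ T ^ (2 * e) := by
        refine le_trans (le_of_eq ?_) h6
        rw [hlam]
        ring
      have h8 : 2 * √lam ≤ T ^ e := by
        have h9 : 2 * √lam = √(4 * lam) := by
          rw [Real.sqrt_mul (by norm_num), show (4 : ℝ) = 2 ^ 2 by norm_num,
            Real.sqrt_sq (by norm_num)]
        rw [h9]
        refine Real.sqrt_le_iff.mpr ⟨by positivity, h7.trans (le_of_eq ?_)⟩
        rw [← Real.rpow_natCast, ← Real.rpow_mul hT0.le]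
        congr 1
        push_cast
        ring
      rw [Real.rpow_neg hT0.le, one_div]
      exact inv_anti₀ (by positivity) h8
    have h6 : Real.exp (-(2 * (8 * c * e) * lam)) = T ^ (-(16 * e)) := by
      rw [← hexpM]
      congr 1
      rw [hlam]
      field_simp
      ring
    rw [h6] at hkey
    calc size T * T ^ (x / 2 + c / 16 - 18 * e)
        = (size T * T ^ (x / 2 + c / 16 - e)) * (T ^ (-e) * T ^ (-(16 * e))) := by
          rw [← Real.rpow_add hT0, mul_assoc, ← Real.rpow_add hT0]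
          congr 2
          ring
      _ ≤ ‖g 0‖ * (1 / (2 * √lam) * T ^ (-(16 * e))) := by gcongr
      _ ≤ _ := by gcongr
  have hlt : size T * T ^ (x / 2 + c / 16 + 4 * e - ρ ^ 2 / (2 * c)) <
      size T * T ^ (x / 2 + c / 16 - 18 * e) := by
    refine mul_lt_mul_of_pos_left (Real.rpow_lt_rpow_of_exponent_lt (by linarith) ?_) hs
    have h5 : 32 * e ≤ ρ ^ 2 / (2 * c) := by
      rw [le_div_iff₀ (by positivity)]
      linarith
    linarith
  have hsplit : ∫ y : ℝ, G y = (∫ y in Ioo (-ρ) ρ, G y) + ∫ y in (Ioo (-ρ) ρ)ᶜ, G y :=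
    (integral_add_compl measurableSet_Ioo hGi).symm
  have hne : ∫ y : ℝ, G y ≠ 0 := by
    intro h0
    rw [hsplit] at h0
    have h5 : ‖∫ y in Ioo (-ρ) ρ, G y‖ = ‖∫ y in (Ioo (-ρ) ρ)ᶜ, G y‖ := by
      rw [eq_neg_of_add_eq_zero_left h0, norm_neg]
    linarith
  intro hxi
  rw [hxi, mul_zero] at hivf
  have h5 : ((T ^ (c / 16) : ℝ) : ℂ) ≠ 0 := by
    exact_mod_cast (Real.rpow_pos_of_pos hT0 _).ne'
  rcases mul_eq_zero.mp hivf.symm with h6 | h6
  · exact h5 h6
  · apply hne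
    rw [hGd]
    exact h6

end Pool.Agent.DBC
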