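import Pool.Agent.DBC.Targets3
import Pool.Agent.DBN.ZA
import Pool.Agent.DBN.ZLP

/-!
# The exact reality threshold of the flow: the converse (CV2), from CL3
-/

set_option autoImplicit false

namespace Pool.Agent.DBC

open Complex MeasureTheory Set Filter Topology
open Pool.Agent.DBN

theorem r_CVN (h1 : T_CVR) (h2 : U_NZR) (h3 : V_CL3) : U_CV2 := by
  intro c₁ c₂ c hR hc hc1 hc2 δ hδ
  have hF := flow_good (h1 c₁ c₂ c hR hc hc1 hc2)
  have hLow : ∀ R : ℝ, 1 ≤ R → Low c R := by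
    intro R hR1
    refine low_pos (R₀ := 0) hc hR1 (by linarith) ?_
    intro ε κ hε hκ
    obtain ⟨C, T₀, hC, hT₀, h⟩ := hF ε κ hε hκ
    exact ⟨C, T₀, hC, hT₀, fun T w hT _ => h T w hT (mem_univ _)⟩
  obtain ⟨T₁, hT₁, hnz⟩ := h2 c₁ c₂ c hR hc hc1 hc2 (1 + δ) (by linarith)
  obtain ⟨T₀, hT₀, h⟩ := h3 c δ 1 δ hc hδ one_pos hδ hF hLow
  refine ⟨max T₀ T₁, fun s hs him hz => ?_⟩
  have hre : s.re < 1 := by
    by_contra hcon
    exact riemannZeta_ne_zero_of_one_le_re (not_lt.1 hcon) hz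
  have himp : 0 < s.im := by linarith [(le_max_left T₀ T₁).trans him]
  have hx1 : δ ≤ s.re - 1 / 2 - c / 4 := by linarith
  have h5 := h s.im (s.re - 1 / 2 - c / 4) 0 ((le_max_left _ _).trans him) hx1
    (by linarith) (by simp) (by
      intro w hw
      rw [ofReal_zero, zero_mul, add_zero] at hw
      refine hnz s.im w ((le_max_right _ _).trans him) ?_ ?_
      · have h6 := abs_le.mp ((abs_re_le_norm _).trans hw.le)
        rw [sub_re, ofReal_re] at h6
        have h7 := abs_lt.mp (lt_of_le_of_lt (abs_re_le_norm _) hw)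
        rw [sub_re, ofReal_re] at h7
        linarith [h7.1]
      · have h6 : ‖w‖ ≤ ‖w - ((s.re - 1 / 2 - c / 4 : ℝ) : ℂ)‖ +
            ‖((s.re - 1 / 2 - c / 4 : ℝ) : ℂ)‖ := by
          have := norm_add_le (w - ((s.re - 1 / 2 - c / 4 : ℝ) : ℂ))
            ((s.re - 1 / 2 - c / 4 : ℝ) : ℂ)
          rwa [sub_add_cancel] at this
        rw [Complex.norm_real, Real.norm_of_nonneg (by linarith)] at h6
        linarith)
  apply h5
  have hse : (1 / 2 + s.im * I + (((s.re - 1 / 2 - c / 4 : ℝ) : ℂ) + ((0 : ℝ) : ℂ) * I) +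
      (c / 4 : ℝ) : ℂ) = s := by
    apply Complex.ext <;> simp
    ring
  have hs0 : s ≠ 0 := by
    intro h6
    rw [h6, zero_im] at himp
    exact lt_irrefl _ himp
  have hs1 : s ≠ 1 := by
    intro h6
    rw [h6, one_im] at himp
    exact lt_irrefl _ himp
  rw [hse, xi_eq hs0 hs1 (gammaR_ne_zero himp.ne'), hz, mul_zero]

end Pool.Agent.DBC
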