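import Pool.Agent.DBC.Targets3
import Pool.Agent.DBN.FlowReg
import Pool.Agent.DBN.Far

/-!
# FL3: local lower bound for the flow
-/

set_option autoImplicit false

namespace Pool.Agent.DBC

open Complex MeasureTheory Set Filter Topology
open Pool.Agent.DBN

namespace FL33_

lemma norm_fac {T : ℝ} (hT : 0 < T) (z : ℂ) :
    ‖exp (-(z / 2) * (Real.log T : ℝ))‖ = T ^ (-(z.re / 2)) := by
  rw [norm_exp, Real.rpow_def_of_pos hT]
  congr 1
  simp
  ring

lemma upper {T C s a x y e k : ℝ} (hT : 1 ≤ T) (hs : 0 ≤ s) (hC : C ≤ T ^ e)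
    (hk : k ≤ e) :
    T ^ (-(x / 2)) * (C * s * T ^ ((y + x) / 2 + a + e) * Real.exp (k * Real.log T)) ≤
      s * T ^ (y / 2 + a + 3 * e) := by
  have hT0 : 0 < T := by linarith
  have h1 : Real.exp (k * Real.log T) ≤ T ^ e := by
    rw [Real.rpow_def_of_pos hT0]
    apply Real.exp_le_exp.2
    rw [mul_comm]
    exact mul_le_mul_of_nonneg_left hk (Real.log_nonneg hT)
  have e1 : T ^ (y / 2 + a + 3 * e) =
      T ^ (-(x / 2)) * (T ^ e * T ^ ((y + x) / 2 + a + e) * T ^ e) := by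
    rw [← Real.rpow_add hT0, ← Real.rpow_add hT0, ← Real.rpow_add hT0]
    congr 1
    ring
  calc T ^ (-(x / 2)) * (C * s * T ^ ((y + x) / 2 + a + e) * Real.exp (k * Real.log T))
      ≤ T ^ (-(x / 2)) * (T ^ e * s * T ^ ((y + x) / 2 + a + e) * T ^ e) := by gcongr
    _ = s * (T ^ (-(x / 2)) * (T ^ e * T ^ ((y + x) / 2 + a + e) * T ^ e)) := by ring
    _ = _ := by rw [← e1]

end FL33_

open FL33_ in
theorem r_FL3 (h : V_CAR) : V_FL3 := by
  intro c hc hF hLow δ K r ε hδ hK hr hε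
  by_cases hKδ : K < δ
  · refine ⟨2, le_rfl, fun T x v _ h1 h2 _ _ => ?_⟩
    exfalso
    linarith
  push Not at hKδ
  obtain ⟨R, hR⟩ : ∃ R : ℝ, R = K + 1 := ⟨_, rfl⟩
  obtain ⟨C, hC, hcar⟩ := h (R - 3 * δ / 4) (R - δ / 2) (R - δ / 4) r (by linarith)
    (by linarith) (by linarith) hr
  obtain ⟨e, he⟩ : ∃ e : ℝ, e = ε / (4 * C + 1) := ⟨_, rfl⟩
  have he0 : 0 < e := by
    rw [he]
    positivity
  have hee : (4 * C + 1) * e = ε := by
    rw [he]
    field_simp
  obtain ⟨Q, hQ⟩ : ∃ Q : ℝ, Q = (2 * R + 1) ^ 2 + 1 := ⟨_, rfl⟩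
  have hQ0 : 0 < Q := by
    rw [hQ]
    positivity
  obtain ⟨C₁, T₁, hC₁, hT₁, h1⟩ := hF e (e / Q) he0 (by positivity)
  obtain ⟨T₂, hT₂, h2⟩ := hLow R (by linarith) (δ / 8) e (by positivity) he0
  obtain ⟨T₃, h3⟩ := eventually_atTop.mp ((tendsto_rpow_atTop he0).eventually_ge_atTop C₁)
  refine ⟨max (max T₁ T₂) T₃, hT₁.trans ((le_max_left _ _).trans (le_max_left _ _)),
    fun T x v hT hx1 hx2 hv hnz => ?_⟩
  have hTa : T₁ ≤ T := ((le_max_left _ _).trans (le_max_left _ _)).trans hT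
  have hTb : T₂ ≤ T := ((le_max_right _ _).trans (le_max_left _ _)).trans hT
  have hTc : C₁ ≤ T ^ e := h3 T ((le_max_right _ _).trans hT)
  have hT2 : 2 ≤ T := hT₁.trans hTa
  have hT0 : 0 < T := by linarith
  have hT1 : 1 ≤ T := by linarith
  have hs := size_pos hT0
  have hL : 0 < Real.log T := Real.log_pos (by linarith)
  obtain ⟨w₀, hw₀, hlow⟩ := h2 T v hTb hv
  obtain ⟨t, ht⟩ : ∃ t : ℝ, t = c / Real.log T := ⟨_, rfl⟩
  rw [← ht] at hlow hnz ⊢
  have hw₀re : |w₀.re - R| ≤ δ / 8 := by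
    have h4 := (abs_re_le_norm (w₀ - (R + v * I))).trans hw₀
    simpa using h4
  obtain ⟨k1, k2⟩ := abs_le.mp hw₀re
  have hw₀n : ‖w₀‖ ≤ R + 1 + δ / 8 := by
    have e1 : w₀ = (w₀ - (R + v * I)) + ((R : ℂ) + v * I) := by ring
    rw [e1]
    refine (norm_add_le _ _).trans ?_
    have h4 : ‖(R : ℂ) + v * I‖ ≤ R + 1 := by
      refine (norm_add_le _ _).trans ?_
      rw [norm_mul, Complex.norm_real, Complex.norm_real, Complex.norm_I, mul_one,
        Real.norm_of_nonneg (by linarith), Real.norm_eq_abs]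
      linarith
    linarith
  set F : ℂ → ℂ := fun z => exp (-(z / 2) * (Real.log T : ℝ)) *
    flow t (1 / 2 + T * I + (w₀ + z)) with hFd
  have hdiff : Differentiable ℂ F := by
    have h4 : Differentiable ℂ (fun z : ℂ => flow t (1 / 2 + T * I + (w₀ + z))) :=
      (differentiable_flow t).comp (by fun_prop)
    have h5 : Differentiable ℂ (fun z : ℂ => exp (-(z / 2) * (Real.log T : ℝ))) := by
      fun_prop
    exact h5.mul h4
  have hFn : ∀ z : ℂ, ‖F z‖ = T ^ (-(z.re / 2)) * ‖flow t (1 / 2 + T * I + (w₀ + z))‖ := by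
    intro z
    simp only [hFd]
    rw [norm_mul, norm_fac hT0]
  have hF0 : ‖F 0‖ = ‖flow t (1 / 2 + T * I + w₀)‖ := by
    rw [hFn]
    simp
  have hF0low : size T * T ^ (w₀.re / 2 + c / 16 - e) ≤ ‖F 0‖ := by
    rw [hF0]
    exact hlow
  have hF0pos : 0 < ‖F 0‖ := lt_of_lt_of_le (by positivity) hF0low
  have hexpM : ∀ k : ℝ, Real.exp (k * Real.log T) = T ^ k := by
    intro k
    rw [Real.rpow_def_of_pos hT0, mul_comm]
  have hup : ∀ z ∈ Metric.ball (0 : ℂ) (R - δ / 4), ‖F z‖ ≤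
      Real.exp (4 * e * Real.log T) * ‖F 0‖ := by
    intro z hz
    rw [mem_ball_zero_iff] at hz
    have hzr := abs_le.mp ((abs_re_le_norm z).trans hz.le)
    have hre : 0 < (w₀ + z).re := by
      rw [add_re]
      linarith [hzr.1]
    have hnw : ‖w₀ + z‖ ≤ 2 * R + 1 := (norm_add_le _ _).trans (by linarith)
    have h4 := h1 T (w₀ + z) hTa (mem_univ _)
    rw [← ht] at h4
    have hk : e / Q * ‖w₀ + z‖ ^ 2 ≤ e := by
      have h5 : ‖w₀ + z‖ ^ 2 ≤ Q := by
        rw [hQ]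
        nlinarith [norm_nonneg (w₀ + z)]
      calc e / Q * ‖w₀ + z‖ ^ 2 ≤ e / Q * Q := by gcongr
        _ = e := by field_simp
    have h6 : (fun x : ℝ => |x| / 2 + c / 16) (w₀ + z).re = (w₀.re + z.re) / 2 + c / 16 := by
      simp only
      rw [abs_of_pos hre, add_re]
    rw [h6] at h4
    rw [hFn]
    calc T ^ (-(z.re / 2)) * ‖flow t (1 / 2 + T * I + (w₀ + z))‖
        ≤ T ^ (-(z.re / 2)) * (C₁ * size T * T ^ ((w₀.re + z.re) / 2 + c / 16 + e) *
          Real.exp (e / Q * ‖w₀ + z‖ ^ 2 * Real.log T)) := by gcongr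
      _ ≤ size T * T ^ (w₀.re / 2 + c / 16 + 3 * e) := upper hT1 hs.le hTc hk
      _ = T ^ (4 * e) * (size T * T ^ (w₀.re / 2 + c / 16 - e)) := by
          have e1 : T ^ (w₀.re / 2 + c / 16 + 3 * e) =
              T ^ (4 * e) * T ^ (w₀.re / 2 + c / 16 - e) := by
            rw [← Real.rpow_add hT0]
            congr 1
            ring
          rw [e1]
          ring
      _ ≤ T ^ (4 * e) * ‖F 0‖ := by gcongr
      _ = _ := by rw [hexpM]
  obtain ⟨z, hz⟩ : ∃ z : ℂ, z = (x + v * I) - w₀ := ⟨_, rfl⟩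
  have hwz : w₀ + z = x + v * I := by
    rw [hz]
    ring
  have hzn : ‖z‖ ≤ R - 3 * δ / 4 := by
    have e1 : z = ((x - R : ℝ) : ℂ) - (w₀ - (R + v * I)) := by
      rw [hz]
      push_cast
      ring
    rw [e1]
    refine (norm_sub_le _ _).trans ?_
    rw [Complex.norm_real, Real.norm_eq_abs, abs_of_neg (by linarith)]
    linarith
  have hres := hcar F (4 * e * Real.log T) (by positivity) hdiff.differentiableOn
    (norm_pos_iff.mp hF0pos) hup z hzn (fun a _ ha hFa => by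
      have h4 : flow t (1 / 2 + T * I + (w₀ + a)) = 0 := by
        simp only [hFd] at hFa
        rcases mul_eq_zero.mp hFa with h5 | h5
        · exact absurd h5 (exp_ne_zero _)
        · exact h5
      refine hnz (w₀ + a) ?_ h4
      have e1 : w₀ + a - (x + v * I) = a - z := by
        rw [hz]
        ring
      rw [e1]
      exact ha)
  rw [hFn z, hwz] at hres
  have hzre : w₀.re + z.re = x := by
    have h4 := congrArg Complex.re hwz
    simpa using h4
  have e2 : Real.exp (-(C * (4 * e * Real.log T))) = T ^ (-(4 * C * e)) := by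
    rw [← hexpM]
    congr 1
    ring
  rw [e2] at hres
  have h6 : T ^ (-(4 * C * e)) * (size T * T ^ (w₀.re / 2 + c / 16 - e)) ≤
      T ^ (-(z.re / 2)) * ‖flow t (1 / 2 + T * I + (x + v * I))‖ :=
    (mul_le_mul_of_nonneg_left hF0low (by positivity)).trans hres
  have h7 : T ^ (-(z.re / 2)) * (size T * T ^ (x / 2 + c / 16 - ε)) ≤
      T ^ (-(z.re / 2)) * ‖flow t (1 / 2 + T * I + (x + v * I))‖ := by
    refine le_trans (le_of_eq ?_) h6
    have e3 : T ^ (-(z.re / 2)) * T ^ (x / 2 + c / 16 - ε) =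
        T ^ (-(4 * C * e)) * T ^ (w₀.re / 2 + c / 16 - e) := by
      rw [← Real.rpow_add hT0, ← Real.rpow_add hT0]
      congr 1
      rw [← hzre, ← hee]
      ring
    calc T ^ (-(z.re / 2)) * (size T * T ^ (x / 2 + c / 16 - ε))
        = size T * (T ^ (-(z.re / 2)) * T ^ (x / 2 + c / 16 - ε)) := by ring
      _ = _ := by
        rw [e3]
        ring
  exact le_of_mul_le_mul_left h7 (by positivity)

end Pool.Agent.DBC
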