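import Pool.Agent.DBC.Targets3
import Pool.Agent.DBN.ZA
import Pool.Agent.DBN.ZLP

/-!
# The motion of the zeros off the real line: assembly (FMO)
-/

set_option autoImplicit false

namespace Pool.Agent.DBC

open Complex MeasureTheory Set Filter Topology
open Pool.Agent.DBN

namespace FMO3_

theorem pt_eq (T x v : ℝ) : pt x (T + v) = 1 / 2 + T * I + (x + v * I) := by
  unfold pt
  push_cast
  ring

theorem mul_log {c T : ℝ} (hT : 2 ≤ T) : c / Real.log T * Real.log T = c :=
  div_mul_cancel₀ c (Real.log_pos (by linarith)).ne'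

theorem sd_eq {c T : ℝ} (hT : 2 ≤ T) : sd (c / Real.log T) T = c / 4 := by
  unfold sd
  rw [mul_log hT]

theorem xi_zero {s : ℂ} (him : 0 < s.im) (hz : riemannZeta s = 0) : xi s = 0 := by
  have hs0 : s ≠ 0 := by
    intro h6
    rw [h6, zero_im] at him
    exact lt_irrefl _ him
  have hs1 : s ≠ 1 := by
    intro h6
    rw [h6, one_im] at him
    exact lt_irrefl _ him
  rw [xi_eq hs0 hs1 (gammaR_ne_zero him.ne'), hz, mul_zero]

end FMO3_

open FMO3_ in
theorem r_FMO (h1 : T_XIL) (h2 : V_MO1) (h3 : V_CL3) : V_FMO := by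
  intro l c hl hGl hlc hGc δ r K hδ hr hK
  have hc : 0 < c := by linarith
  have hyp : Hyp3 l c c (K + 1) :=
    ⟨hl, hlc, le_rfl, by linarith, h1 l hl hGl, mu_of_good hl.le hGl⟩
  have hF := flow_good hGc
  have hLow : ∀ R : ℝ, 1 ≤ R → Low c R := by
    intro R hR1
    refine low_pos (R₀ := 0) hc hR1 (by linarith) ?_
    intro ε κ hε hκ
    obtain ⟨C, T₀, hC, hT₀, h⟩ := hF ε κ hε hκ
    exact ⟨C, T₀, hC, hT₀, fun T w hT _ => h T w hT (mem_univ _)⟩
  obtain ⟨T₁, hT₁, hM⟩ := h2 l c c (K + 1) δ r hyp hδ hr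
  obtain ⟨T₂, hT₂, hC⟩ := h3 c δ K r hc hδ hK hr hF hLow
  refine ⟨max T₁ T₂, le_max_of_le_left hT₁, ?_⟩
  intro T x v hT hx1 hx2 hv
  have hTT₁ : T₁ ≤ T := (le_max_left _ _).trans hT
  have hTT₂ : T₂ ≤ T := (le_max_right _ _).trans hT
  have hT2 : 2 ≤ T := hT₁.trans hTT₁
  have hml : c / Real.log T * Real.log T = c := mul_log hT2
  constructor
  · intro hfl
    by_contra hcon
    have hno : NoZ (pt x (T + v) + (sd (c / Real.log T) T : ℝ)) r := by
      rw [pt_eq, sd_eq hT2]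
      intro ρ hρ hz
      exact hcon ⟨ρ, hz, hρ.le⟩
    have h4 := hM (c / Real.log T) T x (T + v) hTT₁ hml.ge hml.le hx1 (by linarith) (by
      have : T + v - T = v := by ring
      rw [this]
      linarith) hno
    rw [pt_eq] at h4
    exact h4 hfl
  · intro hz
    by_contra hcon
    have h4 := hC T x v hTT₂ hx1 hx2 hv (fun w hw hfl => hcon ⟨w, hfl, hw.le⟩)
    apply h4
    refine xi_zero ?_ hz
    have h5 := neg_abs_le v
    simp
    linarith

end Pool.Agent.DBC
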