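import Pool.Agent.DBC.Targets3
import Pool.Agent.DBN.ZS
import Pool.Agent.DBN.PhiC

/-!
# The motion of the zeros off the real line: transfer to `H` (helper23)
-/

set_option autoImplicit false

namespace Pool.Agent.DBC

open Complex MeasureTheory Set Filter Topology
open Pool.Agent.DBN

namespace HMO3_

theorem H_conj (t : ℝ) (z : ℂ) : H t ((starRingEnd ℂ) z) = (starRingEnd ℂ) (H t z) := by
  rw [H_eq_flow, H_eq_flow, map_div₀]
  have e : (1 / 2 + I * (starRingEnd ℂ) z / 2 : ℂ) =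
      (starRingEnd ℂ) (1 - (1 / 2 + I * z / 2)) := by
    simp only [map_sub, map_add, map_mul, map_div₀, map_one, conj_I, map_ofNat]
    ring
  rw [e, flow_conj, flow_one_sub, map_ofNat]

theorem zero_flow {t : ℝ} {z : ℂ} (h : H t z = 0) : flow t (1 / 2 + I * z / 2) = 0 := by
  rw [H_eq_flow] at h
  simpa using h

theorem flow_zero {t : ℝ} {z : ℂ} (h : flow t (1 / 2 + I * z / 2) = 0) : H t z = 0 := by
  rw [H_eq_flow, h, zero_div]

end HMO3_

open HMO3_ in
/-- transfer to `H` -/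
theorem r_HMO : V_HMO := by
  intro c hc hF δ r K hδ hr hK
  obtain ⟨T₀, hT₀, h⟩ := hF (δ / 2) (r / 2) (K + 1) (by linarith) (by linarith) (by linarith)
  refine ⟨T₀, hT₀, fun T hT => ⟨?_, ?_⟩⟩
  · intro z hz1 hz2 hz3 hz
    have key : ∃ z' : ℂ, z'.re = z.re ∧ z'.im = -|z.im| ∧ H (c / Real.log T) z' = 0 := by
      rcases le_total 0 z.im with h0 | h0
      · refine ⟨(starRingEnd ℂ) z, by simp, by simp [abs_of_nonneg h0], ?_⟩
        rw [H_conj, hz, map_zero]
      · exact ⟨z, rfl, by rw [abs_of_nonpos h0]; ring, hz⟩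
    obtain ⟨z', hre, him, hz'⟩ := key
    have hx : δ / 2 ≤ |z.im| / 2 := by linarith
    have hv : |z.re / 2 - T| ≤ 1 / 2 := by
      rw [abs_le] at hz1 ⊢
      constructor <;> linarith [hz1.1, hz1.2]
    have e : (1 / 2 + T * I + (((|z.im| / 2 : ℝ) : ℂ) + ((z.re / 2 - T : ℝ) : ℂ) * I) : ℂ) =
        1 / 2 + I * z' / 2 := by
      apply Complex.ext
      · simp [him]
      · simp [hre]
    obtain ⟨ρ, hρ, hρ2⟩ := (h T (|z.im| / 2) (z.re / 2 - T) hT hx (by linarith) hv).1
      (by rw [e]; exact zero_flow hz')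
    refine ⟨ρ, hρ, ?_, ?_⟩
    · have h1 := (Complex.abs_im_le_norm _).trans hρ2
      have e1 : (ρ - (1 / 2 + T * I + (((|z.im| / 2 : ℝ) : ℂ) + ((z.re / 2 - T : ℝ) : ℂ) * I) +
          (c / 4 : ℝ))).im = ρ.im - z.re / 2 := by
        simp
      rw [e1, abs_le] at h1
      rw [abs_le]
      constructor <;> linarith [h1.1, h1.2]
    · have h1 := (Complex.abs_re_le_norm _).trans hρ2
      have e1 : (ρ - (1 / 2 + T * I + (((|z.im| / 2 : ℝ) : ℂ) + ((z.re / 2 - T : ℝ) : ℂ) * I) +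
          (c / 4 : ℝ))).re = ρ.re - (1 / 2 + |z.im| / 2 + c / 4) := by
        simp
      rw [e1, abs_le] at h1
      rw [abs_le]
      constructor <;> linarith [h1.1, h1.2]
  · intro ρ hρ1 hρ2 hρ
    have hre : ρ.re < 1 := by
      by_contra h0
      exact riemannZeta_ne_zero_of_one_le_re (not_lt.1 h0) hρ
    have e : (1 / 2 + T * I + (((ρ.re - 1 / 2 - c / 4 : ℝ) : ℂ) + ((ρ.im - T : ℝ) : ℂ) * I) +
        (c / 4 : ℝ) : ℂ) = ρ := by
      apply Complex.ext
      · simp
        ring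
      · simp
    obtain ⟨w, hw, hw2⟩ := (h T (ρ.re - 1 / 2 - c / 4) (ρ.im - T) hT (by linarith)
      (by linarith) hρ1).2 (by rw [e]; exact hρ)
    refine ⟨(starRingEnd ℂ) (2 * T - 2 * I * w), ?_, ?_, ?_⟩
    · rw [H_conj, flow_zero (z := 2 * T - 2 * I * w), map_zero]
      have e2 : (1 / 2 + I * (2 * T - 2 * I * w) / 2 : ℂ) = 1 / 2 + T * I + w := by
        linear_combination (-w) * Complex.I_mul_I
      rw [e2]
      exact hw
    · have h1 := (Complex.abs_im_le_norm _).trans hw2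
      have e1 : (w - (((ρ.re - 1 / 2 - c / 4 : ℝ) : ℂ) + ((ρ.im - T : ℝ) : ℂ) * I)).im =
          w.im - (ρ.im - T) := by
        simp
      rw [e1, abs_le] at h1
      have e3 : ((starRingEnd ℂ) (2 * T - 2 * I * w)).re = 2 * T + 2 * w.im := by
        simp
      rw [e3, abs_le]
      constructor <;> linarith [h1.1, h1.2]
    · have h1 := (Complex.abs_re_le_norm _).trans hw2
      have e1 : (w - (((ρ.re - 1 / 2 - c / 4 : ℝ) : ℂ) + ((ρ.im - T : ℝ) : ℂ) * I)).re =
          w.re - (ρ.re - 1 / 2 - c / 4) := by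
        simp
      rw [e1, abs_le] at h1
      have e3 : ((starRingEnd ℂ) (2 * T - 2 * I * w)).im = 2 * w.re := by
        simp
      rw [e3, abs_le]
      constructor <;> linarith [h1.1, h1.2]

end Pool.Agent.DBC
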