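import Pool.Agent.DBC.Targets3
import Pool.Agent.DBC.P_SAD
import Pool.Agent.DBC.P_ZER

/-!
DBC3, MO1: no zeros of the flow where the saddle point is away from the zeros of `ζ`.
-/

set_option autoImplicit false

namespace Pool.Agent.DBC

open Complex MeasureTheory Set Filter Topology
open Pool.Agent.DBN

theorem r_MO1 (h1 : T_SPL) (h2 : T_CNJ) (h3 : V_LO3) (h4 : V_OB3) : V_MO1 := by
  intro l c₁ c₂ K δ r hy hδ hr
  obtain ⟨g, C, hg, hC, T₂, hT₂, hO⟩ := h4 l c₁ c₂ K δ hy hδ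
  obtain ⟨T₁, hT₁, hL⟩ := h3 l c₁ c₂ K r hy hr (g / 2) (by linarith)
  obtain ⟨T₃, hT₃, hA⟩ := SAD_.absorb C (g / 2) (1 / 2) (by linarith) (by norm_num)
  refine ⟨max T₁ (max T₂ T₃), hT₁.trans (le_max_left _ _), ?_⟩
  intro t T x τ hT hc1 hc2 hx1 hx2 hτ hz hfl
  have hTa : T₁ ≤ T := (le_max_left _ _).trans hT
  have hTb : T₂ ≤ T := ((le_max_left _ _).trans (le_max_right _ _)).trans hT
  have hTc : T₃ ≤ T := ((le_max_right _ _).trans (le_max_right _ _)).trans hT
  have hT2 : 2 ≤ T := hT₁.trans hTa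
  have hTpos : 0 < T := by linarith
  have hlog : 0 < Real.log T := Real.log_pos (by linarith)
  have hc1pos : 0 < c₁ := hy.l0.trans hy.lc
  have ht : 0 < t := by
    by_contra hn
    have h0 : t * Real.log T ≤ 0 := mul_nonpos_of_nonpos_of_nonneg (not_lt.1 hn) hlog.le
    linarith
  have hs : 0 < size T := by
    unfold size
    positivity
  have a1 := hL t T x τ hTa hc1 hc2 (by linarith) hx2 hτ hz
  have a2 := hO t T x τ hTb hc1 hc2 hx1 hx2 hτ
  have hcst : (((√(Real.pi * t))⁻¹ : ℝ) : ℂ) ≠ 0 := by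
    have h6 : 0 < √(Real.pi * t) := Real.sqrt_pos.2 (mul_pos Real.pi_pos ht)
    exact_mod_cast (inv_pos.2 h6).ne'
  have hsum : W t (pt x τ) + W t (1 - pt x τ) = 0 := by
    rw [h1 t _ ht] at hfl
    exact (mul_eq_zero.1 hfl).resolve_left hcst
  have hnorm : ‖W t (pt x τ)‖ = ‖W t (pt (-x) τ)‖ := by
    have h7 : W t (pt x τ) = -W t (1 - pt x τ) := eq_neg_of_add_eq_zero_left hsum
    rw [h7, norm_neg, ZER_.one_sub_pt, h2]
    exact RCLike.norm_conj _
  have hpow : T ^ (t * Real.log T / 16 + x / 2 - g) =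
      T ^ (-(g / 2)) * T ^ (t * Real.log T / 16 + x / 2 - g / 2) := by
    rw [← Real.rpow_add hTpos]
    congr 1
    ring
  have hP : 0 < size T * T ^ (t * Real.log T / 16 + x / 2 - g / 2) :=
    mul_pos hs (Real.rpow_pos_of_pos hTpos _)
  have htail : C * (size T * T ^ (t * Real.log T / 16 + x / 2 - g)) ≤
      1 / 2 * (size T * T ^ (t * Real.log T / 16 + x / 2 - g / 2)) := by
    have e : C * (size T * T ^ (t * Real.log T / 16 + x / 2 - g)) =
        (C * T ^ (-(g / 2))) * (size T * T ^ (t * Real.log T / 16 + x / 2 - g / 2)) := by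
      rw [hpow]
      ring
    rw [e]
    exact mul_le_mul_of_nonneg_right (hA T hTc) hP.le
  rw [hnorm] at a1
  linarith

end Pool.Agent.DBC
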