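import Pool.Agent.DBC.Targets3
import Pool.Agent.DBC.Q_NE2

/-!
# Target NE3: the saddle point, local version
-/

set_option autoImplicit false

namespace Pool.Agent.DBC

open Complex MeasureTheory Set Filter Topology
open Pool.Agent.DBN

namespace NE33_

lemma exists_rad {r₁ δ c : ℝ} (h1 : 0 < r₁) (h2 : 0 < δ) (h3 : 0 < c) :
    ∃ r : ℝ, 0 < r ∧ 4 * r ≤ δ ∧ 8 * r ≤ c ∧ 4 * r ≤ r₁ / 2 := by
  refine ⟨min (r₁ / 8) (min (δ / 4) (c / 8)), by positivity, ?_, ?_, ?_⟩
  · have := (min_le_right (r₁ / 8) (min (δ / 4) (c / 8))).trans (min_le_left _ _)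
    linarith
  · have := (min_le_right (r₁ / 8) (min (δ / 4) (c / 8))).trans (min_le_right _ _)
    linarith
  · have := min_le_left (r₁ / 8) (min (δ / 4) (c / 8))
    linarith

end NE33_

open NE22_ NE33_ in
theorem r_NE3 (h1 : U_BCL) (h2 : U_SDH) (h3 : V_XLO) : V_NE3 := by
  intro l c₁ c₂ K r₁ H hr₁
  obtain ⟨hl0, hlc, hcc, hK0, -, hml⟩ := H
  have hc1 : 0 < c₁ := hl0.trans hlc
  have hc2 : 0 < c₂ := hc1.trans_le hcc
  set δ : ℝ := (c₁ - l) / 16 with hδ
  have hδ0 : 0 < δ := by rw [hδ]; linarith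
  obtain ⟨r, hr0, hr1, hr2, hr3⟩ := exists_rad hr₁ hδ0 hc1
  refine ⟨r, hr0, by linarith, fun ε hε => ?_⟩
  obtain ⟨η₀, lam₀, hη₀, hlam₀, hsdh⟩ := h2 (2 * r) (by linarith)
  set ε' : ℝ := min (ε / (2 + 8 * c₂ / c₁)) (η₀ / (4 * c₂)) with hε'
  have hε'0 : 0 < ε' := lt_min (by positivity) (by positivity)
  have hε'1 : 2 * ε' + 8 * ε' * c₂ / c₁ ≤ ε := by
    have h4 : ε' ≤ ε / (2 + 8 * c₂ / c₁) := min_le_left _ _
    rw [le_div_iff₀ (by positivity)] at h4
    calc 2 * ε' + 8 * ε' * c₂ / c₁ = ε' * (2 + 8 * c₂ / c₁) := by ring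
      _ ≤ ε := h4
  have hε'2 : 4 * ε' * c₂ ≤ η₀ := by
    have h4 : ε' ≤ η₀ / (4 * c₂) := min_le_right _ _
    rw [le_div_iff₀ (by positivity)] at h4
    linarith
  clear_value ε'
  obtain ⟨T₁, hT₁2, hxb⟩ := h3 l δ (K + c₂ + 2) (r₁ / 2) ε' hl0 hδ0 (by linarith)
    (by linarith) hε'0 hml
  obtain ⟨T₂, hT₂⟩ := log_bound (C := 4 / c₁) (e := 2 * ε') (by positivity) (by linarith)
  refine ⟨max (max T₁ T₂) (Real.exp (max 1 (lam₀ * c₂))), ?_, ?_⟩
  · exact hT₁2.trans ((le_max_left _ _).trans (le_max_left _ _))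
  intro t T x τ hT h4 h5 h6 h7 h8 hnz
  rw [neg_zero] at h6
  have hTa : T₁ ≤ T := ((le_max_left _ _).trans (le_max_left _ _)).trans hT
  have hTb : T₂ ≤ T := ((le_max_right _ _).trans (le_max_left _ _)).trans hT
  have hTc : Real.exp (max 1 (lam₀ * c₂)) ≤ T := (le_max_right _ _).trans hT
  have hT0 : 0 < T := by linarith
  have hL : max 1 (lam₀ * c₂) ≤ Real.log T := by
    rwa [Real.le_log_iff_exp_le hT0]
  have hL1 : 1 ≤ Real.log T := (le_max_left _ _).trans hL
  have hL2 : lam₀ * c₂ ≤ Real.log T := (le_max_right _ _).trans hL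
  have hL0 : 0 < Real.log T := by linarith
  have ht0 : 0 < t := by
    by_contra hcon
    push Not at hcon
    have := mul_nonpos_of_nonpos_of_nonneg hcon hL0.le
    linarith
  have hsz0 : 0 < size T := by unfold size; positivity
  set L := Real.log T with hLdef
  have hlam : lam₀ ≤ 1 / t := by
    rw [le_div_iff₀ ht0]
    have h9 : lam₀ * t * c₂ ≤ 1 * c₂ := by
      calc lam₀ * t * c₂ = t * (lam₀ * c₂) := by ring
        _ ≤ t * L := by gcongr
        _ ≤ c₂ := h5
        _ = 1 * c₂ := (one_mul _).symm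
    exact le_of_mul_le_mul_right h9 hc2
  set s : ℂ := pt x τ with hs
  have hsre : s.re = 1 / 2 + x := by rw [hs, pt]; simp
  have hsim : s.im = τ := by rw [hs, pt]; simp
  set s' : ℂ := s + sd t T with hs'
  have hre : s'.re = 1 / 2 + x + t * L / 4 := by
    rw [hs', add_re, hsre, ofReal_re, sd]
  have him : s'.im = τ := by
    rw [hs', add_im, hsim, ofReal_im, add_zero]
  have hxiv : ∀ v : ℂ, ‖v‖ < 4 * r →
      size T * T ^ ((s'.re + v.re - 1 / 2) / 2 - ε') ≤ ‖xi (s' + v)‖ ∧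
        ‖xi (s' + v)‖ ≤ size T * T ^ ((s'.re + v.re - 1 / 2) / 2 + ε') := by
    intro v hv
    have hvr := abs_le.mp ((abs_re_le_norm v).trans hv.le)
    have hvi := (abs_im_le_norm v).trans hv.le
    have h9 := hxb T (s' + v) hTa (by rw [add_re, hre]; linarith [hvr.1]) (by
      rw [add_re, hre]; linarith [hvr.2]) (by
      rw [add_im, him]
      calc |τ + v.im - T| = |(τ - T) + v.im| := by ring_nf
        _ ≤ |τ - T| + |v.im| := abs_add_le _ _
        _ ≤ K + 4 * r := add_le_add h8 hvi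
        _ ≤ _ := by linarith)
    have h10 : NoZ (s' + v) (r₁ / 2) := by
      intro ρ hρ
      refine hnz ρ ?_
      calc ‖ρ - s'‖ = ‖(ρ - (s' + v)) + v‖ := by ring_nf
        _ ≤ ‖ρ - (s' + v)‖ + ‖v‖ := norm_add_le _ _
        _ < r₁ / 2 + r₁ / 2 := add_lt_add_of_lt_of_le hρ (hv.le.trans hr3)
        _ = r₁ := by ring
    rw [add_re] at h9
    exact ⟨h9.2 h10, h9.1⟩
  have hxi0 := (hxiv 0 (by simpa using hr0)).1
  rw [zero_re, add_zero, add_zero] at hxi0
  set g : ℂ → ℂ := fun v => exp (-(v / 2) * (L : ℝ)) * xi (s' + v) with hg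
  have hg0 : g 0 = xi s' := by
    simp [hg]
  have hgd : DifferentiableOn ℂ g (Metric.ball 0 (4 * r)) := by
    have hxid : Differentiable ℂ xi := NEA_.differentiable_xi'
    have : Differentiable ℂ g := by
      rw [hg]
      fun_prop
    exact this.differentiableOn
  have hM : 0 < 2 * ε' * L := by positivity
  obtain ⟨h, ⟨hh1, hh2, hh3⟩, hh4⟩ := h1 g (4 * r) (2 * ε' * L) (by linarith) hM hgd (by
    intro v hv
    rw [mem_ball_zero_iff] at hv
    obtain ⟨h9, h10⟩ := hxiv v hv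
    have h11 : 0 < ‖xi (s' + v)‖ := lt_of_lt_of_le (by positivity) h9
    constructor
    · simp only [hg]
      exact mul_ne_zero (exp_ne_zero _) (norm_pos_iff.mp h11)
    · rw [hg0]
      simp only [hg]
      rw [norm_mul, Complex.norm_exp]
      have h12 : (-(v / 2) * ((L : ℝ) : ℂ)).re = -(v.re / 2) * L := by
        rw [re_mul_ofReal, neg_re]
        congr 2
        simp
      rw [h12]
      calc Real.exp (-(v.re / 2) * L) * ‖xi (s' + v)‖
          ≤ Real.exp (-(v.re / 2) * L) *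
            (size T * T ^ ((s'.re + v.re - 1 / 2) / 2 + ε')) := by gcongr
        _ = Real.exp (2 * ε' * L) * (size T * T ^ ((s'.re - 1 / 2) / 2 - ε')) := by
            rw [Real.rpow_def_of_pos hT0, Real.rpow_def_of_pos hT0, ← hLdef]
            have h13 : Real.exp (-(v.re / 2) * L) *
                Real.exp (L * ((s'.re + v.re - 1 / 2) / 2 + ε')) =
                Real.exp (2 * ε' * L) * Real.exp (L * ((s'.re - 1 / 2) / 2 - ε')) := by
              rw [← Real.exp_add, ← Real.exp_add]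
              congr 1
              ring
            linear_combination size T * h13
        _ ≤ Real.exp (2 * ε' * L) * ‖xi s'‖ := by gcongr)
  have hball : Metric.ball (0 : ℂ) (2 * r) ⊆ Metric.ball 0 (4 * r) :=
    Metric.ball_subset_ball (by linarith)
  have hLt : L ≤ c₂ * (1 / t) := by
    rw [mul_one_div, le_div_iff₀ ht0]
    linarith
  have hkey := hsdh (4 * ε' * c₂) (1 / t) h (by positivity) hε'2 hlam (hh1.mono hball) (by
    intro v hv
    have hv' : ‖v‖ < 2 * r := by rwa [mem_ball_zero_iff] at hv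
    calc ‖h v‖ ≤ 2 * (2 * ε' * L) * ‖v‖ / (4 * r - ‖v‖) := hh4 v (hball hv)
      _ ≤ 2 * (2 * ε' * L) := by
          rw [div_le_iff₀ (by linarith)]
          gcongr
          linarith
      _ = 4 * ε' * L := by ring
      _ ≤ 4 * ε' * (c₂ * (1 / t)) := by gcongr
      _ = 4 * ε' * c₂ * (1 / t) := by ring)
  have hrr : 2 * r / 2 = r := by ring
  rw [hrr] at hkey
  have hint := main_int (s := s) (h := h) ht0 hT0 hr0 (by
    intro v hv
    have hv' : (v : ℂ) ∈ Metric.ball (0 : ℂ) (4 * r) := by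
      rw [mem_ball_zero_iff, Complex.norm_real, Real.norm_eq_abs]
      linarith
    have h9 := hh3 v hv'
    rw [hg0] at h9
    exact h9)
  rw [← hs'] at hint
  rw [hint, norm_mul, norm_mul, Complex.norm_real, Real.norm_of_nonneg (Real.exp_pos _).le]
  have e2 : Real.exp (-(sd t T ^ 2 / t)) = Real.exp (-(t * L / 16) * L) := by
    congr 1
    unfold sd
    rw [← hLdef]
    field_simp
    ring
  have hlast1 : Real.exp (-(ε' * L)) ≤ 1 / (2 * √(1 / t)) := by
    have h9 := hT₂ T hTb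
    have h10 : T ^ (2 * ε') = Real.exp (ε' * L) ^ 2 := by
      rw [Real.rpow_def_of_pos hT0, ← hLdef, ← Real.exp_nat_mul]
      congr 1
      push_cast
      ring
    rw [h10] at h9
    have h11 : 4 * (1 / t) ≤ 4 / c₁ * L := by
      rw [mul_one_div, div_mul_eq_mul_div, div_le_div_iff₀ ht0 hc1]
      nlinarith
    have h12 : 2 * √(1 / t) ≤ Real.exp (ε' * L) := by
      have h13 : 2 * √(1 / t) = √(4 * (1 / t)) := by
        rw [Real.sqrt_mul (by norm_num), show (4 : ℝ) = 2 ^ 2 by norm_num,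
          Real.sqrt_sq (by norm_num)]
      rw [h13]
      exact Real.sqrt_le_iff.mpr ⟨(Real.exp_pos _).le, h11.trans h9⟩
    rw [Real.exp_neg, one_div (2 * √(1 / t))]
    have h14 : 0 < 2 * √(1 / t) := by
      have : 0 < √(1 / t) := Real.sqrt_pos.mpr (by positivity)
      linarith
    exact inv_anti₀ h14 h12
  have hlast2 : Real.exp (-(8 * ε' * c₂ / c₁ * L)) ≤ Real.exp (-(2 * (4 * ε' * c₂) * (1 / t))) := by
    rw [Real.exp_le_exp, neg_le_neg_iff]
    have h15 : 1 / t ≤ L / c₁ := by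
      rw [div_le_div_iff₀ ht0 hc1]
      linarith
    calc 2 * (4 * ε' * c₂) * (1 / t) ≤ 2 * (4 * ε' * c₂) * (L / c₁) := by gcongr
      _ = 8 * ε' * c₂ / c₁ * L := by ring
  calc size T * T ^ (t * L / 16 + x / 2 - ε)
      ≤ size T * (Real.exp (-(t * L / 16) * L) *
          T ^ ((s'.re - 1 / 2) / 2 - ε') *
          (Real.exp (-(ε' * L)) * Real.exp (-(8 * ε' * c₂ / c₁ * L)))) := by
        gcongr
        rw [Real.rpow_def_of_pos hT0, Real.rpow_def_of_pos hT0, ← hLdef, ← Real.exp_add,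
          ← Real.exp_add, ← Real.exp_add, Real.exp_le_exp, hre]
        have h16 : (2 * ε' + 8 * ε' * c₂ / c₁) * L ≤ ε * L := by gcongr
        nlinarith
    _ = Real.exp (-(t * L / 16) * L) * (size T * T ^ ((s'.re - 1 / 2) / 2 - ε')) *
          (Real.exp (-(ε' * L)) * Real.exp (-(8 * ε' * c₂ / c₁ * L))) := by ring
    _ ≤ Real.exp (-(t * L / 16) * L) * ‖xi s'‖ *
          (1 / (2 * √(1 / t)) * Real.exp (-(2 * (4 * ε' * c₂) * (1 / t)))) := by gcongr
    _ ≤ Real.exp (-(t * L / 16) * L) * ‖xi s'‖ *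
          ‖∫ v in Ioo (-r) r, exp (-(1 / t * v ^ 2 : ℝ) + h v)‖ := by gcongr
    _ = _ := by rw [e2]

end Pool.Agent.DBC
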