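import Pool.Agent.DBC.Targets3
import Pool.Agent.DBN.Down2

/-!
# XLO: local bounds for xi
-/

set_option autoImplicit false

namespace Pool.Agent.DBC

open Complex MeasureTheory Set Filter Topology
open Pool.Agent.DBN

namespace XLO3_

/-- bounds for `ζ` give bounds for `xi` -/
lemma gen {K ε : ℝ} (hε : 0 < ε) : ∃ T₀ : ℝ, 2 ≤ T₀ ∧
    ∀ (T : ℝ) (s : ℂ), T₀ ≤ T → 1 / 2 ≤ s.re → s.re ≤ K → |s.im - T| ≤ K →
      (‖riemannZeta s‖ ≤ T ^ (ε / 2) →
        ‖xi s‖ ≤ size T * T ^ ((s.re - 1 / 2) / 2 + ε)) ∧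
      (T ^ (-(ε / 2)) ≤ ‖riemannZeta s‖ →
        size T * T ^ ((s.re - 1 / 2) / 2 - ε) ≤ ‖xi s‖) := by
  obtain ⟨C, hC1, hC⟩ := xi_two K
  set E : ℝ := 2 ^ (7 / 4 : ℝ) * Real.exp (Real.pi * K / 4) with hE
  have hE0 : 0 < E := by positivity
  set P : ℝ := 2 ^ K with hP
  have hP0 : 0 < P := by positivity
  obtain ⟨T₁, hT₁⟩ := eventually_atTop.mp
    ((tendsto_rpow_atTop (by linarith : 0 < ε / 2)).eventually_ge_atTop (C * E * P))
  refine ⟨max (2 * |K| + 4) T₁, le_max_of_le_left (by have := abs_nonneg K; linarith),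
    fun T s hT h1 h2 h3 => ?_⟩
  have hTa : 2 * |K| + 4 ≤ T := (le_max_left _ _).trans hT
  have hTb := hT₁ T ((le_max_right _ _).trans hT)
  have hK0 : K ≤ |K| := le_abs_self K
  have hKn : 0 ≤ |K| := abs_nonneg K
  obtain ⟨h4, h5⟩ := abs_le.mp h3
  set T' := s.im with hT'
  set x := s.re with hx
  have hT0 : 0 < T := by linarith
  have hT'2 : 2 ≤ T' := by linarith
  have hT'0 : 0 < T' := by linarith
  have hs := size_pos hT0
  have hs' := size_pos hT'0
  have es : s = (x : ℂ) + T' * I := by rw [hx, hT']; exact (re_add_im s).symm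
  obtain ⟨h6, h7⟩ := hC x T' (by rw [abs_of_pos (by linarith)]; exact h2) hT'2
  rw [← es] at h6 h7
  set e := (x - 1 / 2) / 2 with he
  have he0 : 0 ≤ e := by rw [he]; linarith
  have heK : e ≤ K := by rw [he]; linarith
  have hpw : (2 : ℝ) ^ |e| ≤ P := by
    rw [abs_of_nonneg he0]
    exact Real.rpow_le_rpow_of_exponent_le (by norm_num) heK
  have h10 : T' ^ e ≤ P * T ^ e := by
    refine (rpow_shift_le hT0 (by linarith) (by linarith) e).trans ?_
    gcongr
  have h11 : T ^ e ≤ P * T' ^ e := by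
    refine (rpow_shift_le hT'0 (by linarith) (by linarith) e).trans ?_
    gcongr
  have h12 : size T' ≤ E * size T := size_shift_le hT0 (by linarith) (by linarith) h3
  have h13 : size T ≤ E * size T' := by
    refine size_shift_le hT'0 (by linarith) (by linarith) ?_
    rw [abs_sub_comm]
    exact h3
  have hp : 0 < T' ^ e := by positivity
  have hp' : 0 < T ^ e := by positivity
  have hq : 0 < T ^ (ε / 2) := by positivity
  constructor
  · intro hz
    have e1 : T ^ (e + ε) = T ^ (ε / 2) * (T ^ (ε / 2) * T ^ e) := by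
      rw [← Real.rpow_add hT0, ← Real.rpow_add hT0]
      congr 1
      ring
    calc ‖xi s‖ ≤ C * (T' ^ e * size T' * ‖riemannZeta s‖) := h6
      _ ≤ C * ((P * T ^ e) * (E * size T) * T ^ (ε / 2)) := by gcongr
      _ = C * E * P * (size T * (T ^ (ε / 2) * T ^ e)) := by ring
      _ ≤ T ^ (ε / 2) * (size T * (T ^ (ε / 2) * T ^ e)) := by gcongr
      _ = size T * T ^ (e + ε) := by
        rw [e1]
        ring
  · intro hz
    have e1 : T ^ (e - ε) = T ^ (-(ε / 2)) * (T ^ (-(ε / 2)) * T ^ e) := by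
      rw [← Real.rpow_add hT0, ← Real.rpow_add hT0]
      congr 1
      ring
    have e2 : T ^ (-(ε / 2)) * T ^ (ε / 2) = 1 := by
      rw [← Real.rpow_add hT0]
      simp
    have hr : 0 < T ^ (-(ε / 2)) := by positivity
    calc size T * T ^ (e - ε) = T ^ (-(ε / 2)) * (size T * T ^ e * T ^ (-(ε / 2))) := by
          rw [e1]
          ring
      _ ≤ T ^ (-(ε / 2)) * ((E * size T') * (P * T' ^ e) * ‖riemannZeta s‖) := by gcongr
      _ = T ^ (-(ε / 2)) * (E * P * (T' ^ e * size T' * ‖riemannZeta s‖)) := by ring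
      _ ≤ T ^ (-(ε / 2)) * (E * P * (C * ‖xi s‖)) := by gcongr
      _ = T ^ (-(ε / 2)) * (C * E * P) * ‖xi s‖ := by ring
      _ ≤ T ^ (-(ε / 2)) * T ^ (ε / 2) * ‖xi s‖ := by gcongr
      _ = ‖xi s‖ := by rw [e2, one_mul]

end XLO3_

open XLO3_ in
theorem r_XLO (h : V_ZLO) : V_XLO := by
  intro l δ K r ε hl hδ hK hr hε hm
  obtain ⟨T₁, hT₁, h1⟩ := h l δ K r (ε / 2) hl hδ hK hr (by linarith) hm
  obtain ⟨T₂, hT₂, h2⟩ := gen (K := K) hε
  refine ⟨max T₁ T₂, hT₁.trans (le_max_left _ _), fun T s hT h3 h4 h5 => ?_⟩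
  obtain ⟨h6, h7⟩ := h1 T s ((le_max_left _ _).trans hT) h3 h4 h5
  obtain ⟨h8, h9⟩ := h2 T s ((le_max_right _ _).trans hT) (by linarith) h4 h5
  exact ⟨h8 h6, fun hn => h9 (h7 hn)⟩

end Pool.Agent.DBC
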