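import Pool.Agent.DBC.Targets3
import Pool.Agent.DBN.Mu
import Pool.Agent.SPZ.S4

/-!
# Project DBC3, target ZLO: local bounds for `ζ`
-/

set_option autoImplicit false

namespace Pool.Agent.DBC

open Complex MeasureTheory Set Filter Topology
open Pool.Agent.DBN

namespace ZLO3_

lemma ev_big {C c ε : ℝ} (hc : 0 < c) (hε : 0 < ε) :
    ∀ᶠ T : ℝ in atTop, C * (2 * T) ^ ε ≤ c * T ^ (2 * ε) := by
  have h1 := (tendsto_rpow_atTop hε).eventually_ge_atTop (|C| * 2 ^ ε / c)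
  filter_upwards [h1, eventually_gt_atTop 0] with T hT hT0
  have h2 : (2 * T) ^ ε = 2 ^ ε * T ^ ε := Real.mul_rpow (by norm_num) hT0.le
  have h3 : T ^ (2 * ε) = T ^ ε * T ^ ε := by
    rw [← Real.rpow_add hT0]; ring_nf
  have h4 : 0 < T ^ ε := Real.rpow_pos_of_pos hT0 _
  have h5 : (0 : ℝ) < 2 ^ ε := Real.rpow_pos_of_pos (by norm_num) _
  rw [h2, h3]
  rw [div_le_iff₀ hc] at hT
  calc C * (2 ^ ε * T ^ ε) ≤ |C| * (2 ^ ε * T ^ ε) :=
        mul_le_mul_of_nonneg_right (le_abs_self C) (by positivity)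
    _ = (|C| * 2 ^ ε) * T ^ ε := by ring
    _ ≤ (T ^ ε * c) * T ^ ε := mul_le_mul_of_nonneg_right hT h4.le
    _ = c * (T ^ ε * T ^ ε) := by ring

end ZLO3_

/-- ZLO: local bounds for `ζ` -/
theorem r_ZLO (h : V_CAR) : V_ZLO := by
  intro l δ K r ε hl hδ hK hr hε hmu
  by_cases hKs : 1 / 2 + l / 4 + δ ≤ K
  swap
  · exact ⟨2, le_rfl, fun T s _ h1 h2 _ => absurd (h1.trans h2) hKs⟩
  obtain ⟨σ₀, hσ₀⟩ : ∃ x : ℝ, x = 1 / 2 + l / 4 := ⟨_, rfl⟩
  rw [← hσ₀] at hmu hKs ⊢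
  have hσp : 1 / 2 < σ₀ := by rw [hσ₀]; linarith
  obtain ⟨R, hR⟩ : ∃ x : ℝ, x = K + 3 - (σ₀ + δ / 4) := ⟨_, rfl⟩
  obtain ⟨Cc, hCc, hcar⟩ := h (R - 3 * δ / 4) (R - δ / 4) R r (by rw [hR]; linarith)
    (by linarith) (by linarith) hr
  obtain ⟨c₁, hc₁, hlow₁⟩ := Pool.Agent.SPZ.s4.2 1 one_pos
  obtain ⟨c, hc⟩ : ∃ x : ℝ, x = min c₁ 1 := ⟨_, rfl⟩
  have hc0 : 0 < c := by rw [hc]; exact lt_min hc₁ one_pos
  have hc1 : c ≤ 1 := by rw [hc]; exact min_le_right _ _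
  have hlow : ∀ s : ℂ, 2 ≤ s.re → c ≤ ‖riemannZeta s‖ := fun s hs => by
    rw [hc]
    exact (min_le_left _ _).trans (hlow₁ s (by linarith))
  obtain ⟨η, hη⟩ : ∃ x : ℝ, x = min (ε / 4) (ε / (4 * Cc)) := ⟨_, rfl⟩
  have hη0 : 0 < η := by rw [hη]; exact lt_min (by linarith) (by positivity)
  have hη1 : η ≤ ε / 4 := by rw [hη]; exact min_le_left _ _
  have hη2 : Cc * η ≤ ε / 4 := by
    have : η ≤ ε / (4 * Cc) := by rw [hη]; exact min_le_right _ _
    rw [le_div_iff₀ (by positivity)] at this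
    linarith
  obtain ⟨C, hC⟩ := mu_interp (σ₁ := σ₀) (σ₂ := 2 * K + 7) (a₁ := 0) (a₂ := 0) (by linarith)
    hmu (mu_zero (by linarith)) hη0
  have hev : ∀ᶠ T : ℝ in atTop, C * (2 * T) ^ η ≤ c * T ^ (2 * η) ∧ 1 / c ≤ T ^ (ε / 2) ∧
      2 + K + R ≤ T ∧ 2 ≤ T :=
    (ZLO3_.ev_big hc0 hη0).and (((tendsto_rpow_atTop (by linarith : 0 < ε / 2)
      ).eventually_ge_atTop _).and ((eventually_ge_atTop _).and (eventually_ge_atTop _)))
  obtain ⟨T₀, hT₀⟩ := eventually_atTop.1 hev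
  refine ⟨max T₀ 2, le_max_right _ _, fun T s hT hs1 hs2 hs3 => ?_⟩
  obtain ⟨e1, e2, e3, e4⟩ := hT₀ T ((le_max_left _ _).trans hT)
  have hT0 : 0 < T := by linarith
  have hT1 : 1 ≤ T := by linarith
  have hRp : 0 < R := by rw [hR]; linarith
  obtain ⟨hs4, hs5⟩ := abs_le.1 hs3
  -- the upper bound
  have hup : ∀ z : ℂ, σ₀ ≤ z.re → z.re ≤ 2 * K + 7 → |z.im - T| ≤ K + R →
      ‖riemannZeta z‖ ≤ c * T ^ (2 * η) := by
    intro z hz1 hz2 hz3
    obtain ⟨hz4, hz5⟩ := abs_le.1 hz3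
    have h1 := hC z.re z.im hz1 hz2 (by linarith)
    rw [re_add_im] at h1
    have h2 : (0 * (2 * K + 7 - z.re) + 0 * (z.re - σ₀)) / (2 * K + 7 - σ₀) + η = η := by
      simp
    rw [h2] at h1
    have hCn : 0 ≤ C := by
      have h3 : (0 : ℝ) < z.im ^ η := Real.rpow_pos_of_pos (by linarith) _
      have h4 := (norm_nonneg _).trans h1
      by_contra h5
      push Not at h5
      nlinarith
    have h6 : z.im ^ η ≤ (2 * T) ^ η :=
      Real.rpow_le_rpow (by linarith) (by linarith) hη0.le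
    exact (h1.trans (mul_le_mul_of_nonneg_left h6 hCn)).trans e1
  have hT2 : c * T ^ (2 * η) ≤ T ^ ε := by
    have h1 : T ^ (2 * η) ≤ T ^ ε := Real.rpow_le_rpow_of_exponent_le hT1 (by linarith)
    have h2 : 0 < T ^ (2 * η) := Real.rpow_pos_of_pos hT0 _
    nlinarith
  refine ⟨(hup s (by linarith) (by linarith) (hs3.trans (by linarith))).trans hT2, fun hno => ?_⟩
  -- the lower bound
  obtain ⟨s₁, hs₁⟩ : ∃ x : ℂ, x = ((K + 3 : ℝ) : ℂ) + (s.im : ℂ) * I := ⟨_, rfl⟩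
  have hre : s₁.re = K + 3 := by rw [hs₁]; simp
  have him : s₁.im = s.im := by rw [hs₁]; simp
  have hF0 : c ≤ ‖riemannZeta (s₁ + 0)‖ := hlow _ (by rw [add_zero, hre]; linarith)
  have hin : ∀ v ∈ Metric.ball (0 : ℂ) R, σ₀ + δ / 4 ≤ (s₁ + v).re ∧ (s₁ + v).re ≤ 2 * K + 7 ∧
      |(s₁ + v).im - T| ≤ K + R := by
    intro v hv
    rw [mem_ball_zero_iff] at hv
    have h1 := abs_le.1 ((abs_re_le_norm v).trans hv.le)
    have h2 := abs_le.1 ((abs_im_le_norm v).trans hv.le)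
    rw [add_re, add_im, hre, him]
    refine ⟨by rw [hR] at h1; linarith [h1.1], by rw [hR] at h1; linarith [h1.2], ?_⟩
    rw [abs_le]
    constructor <;> linarith [h2.1, h2.2]
  have hM : 0 < 2 * η * Real.log T := by
    have := Real.log_pos (by linarith : 1 < T)
    positivity
  have hexp : Real.exp (2 * η * Real.log T) = T ^ (2 * η) := by
    rw [Real.rpow_def_of_pos hT0]; ring_nf
  have key := hcar (fun v => riemannZeta (s₁ + v)) (2 * η * Real.log T) hM ?_ ?_ ?_ (s - s₁) ?_ ?_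
  · simp only [add_sub_cancel] at key
    have h1 : Real.exp (-(Cc * (2 * η * Real.log T))) = T ^ (-(2 * (Cc * η))) := by
      rw [Real.rpow_def_of_pos hT0]; ring_nf
    rw [h1] at key
    refine le_trans ?_ key
    have h2 : T ^ (-(ε / 2)) ≤ T ^ (-(2 * (Cc * η))) :=
      Real.rpow_le_rpow_of_exponent_le hT1 (by linarith)
    have h3 : T ^ (-(ε / 2)) ≤ c := by
      rw [Real.rpow_neg hT0.le]
      rw [div_le_iff₀ hc0] at e2
      have h4 : 0 < T ^ (ε / 2) := Real.rpow_pos_of_pos hT0 _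
      rw [inv_le_iff_one_le_mul₀ h4]
      linarith
    have h5 : T ^ (-ε) = T ^ (-(ε / 2)) * T ^ (-(ε / 2)) := by
      rw [← Real.rpow_add hT0]; ring_nf
    rw [h5]
    have h6 : 0 < T ^ (-(ε / 2)) := Real.rpow_pos_of_pos hT0 _
    exact mul_le_mul h2 (h3.trans hF0) h6.le (by positivity)
  · intro v hv
    obtain ⟨h1, h2, h3⟩ := hin v hv
    have h4 : s₁ + v ≠ 1 := by
      intro h5
      rw [h5] at h3
      have := (abs_le.1 h3).1
      simp at this
      linarith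
    exact ((differentiableAt_riemannZeta h4).comp v
      ((differentiableAt_const _).add differentiableAt_id)).differentiableWithinAt
  · intro h0
    simp only [h0, norm_zero] at hF0
    linarith
  · intro z hz
    obtain ⟨h1, h2, h3⟩ := hin z hz
    rw [hexp]
    refine (hup _ (by linarith) h2 h3).trans ?_
    rw [mul_comm]
    exact mul_le_mul_of_nonneg_left hF0 (Real.rpow_pos_of_pos hT0 _).le
  · have h1 : s - s₁ = ((s.re - (K + 3) : ℝ) : ℂ) := by
      apply Complex.ext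
      · simp [hre]
      · simp [him]
    rw [h1, norm_real, Real.norm_eq_abs, abs_le]
    constructor
    · rw [hR]; linarith
    · rw [hR]; linarith
  · intro a _ ha
    refine hno _ ?_
    rwa [show s₁ + a - s = a - (s - s₁) by ring]

end Pool.Agent.DBC
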