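import Pool.Agent.DBC.Asm3
import Pool.Agent.DBC.P_SPL
import Pool.Agent.DBC.P_IGR
import Pool.Agent.DBC.P_DER
import Pool.Agent.DBC.P_CNJ
import Pool.Agent.DBC.P_XIL
import Pool.Agent.DBC.P_INA
import Pool.Agent.DBC.P_INB
import Pool.Agent.DBC.P_ANG
import Pool.Agent.DBC.P_CLS
import Pool.Agent.DBC.P_CVR
import Pool.Agent.DBC.Q_BCL
import Pool.Agent.DBC.Q_SD1
import Pool.Agent.DBC.Q_SD2
import Pool.Agent.DBC.Q_SD3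
import Pool.Agent.DBC.Q_SDH
import Pool.Agent.DBC.Q_LZE
import Pool.Agent.DBC.Q_XBD
import Pool.Agent.DBC.Q_NE2
import Pool.Agent.DBC.Q_OA2
import Pool.Agent.DBC.Q_OB2
import Pool.Agent.DBC.Q_INC
import Pool.Agent.DBC.Q_UP2
import Pool.Agent.DBC.Q_LO2
import Pool.Agent.DBC.Q_GD2
import Pool.Agent.DBC.Q_CM2
import Pool.Agent.DBC.Q_ZE2
import Pool.Agent.DBC.Q_SP2
import Pool.Agent.DBC.Q_HT2
import Pool.Agent.DBC.Q_NZR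
import Pool.Agent.DBC.Q_IVF
import Pool.Agent.DBC.R_CAR
import Pool.Agent.DBC.R_ZLO
import Pool.Agent.DBC.R_XLO
import Pool.Agent.DBC.R_NE3
import Pool.Agent.DBC.R_OA3
import Pool.Agent.DBC.R_OB3
import Pool.Agent.DBC.R_LO3
import Pool.Agent.DBC.R_MO1
import Pool.Agent.DBC.R_FL3
import Pool.Agent.DBC.R_CL3
import Pool.Agent.DBC.R_CVN
import Pool.Agent.DBC.R_FMO
import Pool.Agent.DBC.R_HMO

/-!
# The exact reality threshold and the motion of the zeros of the flow: the theorem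
-/

set_option autoImplicit false

namespace Pool.Agent.DBC

open Complex MeasureTheory Set Filter Topology
open Pool.Agent.DBN

lemma sdh3 : U_SDH := q_SDH q_SD1 q_SD2 q_SD3

lemma ht2 : U_HT2 :=
  have hder := p_DER p_IGR
  have hne := q_NE2 q_BCL sdh3 (q_XBD (q_LZE q_BCL))
  have hgd := q_GD2 q_BCL hder (q_UP2 q_INC) (q_LO2 p_IGR hne (q_OA2 p_INA))
  q_HT2 p_XIL (q_ZE2 p_SPL p_CNJ hder hgd (q_CM2 hder hgd (q_OB2 p_INB)))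
    (q_SP2 p_SPL p_CNJ hder hgd p_ANG)

lemma cl3 : V_CL3 := r_CL3 q_BCL sdh3 q_IVF (r_FL3 (r_CAR q_BCL))

lemma cv2 : U_CV2 := r_CVN p_CVR q_NZR cl3

lemma fmo : V_FMO :=
  have hcar := r_CAR q_BCL
  have hne := r_NE3 q_BCL sdh3 (r_XLO (r_ZLO hcar))
  have hlo := r_LO3 p_IGR hne (r_OA3 p_INA)
  r_FMO p_XIL (r_MO1 p_SPL p_CNJ hlo (r_OB3 p_INB)) cl3

/-- the theorem -/
theorem main3 :
    ∃ Λ : ℝ, 0 ≤ Λ ∧ Λ ≤ 27 / 10 ∧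
      (∀ c : ℝ, 0 ≤ c →
        ((Λ ≤ c ∧ ZeroFree c) ↔ ∀ c₁ c₂ : ℝ, c < c₁ → c₁ < c₂ → RealZ c₁ c₂) ∧
        ((Λ ≤ c ∧ ZeroFree c) ↔ ∀ c₁ c₂ : ℝ, c < c₁ → c₁ < c₂ → Regular c₁ c₂)) ∧
      (∀ c : ℝ, 2 ≤ c → ZeroFree c) ∧ (∀ c : ℝ, Λ < c → Motion c) ∧
      (∀ c : ℝ, Λ ≤ c ↔ FewZeros c) ∧ (∀ c : ℝ, Λ ≤ c ↔ Growth c (c / 16)) ∧
      (∀ c : ℝ, 0 < c → (Λ ≤ c ↔ ∀ σ : ℝ, MuLe (1 / 2 + σ) (c / 16 + σ ^ 2 / c - σ / 2))) ∧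
      (LH ↔ Λ = 0) ∧ MuLe (1 / 2) (Λ / 16) ∧ MuLe (1 / 2 + Λ / 4) 0 ∧
      (∀ a : ℝ, 0 < a → a ≤ 1 / 4 → MuLe (1 / 2) a → Λ ≤ 2 / (1 - 2 * a)) ∧
      (∀ τ : ℝ, 0 ≤ τ → MuLe (1 / 2 + τ) 0 → Λ ≤ 8 * τ) :=
  main_of4 ht2 p_CLS p_CVR cv2 fmo r_HMO

end Pool.Agent.DBC
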