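import Pool.Agent.DBC.Targets6

/-!
# Counting the real zeros (block FG)

Project DBC5 (helper11), block by helper92.
-/

set_option autoImplicit false

namespace Pool.Agent.DBC

open Complex MeasureTheory Set Filter Topology
open Pool.Agent.DBN

namespace FG5_

/-- the number of points of a finite set in the window around `2 T` -/
theorem count_eq {Z : Set ℝ} (hZ : Z.Finite) (T : ℝ) :
    (((Z ∩ Icc (2 * T - 1) (2 * T + 1)).ncard : ℕ) : ENNReal) =
      ∑ z ∈ hZ.toFinset,
        (Icc ((z - 1) / 2) ((z + 1) / 2)).indicator (fun _ => (1 : ENNReal)) T := by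
  classical
  have h1 : Z ∩ Icc (2 * T - 1) (2 * T + 1) =
      ↑(hZ.toFinset.filter (fun z => T ∈ Icc ((z - 1) / 2) ((z + 1) / 2))) := by
    ext z
    simp only [mem_inter_iff, mem_Icc, Finset.coe_filter, Set.Finite.mem_toFinset, mem_ofPred_eq]
    constructor
    · rintro ⟨h, h2, h3⟩
      exact ⟨h, by linarith, by linarith⟩
    · rintro ⟨h, h2, h3⟩
      exact ⟨h, by linarith, by linarith⟩
  rw [h1, Set.ncard_coe_finset, Finset.card_filter, Nat.cast_sum]
  refine Finset.sum_congr rfl fun z _ => ?_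
  by_cases h : T ∈ Icc ((z - 1) / 2) ((z + 1) / 2)
  · rw [if_pos h, indicator_of_mem h, Nat.cast_one]
  · rw [if_neg h, indicator_of_notMem h, Nat.cast_zero]

end FG5_

open FG5_ in
theorem n_FG : N_FG := by
  intro Z E X V m hX hV hm hZ hE h
  set F : ℝ → ENNReal := fun T =>
    ∑ z ∈ hZ.toFinset, (Icc ((z - 1) / 2) ((z + 1) / 2)).indicator (fun _ => (1 : ENNReal)) T
    with hF
  have hFm : Measurable F := by
    refine Finset.measurable_sum _ fun z _ => ?_
    exact measurable_const.indicator measurableSet_Icc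
  set A : Set ℝ := Icc (X + 1) (2 * X - 1) \ E with hA
  have h1 : ENNReal.ofReal m * volume A ≤ ∫⁻ T in A, F T := by
    rw [← setLIntegral_const]
    refine setLIntegral_mono hFm fun T hT => ?_
    have h2 := h T hT.1.1 hT.1.2 hT.2
    rw [hF]
    simp only
    rw [← count_eq hZ T]
    rw [← ENNReal.ofReal_natCast]
    exact ENNReal.ofReal_le_ofReal h2
  have h2 : ∫⁻ T in A, F T ≤ (hZ.toFinset.card : ENNReal) := by
    calc ∫⁻ T in A, F T ≤ ∫⁻ T, F T := setLIntegral_le_lintegral _ _
      _ = ∑ z ∈ hZ.toFinset, ∫⁻ T, (Icc ((z - 1) / 2) ((z + 1) / 2)).indicator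
            (fun _ => (1 : ENNReal)) T :=
          lintegral_finsetSum _ fun z _ => measurable_const.indicator measurableSet_Icc
      _ = ∑ z ∈ hZ.toFinset, (1 : ENNReal) := by
          refine Finset.sum_congr rfl fun z _ => ?_
          rw [lintegral_indicator_const measurableSet_Icc, Real.volume_Icc, one_mul]
          rw [show (z + 1) / 2 - (z - 1) / 2 = 1 by ring, ENNReal.ofReal_one]
      _ = (hZ.toFinset.card : ENNReal) := by simp
  have h3 : ENNReal.ofReal (X - 2 - V) ≤ volume A := by
    calc ENNReal.ofReal (X - 2 - V) = ENNReal.ofReal (X - 2) - ENNReal.ofReal V :=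
          ENNReal.ofReal_sub _ hV
      _ ≤ volume (Icc (X + 1) (2 * X - 1)) - volume E := by
          refine tsub_le_tsub ?_ hE
          rw [Real.volume_Icc]
          exact ENNReal.ofReal_le_ofReal (by linarith)
      _ ≤ volume A := le_measure_sdiff
  have h4 : ENNReal.ofReal (m * (X - 2 - V)) ≤ ENNReal.ofReal (Z.ncard : ℝ) := by
    rw [ENNReal.ofReal_mul hm, ENNReal.ofReal_natCast]
    calc ENNReal.ofReal m * ENNReal.ofReal (X - 2 - V) ≤ ENNReal.ofReal m * volume A :=
          mul_le_mul' le_rfl h3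
      _ ≤ (hZ.toFinset.card : ENNReal) := h1.trans h2
      _ = (Z.ncard : ENNReal) := by rw [Set.ncard_eq_toFinset_card Z hZ]
  exact (ENNReal.ofReal_le_ofReal_iff (Nat.cast_nonneg _)).1 h4

end Pool.Agent.DBC
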