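import Pool.Agent.DBC.Targets6

/-!
# Block N_GS: real zeros in a window at a good height
-/

set_option autoImplicit false

namespace Pool.Agent.DBC

open Complex MeasureTheory Set Filter Topology
open Pool.Agent.DBN

namespace GS5_

/-- a sequence of zeros with bounded steps -/
theorem seq {F : ℝ → Prop} {a c l e : ℝ} (he : 0 < e) (he1 : e ≤ 1)
    (hF : ∀ x : ℝ, a ≤ x → x ≤ a + 3 → ∃ y : ℝ, x ≤ y ∧ y - x ≤ l ∧ F y)
    (hl : 0 ≤ l) (hc : c = l + e) (N : ℕ) (hN : (N : ℝ) * c ≤ 2) :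
    ∃ y : ℕ → ℝ, StrictMono y ∧ ∀ n : ℕ, n < N → a ≤ y n ∧ y n ≤ a + 2 ∧ F (y n) := by
  have h0 : ∀ x : ℝ, ∃ y : ℝ, x ≤ y ∧ (a ≤ x → x ≤ a + 3 → y - x ≤ l ∧ F y) := by
    intro x
    by_cases h : a ≤ x ∧ x ≤ a + 3
    · obtain ⟨y, h1, h2, h3⟩ := hF x h.1 h.2
      exact ⟨y, h1, fun _ _ => ⟨h2, h3⟩⟩
    · exact ⟨x, le_refl x, fun h1 h2 => absurd ⟨h1, h2⟩ h⟩
  choose g hg using h0
  let y : ℕ → ℝ := fun n => Nat.rec (g a) (fun _ z => g (z + e)) n
  have y0 : y 0 = g a := rfl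
  have ys : ∀ n, y (n + 1) = g (y n + e) := fun n => rfl
  have hmono : StrictMono y := by
    apply strictMono_nat_of_lt_succ
    intro n
    rw [ys n]
    have := (hg (y n + e)).1
    linarith
  refine ⟨y, hmono, ?_⟩
  have key : ∀ n : ℕ, n < N → a ≤ y n ∧ y n ≤ a + ((n : ℝ) + 1) * c ∧ F (y n) := by
    intro n
    induction n with
    | zero =>
      intro h
      have h1 := hg a
      have h2 := h1.2 le_rfl (by linarith)
      rw [y0]
      refine ⟨h1.1, ?_, h2.2⟩
      have := h2.1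
      push_cast
      linarith
    | succ n ih =>
      intro h
      obtain ⟨i1, i2, -⟩ := ih (by omega)
      have hn : ((n : ℝ) + 1) * c ≤ 2 := by
        refine le_trans ?_ hN
        apply mul_le_mul_of_nonneg_right _ (by linarith)
        have : n + 1 ≤ N := by omega
        exact_mod_cast this
      have h1 := hg (y n + e)
      have h2 := h1.2 (by linarith) (by linarith)
      rw [ys n]
      refine ⟨by linarith [h1.1], ?_, h2.2⟩
      have := h2.1
      push_cast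
      nlinarith
  intro n hn
  obtain ⟨h1, h2, h3⟩ := key n hn
  refine ⟨h1, ?_, h3⟩
  have h4 : ((n : ℝ) + 1) * c ≤ 2 := by
    refine le_trans ?_ hN
    apply mul_le_mul_of_nonneg_right _ (by linarith)
    have : n + 1 ≤ N := by omega
    exact_mod_cast this
  linarith

end GS5_

theorem n_GS : N_GS := by
  intro ε t T hε hε1 hL hC Z hZ hmem
  obtain ⟨c1, -, c3⟩ := hC
  have hpi := Real.pi_pos
  have hLpos : 0 < Real.log T := by linarith
  have hden : 0 < 4 * Real.pi + 2 * ε := by linarith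
  set L := Real.log T with hLdef
  have hF : ∀ x : ℝ, 2 * T - 1 ≤ x → x ≤ 2 * T - 1 + 3 →
      ∃ y : ℝ, x ≤ y ∧ y - x ≤ (4 * Real.pi + ε) / L ∧ H t y = 0 := by
    intro x h1 h2
    obtain ⟨y, k1, k2, k3⟩ := c3 x (by rw [abs_le]; constructor <;> linarith)
    exact ⟨y, k1, by rw [le_div_iff₀ hLpos]; exact k2, k3⟩
  have he : 0 < ε / L := by positivity
  have he1 : ε / L ≤ 1 := by
    rw [div_le_one hLpos]
    linarith
  have hl : 0 ≤ (4 * Real.pi + ε) / L := by positivity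
  obtain ⟨y, hy, hyN⟩ := GS5_.seq (F := fun x : ℝ => H t x = 0) he he1 hF hl
    (rfl : (4 * Real.pi + ε) / L + ε / L = (4 * Real.pi + ε) / L + ε / L)
    ⌊2 * L / (4 * Real.pi + 2 * ε)⌋₊ (by
      have h1 : (⌊2 * L / (4 * Real.pi + 2 * ε)⌋₊ : ℝ) ≤ 2 * L / (4 * Real.pi + 2 * ε) :=
        Nat.floor_le (by positivity)
      have h2 : (4 * Real.pi + ε) / L + ε / L = (4 * Real.pi + 2 * ε) / L := by
        rw [← add_div]
        ring_nf
      rw [h2]
      calc (⌊2 * L / (4 * Real.pi + 2 * ε)⌋₊ : ℝ) * ((4 * Real.pi + 2 * ε) / L) ≤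
          2 * L / (4 * Real.pi + 2 * ε) * ((4 * Real.pi + 2 * ε) / L) := by
            apply mul_le_mul_of_nonneg_right h1
            positivity
        _ = 2 := by field_simp)
  set N := ⌊2 * L / (4 * Real.pi + 2 * ε)⌋₊ with hN
  have hsub : ((Finset.range N).image y : Set ℝ) ⊆ Z ∩ Icc (2 * T - 1) (2 * T + 1) := by
    intro x hx
    simp only [Finset.coe_image, Set.mem_image, Finset.mem_coe, Finset.mem_range] at hx
    obtain ⟨n, hn, rfl⟩ := hx
    obtain ⟨h1, h2, h3⟩ := hyN n hn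
    have h3' : H t (y n) = 0 := h3
    have habs : |y n - 2 * T| ≤ 1 := by
      rw [abs_le]
      constructor <;> linarith
    refine ⟨hmem (y n) habs h3' ?_, h1, by linarith⟩
    refine (c1 (y n : ℂ) ?_ h3').2
    have : ((y n : ℂ) - 2 * (T : ℂ)) = ((y n - 2 * T : ℝ) : ℂ) := by push_cast; ring
    rw [this, Complex.norm_real, Real.norm_eq_abs]
    linarith
  have hcard : N ≤ (Z ∩ Icc (2 * T - 1) (2 * T + 1)).ncard := by
    have h1 := Set.ncard_le_ncard hsub (hZ.inter_of_left _)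
    rw [Set.ncard_coe_finset, Finset.card_image_of_injective _ hy.injective,
      Finset.card_range] at h1
    exact h1
  have hfl : 2 * L / (4 * Real.pi + 2 * ε) < (N : ℝ) + 1 := Nat.lt_floor_add_one _
  have : (N : ℝ) ≤ ((Z ∩ Icc (2 * T - 1) (2 * T + 1)).ncard : ℝ) := by exact_mod_cast hcard
  linarith

end Pool.Agent.DBC
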