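import Pool.Agent.DBC.All4
import Pool.Agent.DBC.N_FG
import Pool.Agent.DBC.N_GS
import Pool.Agent.DBC.N_GC
import Pool.Agent.DBA.All3

/-!
# The thresholds of the flow for all heights and for almost all heights: the theorem
-/

set_option autoImplicit false

namespace Pool.Agent.DBC

open Complex MeasureTheory Set Filter Topology
open Pool.Agent.DBN Pool.Agent.DBA

theorem manyReal : ∀ c₁ c₂ : ℝ, 0 < c₁ → c₁ ≤ c₂ → ManyReal c₁ c₂ := fun c₁ c₂ h1 h2 =>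
  n_GC n_FG n_GS c₁ c₂ h1 h2 (almostAll (c₁ / 2) (2 * c₂) (by linarith) (by linarith))

/-- the theorem -/
theorem main5 :
    (∀ c₁ c₂ : ℝ, 0 < c₁ → c₁ ≤ c₂ → Wide c₁ c₂ ∧ FewBad c₁ c₂ ∧ ManyReal c₁ c₂) ∧
    ∃ Λ : ℝ, 0 ≤ Λ ∧ Λ ≤ 27 / 10 ∧
      (∀ c : ℝ, 0 ≤ c →
        ((Λ ≤ c ∧ ZeroFree c) ↔ ∀ c₁ c₂ : ℝ, c < c₁ → c₁ < c₂ → RealZ c₁ c₂) ∧
        ((Λ ≤ c ∧ ZeroFree c) ↔ ∀ c₁ c₂ : ℝ, c < c₁ → c₁ < c₂ → Regular c₁ c₂)) ∧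
      (∀ c : ℝ, 2 ≤ c → ZeroFree c) ∧ (∀ c : ℝ, Λ < c → Motion c) ∧
      (∀ c : ℝ, Λ ≤ c ↔ FewZeros c) ∧ (∀ c : ℝ, Λ ≤ c ↔ Growth c (c / 16)) ∧
      (∀ c : ℝ, 0 < c → (Λ ≤ c ↔ ∀ σ : ℝ, MuLe (1 / 2 + σ) (c / 16 + σ ^ 2 / c - σ / 2))) ∧
      (LH ↔ Λ = 0) ∧ MuLe (1 / 2) (Λ / 16) ∧ MuLe (1 / 2 + Λ / 4) 0 ∧
      (∀ a : ℝ, 0 < a → a ≤ 1 / 4 → MuLe (1 / 2) a → Λ ≤ 2 / (1 - 2 * a)) ∧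
      (∀ τ : ℝ, 0 ≤ τ → MuLe (1 / 2 + τ) 0 → Λ ≤ 8 * τ) :=
  ⟨fun c₁ c₂ h1 h2 => ⟨wide almostAll c₁ c₂ h1 h2, fewBad almostAll c₁ c₂ h1 h2,
    manyReal c₁ c₂ h1 h2⟩, main3⟩

end Pool.Agent.DBC
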