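import Pool.Agent.DBC.Final4
import Pool.Agent.DBB.All4
import Pool.Agent.DBB.P_MR2

/-!
# The flow at all times `t ≥ A log log T / (log T)²`: the theorem
-/

set_option autoImplicit false

namespace Pool.Agent.DBC

open Complex MeasureTheory Set Filter Topology
open Pool.Agent.DBN Pool.Agent.DBB

theorem manyReal2 : ∀ c : ℝ, 0 < c → ManyReal2 c := fun c hc =>
  p_MR2 n_FG n_GS c hc (sharp (2 * c) (by linarith))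

/-- the theorem -/
theorem main6 :
    (∀ c : ℝ, 0 < c → UniWide c ∧ UniFew c ∧ ManyReal2 c) ∧
    ∃ Λ : ℝ, 0 ≤ Λ ∧ Λ ≤ 27 / 10 ∧
      (∀ c : ℝ, 0 ≤ c →
        ((Λ ≤ c ∧ ZeroFree c) ↔ ∀ c₁ c₂ : ℝ, c < c₁ → c₁ < c₂ → RealZ c₁ c₂) ∧
        ((Λ ≤ c ∧ ZeroFree c) ↔ ∀ c₁ c₂ : ℝ, c < c₁ → c₁ < c₂ → Regular c₁ c₂)) ∧
      (∀ c : ℝ, Λ < c → Motion c) ∧ (∀ c : ℝ, Λ ≤ c ↔ FewZeros c) ∧
      (∀ c : ℝ, 0 < c → (Λ ≤ c ↔ ∀ σ : ℝ, MuLe (1 / 2 + σ) (c / 16 + σ ^ 2 / c - σ / 2))) ∧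
      (LH ↔ Λ = 0) := by
  obtain ⟨-, L, h1, h2, h3, h4, h5, h6, h7, h8, h9, -⟩ := main5
  exact ⟨fun c hc => ⟨uniWide c hc, uniFew c hc, manyReal2 c hc⟩, L, h1, h2, h3, h5, h6, h8, h9⟩

end Pool.Agent.DBC
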