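import Pool.Agent.DBC.Final5
import Pool.Agent.DBS.All
import Pool.Agent.DBB.AllL5
import Pool.Agent.DBS.P_SC8

/-!
# The flow on the time scale `1 / (log X)²`: the theorem
-/

set_option autoImplicit false

namespace Pool.Agent.DBC

open Complex MeasureTheory Set Filter Topology
open Pool.Agent.DBN Pool.Agent.DBB Pool.Agent.DBS

theorem uniS : ∀ c : ℝ, 0 < c → UniS c := p_SC8 dg5 uns

theorem manyReal3 : ∀ c : ℝ, 0 < c → ManyReal3 c := manyReal3_of ar7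

/-- the theorem -/
theorem main7 :
    (∀ c : ℝ, 0 < c → UniWide c ∧ UniFew c ∧ UniS c ∧ ManyReal3 c) ∧
    ∃ Λ : ℝ, 0 ≤ Λ ∧ Λ ≤ 27 / 10 ∧
      (∀ c : ℝ, 0 ≤ c →
        ((Λ ≤ c ∧ ZeroFree c) ↔ ∀ c₁ c₂ : ℝ, c < c₁ → c₁ < c₂ → RealZ c₁ c₂) ∧
        ((Λ ≤ c ∧ ZeroFree c) ↔ ∀ c₁ c₂ : ℝ, c < c₁ → c₁ < c₂ → Regular c₁ c₂)) ∧
      (∀ c : ℝ, Λ < c → Motion c) ∧ (∀ c : ℝ, Λ ≤ c ↔ FewZeros c) ∧
      (∀ c : ℝ, 0 < c → (Λ ≤ c ↔ ∀ σ : ℝ, MuLe (1 / 2 + σ) (c / 16 + σ ^ 2 / c - σ / 2))) ∧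
      (LH ↔ Λ = 0) := by
  obtain ⟨-, h⟩ := main6
  exact ⟨fun c hc => ⟨uniWide c hc, uniFew c hc, uniS c hc, manyReal3 c hc⟩, h⟩

end Pool.Agent.DBC
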