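import Pool.Agent.DBC.Targets6

/-!
# A Borel set with few points in unit windows
-/

set_option autoImplicit false

namespace Pool.Agent.DBC

open Complex MeasureTheory Set Filter Topology
open Pool.Agent.DBN

namespace FB5_

/-- Disjoint intervals of length `1 / 2` in a set of volume at most `V`. -/
theorem few (E : Set ℝ) (V : ℝ) (hV : 0 ≤ V) (hE : volume E ≤ ENNReal.ofReal V)
    (I : Finset ℤ) (a : ℤ → ℝ) (h1 : ∀ k ∈ I, (k : ℝ) - 1 / 2 ≤ a k ∧ a k + 1 / 2 ≤ k + 3 / 2)
    (h2 : ∀ k ∈ I, Ioo (a k) (a k + 1 / 2) ⊆ E)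
    (h3 : ∀ k ∈ I, ∀ l ∈ I, k < l → k + 2 ≤ l) : (I.card : ℝ) ≤ 2 * V := by
  have hd : Set.PairwiseDisjoint (I : Set ℤ) fun k => Ioo (a k) (a k + 1 / 2) := by
    have key : ∀ k ∈ I, ∀ l ∈ I, k < l →
        Disjoint (Ioo (a k) (a k + 1 / 2)) (Ioo (a l) (a l + 1 / 2)) := by
      intro k hk l hl hkl
      rw [Set.disjoint_left]
      intro x hx hx'
      have e1 := (h1 k hk).2
      have e2 := (h1 l hl).1
      have e3 : (k : ℝ) + 2 ≤ l := by exact_mod_cast h3 k hk l hl hkl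
      have e4 := hx.2
      have e5 := hx'.1
      linarith
    intro k hk l hl hkl
    rcases lt_or_gt_of_ne hkl with h | h
    · exact key k hk l hl h
    · exact (key l hl k hk h).symm
  have hm : volume (⋃ k ∈ I, Ioo (a k) (a k + 1 / 2)) =
      ∑ k ∈ I, volume (Ioo (a k) (a k + 1 / 2)) :=
    measure_biUnion_finset hd fun k _ => measurableSet_Ioo
  have hs : (⋃ k ∈ I, Ioo (a k) (a k + 1 / 2)) ⊆ E := by
    intro x hx
    simp only [Set.mem_iUnion] at hx
    obtain ⟨k, hk, hx⟩ := hx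
    exact h2 k hk hx
  have hle := (measure_mono (μ := volume) hs).trans hE
  rw [hm] at hle
  have hv : ∀ k ∈ I, volume (Ioo (a k) (a k + 1 / 2)) = ENNReal.ofReal (1 / 2) := by
    intro k _
    rw [Real.volume_Ioo]
    congr 1
    ring
  rw [Finset.sum_congr rfl hv, Finset.sum_const, nsmul_eq_mul] at hle
  have e : ((I.card : ENNReal)) * ENNReal.ofReal (1 / 2) =
      ENNReal.ofReal ((I.card : ℝ) * (1 / 2)) := by
    rw [ENNReal.ofReal_mul (by positivity), ENNReal.ofReal_natCast]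
  rw [e, ENNReal.ofReal_le_ofReal_iff hV] at hle
  linarith

/-- The bound for finite subsets. -/
theorem fin (B : Set ℂ) (E : Set ℝ) (X V : ℝ) (N : ℕ) (hX : 1 ≤ X) (hV : 0 ≤ V)
    (hB : ∀ z ∈ B, 2 * X ≤ z.re ∧ z.re ≤ 4 * X)
    (hE : ∀ z ∈ B, ∀ T : ℝ, X ≤ T → T ≤ 2 * X → |2 * T - z.re| ≤ 1 → T ∈ E)
    (hvol : volume E ≤ ENNReal.ofReal V)
    (hN : ∀ (k : ℤ) (S : Finset ℂ), (∀ z ∈ S, z ∈ B ∧ ⌊z.re / 2⌋ = k) → S.card ≤ N)
    (S : Finset ℂ) (hS : ∀ z ∈ S, z ∈ B) : (S.card : ℝ) ≤ 4 * N * V := by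
  classical
  set f : ℂ → ℤ := fun z => ⌊z.re / 2⌋ with hf
  set I : Finset ℤ := S.image f with hI
  have hc : S.card ≤ N * I.card := by
    refine Finset.card_le_mul_card_image S N fun k _ => ?_
    refine hN k _ fun z hz => ?_
    rw [Finset.mem_filter] at hz
    exact ⟨hS z hz.1, hz.2⟩
  have hex : ∀ k : ℤ, ∃ a : ℝ, k ∈ I → ((k : ℝ) - 1 / 2 ≤ a ∧ a + 1 / 2 ≤ k + 3 / 2) ∧
      Ioo a (a + 1 / 2) ⊆ E := by
    intro k
    by_cases hk : k ∈ I
    · obtain ⟨z, hz, hzk⟩ := Finset.mem_image.1 hk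
      have hzB := hS z hz
      obtain ⟨b1, b2⟩ := hB z hzB
      have c1 : (k : ℝ) ≤ z.re / 2 := by
        rw [← hzk]
        exact Int.floor_le _
      have c2 : z.re / 2 < k + 1 := by
        rw [← hzk]
        exact Int.lt_floor_add_one _
      by_cases hc : z.re / 2 + 1 / 2 ≤ 2 * X
      · refine ⟨z.re / 2, fun _ => ⟨⟨by linarith, by linarith⟩, ?_⟩⟩
        intro T hT
        have t1 := hT.1
        have t2 := hT.2
        refine hE z hzB T (by linarith) (by linarith) ?_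
        rw [abs_le]
        constructor <;> linarith
      · rw [not_le] at hc
        refine ⟨z.re / 2 - 1 / 2, fun _ => ⟨⟨by linarith, by linarith⟩, ?_⟩⟩
        intro T hT
        have t1 := hT.1
        have t2 := hT.2
        refine hE z hzB T (by linarith) (by linarith) ?_
        rw [abs_le]
        constructor <;> linarith
    · exact ⟨0, fun h => absurd h hk⟩
  choose a ha using hex
  have h0 : ((I.filter fun k => k % 2 = 0).card : ℝ) ≤ 2 * V := by
    refine few E V hV hvol _ a (fun k hk => (ha k (Finset.mem_filter.1 hk).1).1)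
      (fun k hk => (ha k (Finset.mem_filter.1 hk).1).2) fun k hk l hl hkl => ?_
    have := (Finset.mem_filter.1 hk).2
    have := (Finset.mem_filter.1 hl).2
    omega
  have h1 : ((I.filter fun k => ¬ (k % 2 = 0)).card : ℝ) ≤ 2 * V := by
    refine few E V hV hvol _ a (fun k hk => (ha k (Finset.mem_filter.1 hk).1).1)
      (fun k hk => (ha k (Finset.mem_filter.1 hk).1).2) fun k hk l hl hkl => ?_
    have := (Finset.mem_filter.1 hk).2
    have := (Finset.mem_filter.1 hl).2
    omega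
  have hsum : ((I.filter fun k => k % 2 = 0).card : ℝ) +
      ((I.filter fun k => ¬ (k % 2 = 0)).card : ℝ) = (I.card : ℝ) := by
    exact_mod_cast Finset.card_filter_add_card_filter_not (s := I) (fun k => k % 2 = 0)
  have hIc : (I.card : ℝ) ≤ 4 * V := by linarith
  have hc' : (S.card : ℝ) ≤ N * I.card := by exact_mod_cast hc
  have hN0 : (0 : ℝ) ≤ N := Nat.cast_nonneg N
  calc (S.card : ℝ) ≤ N * I.card := hc'
    _ ≤ N * (4 * V) := mul_le_mul_of_nonneg_left hIc hN0
    _ = 4 * N * V := by ring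

end FB5_

theorem n_FB : N_FB := by
  intro B E X V N hX hV hB hE hvol hN
  have key := FB5_.fin B E X V N hX hV hB hE hvol hN
  have hfin : B.Finite := by
    by_contra hinf
    obtain ⟨t, ht, hcard⟩ := Set.Infinite.exists_subset_card_eq hinf (⌊4 * (N : ℝ) * V⌋₊ + 1)
    have h := key t fun z hz => ht hz
    rw [hcard] at h
    have h' := Nat.lt_floor_add_one (4 * (N : ℝ) * V)
    push_cast at h
    linarith
  refine ⟨hfin, ?_⟩
  rw [Set.ncard_eq_toFinset_card B hfin]
  exact key hfin.toFinset fun z hz => hfin.mem_toFinset.1 hz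

end Pool.Agent.DBC
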