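import Pool.Agent.DBC.Targets6
import Pool.Agent.DBC.Q_UP2
import Pool.Agent.DBC.P_ZER
import Pool.Agent.DBN.ZA

/-!
# DBC5, target `N_FU`: upper bound for the flow
-/

set_option autoImplicit false

namespace Pool.Agent.DBC

open Complex MeasureTheory Set Filter Topology
open Pool.Agent.DBN

namespace FU5_

theorem mm_ge (y : ℝ) : max (|y| / 2) (1 / 4) ≤ mm 4 y := by
  unfold mm
  have h0 := abs_nonneg y
  split_ifs with h
  · have h1 : y ^ 2 = |y| ^ 2 := (sq_abs y).symm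
    rw [h1]
    refine max_le ?_ ?_
    · nlinarith [sq_nonneg (|y| - 1)]
    · nlinarith [sq_nonneg |y|]
  · refine max_le le_rfl ?_
    linarith

theorem mm_le (y : ℝ) : mm 4 y ≤ 1 / 4 + |y| / 2 := by
  unfold mm
  have h0 := abs_nonneg y
  split_ifs with h
  · have h1 : y ^ 2 = |y| ^ 2 := (sq_abs y).symm
    rw [h1]
    nlinarith
  · linarith

theorem xiLe_mm : XiLe (mm 4) := by
  intro ε κ hε hκ
  obtain ⟨C, hC, h⟩ := xi_quarter_le ε κ hε hκ
  refine ⟨C, hC, ?_⟩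
  intro T w hT
  refine (h T w hT).trans ?_
  have hs := OFA_.size_nonneg' hT
  have h1 : T ^ (max (|w.re| / 2) (1 / 4) + ε) ≤ T ^ (mm 4 w.re + ε) := by
    refine Real.rpow_le_rpow_of_exponent_le (by linarith) ?_
    have := mm_ge w.re
    linarith
  gcongr

theorem elem {c₂ K c y u : ℝ} (hc : 0 < c) (hc2 : c ≤ c₂) (hy : |y| ≤ K) :
    mm 4 (y + u) - u ^ 2 / c ≤ (5 / 4 + K / 2 + c₂ / 8) - 1 - 1 / (4 * c₂) * u ^ 2 := by
  have hc20 : 0 < c₂ := by linarith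
  have h1 := mm_le (y + u)
  have h2 : |y + u| ≤ K + |u| := (abs_add_le y u).trans (by linarith)
  have h3 : u ^ 2 / c₂ ≤ u ^ 2 / c := by gcongr
  have h4 : |u| / 2 ≤ u ^ 2 / c₂ / 2 + c₂ / 8 := by
    have h5 : 0 ≤ (|u| - c₂ / 2) ^ 2 := sq_nonneg _
    have h6 : u ^ 2 = |u| ^ 2 := (sq_abs u).symm
    have h7 : u ^ 2 / c₂ / 2 + c₂ / 8 - |u| / 2 = (|u| - c₂ / 2) ^ 2 / (2 * c₂) := by
      rw [h6]
      field_simp
      ring
    have h8 : 0 ≤ (|u| - c₂ / 2) ^ 2 / (2 * c₂) := by positivity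
    linarith
  have h9 : 1 / (4 * c₂) * u ^ 2 = u ^ 2 / c₂ / 4 := by
    field_simp
  have h10 : 0 ≤ u ^ 2 / c₂ := by positivity
  rw [h9]
  linarith

theorem sqrt_le {t T c₁ : ℝ} (hc : 0 < c₁) (hT : 2 ≤ T) (hTc : 1 / c₁ ≤ T)
    (h1 : c₁ ≤ t * Real.log T) : (√(Real.pi * t))⁻¹ ≤ T := by
  have hT0 : 0 < T := by linarith
  have hL := OFA_.log_ge hT
  have hL0 : 0 < Real.log T := by linarith
  have hLT : Real.log T ≤ T := (Real.log_le_sub_one_of_pos hT0).trans (by linarith)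
  have ht : 0 < t := by
    by_contra h6
    have : t * Real.log T ≤ 0 := mul_nonpos_of_nonpos_of_nonneg (by linarith) hL0.le
    linarith
  have h2 : c₁ ≤ t * T := h1.trans (by gcongr)
  have h3 : 1 ≤ c₁ * T := by
    rw [div_le_iff₀ hc] at hTc
    linarith
  have h4 : 1 ≤ Real.pi * t * T ^ 2 := by
    have h5 : 1 ≤ t * T ^ 2 := by
      calc (1 : ℝ) ≤ c₁ * T := h3
        _ ≤ t * T * T := by gcongr
        _ = t * T ^ 2 := by ring
    have h6 : t * T ^ 2 ≤ Real.pi * (t * T ^ 2) := by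
      have h7 := Real.pi_gt_three
      have h8 : 0 ≤ t * T ^ 2 := by positivity
      nlinarith
    linarith
  have h5 : T⁻¹ ≤ √(Real.pi * t) := by
    refine Real.le_sqrt_of_sq_le ?_
    rw [inv_pow, inv_le_iff_one_le_mul₀ (by positivity)]
    linarith
  calc (√(Real.pi * t))⁻¹ ≤ (T⁻¹)⁻¹ := inv_anti₀ (by positivity) h5
    _ = T := inv_inv T

end FU5_

open OFA_ UP22_ FU5_ in
theorem n_FU (h1 : T_SPL) (h2 : T_CNJ) : N_FU := by
  intro c₁ c₂ K hc1 hcc hK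
  have hc2 : 0 < c₂ := by linarith
  obtain ⟨C, hC, hb⟩ := bound (l := 4) (κ₀ := 1 / (4 * c₂)) (g₀ := 1) xiLe_mm (by positivity)
    one_pos hK
  obtain ⟨B, hB⟩ : ∃ B, B = 5 / 4 + K / 2 + c₂ / 8 := ⟨_, rfl⟩
  obtain ⟨J, hJ⟩ : ∃ J, J = ∫ u : ℝ, (1 + |u|) * Real.exp (-(1 / (4 * c₂) / 4) * u ^ 2) :=
    ⟨_, rfl⟩
  have hJ0 : 0 ≤ J := by
    rw [hJ]
    exact integral_nonneg fun u => by positivity
  obtain ⟨T₁, hT₁⟩ : ∃ T₁ : ℝ, ∀ T : ℝ, T₁ ≤ T → 2 * (J * C) ≤ T ^ (1 / 2 : ℝ) := by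
    have h3 := (tendsto_rpow_atTop (y := (1 / 2 : ℝ)) (by norm_num)).eventually_ge_atTop
      (2 * (J * C))
    obtain ⟨T₁, h4⟩ := eventually_atTop.1 h3
    exact ⟨T₁, h4⟩
  refine ⟨B + 1, max 2 (max (1 / c₁) T₁), by rw [hB]; positivity, le_max_left _ _, ?_⟩
  intro t T x τ hTm hct1 hct2 hx hτ
  have hT : 2 ≤ T := (le_max_left _ _).trans hTm
  have hTc : 1 / c₁ ≤ T := ((le_max_left _ _).trans (le_max_right _ _)).trans hTm
  have hT1 : T₁ ≤ T := ((le_max_right _ _).trans (le_max_right _ _)).trans hTm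
  have hT0 : 0 < T := by linarith
  have hL := log_ge hT
  have hc : 0 < t * Real.log T := by linarith
  have ht : 0 < t := by
    by_contra h6
    have : t * Real.log T ≤ 0 := mul_nonpos_of_nonpos_of_nonneg (by linarith) (by linarith)
    linarith
  have hs := size_nonneg' hT
  obtain ⟨A, hAe⟩ : ∃ A, A = size T * T ^ (B - 1 / 2) := ⟨_, rfl⟩
  have hA : 0 ≤ A := by
    rw [hAe]
    positivity
  have key : ∀ y : ℝ, |y| ≤ K → ‖W t (pt y τ)‖ ≤ J * (C * A) := by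
    intro y hy
    have hp : ∀ u : ℝ, 0 ≤ u → ‖((Real.exp (-(u ^ 2 / t)) : ℝ) : ℂ) * xi (pt y τ + u)‖ ≤
        C * A * Real.exp (-(1 / (4 * c₂) / 4) * u ^ 2) := by
      intro u _
      rw [norm_mul, Complex.norm_real, Real.norm_of_nonneg (Real.exp_pos _).le, hAe]
      have h7 := hb t T y τ u B hT ht hy hτ (by rw [hB]; exact elem hc hct2 hy)
      exact h7
    rw [hJ]
    exact int_le (κ := 1 / (4 * c₂) / 4) (by positivity) (by positivity) hp
  have hW1 := key x hx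
  have hW2 : ‖W t (1 - pt x τ)‖ ≤ J * (C * A) := by
    rw [ZER_.one_sub_pt, h2, Complex.norm_conj]
    exact key (-x) (by rwa [abs_neg])
  have hsq := sqrt_le hc1 hT hTc hct1
  have hsq0 : 0 ≤ (√(Real.pi * t))⁻¹ := by positivity
  rw [h1 t _ ht, norm_mul, Complex.norm_real, Real.norm_of_nonneg hsq0]
  calc (√(Real.pi * t))⁻¹ * ‖W t (pt x τ) + W t (1 - pt x τ)‖
      ≤ T * (J * (C * A) + J * (C * A)) := by
        refine mul_le_mul hsq ((norm_add_le _ _).trans (add_le_add hW1 hW2)) (norm_nonneg _)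
          hT0.le
    _ = (2 * (J * C)) * (T * A) := by ring
    _ ≤ T ^ (1 / 2 : ℝ) * (T * A) := mul_le_mul_of_nonneg_right (hT₁ T hT1) (by positivity)
    _ = size T * T ^ (B + 1) := by
        rw [hAe]
        have e1 : T ^ (B + 1) = T ^ (1 / 2 : ℝ) * (T ^ (1 : ℝ) * T ^ (B - 1 / 2)) := by
          rw [← Real.rpow_add hT0, ← Real.rpow_add hT0]
          congr 1
          ring
        rw [e1, Real.rpow_one]
        ring

end Pool.Agent.DBC
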