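import Pool.Agent.DBC.Targets6
import Pool.Agent.DBC.Q_OA2
import Pool.Agent.DBN.ZA

/-!
# DBC5, target `N_NO`: away from the saddle point, `x ≥ 2`
-/

set_option autoImplicit false

namespace Pool.Agent.DBC

open Complex MeasureTheory Set Filter Topology
open Pool.Agent.DBN

namespace NO5_

theorem mm4_ge (y : ℝ) : max (|y| / 2) (1 / 4) ≤ mm 4 y := by
  unfold mm
  split_ifs with h
  · refine max_le ?_ ?_
    · nlinarith [sq_nonneg (|y| - 1), sq_abs y]
    · nlinarith [sq_nonneg y]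
  · refine max_le le_rfl ?_
    push Not at h
    linarith

theorem xile : XiLe (mm 4) := by
  intro ε κ hε hκ
  obtain ⟨C, hC, h⟩ := xi_quarter_le ε κ hε hκ
  refine ⟨C, hC, fun T w hT => (h T w hT).trans ?_⟩
  have h1 : (0 : ℝ) ≤ size T := OFA_.size_nonneg' hT
  have h2 : T ^ (max (|w.re| / 2) (1 / 4) + ε) ≤ T ^ (mm 4 w.re + ε) :=
    Real.rpow_le_rpow_of_exponent_le (by linarith) (by linarith [mm4_ge w.re])
  show C * size T * T ^ (max (|w.re| / 2) (1 / 4) + ε) * _ ≤ _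
  gcongr

/-- the inequality without `κ u²`, right of the critical line -/
theorem step1 {c₂ r c x u : ℝ} (hc0 : 0 < c) (hc2 : c ≤ c₂) (hr : 0 < r) (hx : 2 ≤ x)
    (hu : 0 ≤ u) (hru : r ≤ |u - c / 4|) :
    mm 4 (x + u) - u ^ 2 / c ≤ c / 16 + x / 2 - r ^ 2 / c₂ := by
  have hc20 : 0 < c₂ := by linarith
  have h2 : r ^ 2 / c₂ ≤ (u - c / 4) ^ 2 / c := by
    rw [← sq_abs (u - c / 4)]
    gcongr
  have h3 : 0 < x + u := by linarith
  have h5 : mm 4 (x + u) = (x + u) / 2 := by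
    unfold mm
    rw [abs_of_pos h3, if_neg (by linarith)]
  rw [h5]
  have h4 : (x + u) / 2 - u ^ 2 / c = c / 16 + x / 2 - (u - c / 4) ^ 2 / c := by
    field_simp
    ring
  linarith

/-- the inequality without `κ u²`, left of the critical line -/
theorem step2 {c₁ c x u : ℝ} (h1 : 0 < c₁) (hc1 : c₁ ≤ c) (hx : 2 ≤ x) (hu : 0 ≤ u) :
    mm 4 (u - x) - u ^ 2 / c ≤ c / 16 + x / 2 - min (c₁ / 16) (1 / 2) := by
  have hc0 : 0 < c := by linarith
  have m1 : min (c₁ / 16) (1 / 2) ≤ c₁ / 16 := min_le_left _ _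
  have m2 : min (c₁ / 16) (1 / 2) ≤ 1 / 2 := min_le_right _ _
  have hu2 : 0 ≤ u ^ 2 / c := by positivity
  unfold mm
  split_ifs with h
  · have h3 : (u - x) ^ 2 ≤ 1 := by
      rw [← sq_abs (u - x)]
      nlinarith [abs_nonneg (u - x)]
    linarith
  · rcases le_or_gt 0 (u - x) with hy0 | hy0
    · rw [abs_of_nonneg hy0]
      have h4 : (u - x) / 2 - u ^ 2 / c = c / 16 - x / 2 - (u - c / 4) ^ 2 / c := by
        field_simp
        ring
      have h5 : 0 ≤ (u - c / 4) ^ 2 / c := by positivity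
      linarith
    · rw [abs_of_neg hy0]
      linarith

/-- both inequalities with `κ u²` -/
theorem ineq {c₁ c₂ r : ℝ} (h1 : 0 < c₁) (h2 : c₁ ≤ c₂) (hr : 0 < r) :
    ∃ g κ : ℝ, 0 < g ∧ 0 < κ ∧ ∀ c x u : ℝ, c₁ ≤ c → c ≤ c₂ → 2 ≤ x → 0 ≤ u →
      (r ≤ |u - c / 4| → mm 4 (x + u) - u ^ 2 / c ≤ c / 16 + x / 2 - g - κ * u ^ 2) ∧
      mm 4 (u - x) - u ^ 2 / c ≤ c / 16 + x / 2 - g - κ * u ^ 2 := by
  have hc2 : 0 < c₂ := by linarith
  obtain ⟨g, hg⟩ : ∃ g, g = min ((r / 2) ^ 2 / (c₂ + 1)) (min (c₁ / 16) (1 / 2)) := ⟨_, rfl⟩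
  have hg0 : 0 < g := by
    rw [hg]
    exact lt_min (by positivity) (lt_min (by positivity) (by norm_num))
  have hg1 : g ≤ (r / 2) ^ 2 / (c₂ + 1) := by
    rw [hg]
    exact min_le_left _ _
  have hg2 : g ≤ min (c₁ / 16) (1 / 2) := by
    rw [hg]
    exact min_le_right _ _
  obtain ⟨η, hη⟩ : ∃ η, η = min (min 1 (2 * r)) (8 * g) := ⟨_, rfl⟩
  have hη0 : 0 < η := by
    rw [hη]
    exact lt_min (lt_min one_pos (by positivity)) (by positivity)
  have hη1 : η ≤ 1 := by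
    rw [hη]
    exact (min_le_left _ _).trans (min_le_left _ _)
  have hη2 : η ≤ 2 * r := by
    rw [hη]
    exact (min_le_left _ _).trans (min_le_right _ _)
  have hη3 : η ≤ 8 * g := by
    rw [hη]
    exact min_le_right _ _
  refine ⟨g / 2, η / (c₂ * (c₂ + 1)), by positivity, by positivity, ?_⟩
  intro c x u h3 h4 h5 h6
  have hc0 : 0 < c := by linarith
  have h11 : u ^ 2 / c = u ^ 2 / (c + η) + η / (c * (c + η)) * u ^ 2 := by
    field_simp
  have h12 : η / (c₂ * (c₂ + 1)) * u ^ 2 ≤ η / (c * (c + η)) * u ^ 2 := by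
    gcongr
  constructor
  · intro h8
    have h9 : r / 2 ≤ |u - (c + η) / 4| := by
      have e1 : |u - c / 4| ≤ |u - (c + η) / 4| + |η / 4| := by
        have e2 : u - c / 4 = (u - (c + η) / 4) + η / 4 := by ring
        rw [e2]
        exact abs_add_le _ _
      have e3 : |η / 4| = η / 4 := abs_of_pos (by positivity)
      rw [e3] at e1
      linarith
    have h10 := step1 (c₂ := c₂ + 1) (r := r / 2) (c := c + η) (x := x) (u := u)
      (by linarith) (by linarith) (by positivity) h5 h6 h9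
    rw [h11]
    linarith
  · have h10 := step2 (c₁ := c₁) (c := c + η) (x := x) (u := u) h1 (by linarith) h5 h6
    rw [h11]
    linarith

end NO5_

open NO5_ in
theorem n_NO : N_NO := by
  intro c₁ c₂ K r h1 h2 hK hr
  obtain ⟨g, κ, hg, hκ, h⟩ := ineq h1 h2 hr
  have hK0 : 0 < K := by linarith
  obtain ⟨C, hC, hb⟩ := OFA_.bound xile hκ hg hK0
  obtain ⟨J, hJ⟩ : ∃ J, J = ∫ u : ℝ, Real.exp (-(κ / 4) * u ^ 2) := ⟨_, rfl⟩
  have hJ0 : 0 ≤ J := by
    rw [hJ]
    exact integral_nonneg fun u => by positivity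
  refine ⟨g / 2, C * J, 2, by positivity, by positivity, le_rfl, ?_⟩
  intro t T x τ hT h3 h4 h5 h6 h7
  have hL := OFA_.log_ge hT
  have hc : 0 < t * Real.log T := by linarith
  have ht : 0 < t := by
    by_contra h8
    have : t * Real.log T ≤ 0 := mul_nonpos_of_nonpos_of_nonneg (by linarith) (by linarith)
    linarith
  have hx1 : |x| ≤ K := abs_le.2 ⟨by linarith, h6⟩
  have hx2 : |-x| ≤ K := by
    rw [abs_neg]
    exact hx1
  obtain ⟨A, hAe⟩ : ∃ A, A = size T * T ^ (t * Real.log T / 16 + x / 2 - g / 2) := ⟨_, rfl⟩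
  have hA : 0 ≤ A := by
    rw [hAe]
    have := OFA_.size_nonneg' hT
    have : 0 ≤ T := by linarith
    positivity
  constructor
  · have hp : ∀ u : ℝ, 0 ≤ u → r ≤ |u - t * Real.log T / 4| →
        Real.exp (-(u ^ 2 / t)) * ‖xi (pt x τ + u)‖ ≤ C * A * Real.exp (-(κ / 4) * u ^ 2) := by
      intro u hu hru
      rw [hAe]
      exact hb t T x τ u (t * Real.log T / 16 + x / 2) hT ht hx1 h7
        ((h (t * Real.log T) x u h3 h4 h5 hu).1 hru)
    have h8 := OA22_.int_bound (κ := κ / 4) (A := C * A)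
      (S := Ioi (0 : ℝ) \ Ioo (sd t T - r) (sd t T + r))
      (f := fun u => Real.exp (-(u ^ 2 / t)) * ‖xi (pt x τ + u)‖)
      (by positivity) (by positivity) (measurableSet_Ioi.diff measurableSet_Ioo)
      (fun u => by positivity) (by
        rintro u ⟨hu1, hu2⟩
        refine hp u (le_of_lt hu1) ?_
        by_contra h9
        push Not at h9
        rw [abs_lt] at h9
        exact hu2 ⟨by unfold sd; linarith, by unfold sd; linarith⟩)
    rw [← hJ] at h8
    rw [← hAe]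
    refine h8.trans (le_of_eq ?_)
    ring
  · have hp : ∀ u : ℝ, 0 ≤ u → Real.exp (-(u ^ 2 / t)) * ‖xi (pt (-x) τ + u)‖ ≤
        C * A * Real.exp (-(κ / 4) * u ^ 2) := by
      intro u hu
      rw [hAe]
      refine hb t T (-x) τ u (t * Real.log T / 16 + x / 2) hT ht hx2 h7 ?_
      have h9 : -x + u = u - x := by ring
      rw [h9]
      exact (h (t * Real.log T) x u h3 h4 h5 hu).2
    rw [← hAe]
    have h8 := OA22_.int_bound (κ := κ / 4) (A := C * A) (S := Ioi (0 : ℝ))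
      (f := fun u => Real.exp (-(u ^ 2 / t)) * ‖xi (pt (-x) τ + u)‖)
      (by positivity) (by positivity) measurableSet_Ioi
      (fun u => by positivity) (fun u hu => hp u (le_of_lt hu))
    rw [← hJ] at h8
    calc ‖W t (pt (-x) τ)‖ ≤ ∫ u in Ioi (0 : ℝ), ‖((Real.exp (-(u ^ 2 / t)) : ℝ) : ℂ) *
          xi (pt (-x) τ + u)‖ := norm_integral_le_integral_norm _
      _ = ∫ u in Ioi (0 : ℝ), Real.exp (-(u ^ 2 / t)) * ‖xi (pt (-x) τ + u)‖ := by
          congr 1
          funext u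
          rw [norm_mul, Complex.norm_real, Real.norm_of_nonneg (Real.exp_pos _).le]
      _ ≤ C * A * J := h8
      _ = C * J * A := by ring

end Pool.Agent.DBC
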