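import Pool.Agent.DBC.Targets6
import Pool.Agent.DBC.P_CVR
import Pool.Agent.DBC.P_HTR

/-!
# Almost all zeros of `H_t` are real: WC, the number of zeros near `2 T`
-/

set_option autoImplicit false

namespace Pool.Agent.DBC

open Complex MeasureTheory Set Filter Topology
open Pool.Agent.DBN

namespace WC5_

theorem card_le (n : ℕ) (A S T : ℝ) (hT : 2 ≤ T) (hS : 0 < S)
    (h : (2 : ℝ) ^ n * (S / 8) ≤ S * T ^ A) : (n : ℝ) ≤ (A + 3) / Real.log 2 * Real.log T := by
  have hT0 : 0 < T := by linarith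
  have hl2 : 0 < Real.log 2 := Real.log_pos (by norm_num)
  have h1 : (2 : ℝ) ^ n ≤ 2 ^ 3 * T ^ A := by
    have h2 : S * (2 : ℝ) ^ n ≤ S * (2 ^ 3 * T ^ A) := by
      have h3 : S * (2 : ℝ) ^ n = 8 * ((2 : ℝ) ^ n * (S / 8)) := by ring
      rw [h3]
      linarith
    exact le_of_mul_le_mul_left h2 hS
  have h2 : Real.log ((2 : ℝ) ^ n) ≤ Real.log (2 ^ 3 * T ^ A) :=
    Real.log_le_log (by positivity) h1
  rw [Real.log_mul (by positivity) (by positivity), Real.log_pow, Real.log_pow,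
    Real.log_rpow hT0] at h2
  have h3 : Real.log 2 ≤ Real.log T := Real.log_le_log (by norm_num) hT
  rw [div_mul_eq_mul_div, le_div_iff₀ hl2]
  push_cast at h2
  linarith

end WC5_

theorem n_WC (h1 : N_FL) (h2 : N_FU) (h3 : N_JN) : N_WC := by
  intro c₁ c₂ K hc₁ hc hK
  obtain ⟨T₁, hT₁, hL⟩ := h1 c₁ c₂ 2 hc₁ hc le_rfl
  obtain ⟨A, T₂, hA, hT₂, hU⟩ := h2 c₁ c₂ (3 * K + 16) hc₁ hc (by positivity)
  have hl2 : 0 < Real.log 2 := Real.log_pos (by norm_num)
  refine ⟨(A + 3) / Real.log 2, max T₁ T₂, by positivity, le_max_of_le_left hT₁, ?_⟩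
  intro t T hT ht1 ht2 S hS
  have hTa : T₁ ≤ T := (le_max_left _ _).trans hT
  have hTb : T₂ ≤ T := (le_max_right _ _).trans hT
  have hT2 : 2 ≤ T := hT₁.trans hTa
  have hsz : 0 < size T := by
    unfold size
    positivity
  set s : ℂ := ((2 * T : ℝ) : ℂ) - ((4 : ℝ) : ℂ) * I with hs
  have hsre : s.re = 2 * T := by simp [hs]
  have hsim : s.im = -4 := by simp [hs]
  have hlow : size T / 8 ≤ ‖H t s‖ := by
    rw [HTR_.H_pt, hsre, hsim, norm_div]
    have h4 := hL t T 2 T hTa ht1 ht2 le_rfl le_rfl (by simp)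
    have h5 : pt (-(-4 / 2)) (2 * T / 2) = pt 2 T := by
      congr 1
      · norm_num
      · ring
    rw [h5]
    have h6 : ‖(8 : ℂ)‖ = 8 := by simp
    rw [h6]
    linarith
  have hup : ∀ z : ℂ, ‖z - s‖ ≤ 3 * (K + 4) → ‖H t z‖ ≤ size T * T ^ A := by
    intro z hz
    have h4 := (Complex.abs_re_le_norm (z - s)).trans hz
    have h5 := (Complex.abs_im_le_norm (z - s)).trans hz
    rw [Complex.sub_re, hsre, abs_le] at h4
    rw [Complex.sub_im, hsim, abs_le] at h5
    have h6 := hU t T (-(z.im / 2)) (z.re / 2) hTb ht1 ht2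
      (by rw [abs_le]; constructor <;> linarith) (by rw [abs_le]; constructor <;> linarith)
    rw [HTR_.H_pt, norm_div]
    have h7 : ‖(8 : ℂ)‖ = 8 := by simp
    rw [h7]
    have h8 : 0 ≤ ‖flow t (pt (-(z.im / 2)) (z.re / 2))‖ := norm_nonneg _
    linarith
  have hmem : ∀ z ∈ S, H t z = 0 ∧ ‖z - s‖ ≤ K + 4 := by
    intro z hz
    obtain ⟨h4, h5⟩ := hS z hz
    refine ⟨h4, ?_⟩
    have h6 : z - s = (z - 2 * T) + ((4 : ℝ) : ℂ) * I := by
      rw [hs]
      push_cast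
      ring
    rw [h6]
    refine (norm_add_le _ _).trans (add_le_add h5 ?_)
    rw [norm_mul, Complex.norm_I, Complex.norm_real]
    norm_num
  have hmain := h3 (H t) s (K + 4) (size T * T ^ A) (size T / 8) (CVR_.diff_H t)
    (by positivity) (by positivity) hup hlow S hmem
  exact WC5_.card_le S.card A (size T) T hT2 hsz hmain

end Pool.Agent.DBC
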