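import Pool.Agent.DBC.Targets

set_option autoImplicit false

namespace Pool.Agent.DBC

open Complex MeasureTheory Set Filter Topology
open Pool.Agent.DBN

theorem p_LGD (h1 : T_DER) (h2 : T_SAD) : T_LGD := by
  intro l c₁ c₂ K h
  obtain ⟨δ, hδ, hS⟩ := h2 l c₁ c₂ K h
  refine ⟨δ, hδ, fun ε hε => ?_⟩
  obtain ⟨T₀, hT₀, hE⟩ := hS (min (1 / 2) (ε / 5)) (lt_min (by norm_num) (by positivity))
  refine ⟨max T₀ 3, le_max_of_le_left hT₀, fun t T x τ hT hc1 hc2 hx1 hx2 hτ => ?_⟩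
  have hT3 : 3 ≤ T := (le_max_right _ _).trans hT
  obtain ⟨hW, hV, hX, hP⟩ := hE t T x τ ((le_max_left _ _).trans hT) hc1 hc2 hx1 hx2 hτ
  set ε' := min (1 / 2) (ε / 5) with hε'
  have he1 : ε' ≤ 1 / 2 := min_le_left _ _
  have he2 : ε' ≤ ε / 5 := min_le_right _ _
  have he0 : 0 < ε' := lt_min (by norm_num) (by positivity)
  have hL : 1 ≤ Real.log T := by
    rw [Real.le_log_iff_exp_le (by linarith)]
    have := Real.exp_one_lt_d9
    linarith
  have hL0 : 0 < Real.log T := by linarith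
  have ht : 0 < t := by
    have h3 : 0 < t * Real.log T := by linarith [h.c2]
    exact (mul_pos_iff_of_pos_right hL0).mp h3
  have hPP : 0 < ‖PP t T (pt x τ)‖ :=
    lt_of_lt_of_le (mul_pos (mul_pos (Real.rpow_pos_of_pos (by linarith) _) (Real.exp_pos _))
      (Real.rpow_pos_of_pos (by linarith) _)) hP
  have hWn : ‖PP t T (pt x τ)‖ ≤ 2 * ‖W t (pt x τ)‖ := by
    have h3 : ‖PP t T (pt x τ)‖ ≤ ‖W t (pt x τ)‖ + ‖W t (pt x τ) - PP t T (pt x τ)‖ := by
      have h4 : PP t T (pt x τ) = W t (pt x τ) - (W t (pt x τ) - PP t T (pt x τ)) := by ring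
      conv_lhs => rw [h4]
      exact norm_sub_le _ _
    nlinarith
  refine ⟨fun h0 => ?_, ?_⟩
  · rw [h0, norm_zero] at hWn
    linarith
  · rw [(h1 t (pt x τ) ht).deriv]
    have hsd : ((2 / t : ℝ) : ℂ) * (sd t T : ℂ) = ((Real.log T / 2 : ℝ) : ℂ) := by
      rw [← Complex.ofReal_mul]
      congr 1
      rw [sd]
      field_simp
      ring
    have hid : ((2 / t : ℝ) : ℂ) * V t (pt x τ) - xi (pt x τ) -
        ((Real.log T / 2 : ℝ) : ℂ) * W t (pt x τ) =
        ((2 / t : ℝ) : ℂ) * (V t (pt x τ) - (sd t T : ℂ) * PP t T (pt x τ)) - xi (pt x τ) -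
        ((Real.log T / 2 : ℝ) : ℂ) * (W t (pt x τ) - PP t T (pt x τ)) := by
      rw [mul_sub, mul_sub, ← mul_assoc, hsd]
      ring
    rw [hid]
    have h2t : 2 / t ≤ Real.log T := by
      rw [div_le_iff₀ ht]
      nlinarith [h.c2]
    have n1 : ‖((2 / t : ℝ) : ℂ) * (V t (pt x τ) - (sd t T : ℂ) * PP t T (pt x τ))‖ ≤
        Real.log T * (ε' * ‖PP t T (pt x τ)‖) := by
      rw [norm_mul, Complex.norm_real, Real.norm_eq_abs, abs_of_pos (by positivity)]
      exact mul_le_mul h2t hV (norm_nonneg _) hL0.le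
    have n2 : ‖((Real.log T / 2 : ℝ) : ℂ) * (W t (pt x τ) - PP t T (pt x τ))‖ ≤
        Real.log T / 2 * (ε' * ‖PP t T (pt x τ)‖) := by
      rw [norm_mul, Complex.norm_real, Real.norm_eq_abs, abs_of_pos (by positivity)]
      exact mul_le_mul_of_nonneg_left hW (by positivity)
    calc _ ≤ Real.log T * (ε' * ‖PP t T (pt x τ)‖) + ε' * ‖PP t T (pt x τ)‖ +
          Real.log T / 2 * (ε' * ‖PP t T (pt x τ)‖) := by
          refine (norm_sub_le _ _).trans (add_le_add ((norm_sub_le _ _).trans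
            (add_le_add n1 hX)) n2)
      _ ≤ 5 / 2 * Real.log T * (ε' * ‖PP t T (pt x τ)‖) := by
          have : 0 ≤ ε' * ‖PP t T (pt x τ)‖ := by positivity
          nlinarith
      _ ≤ 5 / 2 * Real.log T * (ε / 5 * (2 * ‖W t (pt x τ)‖)) := by
          refine mul_le_mul_of_nonneg_left ?_ (by positivity)
          exact mul_le_mul he2 hWn (norm_nonneg _) (by positivity)
      _ = ε * Real.log T * ‖W t (pt x τ)‖ := by ring

end Pool.Agent.DBC
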