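import Pool.Agent.DBC.Targets2
import Pool.Agent.DBN.FlowReg

/-!
# Target CLO: `xi` has no zeros there
-/

set_option autoImplicit false

namespace Pool.Agent.DBC

open Complex MeasureTheory Set Filter Topology
open Pool.Agent.DBN

namespace CLO2_

/-- the part near the saddle -/
lemma near (h1 : U_BCL) (F : ℂ → ℂ) (hF : Differentiable ℂ F) {L c r e A η₀ lam₀ : ℝ}
    (hL : 0 < L) (hc : 0 < c) (hr : 0 < r) (he : 0 < e) (hA : 0 < A)
    (hs : ∀ (η lam : ℝ) (h : ℂ → ℂ), 0 < η → η ≤ η₀ → lam₀ ≤ lam →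
      DifferentiableOn ℂ h (Metric.ball 0 (2 * r)) →
      (∀ v ∈ Metric.ball (0 : ℂ) (2 * r), ‖h v‖ ≤ η * lam) →
      1 / (2 * √lam) * Real.exp (-(2 * η * lam)) ≤
        ‖∫ v in Ioo (-(2 * r / 2)) (2 * r / 2), exp (-(lam * v ^ 2 : ℝ) + h v)‖)
    (hη : 8 * e * c ≤ η₀) (hlam : lam₀ ≤ L / c)
    (hlow : ∀ v ∈ Metric.ball (0 : ℂ) (4 * r), A * Real.exp (L * (v.re / 2 - e)) ≤ ‖F v‖)
    (hup : ∀ v ∈ Metric.ball (0 : ℂ) (4 * r), ‖F v‖ ≤ A * Real.exp (L * (v.re / 2 + 3 * e))) :
    A * Real.exp (-(17 * e * L)) * (1 / (2 * √(L / c))) ≤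
      ‖∫ y in Ioo (-r) r, exp (-((y ^ 2 / (c / L) : ℝ) : ℂ) - ((y * L / 2 : ℝ) : ℂ) * I) *
        F (y * I)‖ := by
  set g : ℂ → ℂ := fun v => exp (-(v * (L / 2 : ℝ))) * F v with hg
  have hgn : ∀ v, ‖g v‖ = Real.exp (-(v.re * L / 2)) * ‖F v‖ := by
    intro v
    rw [hg]
    simp only
    rw [norm_mul, norm_exp]
    congr 2
    simp
    ring
  have h0 : (0 : ℂ) ∈ Metric.ball (0 : ℂ) (4 * r) := Metric.mem_ball_self (by positivity)
  have hg0 : A * Real.exp (-(e * L)) ≤ ‖g 0‖ := by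
    rw [hgn]
    have := hlow 0 h0
    simp only [zero_re, zero_div, zero_sub, zero_mul, neg_zero, Real.exp_zero, one_mul] at this ⊢
    refine le_trans (le_of_eq ?_) this
    congr 2
    ring
  have hgd : Differentiable ℂ g := by
    rw [hg]
    fun_prop
  obtain ⟨h, ⟨hd, -, hgh⟩, hb⟩ := h1 g (4 * r) (4 * e * L) (by positivity) (by positivity)
    hgd.differentiableOn (by
      intro v hv
      have hl := hlow v hv
      have hu := hup v hv
      have hFpos : 0 < ‖F v‖ := lt_of_lt_of_le (by positivity) hl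
      refine ⟨?_, ?_⟩
      · rw [← norm_pos_iff, hgn]
        positivity
      · calc ‖g v‖ = Real.exp (-(v.re * L / 2)) * ‖F v‖ := hgn v
          _ ≤ Real.exp (-(v.re * L / 2)) * (A * Real.exp (L * (v.re / 2 + 3 * e))) := by gcongr
          _ = Real.exp (4 * e * L) * (A * Real.exp (-(e * L))) := by
            rw [mul_left_comm, ← Real.exp_add, mul_left_comm, ← Real.exp_add]
            congr 2
            ring
          _ ≤ Real.exp (4 * e * L) * ‖g 0‖ := by gcongr)
  have hk : DifferentiableOn ℂ (fun v => h (I * v)) (Metric.ball 0 (2 * r)) := by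
    refine hd.comp (by fun_prop) ?_
    intro v hv
    rw [mem_ball_zero_iff] at hv ⊢
    rw [norm_mul, norm_I, one_mul]
    linarith
  have hmain := hs (8 * e * c) (L / c) (fun v => h (I * v)) (by positivity) hη hlam hk (by
    intro v hv
    rw [mem_ball_zero_iff] at hv
    have h2 := hb (I * v) (by
      rw [mem_ball_zero_iff, norm_mul, norm_I, one_mul]
      linarith)
    rw [norm_mul, norm_I, one_mul] at h2
    refine h2.trans ?_
    have h3 : 0 < 4 * r - ‖v‖ := by linarith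
    rw [div_le_iff₀ h3]
    have h4 : 8 * e * c * (L / c) = 2 * (4 * e * L) := by
      field_simp
      ring
    rw [h4]
    gcongr
    linarith)
  have h2r : 2 * r / 2 = r := by ring
  rw [h2r] at hmain
  have heq : ∫ y in Ioo (-r) r, exp (-((y ^ 2 / (c / L) : ℝ) : ℂ) -
      ((y * L / 2 : ℝ) : ℂ) * I) * F (y * I) =
      g 0 * ∫ y in Ioo (-r) r, exp (-(L / c * y ^ 2 : ℝ) + h (I * y)) := by
    rw [← integral_const_mul]
    refine setIntegral_congr_fun measurableSet_Ioo fun y hy => ?_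
    have hyn : |y| < r := abs_lt.2 hy
    have hmem : (y : ℂ) * I ∈ Metric.ball (0 : ℂ) (4 * r) := by
      rw [mem_ball_zero_iff, norm_mul, norm_I, mul_one, norm_real, Real.norm_eq_abs]
      linarith
    have h3 := hgh _ hmem
    have h4 : F (y * I) = exp ((y : ℂ) * I * (L / 2 : ℝ)) * g (y * I) := by
      rw [hg]
      simp only
      rw [← mul_assoc, ← exp_add, add_neg_cancel, exp_zero, one_mul]
    rw [h4, h3, mul_comm I (y : ℂ), exp_add, ← mul_assoc, ← exp_add]
    have h5 : -((y ^ 2 / (c / L) : ℝ) : ℂ) - ((y * L / 2 : ℝ) : ℂ) * I +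
        (y : ℂ) * I * (L / 2 : ℝ) = ((-(L / c * y ^ 2) : ℝ) : ℂ) := by
      have h6 : y ^ 2 / (c / L) = L / c * y ^ 2 := by
        field_simp
      rw [h6]
      push_cast
      ring
    rw [h5]
    push_cast
    ring
  rw [heq, norm_mul]
  calc A * Real.exp (-(17 * e * L)) * (1 / (2 * √(L / c)))
      = A * Real.exp (-(e * L)) * (1 / (2 * √(L / c)) *
          Real.exp (-(2 * (8 * e * c) * (L / c)))) := by
        have h7 : Real.exp (-(17 * e * L)) =
            Real.exp (-(e * L)) * Real.exp (-(2 * (8 * e * c) * (L / c))) := by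
          rw [← Real.exp_add]
          congr 1
          field_simp
          ring
        rw [h7]
        ring
    _ ≤ ‖g 0‖ * _ := by gcongr

/-- the rest -/
lemma far (F : ℂ → ℂ) (hF : Differentiable ℂ F) {L c r B : ℝ}
    (hL : 0 < L) (hc : 0 < c) (hr : 0 < r) (hB : 0 ≤ B)
    (hdec : ∀ y : ℝ, ‖F (y * I)‖ ≤ B * Real.exp (L * (y ^ 2 / (2 * c)))) :
    Integrable (fun y : ℝ => exp (-((y ^ 2 / (c / L) : ℝ) : ℂ) - ((y * L / 2 : ℝ) : ℂ) * I) *
        F (y * I)) ∧
    ‖∫ y in (Ioo (-r) r)ᶜ, exp (-((y ^ 2 / (c / L) : ℝ) : ℂ) - ((y * L / 2 : ℝ) : ℂ) * I) *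
        F (y * I)‖ ≤ B * Real.exp (-(L * (r ^ 2 / (4 * c)))) * (2 * √Real.pi / √(L / c)) := by
  set f : ℝ → ℂ := fun y => exp (-((y ^ 2 / (c / L) : ℝ) : ℂ) - ((y * L / 2 : ℝ) : ℂ) * I) *
    F (y * I) with hf
  have hfc : Continuous f := by
    rw [hf]
    have := hF.continuous
    fun_prop
  have hfn : ∀ y, ‖f y‖ ≤ B * Real.exp (-(L / (2 * c)) * y ^ 2) := by
    intro y
    rw [hf]
    simp only
    rw [norm_mul, norm_exp]
    have h1 : (-((y ^ 2 / (c / L) : ℝ) : ℂ) - ((y * L / 2 : ℝ) : ℂ) * I).re =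
        -(y ^ 2 / (c / L)) := by
      simp [-ofReal_div, -ofReal_mul, -ofReal_pow]
    rw [h1]
    calc Real.exp (-(y ^ 2 / (c / L))) * ‖F (y * I)‖
        ≤ Real.exp (-(y ^ 2 / (c / L))) * (B * Real.exp (L * (y ^ 2 / (2 * c)))) := by
          gcongr
          exact hdec y
      _ = B * Real.exp (-(L / (2 * c)) * y ^ 2) := by
          rw [mul_left_comm, ← Real.exp_add]
          congr 2
          field_simp
          ring
  have hgi : Integrable fun y : ℝ => B * Real.exp (-(L / (2 * c)) * y ^ 2) :=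
    (integrable_exp_neg_mul_sq (by positivity)).const_mul _
  have hfi : Integrable f := hgi.mono' hfc.aestronglyMeasurable (Eventually.of_forall hfn)
  refine ⟨hfi, ?_⟩
  set b : ℝ → ℝ := fun y => B * Real.exp (-(L * (r ^ 2 / (4 * c)))) *
    Real.exp (-(L / (4 * c)) * y ^ 2) with hb
  have hbi : Integrable b := (integrable_exp_neg_mul_sq (by positivity)).const_mul _
  have hle : ∀ y ∈ (Ioo (-r) r)ᶜ, ‖f y‖ ≤ b y := by
    intro y hy
    have h1 : r ^ 2 ≤ y ^ 2 := by
      rw [← sq_abs y]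
      have h2 : r ≤ |y| := by
        by_contra hcon
        push Not at hcon
        exact hy (abs_lt.1 hcon)
      gcongr
    refine (hfn y).trans ?_
    rw [hb]
    simp only
    rw [mul_assoc, ← Real.exp_add]
    gcongr
    have h3 : L / (4 * c) * r ^ 2 ≤ L / (4 * c) * y ^ 2 := by gcongr
    have h4 : L * (r ^ 2 / (4 * c)) = L / (4 * c) * r ^ 2 := by
      field_simp
    have h5 : L / (2 * c) * y ^ 2 = L / (4 * c) * y ^ 2 + L / (4 * c) * y ^ 2 := by
      field_simp
      ring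
    rw [h4]
    linarith
  calc ‖∫ y in (Ioo (-r) r)ᶜ, f y‖ ≤ ∫ y in (Ioo (-r) r)ᶜ, ‖f y‖ :=
        norm_integral_le_integral_norm _
    _ ≤ ∫ y in (Ioo (-r) r)ᶜ, b y :=
        setIntegral_mono_on hfi.norm.integrableOn hbi.integrableOn
          measurableSet_Ioo.compl hle
    _ ≤ ∫ y, b y := by
        refine setIntegral_le_integral hbi (Eventually.of_forall fun y => ?_)
        rw [hb]
        positivity
    _ = _ := by
        rw [hb, integral_const_mul, integral_gaussian]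
        congr 1
        have h6 : Real.pi / (L / (4 * c)) = (2 * √Real.pi / √(L / c)) ^ 2 := by
          rw [div_pow, mul_pow, Real.sq_sqrt Real.pi_pos.le, Real.sq_sqrt (by positivity)]
          field_simp
          ring
        rw [h6, Real.sqrt_sq (by positivity)]

/-- the integral is not zero -/
lemma core (h1 : U_BCL) (F : ℂ → ℂ) (hF : Differentiable ℂ F) {L c r e A C η₀ lam₀ : ℝ}
    (hL : 0 < L) (hc : 0 < c) (hr : 0 < r) (he : 0 < e) (hA : 0 < A) (hC : 0 ≤ C)
    (hs : ∀ (η lam : ℝ) (h : ℂ → ℂ), 0 < η → η ≤ η₀ → lam₀ ≤ lam →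
      DifferentiableOn ℂ h (Metric.ball 0 (2 * r)) →
      (∀ v ∈ Metric.ball (0 : ℂ) (2 * r), ‖h v‖ ≤ η * lam) →
      1 / (2 * √lam) * Real.exp (-(2 * η * lam)) ≤
        ‖∫ v in Ioo (-(2 * r / 2)) (2 * r / 2), exp (-(lam * v ^ 2 : ℝ) + h v)‖)
    (hη : 8 * e * c ≤ η₀) (hlam : lam₀ ≤ L / c) (he2 : 19 * e ≤ r ^ 2 / (8 * c))
    (hC2 : 4 * √Real.pi * C < Real.exp (L * (r ^ 2 / (8 * c))))
    (hlow : ∀ v ∈ Metric.ball (0 : ℂ) (4 * r), A * Real.exp (L * (v.re / 2 - e)) ≤ ‖F v‖)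
    (hup : ∀ v ∈ Metric.ball (0 : ℂ) (4 * r), ‖F v‖ ≤ A * Real.exp (L * (v.re / 2 + 3 * e)))
    (hdec : ∀ y : ℝ, ‖F (y * I)‖ ≤
      C * A * Real.exp (L * (2 * e)) * Real.exp (L * (y ^ 2 / (2 * c)))) :
    ∫ y : ℝ, exp (-((y ^ 2 / (c / L) : ℝ) : ℂ) - ((y * L / 2 : ℝ) : ℂ) * I) * F (y * I) ≠ 0 := by
  have hn := near h1 F hF hL hc hr he hA hs hη hlam hlow hup
  obtain ⟨hi, hf⟩ := far F hF hL hc hr (by positivity) hdec
  intro h0
  rw [← integral_add_compl measurableSet_Ioo hi] at h0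
  have h2 := eq_neg_of_add_eq_zero_left h0
  rw [h2, norm_neg] at hn
  have h3 := hn.trans hf
  have hq : 0 < √(L / c) := Real.sqrt_pos.2 (by positivity)
  have h4 : A * Real.exp (-(17 * e * L)) * (1 / (2 * √(L / c))) =
      A / (2 * √(L / c)) * Real.exp (-(17 * e * L)) := by ring
  have h5 : C * A * Real.exp (L * (2 * e)) * Real.exp (-(L * (r ^ 2 / (4 * c)))) *
      (2 * √Real.pi / √(L / c)) =
      A / (2 * √(L / c)) * (4 * √Real.pi * C * (Real.exp (L * (2 * e)) *
        Real.exp (-(L * (r ^ 2 / (4 * c)))))) := by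
    field_simp
    ring
  rw [h4, h5] at h3
  have h6 := le_of_mul_le_mul_left h3 (by positivity)
  have h7 : 4 * √Real.pi * C * (Real.exp (L * (2 * e)) *
      Real.exp (-(L * (r ^ 2 / (4 * c))))) < Real.exp (-(17 * e * L)) := by
    calc 4 * √Real.pi * C * (Real.exp (L * (2 * e)) * Real.exp (-(L * (r ^ 2 / (4 * c)))))
        < Real.exp (L * (r ^ 2 / (8 * c))) *
          (Real.exp (L * (2 * e)) * Real.exp (-(L * (r ^ 2 / (4 * c))))) := by
          gcongr
      _ = Real.exp (L * (2 * e) - L * (r ^ 2 / (8 * c))) := by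
          rw [← Real.exp_add, ← Real.exp_add]
          congr 1
          field_simp
          ring
      _ ≤ Real.exp (-(17 * e * L)) := by
          rw [Real.exp_le_exp]
          have := mul_le_mul_of_nonneg_left he2 hL.le
          linarith
  linarith

lemma rpow_large (C : ℝ) {ε : ℝ} (hε : 0 < ε) : ∃ T₀ : ℝ, ∀ T : ℝ, T₀ ≤ T → C < T ^ ε := by
  have h := (tendsto_rpow_atTop hε).eventually_gt_atTop C
  obtain ⟨T₀, hT₀⟩ := eventually_atTop.mp h
  exact ⟨T₀, fun T hT => hT₀ T hT⟩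

end CLO2_

theorem q_CLO (h1 : U_BCL) (h2 : U_SDH) (h3 : U_IVF) : U_CLO := by
  intro c δ K hc hδ hK hF hLow
  set r : ℝ := min (δ / 8) (1 / 8) with hr_def
  have hr : 0 < r := by positivity
  have hr1 : 4 * r ≤ δ / 2 := by
    have := min_le_left (δ / 8) (1 / 8 : ℝ)
    rw [hr_def]
    linarith
  have hr2 : 4 * r ≤ 1 / 2 := by
    have := min_le_right (δ / 8) (1 / 8 : ℝ)
    rw [hr_def]
    linarith
  obtain ⟨η₀, lam₀, hη₀, hlam₀, hs⟩ := h2 (2 * r) (by positivity)
  set e : ℝ := min (r ^ 2 / (160 * c)) (η₀ / (8 * c)) with he_def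
  have he : 0 < e := by positivity
  have he1 : e ≤ r ^ 2 / (160 * c) := min_le_left _ _
  have he2 : e ≤ η₀ / (8 * c) := min_le_right _ _
  set κ : ℝ := min (1 / (2 * c)) (e / (K + 2) ^ 2) with hκ_def
  have hκ : 0 < κ := by positivity
  have hκ1 : κ ≤ 1 / (2 * c) := min_le_left _ _
  have hκ2 : κ * (K + 2) ^ 2 ≤ e := by
    have h : κ ≤ e / (K + 2) ^ 2 := min_le_right _ _
    rwa [le_div_iff₀ (by positivity)] at h
  obtain ⟨T₁, hT₁, hlow⟩ := hLow (δ / 2) (K + 1) e (by positivity) (by positivity) he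
  obtain ⟨C, T₂, hC, hT₂, hup⟩ := hF e κ he hκ
  obtain ⟨T₃, hT₃⟩ := CLO2_.rpow_large C he
  obtain ⟨T₄, hT₄⟩ := CLO2_.rpow_large (4 * √Real.pi * C) (ε := r ^ 2 / (8 * c)) (by positivity)
  refine ⟨max (max T₁ T₂) (max (max T₃ T₄) (Real.exp (c * lam₀))), ?_, ?_⟩
  · exact hT₁.trans ((le_max_left _ _).trans (le_max_left _ _))
  intro T x hT hx hxK hxi
  have k1 : T₁ ≤ T := ((le_max_left _ _).trans (le_max_left _ _)).trans hT
  have k2 : T₂ ≤ T := ((le_max_right _ _).trans (le_max_left _ _)).trans hT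
  have k3 : T₃ ≤ T :=
    ((le_max_left _ _).trans ((le_max_left _ _).trans (le_max_right _ _))).trans hT
  have k4 : T₄ ≤ T :=
    ((le_max_right _ _).trans ((le_max_left _ _).trans (le_max_right _ _))).trans hT
  have k5 : Real.exp (c * lam₀) ≤ T := ((le_max_right _ _).trans (le_max_right _ _)).trans hT
  have hT2 : 2 ≤ T := hT₁.trans k1
  have hT0 : 0 < T := by linarith
  have hL : 0 < Real.log T := Real.log_pos (by linarith)
  have hLc : lam₀ ≤ Real.log T / c := by
    rw [le_div_iff₀ hc, mul_comm]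
    rwa [Real.le_log_iff_exp_le hT0]
  have hsz := size_pos hT0
  have hpow : ∀ a : ℝ, T ^ a = Real.exp (Real.log T * a) := fun a => Real.rpow_def_of_pos hT0 a
  have hI := h3 c T (((1 / 2 + x : ℝ) : ℂ) + T * I) hc (by linarith)
  have hlow' := fun x v => hlow T x v k1
  have hup' := fun w => hup T w k2 (mem_univ _)
  have hC3 := (hT₃ T k3).le
  have hC4 := hT₄ T k4
  rw [hpow] at hC3 hC4
  simp only [hpow] at hlow' hup'
  have hTp : ((T ^ (c / 16) : ℝ) : ℂ) ≠ 0 := by
    rw [ofReal_ne_zero]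
    positivity
  clear hlow hup hT₃ hT₄ hpow hF hLow
  generalize Real.log T = L at *
  set s : ℂ := ((1 / 2 + x : ℝ) : ℂ) + T * I with hs_def
  have hη : 8 * e * c ≤ η₀ := by
    rw [le_div_iff₀ (by positivity)] at he2
    linarith
  have he3 : 19 * e ≤ r ^ 2 / (8 * c) := by
    have h : 20 * (r ^ 2 / (160 * c)) = r ^ 2 / (8 * c) := by
      field_simp
      ring
    linarith
  have hlo : ∀ v ∈ Metric.ball (0 : ℂ) (4 * r),
      size T * Real.exp (L * (x / 2 + c / 16)) * Real.exp (L * (v.re / 2 - e)) ≤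
        ‖flow (c / L) (s + v)‖ := by
    intro v hv
    rw [mem_ball_zero_iff] at hv
    have hre := abs_re_le_norm v
    have him := abs_im_le_norm v
    have h := hlow' (x + v.re) v.im (by linarith [neg_abs_le v.re])
      (by linarith [le_abs_self v.re]) (by linarith)
    have harg : (1 / 2 + T * I + (((x + v.re : ℝ) : ℂ) + (v.im : ℂ) * I) : ℂ) = s + v := by
      rw [hs_def]
      conv_rhs => rw [← re_add_im v]
      push_cast
      ring
    rw [harg] at h
    refine le_trans (le_of_eq ?_) h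
    rw [mul_assoc, ← Real.exp_add]
    congr 2
    ring
  have hupp : ∀ v ∈ Metric.ball (0 : ℂ) (4 * r), ‖flow (c / L) (s + v)‖ ≤
      size T * Real.exp (L * (x / 2 + c / 16)) * Real.exp (L * (v.re / 2 + 3 * e)) := by
    intro v hv
    rw [mem_ball_zero_iff] at hv
    have hre := abs_re_le_norm v
    have h := hup' (x + v)
    have harg : (1 / 2 + T * I + (x + v) : ℂ) = s + v := by
      rw [hs_def]
      push_cast
      ring
    have hre2 : ((x : ℂ) + v).re = x + v.re := by simp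
    have hpos : 0 ≤ x + v.re := by linarith [neg_abs_le v.re]
    rw [harg, hre2, abs_of_nonneg hpos] at h
    have hn : ‖(x : ℂ) + v‖ ≤ K + 2 := by
      refine (norm_add_le _ _).trans ?_
      rw [norm_real, Real.norm_eq_abs, abs_of_nonneg (by linarith)]
      linarith
    have hκe : κ * ‖(x : ℂ) + v‖ ^ 2 ≤ e := le_trans (by gcongr) hκ2
    refine h.trans ?_
    calc C * size T * Real.exp (L * ((x + v.re) / 2 + c / 16 + e)) *
          Real.exp (κ * ‖(x : ℂ) + v‖ ^ 2 * L)
        ≤ Real.exp (L * e) * size T * Real.exp (L * ((x + v.re) / 2 + c / 16 + e)) *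
          Real.exp (e * L) := by gcongr
      _ = _ := by
        have e1 : Real.exp (L * e) * Real.exp (L * ((x + v.re) / 2 + c / 16 + e)) *
            Real.exp (e * L) =
            Real.exp (L * (x / 2 + c / 16)) * Real.exp (L * (v.re / 2 + 3 * e)) := by
          rw [← Real.exp_add, ← Real.exp_add, ← Real.exp_add]
          congr 1
          ring
        linear_combination size T * e1
  have hdec : ∀ y : ℝ, ‖flow (c / L) (s + y * I)‖ ≤
      C * (size T * Real.exp (L * (x / 2 + c / 16))) * Real.exp (L * (2 * e)) *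
        Real.exp (L * (y ^ 2 / (2 * c))) := by
    intro y
    have h := hup' (x + y * I)
    have harg : (1 / 2 + T * I + (x + y * I) : ℂ) = s + y * I := by
      rw [hs_def]
      push_cast
      ring
    have hre2 : ((x : ℂ) + y * I).re = x := by simp
    have hx0 : 0 ≤ x := by linarith
    rw [harg, hre2, abs_of_nonneg hx0] at h
    have hn : ‖(x : ℂ) + y * I‖ ^ 2 = x ^ 2 + y ^ 2 := by
      rw [← normSq_eq_norm_sq, normSq_add_mul_I]
    have hκe : κ * ‖(x : ℂ) + y * I‖ ^ 2 ≤ e + y ^ 2 / (2 * c) := by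
      rw [hn]
      have hxK2 : x ≤ K + 2 := by linarith
      have a1 : κ * x ^ 2 ≤ κ * (K + 2) ^ 2 := by gcongr
      have a2 : κ * y ^ 2 ≤ 1 / (2 * c) * y ^ 2 := by gcongr
      have a3 : 1 / (2 * c) * y ^ 2 = y ^ 2 / (2 * c) := by ring
      linarith
    refine h.trans ?_
    calc C * size T * Real.exp (L * (x / 2 + c / 16 + e)) *
          Real.exp (κ * ‖(x : ℂ) + y * I‖ ^ 2 * L)
        ≤ C * size T * Real.exp (L * (x / 2 + c / 16 + e)) *
          Real.exp ((e + y ^ 2 / (2 * c)) * L) := by gcongr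
      _ = _ := by
        have e1 : Real.exp (L * (x / 2 + c / 16 + e)) * Real.exp ((e + y ^ 2 / (2 * c)) * L) =
            Real.exp (L * (x / 2 + c / 16)) * Real.exp (L * (2 * e)) *
              Real.exp (L * (y ^ 2 / (2 * c))) := by
          rw [← Real.exp_add, ← Real.exp_add, ← Real.exp_add]
          congr 1
          ring
        linear_combination C * size T * e1
  have hne := CLO2_.core h1 (fun v => flow (c / L) (s + v))
    ((differentiable_flow _).comp (differentiable_id.const_add s)) hL hc hr he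
    (A := size T * Real.exp (L * (x / 2 + c / 16))) (by positivity) hC hs hη hLc he3 hC4 hlo
    hupp hdec
  have h0 : s + (c / 4 : ℝ) = ((1 / 2 + x + c / 4 : ℝ) : ℂ) + T * I := by
    rw [hs_def]
    push_cast
    ring
  rw [h0, hxi, mul_zero] at hI
  exact hne ((mul_eq_zero.1 hI.symm).resolve_left hTp)

end Pool.Agent.DBC
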