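import Pool.Agent.DBC.Targets2
import Pool.Agent.DBN.ZA
import Pool.Agent.DBN.ZLP

/-!
# The exact reality threshold of the flow: the converse (CV2)
-/

set_option autoImplicit false

namespace Pool.Agent.DBC

open Complex MeasureTheory Set Filter Topology
open Pool.Agent.DBN

theorem q_CV2 (h1 : T_CVR) (h2 : U_NZR) (h3 : U_FLO) (h4 : U_CLO) : U_CV2 := by
  intro c₁ c₂ c hR hc hc1 hc2 δ hδ
  have hF := flow_good (h1 c₁ c₂ c hR hc hc1 hc2)
  have hLow : ∀ R : ℝ, 1 ≤ R → Low c R := by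
    intro R hR1
    refine low_pos (R₀ := 0) hc hR1 (by linarith) ?_
    intro ε κ hε hκ
    obtain ⟨C, T₀, hC, hT₀, h⟩ := hF ε κ hε hκ
    exact ⟨C, T₀, hC, hT₀, fun T w hT _ => h T w hT (mem_univ _)⟩
  have hLA := h3 c hc hF hLow (h2 c₁ c₂ c hR hc hc1 hc2)
  obtain ⟨T₀, hT₀, h⟩ := h4 c δ 1 hc hδ one_pos hF hLA
  refine ⟨T₀, fun s hs him hz => ?_⟩
  have hre : s.re < 1 := by
    by_contra hcon
    exact riemannZeta_ne_zero_of_one_le_re (not_lt.1 hcon) hz
  have himp : 0 < s.im := by linarith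
  have h5 := h s.im (s.re - 1 / 2 - c / 4) him (by linarith) (by linarith)
  apply h5
  have hse : (((1 / 2 + (s.re - 1 / 2 - c / 4) + c / 4 : ℝ) : ℂ) + s.im * I) = s := by
    have h6 : (1 / 2 + (s.re - 1 / 2 - c / 4) + c / 4 : ℝ) = s.re := by ring
    rw [h6]
    exact re_add_im s
  have hs0 : s ≠ 0 := by
    intro h6
    rw [h6, zero_im] at himp
    exact lt_irrefl _ himp
  have hs1 : s ≠ 1 := by
    intro h6
    rw [h6, one_im] at himp
    exact lt_irrefl _ himp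
  rw [hse, xi_eq hs0 hs1 (gammaR_ne_zero himp.ne'), hz, mul_zero]

end Pool.Agent.DBC
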