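import Pool.Agent.DBC.R_FL3
import Pool.Agent.DBC.R_CAR

/-!
# FLO: lower bound for the flow, from the local version
-/

set_option autoImplicit false

namespace Pool.Agent.DBC

open Complex MeasureTheory Set Filter Topology
open Pool.Agent.DBN

theorem q_FLO (h : U_BCL) : U_FLO := by
  intro c hc hF hLow hNZ δ K ε hδ hK hε
  obtain ⟨T₁, hT₁, h1⟩ := r_FL3 (r_CAR h) c hc hF hLow δ K δ ε hδ hK hδ hε
  obtain ⟨T₂, hT₂, h2⟩ := hNZ (K + 1 + δ) (by positivity)
  refine ⟨max T₁ T₂, hT₁.trans (le_max_left _ _), fun T x v hT hx1 hx2 hv => ?_⟩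
  refine h1 T x v ((le_max_left _ _).trans hT) hx1 hx2 hv fun w hw => ?_
  refine h2 T w ((le_max_right _ _).trans hT) ?_ ?_
  · have h3 := (abs_re_le_norm (w - (x + v * I))).trans_lt hw
    have h4 : (w - (x + v * I)).re = w.re - x := by simp
    rw [h4] at h3
    have h5 := (abs_lt.mp h3).1
    linarith
  · have e1 : w = (w - (x + v * I)) + (x + v * I) := by ring
    rw [e1]
    refine (norm_add_le _ _).trans ?_
    have h4 : ‖(x : ℂ) + v * I‖ ≤ K + 1 := by
      refine (norm_add_le _ _).trans ?_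
      rw [norm_mul, Complex.norm_real, Complex.norm_real, Complex.norm_I, mul_one,
        Real.norm_of_nonneg (by linarith), Real.norm_eq_abs]
      linarith
    linarith

end Pool.Agent.DBC
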