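import Pool.Agent.DBC.Targets2
import Pool.Agent.DBC.P_CVR

/-!
# NZR: the flow has no zeros to the right of the critical line
-/

set_option autoImplicit false

namespace Pool.Agent.DBC

open Complex MeasureTheory Set Filter Topology
open Pool.Agent.DBN

open CVR_ in
theorem q_NZR : U_NZR := by
  intro c₁ c₂ c hR hc h1 h2 K hK
  obtain ⟨t₀, ht₀, hz⟩ := hR (2 * K) (by positivity)
  have ha : c₁ / c < 1 := (div_lt_one hc).2 h1
  have hb : 1 < c₂ / c := (one_lt_div hc).2 h2
  have e1 : ∀ᶠ T : ℝ in atTop, c / t₀ ≤ Real.log T :=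
    Real.tendsto_log_atTop.eventually_ge_atTop _
  have e2 : ∀ᶠ T : ℝ in atTop, ∀ w : ℂ, 0 < w.re → ‖w‖ ≤ K →
      flow (c / Real.log T) (1 / 2 + T * I + w) ≠ 0 := by
    filter_upwards [e1, eventually_gt_atTop (1 : ℝ), exp_low ha K, exp_high hb K]
      with T g1 g2 g3 g4
    intro w hw hwK h0
    have hL : 0 < Real.log T := Real.log_pos g2
    have ht : 0 < c / Real.log T := by positivity
    have q1 : c₁ / (c / Real.log T) = c₁ / c * Real.log T := by
      field_simp
    have q2 : c₂ / (c / Real.log T) = c₂ / c * Real.log T := by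
      field_simp
    have q3 : c / Real.log T ≤ t₀ := by
      rw [div_le_iff₀ ht₀] at g1
      rw [div_le_iff₀ hL]
      linarith
    set z : ℂ := 2 * T - 2 * I * w with hzd
    have him : z.im = -(2 * w.re) := by
      rw [hzd]
      simp
    have hre : z.re = 2 * T + 2 * w.im := by
      rw [hzd]
      simp
    have hH : H (c / Real.log T) z = 0 := by
      rw [H_eq_flow]
      have : (1 / 2 + I * z / 2 : ℂ) = 1 / 2 + T * I + w := by
        rw [hzd]
        linear_combination (-w) * I_mul_I
      rw [this, h0, zero_div]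
    have k1 := (abs_le.1 ((abs_re_le_norm w).trans hwK))
    have k2 := (abs_le.1 ((abs_im_le_norm w).trans hwK))
    have k3 : |z.im| ≤ 2 * K := by
      rw [him, abs_neg, abs_of_pos (by positivity)]
      linarith
    have k4 := hz (c / Real.log T) ht q3 z k3 (by rw [q1, hre]; linarith)
      (by rw [q2, hre]; linarith) hH
    rw [him] at k4
    linarith
  obtain ⟨T₀, hT₀⟩ := eventually_atTop.1 e2
  exact ⟨max T₀ 2, le_max_right _ _, fun T w hT hw hwK =>
    hT₀ T ((le_max_left _ _).trans hT) w hw hwK⟩

end Pool.Agent.DBC
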