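import Pool.Agent.DBC.Targets5
import Pool.Agent.DBA.Targets2

/-!
# Real zeros of the flow at almost all heights: assembly
-/

set_option autoImplicit false

namespace Pool.Agent.DBC

open Complex MeasureTheory Set Filter Topology
open Pool.Agent.DBN

theorem s_AB (h1 : Y_DG) (h2 : Pool.Agent.DBA.T_GDN) : Y_AA := by
  intro c₁ c₂ h0 h3 K ε hK hε
  obtain ⟨n, T₀, hn⟩ := h1 c₁ c₂ K ε h0 h3 hK hε
  obtain ⟨d, X₀, hd, hX₀, hm⟩ := h2 (c₁ / 8) n (by linarith)
  refine ⟨d, max X₀ T₀, hd, fun X hX => ?_⟩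
  refine (measure_mono ?_).trans (hm X ((le_max_left _ _).trans hX))
  rintro T ⟨hT1, hT2, t, ht1, ht2, ht3⟩
  refine ⟨hT1, hT2, fun hG => ht3 (hn t T hG (((le_max_right _ _).trans hX).trans hT1) ht1 ht2)⟩

end Pool.Agent.DBC
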