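import Pool.Agent.DBC.Targets5
import Pool.Agent.NBL.Point

/-!
# DBC4, target SM: functions with small mean square on the line
-/

set_option autoImplicit false

namespace Pool.Agent.DBC

open Complex MeasureTheory Set Filter Topology
open Pool.Agent.Lib.TwoConst
open scoped ENNReal

namespace SM4_

/-- the Poisson kernel is at most `1 / x` -/
lemma P_le {x x' : ℝ} (hx : 0 < x) (hxx : x ≤ x') (t : ℝ) : P x' 0 t ≤ 1 / x := by
  have hx' : 0 < x' := lt_of_lt_of_le hx hxx
  unfold P
  rw [div_le_div_iff₀ (by positivity) hx]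
  nlinarith [sq_nonneg (0 - t), mul_le_mul_of_nonneg_left hxx hx'.le]

end SM4_

open SM4_

theorem s_SM : Y_SM := by
  intro κ R hκ hκ1 hR
  have hpi := Real.pi_pos
  set q : ℝ := κ / 16 with hq
  have hq0 : 0 < q := by positivity
  set L : ℝ := 4 * (R + 2) / q with hL
  have hL0 : 0 < L := by positivity
  have hq1 : q ≤ 1 := by rw [hq]; linarith
  have hL1 : 1 ≤ L := by
    rw [hL, le_div_iff₀ hq0]
    linarith
  set K : ℝ := L * (1 + 2 / q) + R with hK
  have hKL : L < K := by
    have : 0 < L * (2 / q) := by positivity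
    rw [hK]
    linarith
  have hRK : R < K := by
    have : 0 < L * (1 + 2 / q) := by positivity
    rw [hK]
    linarith
  have hKq : 2 * L / (Real.pi * (K - L)) ≤ q := by
    have e1 : K - L = L * (2 / q) + R := by rw [hK]; ring
    have e2 : 0 < K - L := by linarith
    rw [div_le_iff₀ (by positivity)]
    have e3 : L * (2 / q) ≤ K - L := by rw [e1]; linarith
    have e4 : q * (L * (2 / q)) = 2 * L := by field_simp
    have e5 : 1 ≤ Real.pi := by linarith [Real.pi_gt_three]
    calc 2 * L = q * (1 * (L * (2 / q))) := by rw [one_mul, e4]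
      _ ≤ q * (Real.pi * (K - L)) := by gcongr
  refine ⟨L, K, hL1, hKL.le, hRK, ?_⟩
  intro f M₀ P₀ hP₀ hPM hfc hf x hx hxR
  have hM0 : 0 < M₀ := hP₀.trans hPM
  obtain ⟨x₀, hx₀, hx₁, hj⟩ := NBL.jen (f := f) (L := L) (K := K) (κ := q) (a := 1) (M₀ := M₀)
    (P₀ := P₀) hL0 hq0 one_pos hKq hKL hP₀ hPM hfc (fun z h1 h2 h3 => (hf z h1 h2 h3).1)
    (fun z h1 h2 h3 => (hf z h1 h2 h3).2)
  have hjx := hj x hx (by linarith)
  set x' : ℝ := x + x₀ with hx'
  have hx'0 : 0 < x' := by linarith
  have hPc := continuous_P hx'0 0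
  set u : ℝ → ℝ := fun t => ‖f (t * I)‖ with hu
  have huc : Continuous u := hfc.norm
  -- the mass
  set m : ℝ := 1 / Real.pi * ∫ t in (-L)..L, P x' 0 t with hmd
  have hm : 1 - q ≤ m := by
    have h3 := NBL.IP_ge hx'0 hL0 (κ := q) (by
      rw [div_le_iff₀ hL0, hL]
      have e1 : q * (4 * (R + 2) / q) = 4 * (R + 2) := by field_simp
      rw [e1]
      linarith)
    rw [hmd, one_div_mul_eq_div, le_div_iff₀ hpi]
    linarith
  have hm1 : m ≤ 1 := by
    rw [hmd, one_div_mul_eq_div, div_le_one hpi]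
    exact integral_P_le hx'0 0 (-L) L
  -- Jensen
  set W : ℝ := 1 / Real.pi * ∫ t in (-L)..L, (max (u t) P₀) ^ 2 * P x' 0 t with hW
  set A : ℝ := 1 / Real.pi * ∫ t in (-L)..L, Real.log (max (u t) P₀) * P x' 0 t with hA
  have hwc : Continuous fun t => (max (u t) P₀) ^ 2 := (huc.max continuous_const).pow 2
  have hlc : Continuous fun t => Real.log (max (u t) P₀) :=
    Continuous.log (huc.max continuous_const) fun t => (lt_max_of_lt_right hP₀).ne'
  have hww : ∀ t, P₀ ^ 2 ≤ (max (u t) P₀) ^ 2 := fun t =>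
    pow_le_pow_left₀ hP₀.le (le_max_right _ _) 2
  have hJ := NBL.jensen_w hL0 hx'0 hwc (w₀ := P₀ ^ 2) (by positivity) hww (by
    rw [← hmd]
    linarith)
  rw [← hmd, ← hW] at hJ
  have hJ2 : 2 * A ≤ Real.log W + Real.log 2 - 2 * (1 - m) * Real.log P₀ := by
    have e1 : ∫ t in (-L)..L, Real.log ((max (u t) P₀) ^ 2) * P x' 0 t =
        2 * ∫ t in (-L)..L, Real.log (max (u t) P₀) * P x' 0 t := by
      rw [← intervalIntegral.integral_const_mul]
      apply intervalIntegral.integral_congr
      intro t _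
      simp only [Real.log_pow]
      push_cast
      ring
    rw [e1, Real.log_pow] at hJ
    push_cast at hJ
    rw [hA]
    linarith
  have hW0 : 0 < W := by
    rw [hW]
    have h3 : ∫ t in (-L)..L, P₀ ^ 2 * P x' 0 t ≤
        ∫ t in (-L)..L, (max (u t) P₀) ^ 2 * P x' 0 t := by
      apply intervalIntegral.integral_mono_on (by linarith)
      · exact (continuous_const.mul hPc).intervalIntegrable _ _
      · exact (hwc.mul hPc).intervalIntegrable _ _
      · intro t _
        exact mul_le_mul_of_nonneg_right (hww t) (P_nonneg hx'0.le 0 t)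
    rw [intervalIntegral.integral_const_mul] at h3
    have h4 : 0 < ∫ t in (-L)..L, P x' 0 t := by
      have h5 : 0 < m := by linarith
      rw [hmd] at h5
      exact pos_of_mul_pos_right h5 (by positivity)
    have h6 : 0 < P₀ ^ 2 * ∫ t in (-L)..L, P x' 0 t := by positivity
    have h7 : 0 < ∫ t in (-L)..L, (max (u t) P₀) ^ 2 * P x' 0 t := lt_of_lt_of_le h6 h3
    positivity
  have hI0 : 0 ≤ ∫ t in (-L)..L, u t ^ 2 :=
    intervalIntegral.integral_nonneg (by linarith) fun t _ => by positivity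
  have hWle : W ≤ P₀ ^ 2 + 1 / x * ∫ t in (-L)..L, u t ^ 2 := by
    have h3 : ∫ t in (-L)..L, (max (u t) P₀) ^ 2 * P x' 0 t ≤
        ∫ t in (-L)..L, (P₀ ^ 2 * P x' 0 t + 1 / x * u t ^ 2) := by
      apply intervalIntegral.integral_mono_on (by linarith)
      · exact (hwc.mul hPc).intervalIntegrable _ _
      · exact ((continuous_const.mul hPc).add
          (continuous_const.mul (huc.pow 2))).intervalIntegrable _ _
      · intro t _
        have h4 : (max (u t) P₀) ^ 2 ≤ P₀ ^ 2 + u t ^ 2 := by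
          rcases le_total (u t) P₀ with h5 | h5
          · rw [max_eq_right h5]
            nlinarith [sq_nonneg (u t)]
          · rw [max_eq_left h5]
            nlinarith [sq_nonneg P₀]
        have h5 := P_le hx (x' := x') (by linarith) t
        have h6 := P_nonneg hx'0.le 0 t
        calc (max (u t) P₀) ^ 2 * P x' 0 t ≤ (P₀ ^ 2 + u t ^ 2) * P x' 0 t :=
              mul_le_mul_of_nonneg_right h4 h6
          _ = P₀ ^ 2 * P x' 0 t + u t ^ 2 * P x' 0 t := by ring
          _ ≤ P₀ ^ 2 * P x' 0 t + u t ^ 2 * (1 / x) :=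
              add_le_add le_rfl (mul_le_mul_of_nonneg_left h5 (sq_nonneg _))
          _ = _ := by ring
    rw [intervalIntegral.integral_add, intervalIntegral.integral_const_mul,
      intervalIntegral.integral_const_mul] at h3
    rotate_left
    · exact (continuous_const.mul hPc).intervalIntegrable _ _
    · exact (continuous_const.mul (huc.pow 2)).intervalIntegrable _ _
    have h7 : 1 / Real.pi ≤ 1 := by
      rw [div_le_one hpi]
      linarith [Real.pi_gt_three]
    have h8 : 0 ≤ 1 / x * ∫ t in (-L)..L, u t ^ 2 := mul_nonneg (by positivity) hI0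
    calc W ≤ 1 / Real.pi * (P₀ ^ 2 * (∫ t in (-L)..L, P x' 0 t) +
          1 / x * ∫ t in (-L)..L, u t ^ 2) := by
          rw [hW]
          exact mul_le_mul_of_nonneg_left h3 (by positivity)
      _ = P₀ ^ 2 * m + 1 / Real.pi * (1 / x * ∫ t in (-L)..L, u t ^ 2) := by rw [hmd]; ring
      _ ≤ P₀ ^ 2 * 1 + 1 * (1 / x * ∫ t in (-L)..L, u t ^ 2) :=
          add_le_add (mul_le_mul_of_nonneg_left hm1 (sq_nonneg _))
            (mul_le_mul_of_nonneg_right h7 h8)
      _ = _ := by ring
  -- the conclusion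
  have hone : 1 ≤ M₀ / P₀ := by
    rw [le_div_iff₀ hP₀]
    linarith
  rcases (norm_nonneg (f x)).eq_or_lt with hz | hz
  · rw [← hz]
    have h3 : 0 ≤ P₀ ^ 2 + 1 / x * ∫ t in (-L)..L, u t ^ 2 := hW0.le.trans hWle
    have h4 : (0 : ℝ) ^ 2 = 0 := by norm_num
    rw [h4]
    have h5 : 0 ≤ (M₀ / P₀) ^ κ := by positivity
    exact mul_nonneg (mul_nonneg (by norm_num) h5) h3
  · have h3 := Real.log_le_log (by positivity) hjx
    rw [Real.log_mul hz.ne' (Real.exp_pos _).ne', Real.log_exp,
      Real.log_mul hM0.ne' (Real.exp_pos _).ne', Real.log_exp] at h3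
    have e1 : 1 / Real.pi * ∫ t in (-L)..L, (Real.log M₀ - Real.log (max ‖f (t * I)‖ P₀)) *
        P x' 0 t = m * Real.log M₀ - A := by
      have e2 : ∫ t in (-L)..L, (Real.log M₀ - Real.log (max ‖f (t * I)‖ P₀)) * P x' 0 t =
          (∫ t in (-L)..L, Real.log M₀ * P x' 0 t) -
            ∫ t in (-L)..L, Real.log (max (u t) P₀) * P x' 0 t := by
        have h9 := intervalIntegral.integral_sub (μ := volume) (a := -L) (b := L)
          (f := fun t => Real.log M₀ * P x' 0 t) (g := fun t => Real.log (max (u t) P₀) * P x' 0 t)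
          ((continuous_const.mul hPc).intervalIntegrable _ _)
          ((hlc.mul hPc).intervalIntegrable _ _)
        rw [← h9]
        apply intervalIntegral.integral_congr
        intro t _
        simp only [hu]
        ring
      rw [e2, intervalIntegral.integral_const_mul, hmd, hA]
      ring
    rw [e1] at h3
    set Λ : ℝ := Real.log M₀ - Real.log P₀ with hΛ
    have hΛ0 : 0 ≤ Λ := by
      have := Real.log_le_log hP₀ hPM.le
      rw [hΛ]
      linarith
    have h5 : (1 - m) * Λ ≤ q * Λ := mul_le_mul_of_nonneg_right (by linarith) hΛ0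
    have h6 : 2 * Real.log ‖f x‖ ≤ Real.log W + Real.log 2 + κ / 4 * Λ := by
      have h7 : 2 * Real.log ‖f x‖ ≤ 2 * ((1 - m) * Λ) + 2 * (q * Λ) + Real.log W +
          Real.log 2 := by
        have h8 : (1 - m) * Λ = (1 - m) * Real.log M₀ - (1 - m) * Real.log P₀ := by
          rw [hΛ]; ring
        rw [h8]
        nlinarith
      have h9 : q * Λ = κ / 16 * Λ := by rw [hq]
      linarith
    have h7 : ‖f x‖ ^ 2 ≤ 2 * (M₀ / P₀) ^ κ * W := by
      have e3 : ‖f x‖ ^ 2 = Real.exp (2 * Real.log ‖f x‖) := by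
        rw [two_mul, Real.exp_add, Real.exp_log hz]
        ring
      have e4 : Real.exp (κ / 4 * Λ) ≤ (M₀ / P₀) ^ κ := by
        rw [Real.rpow_def_of_pos (by positivity), Real.log_div hM0.ne' hP₀.ne']
        apply Real.exp_le_exp.2
        rw [← hΛ]
        nlinarith
      rw [e3]
      calc Real.exp (2 * Real.log ‖f x‖) ≤
            Real.exp (Real.log W + Real.log 2 + κ / 4 * Λ) := Real.exp_le_exp.2 h6
        _ = 2 * Real.exp (κ / 4 * Λ) * W := by
            rw [Real.exp_add, Real.exp_add, Real.exp_log hW0, Real.exp_log (by norm_num)]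
            ring
        _ ≤ 2 * (M₀ / P₀) ^ κ * W := by gcongr
    have h8 : 0 ≤ (M₀ / P₀) ^ κ := by positivity
    exact h7.trans (mul_le_mul_of_nonneg_left hWle (mul_nonneg (by norm_num) h8))

end Pool.Agent.DBC
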