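import Pool.Agent.DBC.Defs3
import Pool.Agent.DBC.Targets2

/-!
# The motion of the zeros off the real line: targets

Project DBC3 (owner helper11), addition to `MP_4e5e8a_nt.DBNFlow`. One file per target,
`Pool/Agent/DBC/R_X.lean`, `theorem Pool.Agent.DBC.r_X (other targets) : V_X`, helper lemmas in the
namespace `Pool.Agent.DBC.X3_`. The docstrings contain the proofs. There `L = log T`, `t = c / L`,
so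
`sd t T = c / 4`. Local versions of the targets of `Targets2.lean` (copy and change the landed files
`Pool/Agent/DBC/Q_*.lean`): the zero-free half plane is replaced by the zero-free disc at the
saddle point.
-/

set_option autoImplicit false

namespace Pool.Agent.DBC

open Complex MeasureTheory Set Filter Topology
open Pool.Agent.DBN

/-- CAR (from BCL). Lower bound away from the zeros. Proof: let `R' = (R₂ + R)/2`. Split off the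
zeros in `closedBall 0 R₂` (`LHW.t2`: `F = ∏ (z - a) * g` on `ball 0 R`, `g ≠ 0` on
`closedBall 0 R₂`; its hypothesis `CountLe` is the bound for `n` below, which holds for every
such factorization), and let `G z = g z * ∏ (R'² - conj a * z) / R'`. On `‖z‖ = R'`
`‖z - a‖ = ‖R'² - conj a z‖ / R'`, so `‖G z‖ = ‖F z‖ ≤ e^M ‖F 0‖`, hence (maximum principle) also
for `‖z‖ ≤ R'`. `‖G 0‖ = ‖F 0‖ ∏ (R' / ‖a‖) ≥ ‖F 0‖ (R'/R₂)^n`, so `n ≤ M / log (R'/R₂)` and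
`‖G z‖ ≤ e^M ‖G 0‖`. `G ≠ 0` on the ball of radius `R₂`, BCL:
`‖G z‖ ≥ ‖G 0‖ e^(-2 M R₃/(R₂ - R₃))` for `‖z‖ ≤ R₃`. `F z = G z ∏ (R' (z - a)/(R'² - conj a z))`
and
`‖R' (z - a)/(R'² - conj a z)‖ ≥ R' r/(2 R'²) = r/(2 R')` if `‖z - a‖ ≥ r`. So
`‖F z‖ ≥ ‖F 0‖ e^(-2 M R₃/(R₂ - R₃)) (min 1 (r/(2 R')))^n`. -/
def V_CAR : Prop := ∀ R₃ R₂ R r : ℝ, 0 < R₃ → R₃ < R₂ → R₂ < R → 0 < r → ∃ C : ℝ, 0 < C ∧
  ∀ (F : ℂ → ℂ) (M : ℝ), 0 < M → DifferentiableOn ℂ F (Metric.ball 0 R) → F 0 ≠ 0 →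
    (∀ z ∈ Metric.ball (0 : ℂ) R, ‖F z‖ ≤ Real.exp M * ‖F 0‖) →
    ∀ z : ℂ, ‖z‖ ≤ R₃ → (∀ a ∈ Metric.ball (0 : ℂ) R, ‖a - z‖ < r → F a ≠ 0) →
      Real.exp (-(C * M)) * ‖F 0‖ ≤ ‖F z‖

/-- ZLO (from CAR). Local bounds for `ζ`. Proof: as LZE (Q_LZE.lean): if
`K < 1/2 + l/4 + δ` nothing to prove. `s₁ = K + 3 + i Im s`, `R = K + 3 - (1/2 + l/4 + δ/4)`,
`R₂ = R - δ/4`, `R₃ = R - 3 δ/4`, `F v = ζ (s₁ + v)`, `M = 2 ε' L`, `z = s - s₁`, `‖z‖ ≤ R₃`. -/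
def V_ZLO : Prop := ∀ l δ K r ε : ℝ, 0 < l → 0 < δ → 0 < K → 0 < r → 0 < ε →
  MuLe (1 / 2 + l / 4) 0 → ∃ T₀ : ℝ, 2 ≤ T₀ ∧ ∀ (T : ℝ) (s : ℂ), T₀ ≤ T →
    1 / 2 + l / 4 + δ ≤ s.re → s.re ≤ K → |s.im - T| ≤ K →
    ‖riemannZeta s‖ ≤ T ^ ε ∧ (NoZ s r → T ^ (-ε) ≤ ‖riemannZeta s‖)

/-- XLO (from ZLO). Local bounds for `xi`. Proof: as XBD (Q_XBD.lean). -/
def V_XLO : Prop := ∀ l δ K r ε : ℝ, 0 < l → 0 < δ → 0 < K → 0 < r → 0 < ε →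
  MuLe (1 / 2 + l / 4) 0 → ∃ T₀ : ℝ, 2 ≤ T₀ ∧ ∀ (T : ℝ) (s : ℂ), T₀ ≤ T →
    1 / 2 + l / 4 + δ ≤ s.re → s.re ≤ K → |s.im - T| ≤ K →
    ‖xi s‖ ≤ size T * T ^ ((s.re - 1 / 2) / 2 + ε) ∧
    (NoZ s r → size T * T ^ ((s.re - 1 / 2) / 2 - ε) ≤ ‖xi s‖)

/-- NE3 (from BCL, SDH, XLO). The saddle. Proof: as NE2 (Q_NE2.lean), with
`r' = min (r/8) (min ((c₁ - l)/64) (c₁/8))`: the ball of radius `4 r'` around
`s' = pt x τ + sd t T` is contained in `Re > 1/2 + l/4 + (c₁ - l)/16`, and every point of it has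
`NoZ _ (r/2)`. -/
def V_NE3 : Prop := ∀ l c₁ c₂ K r : ℝ, Hyp3 l c₁ c₂ K → 0 < r →
  ∃ r' : ℝ, 0 < r' ∧ r' < c₁ / 4 ∧ ∀ ε : ℝ, 0 < ε → Ev c₁ c₂ K 0 (fun t T x τ =>
    NoZ (pt x τ + (sd t T : ℝ)) r →
    size T * T ^ (t * Real.log T / 16 + x / 2 - ε) ≤
      ‖∫ u in Ioo (sd t T - r') (sd t T + r'),
        ((Real.exp (-(u ^ 2 / t)) : ℝ) : ℂ) * xi (pt x τ + u)‖)

/-- OA3 (from INA). Adapt Q_OA2.lean (`Hyp3` in place of `Hyp2`). -/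
def V_OA3 : Prop := ∀ l c₁ c₂ K r : ℝ, Hyp3 l c₁ c₂ K → 0 < r →
  ∃ δ g C : ℝ, 0 < δ ∧ 0 < g ∧ 0 ≤ C ∧ Ev c₁ c₂ K δ (fun t T x τ =>
    ∫ u in Ioi (0 : ℝ) \ Ioo (sd t T - r) (sd t T + r),
      Real.exp (-(u ^ 2 / t)) * ‖xi (pt x τ + u)‖ ≤
        C * (size T * T ^ (t * Real.log T / 16 + x / 2 - g)))

/-- OB3 (from INB). Adapt Q_OB2.lean (`Hyp3` in place of `Hyp2`). -/
def V_OB3 : Prop := ∀ l c₁ c₂ K δ : ℝ, Hyp3 l c₁ c₂ K → 0 < δ →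
  ∃ g C : ℝ, 0 < g ∧ 0 ≤ C ∧ ∃ T₀ : ℝ, 2 ≤ T₀ ∧ ∀ t T x τ : ℝ, T₀ ≤ T →
    c₁ ≤ t * Real.log T → t * Real.log T ≤ c₂ → δ ≤ x → x ≤ K → |τ - T| ≤ K →
    ‖W t (pt (-x) τ)‖ ≤ C * (size T * T ^ (t * Real.log T / 16 + x / 2 - g))

/-- LO3 (from IGR, NE3, OA3). Adapt Q_LO2.lean. -/
def V_LO3 : Prop := ∀ l c₁ c₂ K r : ℝ, Hyp3 l c₁ c₂ K → 0 < r → ∀ ε : ℝ, 0 < ε →
  Ev c₁ c₂ K 0 (fun t T x τ => NoZ (pt x τ + (sd t T : ℝ)) r →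
    size T * T ^ (t * Real.log T / 16 + x / 2 - ε) ≤ ‖W t (pt x τ)‖)

/-- MO1 (from SPL, CNJ, LO3, OB3). No zeros of the flow. Proof: `1 - pt x τ = conj (pt (-x) τ)`, so
`‖W t (1 - s)‖ = ‖W t (pt (-x) τ)‖` (CNJ); by LO3 (`ε = g/2`) and OB3 it is smaller than
`‖W t s‖` for large `T`; SPL. -/
def V_MO1 : Prop := ∀ l c₁ c₂ K δ r : ℝ, Hyp3 l c₁ c₂ K → 0 < δ → 0 < r →
  ∃ T₀ : ℝ, 2 ≤ T₀ ∧ ∀ t T x τ : ℝ, T₀ ≤ T →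
    c₁ ≤ t * Real.log T → t * Real.log T ≤ c₂ → δ ≤ x → x ≤ K → |τ - T| ≤ K →
    NoZ (pt x τ + (sd t T : ℝ)) r → flow t (pt x τ) ≠ 0

/-- FL3 (from CAR). Local lower bound for the flow. Proof: as FLO (Q_FLO.lean) with CAR in place of
BCL: `R = K + 1`, `w₀` from `Low c R` (`‖w₀ - (R + v I)‖ ≤ δ/8`),
`F z = T^(-z/2) flow t (1/2 + T I + w₀ + z)` on the ball of radius `R - δ/4`, `M = 4 ε' L`,
`R₂ = R - δ/2`, `R₃ = R - 3 δ/4`; the point `x + v I = w₀ + z` has `‖z‖ ≤ R - δ + δ/8 ≤ R₃`. -/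
def V_FL3 : Prop := ∀ c : ℝ, 0 < c → FlowLe c univ (fun x => |x| / 2 + c / 16) →
  (∀ R : ℝ, 1 ≤ R → Low c R) → ∀ δ K r ε : ℝ, 0 < δ → 0 < K → 0 < r → 0 < ε →
  ∃ T₀ : ℝ, 2 ≤ T₀ ∧ ∀ T x v : ℝ, T₀ ≤ T → δ ≤ x → x ≤ K → |v| ≤ 1 →
    (∀ w : ℂ, ‖w - (x + v * I)‖ < r → flow (c / Real.log T) (1 / 2 + T * I + w) ≠ 0) →
    size T * T ^ (x / 2 + c / 16 - ε) ≤
      ‖flow (c / Real.log T) (1 / 2 + T * I + (x + v * I))‖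

/-- CL3 (from BCL, SDH, IVF, FL3). Adapt Q_CLO.lean: `s = 1/2 + T I + (x + v I)`; the ball of radius
`4 r'`, `r' = min (r/16) (min (δ/8) (1/16))`. `g` has no zeros on this ball, the lower bound for
`‖g 0‖` is
FL3, the upper bound on the ball is `FlowLe`. -/
def V_CL3 : Prop := ∀ c δ K r : ℝ, 0 < c → 0 < δ → 0 < K → 0 < r →
  FlowLe c univ (fun x => |x| / 2 + c / 16) → (∀ R : ℝ, 1 ≤ R → Low c R) →
  ∃ T₀ : ℝ, 2 ≤ T₀ ∧ ∀ T x v : ℝ, T₀ ≤ T → δ ≤ x → x ≤ K → |v| ≤ 1 / 2 →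
    (∀ w : ℂ, ‖w - (x + v * I)‖ < r → flow (c / Real.log T) (1 / 2 + T * I + w) ≠ 0) →
    xi (1 / 2 + T * I + (x + v * I) + (c / 4 : ℝ)) ≠ 0

/-- FMO (from XIL, MO1, CL3). Proof: `Hyp3 l c c (K + 1)` by XIL and `mu_of_good`. `t = c/log T`, so
`t log T = c`, `sd t T = c/4`, `1/2 + T I + (x + v I) = pt x (T + v)`. First part: if there is no
such `ρ` then `NoZ _ r`, contradiction to MO1. Second part: `p = 1/2 + T I + (x + v I) + c/4` has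
`Im p > 0`, so `ζ p = 0` gives `xi p = 0` (`xi_eq`, `gammaR_ne_zero`); CL3 (`flow_good` gives
`FlowLe`, `low_pos` gives `Low c R` for `R ≥ 1`) gives the zero of the flow. -/
def V_FMO : Prop := ∀ l c : ℝ, 0 < l → GrowthLe l (l / 16) → l < c → GrowthLe c (c / 16) →
  FlowMotion c

/-- HMO. Transfer to `H`. Proof: `H_eq_flow`, and `H t (conj z) = conj (H t z)` (`flow_conj`,
`flow_one_sub` of DBN/ZS.lean: `1/2 + I (conj z)/2 = conj (1 - (1/2 + I z/2))`). First part: we may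
assume `z.im < 0`; `x = -z.im/2`, `v = z.re/2 - T`, `1/2 + I z/2 = 1/2 + T I + (x + v I)`;
`FlowMotion` with `δ/2`, `r/2`, `K`. Second part: `Re ρ < 1`; `x = ρ.re - 1/2 - c/4`, `v = ρ.im -
T`,
`K = 1`; for `w` take `z = 2 T + 2 Im w + 2 i Re w` (`conj z = 2 T - 2 i w`). -/
def V_HMO : Prop := ∀ c : ℝ, 0 < c → FlowMotion c → Motion c

end Pool.Agent.DBC
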