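import Pool.Agent.DBC.Defs4
import Pool.Agent.DBC.Targets2

/-!
# Real zeros of the flow at almost all heights: targets, part A (local copies of DBC2)

Project DBC4 (owner helper11), addition to `MP_4e5e8a_nt.DBNFlow`. One file per target,
`Pool/Agent/DBC/S_X.lean`, `theorem Pool.Agent.DBC.s_X (other targets) : Y_X`, helper lemmas in the
namespace `Pool.Agent.DBC.X4_`. All targets of this file are copies of landed theorems with the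
height `T` restricted to a set `G`: in the proofs `Hyp2` becomes `HypG G` (fields `l0 lc cc K0 xl
xb`), `Ev` becomes `EvG G` (one more hypothesis `T ∈ G` before `T₀ ≤ T`), `XBD` is the field `xb`,
and `OFA_.bound` becomes `Y_BD`.
-/

set_option autoImplicit false

namespace Pool.Agent.DBC

open Complex MeasureTheory Set Filter Topology
open Pool.Agent.DBN

/-- BD. Pointwise bound. Copy of `OFA_.bound` (P_OFA.lean) with `XiG` for `R = K` (there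
`w = y + u + i (τ - T)`, `|w.im| = |τ - T| ≤ K`). -/
def Y_BD : Prop := ∀ (G : Set ℝ) (l κ₀ g₀ K : ℝ), XiG G (mm l) → 0 < κ₀ → 0 < g₀ → 0 < K →
  ∃ C T₀ : ℝ, 0 ≤ C ∧ 2 ≤ T₀ ∧ ∀ t T y τ u B : ℝ, T ∈ G → T₀ ≤ T → 0 < t → |y| ≤ K →
    |τ - T| ≤ K → mm l (y + u) - u ^ 2 / (t * Real.log T) ≤ B - g₀ - κ₀ * u ^ 2 →
    Real.exp (-(u ^ 2 / t)) * ‖xi (pt y τ + u)‖ ≤
      C * (size T * T ^ (B - g₀ / 2)) * Real.exp (-(κ₀ / 4) * u ^ 2)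

/-- NE (from BCL, SDH). Copy of Q_NE2.lean, the field `xb` in place of XBD. -/
def Y_NE : Prop := ∀ (G : Set ℝ) (l c₁ c₂ K : ℝ), HypG G l c₁ c₂ K → ∃ r δ : ℝ, 0 < r ∧
  r < c₁ / 4 ∧ 0 < δ ∧ ∀ ε : ℝ, 0 < ε → EvG G c₁ c₂ K δ (fun t T x τ =>
    size T * T ^ (t * Real.log T / 16 + x / 2 - ε) ≤
      ‖∫ u in Ioo (sd t T - r) (sd t T + r),
        ((Real.exp (-(u ^ 2 / t)) : ℝ) : ℂ) * xi (pt x τ + u)‖)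

/-- OA (from BD, INA). Copy of Q_OA2.lean. -/
def Y_OA : Prop := ∀ (G : Set ℝ) (l c₁ c₂ K r : ℝ), HypG G l c₁ c₂ K → 0 < r →
  ∃ δ g C : ℝ, 0 < δ ∧ 0 < g ∧ 0 ≤ C ∧ EvG G c₁ c₂ K δ (fun t T x τ =>
    ∫ u in Ioi (0 : ℝ) \ Ioo (sd t T - r) (sd t T + r),
      Real.exp (-(u ^ 2 / t)) * ‖xi (pt x τ + u)‖ ≤
        C * (size T * T ^ (t * Real.log T / 16 + x / 2 - g)))

/-- OB (from BD, INB). Copy of Q_OB2.lean. -/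
def Y_OB : Prop := ∀ (G : Set ℝ) (l c₁ c₂ K δ : ℝ), HypG G l c₁ c₂ K → 0 < δ →
  ∃ g C : ℝ, 0 < g ∧ 0 ≤ C ∧ ∃ T₀ : ℝ, 2 ≤ T₀ ∧ ∀ t T x τ : ℝ, T ∈ G → T₀ ≤ T →
    c₁ ≤ t * Real.log T → t * Real.log T ≤ c₂ → δ ≤ x → x ≤ K → |τ - T| ≤ K →
    ‖W t (pt (-x) τ)‖ ≤ C * (size T * T ^ (t * Real.log T / 16 + x / 2 - g))

/-- UP (from BD, INC). Copy of Q_UP2.lean. -/
def Y_UP : Prop := ∀ (G : Set ℝ) (l c₁ c₂ K : ℝ), HypG G l c₁ c₂ K → ∃ δ : ℝ, 0 < δ ∧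
  ∀ ε : ℝ, 0 < ε → EvG G c₁ c₂ K δ (fun t T x τ =>
    ‖W t (pt x τ)‖ ≤ size T * T ^ (t * Real.log T / 16 + x / 2 + ε))

/-- LO (from IGR, NE, OA). Copy of Q_LO2.lean. -/
def Y_LO : Prop := ∀ (G : Set ℝ) (l c₁ c₂ K : ℝ), HypG G l c₁ c₂ K → ∃ δ : ℝ, 0 < δ ∧
  ∀ ε : ℝ, 0 < ε → EvG G c₁ c₂ K δ (fun t T x τ =>
    size T * T ^ (t * Real.log T / 16 + x / 2 - ε) ≤ ‖W t (pt x τ)‖)

/-- GD (from BCL, DER, UP, LO). Copy of Q_GD2.lean. -/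
def Y_GD : Prop := ∀ (G : Set ℝ) (l c₁ c₂ K : ℝ), HypG G l c₁ c₂ K → ∃ δ : ℝ, 0 < δ ∧
  ∀ ε : ℝ, 0 < ε → EvG G c₁ c₂ K δ (fun t T x τ => W t (pt x τ) ≠ 0 ∧
    ‖deriv (W t) (pt x τ) - (Real.log T / 2 : ℝ) * W t (pt x τ)‖ ≤
      ε * Real.log T * ‖W t (pt x τ)‖ ∧
    size T * T ^ (t * Real.log T / 16 + x / 2 - ε) ≤ ‖W t (pt x τ)‖)

/-- CM (from DER, GD, OB). Copy of Q_CM2.lean. -/
def Y_CM : Prop := ∀ (G : Set ℝ) (l c₁ c₂ K : ℝ), HypG G l c₁ c₂ K → ∃ T₀ : ℝ, 2 ≤ T₀ ∧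
  ∀ t T x τ : ℝ, T ∈ G → T₀ ≤ T → c₁ ≤ t * Real.log T → t * Real.log T ≤ c₂ → 0 < x → x ≤ K →
    |τ - T| ≤ K → ‖W t (pt (-x) τ)‖ < ‖W t (pt x τ)‖

/-- ZE (from SPL, CNJ, DER, GD, CM). Copy of Q_ZE2.lean. -/
def Y_ZE : Prop := ∀ (G : Set ℝ) (l c₁ c₂ K : ℝ), HypG G l c₁ c₂ K → ∃ T₀ : ℝ, 2 ≤ T₀ ∧
  ∀ t T x τ : ℝ, T ∈ G → T₀ ≤ T → c₁ ≤ t * Real.log T → t * Real.log T ≤ c₂ → |x| ≤ K →
    |τ - T| ≤ K → flow t (pt x τ) = 0 → x = 0 ∧ deriv (flow t) (pt x τ) ≠ 0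

/-- SP (from SPL, CNJ, DER, GD, ANG). Copy of Q_SP2.lean. -/
def Y_SP : Prop := ∀ (G : Set ℝ) (l c₁ c₂ K : ℝ), HypG G l c₁ c₂ K → ∀ ε : ℝ, 0 < ε →
  ∃ T₀ : ℝ, 2 ≤ T₀ ∧ ∀ t T y : ℝ, T ∈ G → T₀ ≤ T → c₁ ≤ t * Real.log T →
    t * Real.log T ≤ c₂ → |y - T| ≤ K →
    (∀ y' : ℝ, y < y' → flow t (pt 0 y) = 0 → flow t (pt 0 y') = 0 →
      2 * Real.pi - ε ≤ (y' - y) * Real.log T) ∧
    ∃ y' : ℝ, y ≤ y' ∧ (y' - y) * Real.log T ≤ 2 * Real.pi + ε ∧ flow t (pt 0 y') = 0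

/-- HT (from ZE, SP). Copy of Q_HT2.lean (`HypG` is given for every `K`). -/
def Y_HT : Prop := ∀ (G : Set ℝ) (l c₁ c₂ : ℝ), 0 < l → l < c₁ → c₁ ≤ c₂ → XiG G (mm l) →
  XbG G l → ∀ K ε : ℝ, 0 < K → 0 < ε → ∃ T₀ : ℝ, 2 ≤ T₀ ∧ ∀ t T : ℝ, T ∈ G → T₀ ≤ T →
    c₁ ≤ t * Real.log T → t * Real.log T ≤ c₂ → CrysAt K ε t T

end Pool.Agent.DBC
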