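import Pool.Agent.DBC.Defs5
import Pool.Agent.DBC.Targets2

/-!
# Many real simple zeros of `H_t`: targets

Project DBC5 (owner helper11), addition to `MP_4e5e8a_nt.DBNFlow`. One file per target,
`Pool/Agent/DBC/N_X.lean`, `theorem Pool.Agent.DBC.n_X (other targets) : N_X`, helper lemmas in the
namespace `Pool.Agent.DBC.X5_`. The docstrings contain the proofs. `L = log T`.
-/

set_option autoImplicit false

namespace Pool.Agent.DBC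

open Complex MeasureTheory Set Filter Topology
open Pool.Agent.DBN

/-- FG. Counting the real zeros. Proof: let `f T` be the number of points of `Z` in
`[2 T - 1, 2 T + 1]`. For `T ∈ [X + 1, 2 X - 1] \ E`: `f T ≥ m`. Every point of `Z` is in at most a
set of `T` of measure `1`. So `m (X - 2 - V) ≤ ∫_{[X + 1, 2 X - 1] \ E'} f ≤ card Z` (`E'` a
measurable hull of `E`, `toMeasurable`; `f` is a finite sum of indicator functions). -/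
def N_FG : Prop := ∀ (Z : Set ℝ) (E : Set ℝ) (X V m : ℝ), 1 ≤ X → 0 ≤ V → 0 ≤ m → Z.Finite →
  volume E ≤ ENNReal.ofReal V →
  (∀ T : ℝ, X + 1 ≤ T → T ≤ 2 * X - 1 → T ∉ E →
    m ≤ ((Z ∩ Icc (2 * T - 1) (2 * T + 1)).ncard : ℝ)) →
  m * (X - 2 - V) ≤ (Z.ncard : ℝ)

/-- GS. Real zeros in a window at a good height. Proof: `CrysAt 3 ε t T`: starting from
`x = 2 T - 1` the third part gives successive zeros `y₀ < y₁ < ...` with steps at most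
`(4 π + ε)/L + (small)`: given a zero `y < 2 T + 1`, apply the third part at `x = y + d` with
`0 < d`, `d L ≤ ε`, to get the next zero `y' > y`, `(y' - y) L ≤ 4 π + 2 ε`. All of them are simple
(first part with `z = y`). So there are at least `2 L/(4 π + 2 ε) - 1` of them in
`[2 T - 1, 2 T + 1]` (`L ≥ 4 π + 2 ε`; induction on the number). -/
def N_GS : Prop := ∀ ε t T : ℝ, 0 < ε → ε ≤ 1 → 4 * Real.pi + 2 ≤ Real.log T →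
  CrysAt 3 ε t T → ∀ Z : Set ℝ, Z.Finite →
  (∀ x : ℝ, |x - 2 * T| ≤ 1 → H t x = 0 → deriv (H t) x ≠ 0 → x ∈ Z) →
  2 * Real.log T / (4 * Real.pi + 2 * ε) - 1 ≤
    ((Z ∩ Icc (2 * T - 1) (2 * T + 1)).ncard : ℝ)

/-- GC (from FG, GS). Proof: `AlmostAll (c₁/2) (2 c₂)` for `K = 3` and a small `ε' ≤ 1` gives `δ`.
For `T ∈ [X, 2 X]`, `X` large: `c₁/2 ≤ t log T ≤ 2 c₂` (`log X ≤ log T ≤ 2 log X`, `t > 0`).
`E = {T ∈ [X, 2 X] | ¬ CrysAt 3 ε' t T}`, `V = X^(1 - δ)`. `Z` = the set of the `x ∈ [2 X, 4 X]` with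
`H t x = 0`, `deriv (H t) x ≠ 0`: it is finite (otherwise it has an accumulation point, `H t` is
entire (`H_eq_flow`, `differentiable_flow`), so `H t = 0` everywhere and `deriv (H t) x = 0`). GS for
`T ∈ [X + 1, 2 X - 1] \ E` (`2 X ≤ 2 T - 1`, `2 T + 1 ≤ 4 X`), `log T ≥ log X`, FG with
`m = 2 log X/(4 π + 2 ε') - 1`: `m (X - 2 - V) ≥ (1 - ε) X log X/(2 π)` for `ε'` small
(`4 π + 2 ε' ≤ 4 π/(1 - ε/2)`) and `X` large (we may assume `ε < 1`). `F = Z.toFinset`. -/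
def N_GC : Prop := ∀ c₁ c₂ : ℝ, 0 < c₁ → c₁ ≤ c₂ → AlmostAll (c₁ / 2) (2 * c₂) → ManyReal c₁ c₂

/-! ### not used in the theorem (superseded by DBA part 3) -/

/-- NB (from LOC, GAU). The saddle to the right of the line `Re s = 3/2`. Proof: copy of `p_NEA`
(P_NEA.lean; its helper lemmas can be imported) with `δ = 1/4`,
`Re s' = 1/2 + x + c/4 ≥ 1 + δ` because `x ≥ 1`, and `r = min r₀ (min (1/4) (c₁/8))`. -/
def N_NB : Prop := ∀ c₁ c₂ K : ℝ, 0 < c₁ → c₁ ≤ c₂ → 0 < K → ∃ r : ℝ, 0 < r ∧ r < c₁ / 4 ∧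
  ∀ ε : ℝ, 0 < ε → ∃ T₀ : ℝ, 2 ≤ T₀ ∧ ∀ t T x τ : ℝ, T₀ ≤ T → c₁ ≤ t * Real.log T →
    t * Real.log T ≤ c₂ → 1 ≤ x → x ≤ K → |τ - T| ≤ K →
    ‖(∫ u in Ioo (sd t T - r) (sd t T + r),
      ((Real.exp (-(u ^ 2 / t)) : ℝ) : ℂ) * xi (pt x τ + u)) - PP t T (pt x τ)‖ ≤
        ε * ‖PP t T (pt x τ)‖ ∧
    size T * T ^ (t * Real.log T / 16 + x / 2 - ε) ≤ ‖PP t T (pt x τ)‖

/-- NO. Away from the saddle, `x ≥ 2`. Proof: `XiLe (mm 4)` (from `xi_quarter_le` in DBN/ZA.lean: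
`max (|y|/2) (1/4) ≤ mm 4 y`, or from `p_XIL`, `few`, `Λ ≤ 27/10`), `OFA_.bound` (P_OFA.lean, see its
use in Q_OA2.lean and Q_OB2.lean) and the elementary inequalities, first without `κ u²`:
`y = x + u ≥ 2`: `mm 4 y - u²/c = (x + u)/2 - u²/c = c/16 + x/2 - (u - c/4)²/c`; and for
`y = u - x`: if `|y| ≤ 1` then `mm 4 y ≤ 1/2 ≤ x/2 - 1/2`; if `y > 1`: `(u - x)/2 - u²/c ≤
c/16 - x/2`; if `y < -1`: `(x - u)/2 - u²/c ≤ x/2`; so `g₁ = min (r²/c₂) (min (c₁/16) (1/2))`; the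
term `κ u²` as in T_INA (2) (`c' = c + η`). -/
def N_NO : Prop := ∀ c₁ c₂ K r : ℝ, 0 < c₁ → c₁ ≤ c₂ → 2 ≤ K → 0 < r →
  ∃ g C T₀ : ℝ, 0 < g ∧ 0 ≤ C ∧ 2 ≤ T₀ ∧ ∀ t T x τ : ℝ, T₀ ≤ T → c₁ ≤ t * Real.log T →
    t * Real.log T ≤ c₂ → 2 ≤ x → x ≤ K → |τ - T| ≤ K →
    (∫ u in Ioi (0 : ℝ) \ Ioo (sd t T - r) (sd t T + r),
      Real.exp (-(u ^ 2 / t)) * ‖xi (pt x τ + u)‖) ≤
        C * (size T * T ^ (t * Real.log T / 16 + x / 2 - g)) ∧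
    ‖W t (pt (-x) τ)‖ ≤ C * (size T * T ^ (t * Real.log T / 16 + x / 2 - g))

/-- FL (from SPL, CNJ, IGR, NB, NO). Lower bound for the flow far to the right. Proof: as Q_LO2.lean
`‖W t s‖ ≥ ‖PP‖/2 - C size T * T^(.. - g) ≥ size T * T^(c/16 + x/2 - g/2)` for large `T` (NB with
`ε = min (1/4) (g/4)`), `‖W t (1 - s)‖ = ‖W t (pt (-x) τ)‖` (CNJ, see P_ZER.lean), SPL, and
`(√(π t))⁻¹ ≥ 1` for large `T`; `T^(c/16 + x/2 - g/2) (1 - C T^(-g/2)) ≥ 1`, as we may assume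
`g ≤ 1`. -/
def N_FL : Prop := ∀ c₁ c₂ K : ℝ, 0 < c₁ → c₁ ≤ c₂ → 2 ≤ K → ∃ T₀ : ℝ, 2 ≤ T₀ ∧
  ∀ t T x τ : ℝ, T₀ ≤ T → c₁ ≤ t * Real.log T → t * Real.log T ≤ c₂ → 2 ≤ x → x ≤ K →
    |τ - T| ≤ K → size T ≤ ‖flow t (pt x τ)‖

/-- FU (from SPL, CNJ). Upper bound for the flow. Proof: `XiLe (mm 4)` (see NO), `OFA_.bound` with
`l = 4`, `κ₀ = 1/(4 c₂)`, `g₀ = 1`: `mm 4 (x + u) - u²/c ≤ 1 + (K + |u|)... ≤ B - 1 - κ₀ u²` for a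
large constant `B` (`mm 4 y ≤ 1/4 + |y|/2`, `|u|/2 ≤ u²/(2 c₂) + c₂/8`), then the integral over the
half line (as in Q_UP2.lean) gives `‖W t (pt x τ)‖ ≤ size T * T^(B + 1)` for `|x| ≤ K`; SPL,
`W t (1 - s)` as in FL, `(√(π t))⁻¹ ≤ T` for large `T`. -/
def N_FU : Prop := ∀ c₁ c₂ K : ℝ, 0 < c₁ → c₁ ≤ c₂ → 0 < K → ∃ A T₀ : ℝ, 0 < A ∧ 2 ≤ T₀ ∧
  ∀ t T x τ : ℝ, T₀ ≤ T → c₁ ≤ t * Real.log T → t * Real.log T ≤ c₂ → |x| ≤ K →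
    |τ - T| ≤ K → ‖flow t (pt x τ)‖ ≤ size T * T ^ A

/-- JN. Jensen. Proof: induction on `n` or directly: `f z = g z * ∏_{a ∈ S} (z - a)` with `g` entire
(divide by one zero at a time, `dslope`); on `‖z - s‖ = 3 r` we have `‖z - a‖ ≥ 2 r`, so
`‖g‖ ≤ M/(2 r)^n` there and, by the maximum principle, at `s`; `‖g s‖ ≥ m / r^n`. (If some `a = s`
then `f s = 0`, excluded by `0 < m`.) -/
def N_JN : Prop := ∀ (f : ℂ → ℂ) (s : ℂ) (r M m : ℝ), Differentiable ℂ f → 0 < r → 0 < m →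
  (∀ z : ℂ, ‖z - s‖ ≤ 3 * r → ‖f z‖ ≤ M) → m ≤ ‖f s‖ →
  ∀ S : Finset ℂ, (∀ z ∈ S, f z = 0 ∧ ‖z - s‖ ≤ r) → (2 : ℝ) ^ S.card * m ≤ M

/-- WC (from FL, FU, JN). Zeros near `2 T`. Proof: `H t z = flow t (1/2 + I z/2)/8` (`H_eq_flow`,
PhiC). JN for `f = H t`, `s = 2 T - 4 i` (`1/2 + I s/2 = pt 2 T`), `r = K + 4`, `m = size T / 8`,
`M = size T * T^A`: `2^card ≤ 8 T^A`, so `card ≤ (A + 3) log T / log 2`. -/
def N_WC : Prop := ∀ c₁ c₂ K : ℝ, 0 < c₁ → c₁ ≤ c₂ → 0 < K → ∃ C T₀ : ℝ, 0 < C ∧ 2 ≤ T₀ ∧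
  ∀ t T : ℝ, T₀ ≤ T → c₁ ≤ t * Real.log T → t * Real.log T ≤ c₂ → ∀ S : Finset ℂ,
    (∀ z ∈ S, H t z = 0 ∧ ‖z - 2 * T‖ ≤ K) → (S.card : ℝ) ≤ C * Real.log T

/-- FB. A Borel set with few points in unit windows. Proof: let `S` be a finite subset of `B`. The
map `z ↦ ⌊Re z / 2⌋` has fibres of at most `N` elements. Let `I` be its image; for `k ∈ I` choose
`z ∈ S` over `k`; the interval `{T | |2 T - Re z| ≤ 1} ∩ [X, 2 X]` has length at least `1/2` (as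
`2 X ≤ Re z ≤ 4 X`, `X ≥ 1`) and is contained in `E` and in `[k - 1/2, k + 3/2]`, so for the even
`k` these intervals are disjoint: at most `2 vol E` even `k`, and the same for odd `k`. So
`card S ≤ 4 N vol E ≤ 4 N V` for every finite `S`, and `B` is finite. -/
def N_FB : Prop := ∀ (B : Set ℂ) (E : Set ℝ) (X V : ℝ) (N : ℕ), 1 ≤ X → 0 ≤ V →
  (∀ z ∈ B, 2 * X ≤ z.re ∧ z.re ≤ 4 * X) →
  (∀ z ∈ B, ∀ T : ℝ, X ≤ T → T ≤ 2 * X → |2 * T - z.re| ≤ 1 → T ∈ E) →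
  volume E ≤ ENNReal.ofReal V →
  (∀ (k : ℤ) (S : Finset ℂ), (∀ z ∈ S, z ∈ B ∧ ⌊z.re / 2⌋ = k) → S.card ≤ N) →
  B.Finite ∧ (B.ncard : ℝ) ≤ 4 * N * V

end Pool.Agent.DBC
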